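import Mathlib

/-!
# Sums of `1/x` over arithmetic progressions

* `ap_gen`: `S` a finite set of naturals in `[α, β]`, `0 < α ≤ β`, all congruent modulo `m`. Then
  `∑ 1/x ≤ 1/α + log (β/α)/m`. Proof: induction on `S` by its largest element (`Finset.induction_on_max`)
  with the statement for `β = max S`: if `y` is the largest and `x` the second largest
  element, `y ≥ x + m` and `1/y ≤ log (y/x)/m` (`log (y/x) = - log (x/y) ≥ 1 - x/y = (y - x)/y ≥ m/y`). For a
  single element `x ≥ α`: `1/x ≤ 1/α`, `log (x/α) ≥ 0`.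
* `ap_low_gen`: `S = {⌈α⌉ ≤ x ≤ ⌊β⌋, m ∣ x - r}`, `1 ≤ α ≤ β`. Then `∑_{S} 1/x ≥ log (β/(α+m))/m`. If `β < α + m`
  the right side is `≤ 0`. Otherwise `S` contains `x_1 < α + m`, and `x_j = x_1 + (j-1) m` for all
  `j` as long as `x_j ≤ β`; with `k` maximal, `x_k + m > β`, and `1/x_j ≥ log ((x_j+m)/x_j)/m` (`log (1+t) ≤ t`);
  the sum telescopes to `log ((x_k+m)/x_1)/m ≥ log (β/(α+m))/m`.
-/

namespace Pool.Agent.MK47

open Finset

private theorem ap_gen_aux (m : ℕ) (hm : 0 < m) (α : ℝ) (hα : 0 < α) (S : Finset ℕ) :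
    ∀ β : ℝ, α ≤ β → (∀ x ∈ S, α ≤ (x : ℝ) ∧ (x : ℝ) ≤ β) →
    (∀ x ∈ S, ∀ y ∈ S, (m : ℤ) ∣ (x : ℤ) - (y : ℤ)) →
    ∑ x ∈ S, 1 / (x : ℝ) ≤ 1 / α + Real.log (β / α) / m := by
  have hm' : (0 : ℝ) < m := by exact_mod_cast hm
  induction S using Finset.induction_on_max with
  | empty =>
    intro β hαβ _ _
    simp only [Finset.sum_empty]
    have h1 : 0 ≤ Real.log (β / α) := Real.log_nonneg (by rw [le_div_iff₀ hα]; linarith)
    positivity
  | insert y S' hlt ih =>
    intro β hαβ h1 h2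
    have hyn : y ∉ S' := fun h => lt_irrefl _ (hlt y h)
    rw [Finset.sum_insert hyn]
    have hy := h1 y (Finset.mem_insert_self _ _)
    have hy0 : (0 : ℝ) < y := lt_of_lt_of_le hα hy.1
    rcases S'.eq_empty_or_nonempty with h0 | hne
    · subst h0
      simp only [Finset.sum_empty, add_zero]
      have h3 : 1 / (y : ℝ) ≤ 1 / α := one_div_le_one_div_of_le hα hy.1
      have h4 : 0 ≤ Real.log (β / α) := Real.log_nonneg (by rw [le_div_iff₀ hα]; linarith)
      have h5 : 0 ≤ Real.log (β / α) / m := by positivity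
      linarith
    · set x := S'.max' hne with hx
      have hxS : x ∈ S' := Finset.max'_mem _ _
      have hxa := h1 x (Finset.mem_insert_of_mem hxS)
      have hx0 : (0 : ℝ) < x := lt_of_lt_of_le hα hxa.1
      have hI := ih (x : ℝ) hxa.1
        (fun z hz => ⟨(h1 z (Finset.mem_insert_of_mem hz)).1, by
          exact_mod_cast Finset.le_max' _ _ hz⟩)
        (fun z hz w hw => h2 z (Finset.mem_insert_of_mem hz) w (Finset.mem_insert_of_mem hw))
      have hlt' : x < y := hlt x hxS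
      have hdvd := h2 y (Finset.mem_insert_self _ _) x (Finset.mem_insert_of_mem hxS)
      have hge : (m : ℤ) ≤ (y : ℤ) - (x : ℤ) := Int.le_of_dvd (by omega) hdvd
      have hge' : (m : ℝ) ≤ (y : ℝ) - (x : ℝ) := by exact_mod_cast hge
      have hlog : 1 - (x : ℝ) / y ≤ Real.log ((y : ℝ) / x) := by
        have := Real.log_le_sub_one_of_pos (show (0 : ℝ) < (x : ℝ) / y by positivity)
        rw [Real.log_div hx0.ne' hy0.ne'] at this
        rw [Real.log_div hy0.ne' hx0.ne']
        linarith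
      have h6 : 1 / (y : ℝ) ≤ Real.log ((y : ℝ) / x) / m := by
        rw [le_div_iff₀ hm']
        refine le_trans ?_ hlog
        have : 1 / (y : ℝ) * m = m / y := by ring
        rw [this, div_le_iff₀ hy0]
        have : (1 - (x : ℝ) / y) * y = y - x := by field_simp
        rw [this]
        exact hge'
      have h7 : Real.log ((y : ℝ) / x) + Real.log ((x : ℝ) / α) ≤ Real.log (β / α) := by
        rw [Real.log_div hy0.ne' hx0.ne', Real.log_div hx0.ne' hα.ne',
          Real.log_div (by linarith : (0 : ℝ) < β).ne' hα.ne']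
        have := Real.log_le_log hy0 hy.2
        linarith
      have h8 : Real.log ((y : ℝ) / x) / m + Real.log ((x : ℝ) / α) / m ≤
          Real.log (β / α) / m := by
        rw [← add_div]
        exact div_le_div_of_nonneg_right h7 hm'.le
      linarith

theorem ap_gen (m : ℕ) (hm : 0 < m) (α β : ℝ) (hα : 0 < α) (hαβ : α ≤ β) (S : Finset ℕ)
    (h1 : ∀ x ∈ S, α ≤ (x : ℝ) ∧ (x : ℝ) ≤ β)
    (h2 : ∀ x ∈ S, ∀ y ∈ S, (m : ℤ) ∣ (x : ℤ) - (y : ℤ)) :
    ∑ x ∈ S, 1 / (x : ℝ) ≤ 1 / α + Real.log (β / α) / m :=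
  ap_gen_aux m hm α hα S β hαβ h1 h2

theorem ap_low_gen (m : ℕ) (hm : 0 < m) (r : ℤ) (α β : ℝ) (hα : 1 ≤ α) (hαβ : α ≤ β) :
    Real.log (β / (α + m)) / m ≤
      ∑ x ∈ (Icc ⌈α⌉₊ ⌊β⌋₊).filter (fun x : ℕ => (m : ℤ) ∣ (x : ℤ) - r), 1 / (x : ℝ) := by
  have hm' : (0 : ℝ) < m := by exact_mod_cast hm
  have hβ : (0 : ℝ) < β := by linarith
  rcases lt_or_ge β (α + m) with hlt | hge
  · have h1 : Real.log (β / (α + m)) ≤ 0 := by
      apply Real.log_nonpos
      · positivity
      · rw [div_le_one (by linarith)]; exact hlt.le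
    have h2 : Real.log (β / (α + m)) / m ≤ 0 := div_nonpos_of_nonpos_of_nonneg h1 hm'.le
    refine le_trans h2 (Finset.sum_nonneg fun x _ => by positivity)
  · -- the first element
    set c : ℕ := ⌈α⌉₊ with hc
    have hcα : α ≤ (c : ℝ) := Nat.le_ceil α
    have hcα' : (c : ℝ) < α + 1 := Nat.ceil_lt_add_one (by linarith)
    set e : ℕ := ((r - (c : ℤ)) % (m : ℤ)).toNat with he
    have hmz : (0 : ℤ) < (m : ℤ) := by exact_mod_cast hm
    have he0 : 0 ≤ (r - (c : ℤ)) % (m : ℤ) := Int.emod_nonneg _ hmz.ne'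
    have he1 : (r - (c : ℤ)) % (m : ℤ) < m := Int.emod_lt_of_pos _ hmz
    have heq : (e : ℤ) = (r - (c : ℤ)) % (m : ℤ) := Int.toNat_of_nonneg he0
    have hem : e < m := by
      have : (e : ℤ) < m := by rw [heq]; exact he1
      exact_mod_cast this
    set x1 : ℕ := c + e with hx1
    have hx1d : (m : ℤ) ∣ (x1 : ℤ) - r := by
      have h3 : (m : ℤ) ∣ (r - (c : ℤ)) - (e : ℤ) := by
        rw [heq]; exact Int.dvd_self_sub_emod
      have : (x1 : ℤ) - r = -((r - (c : ℤ)) - (e : ℤ)) := by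
        rw [hx1]; push_cast; ring
      rw [this]
      exact (dvd_neg).mpr h3
    have hx1lo : α ≤ (x1 : ℝ) := by
      rw [hx1]; push_cast
      have : (0 : ℝ) ≤ e := Nat.cast_nonneg _
      linarith
    have hx1hi : (x1 : ℝ) < α + m := by
      rw [hx1]; push_cast
      have : (e : ℝ) + 1 ≤ m := by exact_mod_cast hem
      linarith
    have hx1pos : (0 : ℝ) < x1 := by linarith
    set K : ℕ := ⌊(β - x1) / m⌋₊ with hK
    have hKle : (K : ℝ) ≤ (β - x1) / m := Nat.floor_le (by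
      apply div_nonneg _ hm'.le
      linarith)
    have hKlt : (β - x1) / m < (K : ℝ) + 1 := Nat.lt_floor_add_one _
    have hKle' : (x1 : ℝ) + K * m ≤ β := by
      rw [le_div_iff₀ hm'] at hKle; linarith
    have hKlt' : β < (x1 : ℝ) + (K + 1) * m := by
      rw [div_lt_iff₀ hm'] at hKlt; linarith
    have hinj : Function.Injective (fun j : ℕ => x1 + j * m) := by
      intro i j hij
      have : i * m = j * m := by simpa using hij
      exact Nat.eq_of_mul_eq_mul_right hm this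
    have hsub : (Finset.range (K + 1)).image (fun j : ℕ => x1 + j * m) ⊆
        (Icc ⌈α⌉₊ ⌊β⌋₊).filter (fun x : ℕ => (m : ℤ) ∣ (x : ℤ) - r) := by
      intro x hx
      rw [Finset.mem_image] at hx
      obtain ⟨j, hj, rfl⟩ := hx
      rw [Finset.mem_range] at hj
      have hjK : (j : ℝ) ≤ K := by exact_mod_cast Nat.lt_succ_iff.mp hj
      rw [Finset.mem_filter, Finset.mem_Icc]
      refine ⟨⟨?_, ?_⟩, ?_⟩
      · show c ≤ c + e + j * m
        exact le_trans (Nat.le_add_right c e) (Nat.le_add_right _ _)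
      · apply Nat.le_floor
        push_cast
        have : (j : ℝ) * m ≤ K * m := mul_le_mul_of_nonneg_right hjK hm'.le
        linarith
      · have : ((x1 + j * m : ℕ) : ℤ) - r = ((x1 : ℤ) - r) + j * m := by push_cast; ring
        rw [this]
        exact dvd_add hx1d (Dvd.intro_left _ rfl)
    have hsum : ∑ j ∈ Finset.range (K + 1), 1 / ((x1 + j * m : ℕ) : ℝ) ≤
        ∑ x ∈ (Icc ⌈α⌉₊ ⌊β⌋₊).filter (fun x : ℕ => (m : ℤ) ∣ (x : ℤ) - r), 1 / (x : ℝ) := by
      rw [← Finset.sum_image (f := fun x : ℕ => 1 / (x : ℝ)) (g := fun j : ℕ => x1 + j * m)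
        (fun i _ j _ hij => hinj hij)]
      exact Finset.sum_le_sum_of_subset_of_nonneg hsub fun x _ _ => by positivity
    refine le_trans ?_ hsum
    have hterm : ∀ j : ℕ, (Real.log ((x1 : ℝ) + ((j + 1 : ℕ) : ℝ) * m) -
        Real.log ((x1 : ℝ) + (j : ℝ) * m)) / m ≤ 1 / ((x1 + j * m : ℕ) : ℝ) := by
      intro j
      have hp : (0 : ℝ) < (x1 : ℝ) + (j : ℝ) * m := by positivity
      have hp' : (0 : ℝ) < (x1 : ℝ) + ((j + 1 : ℕ) : ℝ) * m := by positivity
      rw [← Real.log_div hp'.ne' hp.ne']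
      have h9 := Real.log_le_sub_one_of_pos (div_pos hp' hp)
      have h10 : ((x1 : ℝ) + ((j + 1 : ℕ) : ℝ) * m) / ((x1 : ℝ) + (j : ℝ) * m) - 1 =
          m / ((x1 : ℝ) + (j : ℝ) * m) := by
        rw [div_sub_one hp.ne']
        congr 1
        push_cast
        ring
      rw [h10] at h9
      rw [div_le_iff₀ hm']
      refine le_trans h9 (le_of_eq ?_)
      push_cast
      ring
    have htel : ∑ j ∈ Finset.range (K + 1), (Real.log ((x1 : ℝ) + ((j + 1 : ℕ) : ℝ) * m) -
        Real.log ((x1 : ℝ) + (j : ℝ) * m)) / m =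
        (Real.log ((x1 : ℝ) + ((K + 1 : ℕ) : ℝ) * m) - Real.log (x1 : ℝ)) / m := by
      rw [← Finset.sum_div, Finset.sum_range_sub (fun j : ℕ => Real.log ((x1 : ℝ) + (j : ℝ) * m))]
      simp
    refine le_trans ?_ (Finset.sum_le_sum fun j _ => hterm j)
    rw [htel]
    apply div_le_div_of_nonneg_right _ hm'.le
    rw [Real.log_div hβ.ne' (by linarith : (0 : ℝ) < α + m).ne']
    have h11 : Real.log β ≤ Real.log ((x1 : ℝ) + ((K + 1 : ℕ) : ℝ) * m) := by
      apply Real.log_le_log hβ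
      push_cast
      linarith
    have h12 : Real.log (x1 : ℝ) ≤ Real.log (α + m) := Real.log_le_log hx1pos hx1hi.le
    linarith

end Pool.Agent.MK47
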