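import Pool.Agent.MK47.Ell

/-!
# Sizes of the parameters

Write `ℓ = ell N`, `S = √N = exp (ℓ^10 / 2)` (`Ell.lean`), `t = a x`; recall `ℓ → ∞`
(`ell_tendsto`), so every inequality between elementary functions of `ℓ` that holds for large `ℓ`
holds for all large `N`.

* `mem_XX`: unfold `XX`, `Nat.ceil_le`, `Nat.le_floor_iff`.
* `x_large`: `exp (2 ℓ / 3) → ∞`.
* `size_LL`: `LL N = ⌊S exp (-3ℓ)⌋₊ ≤ S exp (-3ℓ)`, and `≥ S exp (-3ℓ) - 1 ≥ S exp (-3ℓ) / 2` as soon as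
  `S exp (-3 ℓ) = exp (ℓ^10/2 - 3ℓ) ≥ 2`.
* `size_Y`: `Y = ⌊S / t^(3/4)⌋₊`, `exp (2ℓ/3) ≤ x ≤ t ≤ a exp ℓ`.
  (1) `t Y ≥ t (S / t^(3/4) - 1) = S t^(1/4) - t ≥ S exp (ℓ/6) - a exp ℓ ≥ S exp (ℓ/10)`.
  (2) `3 t Y ≤ 3 S t^(1/4) ≤ 3 a^(1/4) S exp (ℓ/4) ≤ S exp (ℓ/2)`.
  (3) `Y ≥ S / (a^(3/4) exp (3ℓ/4)) - 1 ≥ S exp (-ℓ)`.
  (4) `Y ≤ S / t^(3/4) ≤ S / exp (ℓ/2)`.
  (5) `Y^2 ≤ (S / t^(3/4))^2 = N / t^(3/2)`.
* `size_u`: for `Y ≤ s ≤ 3 Y` and `v = uu a x s (± N)`: the radicand is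
  `(t^2 - 4) s^2 ± 4 N - 4 x^2`. Put `T = t s ≥ t Y ≥ S exp (ℓ/10)`. Then
  `4 s^2 = T^2 * (4 / t^2) ≤ T^2 * 4 exp (-4ℓ/3)`, `4 N ≤ T^2 * 4 exp (-ℓ/5)`,
  `4 x^2 ≤ 4 exp (2ℓ) ≤ T^2 * 4 exp (2ℓ) / N`. All three factors tend to `0`, so the radicand of
  `uu a x s (-N)` is at least `(1 - ε') T^2` and the one of `uu a x s N` at most `(1 + ε') T^2`,
  with `ε' = min ε 1`; as `(1 - ε')² ≤ 1 - ε'` and `1 + ε' ≤ (1 + ε')²`, take square roots
  (`Real.le_sqrt`, `Real.sqrt_le_iff`). If `ε > 1` the lower bound is trivial since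
  `(1 - ε) T ≤ 0 ≤ uu`.
-/

namespace Pool.Agent.MK47

open Finset Filter

theorem mem_XX {c : Cls} {N x : ℕ} (h : x ∈ XX c N) :
    Real.exp (2 / 3 * ell N) ≤ x ∧ (x : ℝ) ≤ Real.exp (ell N) ∧ (c.Q : ℤ) ∣ (x : ℤ) - c.x0 := by
  unfold XX at h
  rw [mem_filter, mem_Icc] at h
  obtain ⟨⟨h1, h2⟩, h3⟩ := h
  exact ⟨Nat.ceil_le.1 h1, (Nat.le_floor_iff (Real.exp_pos _).le).1 h2, h3⟩

theorem x_large (M : ℝ) : ∀ᶠ N : ℕ in atTop, ∀ x : ℕ, Real.exp (2 / 3 * ell N) ≤ x → M ≤ (x : ℝ) := by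
  have h := ell_tendsto.eventually (eventually_ge_atTop (3 / 2 * M))
  filter_upwards [h] with N hN x hx
  have h1 := Real.add_one_le_exp (2 / 3 * ell N)
  linarith

private theorem ell_big : ∀ᶠ N : ℕ in atTop, 1 ≤ N ∧ 1000 ≤ ell N := by
  filter_upwards [ell_tendsto.eventually (eventually_ge_atTop 1000), eventually_ge_atTop 1] with N h1 h2
  exact ⟨h2, h1⟩

private theorem pow_big {l : ℝ} (hl : 1000 ≤ l) : 10 * l ≤ l ^ 10 / 2 := by
  have h1 : (1 : ℝ) ≤ l := by linarith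
  have h2 : l ^ 2 ≤ l ^ 10 := pow_le_pow_right₀ h1 (by norm_num)
  nlinarith

theorem size_LL : ∀ᶠ N : ℕ in atTop, 1 ≤ LL N ∧
    Real.sqrt N * Real.exp (-3 * ell N) / 2 ≤ (LL N : ℝ) ∧
    (LL N : ℝ) ≤ Real.sqrt N * Real.exp (-3 * ell N) := by
  filter_upwards [ell_big] with N hN
  obtain ⟨hN1, hl⟩ := hN
  have hp := pow_big hl
  set y : ℝ := Real.sqrt N * Real.exp (-3 * ell N) with hy
  have hyval : y = Real.exp (ell N ^ 10 / 2 + -3 * ell N) := by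
    rw [hy, sqrt_ell N hN1, ← Real.exp_add]
  have hy2 : 2 ≤ y := by
    rw [hyval]
    have h1 := Real.add_one_le_exp (ell N ^ 10 / 2 + -3 * ell N)
    linarith
  have hLL : LL N = ⌊y⌋₊ := rfl
  have h0 : 0 ≤ y := by linarith
  have h1 : y < (⌊y⌋₊ : ℝ) + 1 := Nat.lt_floor_add_one y
  have h2 : (⌊y⌋₊ : ℝ) ≤ y := Nat.floor_le h0
  refine ⟨?_, ?_, ?_⟩
  · rw [hLL]
    exact Nat.le_floor (by push_cast; linarith)
  · rw [hLL]
    linarith
  · rw [hLL]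
    exact h2

private theorem a_small (a : ℕ) : ∀ᶠ N : ℕ in atTop, (a : ℝ) ≤ Real.exp (ell N / 100) := by
  filter_upwards [ell_tendsto.eventually (eventually_ge_atTop (100 * (a : ℝ)))] with N h
  have h1 := Real.add_one_le_exp (ell N / 100)
  linarith

private theorem exp_two {z : ℝ} (hz : 1 ≤ z) : 2 ≤ Real.exp z := by
  have := Real.add_one_le_exp z
  linarith

theorem size_Y (a : ℕ) (ha : 0 < a) : ∀ᶠ N : ℕ in atTop, ∀ x : ℕ,
    Real.exp (2 / 3 * ell N) ≤ x → (x : ℝ) ≤ Real.exp (ell N) →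
    Real.sqrt N * Real.exp (ell N / 10) ≤ (a : ℝ) * x * YY a N x ∧
    3 * ((a : ℝ) * x * YY a N x) ≤ Real.sqrt N * Real.exp (ell N / 2) ∧
    Real.sqrt N * Real.exp (-ell N) ≤ (YY a N x : ℝ) ∧
    (YY a N x : ℝ) ≤ Real.sqrt N * Real.exp (-ell N / 2) ∧
    (YY a N x : ℝ) ^ 2 ≤ N / ((a : ℝ) * x) ^ ((3 : ℝ) / 2) := by
  filter_upwards [ell_big, a_small a] with N hN haN x hx1 hx2
  obtain ⟨hN1, hl⟩ := hN
  have hp := pow_big hl
  set l := ell N with hldef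
  have ha1 : (1 : ℝ) ≤ a := by exact_mod_cast ha
  have hx0 : (0 : ℝ) < x := lt_of_lt_of_le (Real.exp_pos _) hx1
  set t : ℝ := (a : ℝ) * x with ht
  have ht0 : 0 < t := by positivity
  set τ := Real.log t with hτ
  have htτ : t = Real.exp τ := (Real.exp_log ht0).symm
  have hτ1 : 2 / 3 * l ≤ τ := by
    rw [hτ, Real.le_log_iff_exp_le ht0, ht]
    nlinarith
  have hτ2 : τ ≤ l + l / 100 := by
    rw [hτ, Real.log_le_iff_le_exp ht0, ht, Real.exp_add, mul_comm]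
    exact mul_le_mul hx2 haN (by positivity) (Real.exp_pos _).le
  set σ := l ^ 10 / 2 with hσ
  have hS : Real.sqrt N = Real.exp σ := sqrt_ell N hN1
  have hpow : ∀ e : ℝ, t ^ e = Real.exp (τ * e) := by
    intro e
    rw [Real.rpow_def_of_pos ht0]
  set y : ℝ := Real.sqrt N / t ^ ((3 : ℝ) / 4) with hy
  have hyval : y = Real.exp (σ - τ * (3 / 4)) := by
    rw [hy, hS, hpow, Real.exp_sub]
  have hY : YY a N x = ⌊y⌋₊ := rfl
  have hy0 : 0 ≤ y := by rw [hyval]; exact (Real.exp_pos _).le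
  have hy2 : 2 ≤ y := by
    rw [hyval]
    apply exp_two
    linarith
  have hf1 : y < (⌊y⌋₊ : ℝ) + 1 := Nat.lt_floor_add_one y
  have hf2 : (⌊y⌋₊ : ℝ) ≤ y := Nat.floor_le hy0
  have hf3 : y / 2 ≤ (⌊y⌋₊ : ℝ) := by linarith
  have hty : t * y = Real.exp (σ + τ * (1 / 4)) := by
    rw [htτ, hyval, ← Real.exp_add]
    congr 1
    ring
  rw [hY, hS]
  refine ⟨?_, ?_, ?_, ?_, ?_⟩
  · have h1 : t * (y / 2) ≤ t * (⌊y⌋₊ : ℝ) := mul_le_mul_of_nonneg_left hf3 ht0.le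
    refine le_trans ?_ h1
    have h2 : t * (y / 2) = Real.exp (σ + τ * (1 / 4)) / 2 := by rw [← hty]; ring
    rw [h2, le_div_iff₀ (by norm_num), ← Real.exp_add]
    have h3 : Real.exp (σ + τ * (1 / 4)) =
        Real.exp (σ + l / 10) * Real.exp (τ * (1 / 4) - l / 10) := by
      rw [← Real.exp_add]
      congr 1
      ring
    rw [h3]
    exact mul_le_mul_of_nonneg_left (exp_two (by linarith)) (Real.exp_pos _).le
  · have h1 : t * (⌊y⌋₊ : ℝ) ≤ t * y := mul_le_mul_of_nonneg_left hf2 ht0.le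
    have h3 : Real.exp σ * Real.exp (l / 2) =
        Real.exp (σ + τ * (1 / 4)) * Real.exp (l / 2 - τ * (1 / 4)) := by
      rw [← Real.exp_add, ← Real.exp_add]
      congr 1
      ring
    have h4 : (3 : ℝ) ≤ Real.exp (l / 2 - τ * (1 / 4)) := by
      have := Real.add_one_le_exp (l / 2 - τ * (1 / 4))
      linarith
    rw [h3]
    have h5 : 0 < Real.exp (σ + τ * (1 / 4)) := Real.exp_pos _
    rw [hty] at h1
    nlinarith
  · refine le_trans ?_ hf3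
    rw [le_div_iff₀ (by norm_num), ← Real.exp_add, hyval]
    have h3 : Real.exp (σ - τ * (3 / 4)) =
        Real.exp (σ + -l) * Real.exp (l - τ * (3 / 4)) := by
      rw [← Real.exp_add]
      congr 1
      ring
    rw [h3]
    exact mul_le_mul_of_nonneg_left (exp_two (by linarith)) (Real.exp_pos _).le
  · refine le_trans hf2 ?_
    rw [hyval, ← Real.exp_add]
    apply Real.exp_le_exp.2
    linarith
  · have h1 : (⌊y⌋₊ : ℝ) ^ 2 ≤ y ^ 2 := pow_le_pow_left₀ (Nat.cast_nonneg _) hf2 2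
    refine le_trans h1 (le_of_eq ?_)
    rw [hyval, hpow, ← exp_ell N hN1, ← Real.exp_sub, ← Real.exp_nat_mul]
    congr 1
    rw [hσ]
    push_cast
    ring

theorem size_u (a : ℕ) (ha : 0 < a) (ε : ℝ) (hε : 0 < ε) : ∀ᶠ N : ℕ in atTop, ∀ x : ℕ,
    Real.exp (2 / 3 * ell N) ≤ x → (x : ℝ) ≤ Real.exp (ell N) →
    ∀ s : ℝ, (YY a N x : ℝ) ≤ s → s ≤ 3 * (YY a N x : ℝ) →
    (1 - ε) * ((a : ℝ) * x * s) ≤ uu a x s (-N) ∧ uu a x s N ≤ (1 + ε) * ((a : ℝ) * x * s) := by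
  have hsm : ∀ᶠ N : ℕ in atTop, 12 * Real.exp (-(ell N / 5)) ≤ ε := by
    filter_upwards [ell_tendsto.eventually (eventually_ge_atTop (60 / ε))] with N h
    have h1 := Real.add_one_le_exp (ell N / 5)
    have h2 : 12 / ε ≤ Real.exp (ell N / 5) := by
      have h3 : 12 / ε = (60 / ε) / 5 := by ring
      rw [h3]
      linarith
    rw [Real.exp_neg, ← div_eq_mul_inv, div_le_iff₀ (Real.exp_pos _)]
    rw [div_le_iff₀ hε] at h2
    linarith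
  filter_upwards [ell_big, size_Y a ha, hsm] with N hN hYY hsmN x hx1 hx2 s hs1 hs2
  obtain ⟨hN1, hl⟩ := hN
  obtain ⟨hY1, _, _, _, _⟩ := hYY x hx1 hx2
  have hp := pow_big hl
  set l := ell N with hldef
  have ha1 : (1 : ℝ) ≤ a := by exact_mod_cast ha
  have hx0 : (0 : ℝ) < x := lt_of_lt_of_le (Real.exp_pos _) hx1
  set t : ℝ := (a : ℝ) * x with ht
  have ht0 : 0 < t := by positivity
  have ht1 : Real.exp (2 / 3 * l) ≤ t := by
    rw [ht]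
    nlinarith
  have hs0 : 0 ≤ s := le_trans (Nat.cast_nonneg _) hs1
  set T : ℝ := t * s with hT
  have hT0 : 0 ≤ T := mul_nonneg ht0.le hs0
  -- lower bound of `T`
  have hT1 : Real.sqrt N * Real.exp (l / 10) ≤ T :=
    le_trans hY1 (mul_le_mul_of_nonneg_left hs1 ht0.le)
  set E := Real.exp (-(l / 5)) with hE
  have hE0 : 0 < E := Real.exp_pos _
  have hNE : (N : ℝ) ≤ E * T ^ 2 := by
    have h1 : (Real.sqrt N * Real.exp (l / 10)) ^ 2 ≤ T ^ 2 :=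
      pow_le_pow_left₀ (by positivity) hT1 2
    rw [mul_pow, Real.sq_sqrt (Nat.cast_nonneg N)] at h1
    have h2 : E * Real.exp (l / 10) ^ 2 = 1 := by
      rw [hE, ← Real.exp_nat_mul, ← Real.exp_add]
      have : -(l / 5) + ((2 : ℕ) : ℝ) * (l / 10) = 0 := by push_cast; ring
      rw [this, Real.exp_zero]
    calc (N : ℝ) = E * ((N : ℝ) * Real.exp (l / 10) ^ 2) := by
          rw [mul_left_comm, h2, mul_one]
      _ ≤ E * T ^ 2 := mul_le_mul_of_nonneg_left h1 hE0.le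
  have hxN : (x : ℝ) ^ 2 ≤ N := by
    have h1 : (x : ℝ) ^ 2 ≤ Real.exp l ^ 2 := pow_le_pow_left₀ hx0.le hx2 2
    refine le_trans h1 ?_
    rw [← exp_ell N hN1, ← Real.exp_nat_mul]
    apply Real.exp_le_exp.2
    push_cast
    linarith
  have hsT : s ^ 2 ≤ E * T ^ 2 := by
    have h1 : 1 ≤ E * t ^ 2 := by
      have h2 : Real.exp (2 / 3 * l) ^ 2 ≤ t ^ 2 := pow_le_pow_left₀ (Real.exp_pos _).le ht1 2
      have h3 : 1 ≤ E * Real.exp (2 / 3 * l) ^ 2 := by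
        rw [hE, ← Real.exp_nat_mul, ← Real.exp_add]
        apply Real.one_le_exp
        push_cast
        linarith
      exact le_trans h3 (mul_le_mul_of_nonneg_left h2 hE0.le)
    calc s ^ 2 = 1 * s ^ 2 := by ring
      _ ≤ (E * t ^ 2) * s ^ 2 := mul_le_mul_of_nonneg_right h1 (sq_nonneg s)
      _ = E * T ^ 2 := by rw [hT]; ring
  have hT2 : 0 ≤ T ^ 2 := sq_nonneg T
  have hET : 12 * (E * T ^ 2) ≤ ε * T ^ 2 := by
    rw [← mul_assoc]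
    exact mul_le_mul_of_nonneg_right hsmN hT2
  have hrad : ∀ r : ℝ, ((a : ℝ) ^ 2 * (x : ℝ) ^ 2 - 4) * s ^ 2 + 4 * r - 4 * (x : ℝ) ^ 2 =
      T ^ 2 - 4 * s ^ 2 + 4 * r - 4 * (x : ℝ) ^ 2 := by
    intro r
    rw [hT, ht]
    ring
  constructor
  · unfold uu
    rw [hrad]
    by_cases h1 : 1 ≤ ε
    · have h2 : (1 - ε) * T ≤ 0 := mul_nonpos_of_nonpos_of_nonneg (by linarith) hT0
      exact le_trans h2 (Real.sqrt_nonneg _)
    · push Not at h1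
      apply Real.le_sqrt_of_sq_le
      have h3 : ((1 - ε) * T) ^ 2 = (1 - ε) ^ 2 * T ^ 2 := by ring
      rw [h3]
      have h4 : (1 - ε) ^ 2 ≤ 1 - ε := by nlinarith
      have h5 : (1 - ε) ^ 2 * T ^ 2 ≤ (1 - ε) * T ^ 2 := mul_le_mul_of_nonneg_right h4 hT2
      linarith
  · unfold uu
    rw [hrad]
    apply Real.sqrt_le_iff.2
    refine ⟨mul_nonneg (by linarith) hT0, ?_⟩
    have h3 : ((1 + ε) * T) ^ 2 = (1 + ε) ^ 2 * T ^ 2 := by ring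
    rw [h3]
    have h4 : 1 + 2 * ε ≤ (1 + ε) ^ 2 := by nlinarith
    have h5 : (1 + 2 * ε) * T ^ 2 ≤ (1 + ε) ^ 2 * T ^ 2 := mul_le_mul_of_nonneg_right h4 hT2
    have h6 : 0 ≤ s ^ 2 := sq_nonneg s
    have h7 : 0 ≤ (x : ℝ) ^ 2 := sq_nonneg _
    nlinarith

end Pool.Agent.MK47
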