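import Pool.Agent.MK47.ApGen
import Pool.Agent.MK47.Size

/-!
# Sums of `1/x` over `XX`

* `rough_cop`: if `c.Full P0` and `d` is rough (all primes dividing `d` are `> P0`), `d ≠ 0`, then `d` is
  coprime to `Q = 2 (g g h)`: a common prime `p` divides `2`, `g` or `h`, so `h` (`c.two_h`, `c.rad`), so
  `p ≤ P0`.
* `ap_sum`: `d` coprime to `Q`: the `x ∈ XX` with `d ∣ x - r` are congruent modulo `d Q` and lie in
  `[exp (2ℓ/3), exp ℓ]`; `ap_gen` with `m = d Q`: `∑ ≤ exp (-2ℓ/3) + (ℓ/3)/(d Q)`.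
* `ap_low`: `ap_low_gen` with `m = Q`, `r = x0`, `α = exp (2ℓ/3)`, `β = exp ℓ`:
  `SX ≥ (ℓ - log (exp (2ℓ/3) + Q))/Q ≥ (ℓ/3 - log 2)/Q` once `exp (2ℓ/3) ≥ Q`, so
  `SX ≥ (1 - ε) ℓ/(3 Q)` for large `N`.
* `SX_up`: `SX ≤ exp (-2ℓ/3) + (ℓ+1)/Q` is `ap_sum` with `d = 1`.
-/

namespace Pool.Agent.MK47

open Finset Filter

theorem rough_cop (c : Cls) (P0 : ℕ) (hc : c.Full P0) (d : ℕ) (hd : d ≠ 0) (h : Rough P0 d) :
    d.Coprime c.Q := by
  by_contra hcon
  rw [Nat.Prime.not_coprime_iff_dvd] at hcon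
  obtain ⟨p, hp, hpd, hpQ⟩ := hcon
  have h1 : P0 < p := h p hp hpd
  have h2 : p ∣ c.h := by
    unfold Cls.Q at hpQ
    rcases (Nat.Prime.dvd_mul hp).mp hpQ with h3 | h3
    · exact dvd_trans h3 c.two_h
    · rcases (Nat.Prime.dvd_mul hp).mp h3 with h4 | h4
      · rcases (Nat.Prime.dvd_mul hp).mp h4 with h5 | h5
        · exact c.rad p hp h5
        · exact c.rad p hp h5
      · exact h4
  exact absurd ((hc p hp).mp h2) (not_le.mpr h1)

private theorem Q_pos (c : Cls) : 0 < c.Q := by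
  have h1 := c.g_pos
  have h2 := c.h_pos
  unfold Cls.Q
  positivity

private theorem log_ratio (t : ℝ) : Real.log (Real.exp t / Real.exp (2 / 3 * t)) = t / 3 := by
  rw [← Real.exp_sub, Real.log_exp]
  ring

theorem ap_sum (c : Cls) (N d : ℕ) (hd : 0 < d) (h : d.Coprime c.Q) (r : ℤ) :
    ∑ x ∈ (XX c N).filter (fun x : ℕ => (d : ℤ) ∣ (x : ℤ) - r), 1 / (x : ℝ) ≤
      Real.exp (-(2 / 3) * ell N) + (ell N + 1) / ((d : ℝ) * c.Q) := by
  have hell := ell_nonneg N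
  have hQ := Q_pos c
  have hd' : (0 : ℝ) < d := by exact_mod_cast hd
  have hQ' : (0 : ℝ) < c.Q := by exact_mod_cast hQ
  have hmain := ap_gen (d * c.Q) (by positivity) (Real.exp (2 / 3 * ell N)) (Real.exp (ell N))
    (Real.exp_pos _) (Real.exp_le_exp.mpr (by linarith))
    ((XX c N).filter (fun x : ℕ => (d : ℤ) ∣ (x : ℤ) - r))
    (by
      intro x hx
      rw [Finset.mem_filter] at hx
      have h1 := mem_XX hx.1
      exact ⟨h1.1, h1.2.1⟩)
    (by
      intro x hx y hy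
      rw [Finset.mem_filter] at hx hy
      have hx1 := (mem_XX hx.1).2.2
      have hy1 := (mem_XX hy.1).2.2
      have h1 : (d : ℤ) ∣ (x : ℤ) - y := by
        have : (x : ℤ) - y = (x - r) - (y - r) := by ring
        rw [this]; exact dvd_sub hx.2 hy.2
      have h2 : (c.Q : ℤ) ∣ (x : ℤ) - y := by
        have : (x : ℤ) - y = (x - c.x0) - (y - c.x0) := by ring
        rw [this]; exact dvd_sub hx1 hy1
      push_cast
      exact IsCoprime.mul_dvd (Nat.isCoprime_iff_coprime.mpr h) h1 h2)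
  rw [log_ratio] at hmain
  refine le_trans hmain ?_
  have h1 : 1 / Real.exp (2 / 3 * ell N) = Real.exp (-(2 / 3) * ell N) := by
    rw [one_div, ← Real.exp_neg]
    congr 1
    ring
  rw [h1]
  push_cast
  have h2 : ell N / 3 / ((d : ℝ) * c.Q) ≤ (ell N + 1) / ((d : ℝ) * c.Q) :=
    div_le_div_of_nonneg_right (by linarith) (by positivity)
  linarith

theorem ap_low (c : Cls) (ε : ℝ) (hε : 0 < ε) : ∀ᶠ N : ℕ in atTop,
    (1 - ε) * (ell N / (3 * c.Q)) ≤ SX c N := by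
  have hQ := Q_pos c
  have hQ' : (0 : ℝ) < c.Q := by exact_mod_cast hQ
  have h1 : ∀ᶠ N : ℕ in atTop, (c.Q : ℝ) ≤ Real.exp (2 / 3 * ell N) := by
    have : Tendsto (fun N : ℕ => Real.exp (2 / 3 * ell N)) atTop atTop :=
      Real.tendsto_exp_atTop.comp (ell_tendsto.const_mul_atTop (by norm_num))
    exact this.eventually_ge_atTop _
  have h2 : ∀ᶠ N : ℕ in atTop, 3 * Real.log 2 / ε ≤ ell N := ell_tendsto.eventually_ge_atTop _
  filter_upwards [h1, h2] with N hN1 hN2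
  have hell := ell_nonneg N
  have hα : (1 : ℝ) ≤ Real.exp (2 / 3 * ell N) := Real.one_le_exp (by linarith)
  have hαβ : Real.exp (2 / 3 * ell N) ≤ Real.exp (ell N) := Real.exp_le_exp.mpr (by linarith)
  have hmain := ap_low_gen c.Q hQ c.x0 (Real.exp (2 / 3 * ell N)) (Real.exp (ell N)) hα hαβ
  have hSX : SX c N = ∑ x ∈ (Icc ⌈Real.exp (2 / 3 * ell N)⌉₊ ⌊Real.exp (ell N)⌋₊).filter
      (fun x : ℕ => (c.Q : ℤ) ∣ (x : ℤ) - c.x0), 1 / (x : ℝ) := rfl
  rw [hSX]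
  refine le_trans ?_ hmain
  have h3 : ell N / 3 - Real.log 2 ≤
      Real.log (Real.exp (ell N) / (Real.exp (2 / 3 * ell N) + c.Q)) := by
    have h4 : Real.exp (2 / 3 * ell N) + c.Q ≤ 2 * Real.exp (2 / 3 * ell N) := by linarith
    have h5 : (0 : ℝ) < Real.exp (2 / 3 * ell N) + c.Q := by positivity
    rw [Real.log_div (Real.exp_pos _).ne' h5.ne', Real.log_exp]
    have h6 := Real.log_le_log h5 h4
    rw [Real.log_mul (by norm_num) (Real.exp_pos _).ne', Real.log_exp] at h6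
    linarith
  have h4 : (1 - ε) * (ell N / (3 * c.Q)) = ((1 - ε) * (ell N / 3)) / c.Q := by
    field_simp
  rw [h4]
  apply div_le_div_of_nonneg_right _ hQ'.le
  refine le_trans ?_ h3
  rw [div_le_iff₀ hε] at hN2
  nlinarith

end Pool.Agent.MK47
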