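import Pool.Agent.MK47.Defs

/-!
# The parameter `ell N = (log N)^(1/10)`

`ell N ≥ 0`, `ell N → ∞`, `ell N ^ 10 = log N`, `N = exp (ell N ^ 10)`, `√N = exp (ell N ^ 10 / 2)`.
-/

namespace Pool.Agent.MK47

open Finset Filter

theorem ell_nonneg (N : ℕ) : 0 ≤ ell N :=
  Real.rpow_nonneg (Real.log_natCast_nonneg N) _

theorem ell_tendsto : Tendsto (fun N : ℕ => ell N) atTop atTop := by
  have h := (tendsto_rpow_atTop (show (0 : ℝ) < (1 : ℝ) / 10 by norm_num)).comp
    (Real.tendsto_log_atTop.comp (tendsto_natCast_atTop_atTop (R := ℝ)))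
  exact h

theorem ell_pow (N : ℕ) : ell N ^ 10 = Real.log N := by
  unfold ell
  rw [← Real.rpow_natCast, ← Real.rpow_mul (Real.log_natCast_nonneg N)]
  norm_num

theorem exp_ell (N : ℕ) (hN : 1 ≤ N) : Real.exp (ell N ^ 10) = N := by
  rw [ell_pow, Real.exp_log]
  exact_mod_cast hN

theorem sqrt_ell (N : ℕ) (hN : 1 ≤ N) : Real.sqrt N = Real.exp (ell N ^ 10 / 2) := by
  rw [← exp_ell N hN, ← Real.exp_half]

end Pool.Agent.MK47
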