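import Mathlib

/-!
# Moments of the divisor function

For all `k` and `X ≥ 1`: `∑_{1 ≤ n ≤ X} τ(n)^k / n ≤ (1 + log X)^(2^k)` and
`∑_{1 ≤ n ≤ X} τ(n)^k ≤ X (1 + log X)^(2^k - 1)`.

Induction on `k`. `k = 0`: `∑ 1/n ≤ 1 + log X` (`harmonic_le_one_add_log`) and `∑ 1 = X`. Step: `τ(n)^(k+1) = ∑_{d e = n} τ(d e)^k ≤
∑_{d e = n} τ(d)^k τ(e)^k` (`τ(d e) ≤ τ(d) τ(e)`), so
`∑_{n ≤ X} τ(n)^(k+1)/n ≤ (∑_{d ≤ X} τ(d)^k / d)²` and
`∑_{n ≤ X} τ(n)^(k+1) ≤ ∑_{d ≤ X} τ(d)^k ∑_{e ≤ X/d} τ(e)^k ≤ ∑_{d ≤ X} τ(d)^k (X/d) (1 + log X)^(2^k - 1)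
≤ X (1 + log X)^(2^k - 1 + 2^k)` (for the inner sum use the bound at `⌊X/d⌋ ≤ X`, monotone in the
logarithm).
-/

namespace Pool.Agent.MK47

open Finset

open Pointwise in
theorem tau_mul (m n : ℕ) : (m * n).divisors.card ≤ m.divisors.card * n.divisors.card := by
  rw [Nat.divisors_mul]
  exact Finset.card_mul_le

/-- pairs with product at most `X` -/
private def SS (X : ℕ) : Finset (ℕ × ℕ) := (Icc 1 X ×ˢ Icc 1 X).filter fun p => p.1 * p.2 ≤ X

private theorem sum_pairs (X : ℕ) (G : ℕ → ℝ) :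
    ∑ n ∈ Icc 1 X, (n.divisors.card : ℝ) * G n = ∑ p ∈ SS X, G (p.1 * p.2) := by
  have hmaps : ∀ p ∈ SS X, p.1 * p.2 ∈ Icc 1 X := by
    intro p hp
    unfold SS at hp
    rw [mem_filter, mem_product, mem_Icc, mem_Icc] at hp
    rw [mem_Icc]
    exact ⟨Nat.mul_pos hp.1.1.1 hp.1.2.1, hp.2⟩
  rw [← Finset.sum_fiberwise_of_maps_to hmaps]
  refine Finset.sum_congr rfl fun n hn => ?_
  have hn' := mem_Icc.1 hn
  have hfib : (SS X).filter (fun p => p.1 * p.2 = n) = n.divisorsAntidiagonal := by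
    ext p
    unfold SS
    rw [mem_filter, mem_filter, mem_product, mem_Icc, mem_Icc, Nat.mem_divisorsAntidiagonal]
    constructor
    · rintro ⟨_, h2⟩
      exact ⟨h2, by omega⟩
    · rintro ⟨h2, h3⟩
      have hp1 : 0 < p.1 := by
        rcases Nat.eq_zero_or_pos p.1 with h | h
        · rw [h, zero_mul] at h2; omega
        · exact h
      have hp2 : 0 < p.2 := by
        rcases Nat.eq_zero_or_pos p.2 with h | h
        · rw [h, mul_zero] at h2; omega
        · exact h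
      have h4 : p.1 ≤ p.1 * p.2 := Nat.le_mul_of_pos_right _ hp2
      have h5 : p.2 ≤ p.1 * p.2 := Nat.le_mul_of_pos_left _ hp1
      refine ⟨⟨⟨⟨hp1, ?_⟩, ⟨hp2, ?_⟩⟩, ?_⟩, h2⟩ <;> omega
  rw [hfib]
  have e : ∀ p ∈ n.divisorsAntidiagonal, G (p.1 * p.2) = G n := by
    intro p hp
    rw [(Nat.mem_divisorsAntidiagonal.1 hp).1]
  rw [Finset.sum_congr rfl e, Finset.sum_const, nsmul_eq_mul]
  congr 2
  rw [← Nat.map_div_right_divisors, Finset.card_map]

private theorem hlog (X : ℕ) (hX : 1 ≤ X) : 1 ≤ 1 + Real.log X := by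
  have : 0 ≤ Real.log X := Real.log_nonneg (by exact_mod_cast hX)
  linarith

theorem tau_log (k X : ℕ) (hX : 1 ≤ X) :
    ∑ n ∈ Icc 1 X, (n.divisors.card : ℝ) ^ k / n ≤ (1 + Real.log X) ^ (2 ^ k) := by
  induction k with
  | zero =>
    have h := harmonic_le_one_add_log X
    rw [harmonic_eq_sum_Icc] at h
    push_cast at h
    simpa using h
  | succ k ih =>
    have e : ∀ n ∈ Icc 1 X, (n.divisors.card : ℝ) ^ (k + 1) / n =
        (n.divisors.card : ℝ) * ((n.divisors.card : ℝ) ^ k / n) := by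
      intro n _
      rw [pow_succ]
      ring
    rw [Finset.sum_congr rfl e, sum_pairs X (fun n => (n.divisors.card : ℝ) ^ k / n)]
    have h1 : ∀ p ∈ SS X, (((p.1 * p.2).divisors.card : ℝ)) ^ k / ((p.1 * p.2 : ℕ) : ℝ) ≤
        ((p.1.divisors.card : ℝ) ^ k / p.1) * ((p.2.divisors.card : ℝ) ^ k / p.2) := by
      intro p _
      have h2 : (((p.1 * p.2).divisors.card : ℝ)) ≤
          (p.1.divisors.card : ℝ) * (p.2.divisors.card : ℝ) := by
        exact_mod_cast tau_mul p.1 p.2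
      rw [div_mul_div_comm, ← mul_pow, Nat.cast_mul]
      gcongr
    calc ∑ p ∈ SS X, (((p.1 * p.2).divisors.card : ℝ)) ^ k / ((p.1 * p.2 : ℕ) : ℝ)
        ≤ ∑ p ∈ SS X, ((p.1.divisors.card : ℝ) ^ k / p.1) * ((p.2.divisors.card : ℝ) ^ k / p.2) :=
          Finset.sum_le_sum h1
      _ ≤ ∑ p ∈ Icc 1 X ×ˢ Icc 1 X,
            ((p.1.divisors.card : ℝ) ^ k / p.1) * ((p.2.divisors.card : ℝ) ^ k / p.2) := by
          refine Finset.sum_le_sum_of_subset_of_nonneg (Finset.filter_subset _ _) ?_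
          intro p _ _
          positivity
      _ = (∑ n ∈ Icc 1 X, (n.divisors.card : ℝ) ^ k / n) ^ 2 := by
          rw [Finset.sum_product, pow_two, Finset.sum_mul_sum]
      _ ≤ ((1 + Real.log X) ^ (2 ^ k)) ^ 2 := by
          have : 0 ≤ ∑ n ∈ Icc 1 X, (n.divisors.card : ℝ) ^ k / n :=
            Finset.sum_nonneg fun n _ => by positivity
          gcongr
      _ = (1 + Real.log X) ^ (2 ^ (k + 1)) := by
          rw [← pow_mul, pow_succ 2 k]

theorem tau_mom (k X : ℕ) (hX : 1 ≤ X) :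
    ∑ n ∈ Icc 1 X, (n.divisors.card : ℝ) ^ k ≤ X * (1 + Real.log X) ^ (2 ^ k - 1) := by
  induction k generalizing X with
  | zero => simp
  | succ k ih =>
    have hL := hlog X hX
    have e : ∀ n ∈ Icc 1 X, (n.divisors.card : ℝ) ^ (k + 1) =
        (n.divisors.card : ℝ) * ((n.divisors.card : ℝ) ^ k) := by
      intro n _
      rw [pow_succ]
      ring
    rw [Finset.sum_congr rfl e, sum_pairs X (fun n => (n.divisors.card : ℝ) ^ k)]
    have h1 : ∀ p ∈ SS X, (((p.1 * p.2).divisors.card : ℝ)) ^ k ≤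
        ((p.1.divisors.card : ℝ) ^ k) * ((p.2.divisors.card : ℝ) ^ k) := by
      intro p _
      have h2 : (((p.1 * p.2).divisors.card : ℝ)) ≤
          (p.1.divisors.card : ℝ) * (p.2.divisors.card : ℝ) := by
        exact_mod_cast tau_mul p.1 p.2
      rw [← mul_pow]
      gcongr
    have h3 : ∀ d ∈ Icc 1 X, ∑ e ∈ (Icc 1 X).filter (fun e => d * e ≤ X),
        (e.divisors.card : ℝ) ^ k ≤ ((X : ℝ) / d) * (1 + Real.log X) ^ (2 ^ k - 1) := by
      intro d hd
      have hd' := mem_Icc.1 hd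
      have hset : (Icc 1 X).filter (fun e => d * e ≤ X) = Icc 1 (X / d) := by
        ext e
        rw [mem_filter, mem_Icc, mem_Icc, Nat.le_div_iff_mul_le hd'.1, mul_comm e d]
        constructor
        · rintro ⟨⟨h4, _⟩, h5⟩
          exact ⟨h4, h5⟩
        · rintro ⟨h4, h5⟩
          refine ⟨⟨h4, ?_⟩, h5⟩
          exact le_trans (Nat.le_mul_of_pos_left _ hd'.1) h5
      rw [hset]
      have hXd : 1 ≤ X / d := (Nat.le_div_iff_mul_le hd'.1).2 (by omega)
      refine (ih (X / d) hXd).trans ?_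
      have h4 : ((X / d : ℕ) : ℝ) ≤ (X : ℝ) / d := Nat.cast_div_le
      have h5 : Real.log ((X / d : ℕ) : ℝ) ≤ Real.log X := by
        apply Real.log_le_log
        · exact_mod_cast hXd
        · exact_mod_cast Nat.div_le_self X d
      have h6 : 0 ≤ 1 + Real.log ((X / d : ℕ) : ℝ) := by
        have := hlog (X / d) hXd
        linarith
      gcongr
    have hs : ∑ p ∈ SS X, ((p.1.divisors.card : ℝ) ^ k) * ((p.2.divisors.card : ℝ) ^ k) =
        ∑ d ∈ Icc 1 X, (d.divisors.card : ℝ) ^ k *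
          ∑ e ∈ (Icc 1 X).filter (fun e => d * e ≤ X), (e.divisors.card : ℝ) ^ k := by
      unfold SS
      rw [Finset.sum_filter, Finset.sum_product]
      refine Finset.sum_congr rfl fun d _ => ?_
      rw [Finset.sum_filter, Finset.mul_sum]
      refine Finset.sum_congr rfl fun e _ => ?_
      rw [mul_ite, mul_zero]
    calc ∑ p ∈ SS X, (((p.1 * p.2).divisors.card : ℝ)) ^ k
        ≤ ∑ p ∈ SS X, ((p.1.divisors.card : ℝ) ^ k) * ((p.2.divisors.card : ℝ) ^ k) :=
          Finset.sum_le_sum h1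
      _ = ∑ d ∈ Icc 1 X, (d.divisors.card : ℝ) ^ k *
          ∑ e ∈ (Icc 1 X).filter (fun e => d * e ≤ X), (e.divisors.card : ℝ) ^ k := hs
      _ ≤ ∑ d ∈ Icc 1 X, (d.divisors.card : ℝ) ^ k *
          (((X : ℝ) / d) * (1 + Real.log X) ^ (2 ^ k - 1)) := by
          refine Finset.sum_le_sum fun d hd => ?_
          exact mul_le_mul_of_nonneg_left (h3 d hd) (by positivity)
      _ = (X * (1 + Real.log X) ^ (2 ^ k - 1)) *
          ∑ d ∈ Icc 1 X, (d.divisors.card : ℝ) ^ k / d := by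
          rw [Finset.mul_sum]
          refine Finset.sum_congr rfl fun d _ => ?_
          ring
      _ ≤ (X * (1 + Real.log X) ^ (2 ^ k - 1)) * (1 + Real.log X) ^ (2 ^ k) := by
          refine mul_le_mul_of_nonneg_left (tau_log k X hX) ?_
          have : 0 ≤ 1 + Real.log X := by linarith
          positivity
      _ = X * (1 + Real.log X) ^ (2 ^ (k + 1) - 1) := by
          rw [mul_assoc, ← pow_add]
          congr 2
          have : 1 ≤ 2 ^ k := Nat.one_le_two_pow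
          rw [pow_succ]
          omega

end Pool.Agent.MK47
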