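import Pool.Agent.MK47.Smooth
import Pool.Agent.MK47.TauMom
import Pool.Agent.MK47.Ell

/-!
# The bad `n` are rare

`Bad z n`: every prime `p > z` dividing `n` satisfies `p² ∣ n`. With `z = exp (ℓ³)`, `ℓ = ell N`, for every
`K` and all large `N`, for all `X` with `exp (ℓ^10 / 3) ≤ X ≤ exp (ℓ^10)`:
`∑_{1 ≤ n ≤ X, Bad} τ(n)^4 ≤ X exp (-K ℓ)`.

Proof. A bad `n` is either `z`-smooth, or has a prime `p > z` with `p² ∣ n`.
* Smooth `n`: by Cauchy-Schwarz `∑ τ^4 ≤ (#smooth)^(1/2) (∑_{n ≤ X} τ(n)^8)^(1/2) ≤ X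
  exp ((C ℓ³ - (ℓ^10/3)/ℓ³) / 2) (1 + ℓ^10)^(255/2)` by `smooth_count` (`log z = ℓ³`) and `tau_mom` with
  `k = 8`; this is `≤ X exp (-(K+1) ℓ)` for large `ℓ`.
* `p² ∣ n`: `n = p² m`, `m ≤ X / p²`, `τ(n) ≤ 3 τ(m)` (`tau_mul`), so the sum over such `n` is at most
  `81 ∑_{m ≤ X/p²} τ(m)^4 ≤ 81 (X / p²) (1 + log X)^15` (`tau_mom`, `k = 4`; if `X / p² < 1` there is no
  such `n`). Sum over all integers `p > z`: `∑ 1/p² ≤ 2 / z`. Total `≤ 162 X exp (-ℓ³) (1 + ℓ^10)^15 ≤ X exp (-(K+1) ℓ)`.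
Finally `2 exp (-(K+1) ℓ) ≤ exp (-K ℓ)` as `ℓ ≥ 1`.
-/

namespace Pool.Agent.MK47

open Finset Filter

private theorem bs_sq (X p : ℕ) (hp : p.Prime) :
    ∑ n ∈ (Icc 1 X).filter (fun n => p ^ 2 ∣ n), (n.divisors.card : ℝ) ^ 4 ≤
      81 * (X * (1 + Real.log X) ^ 15) * ((p : ℝ) ^ 2)⁻¹ := by
  have hp2 : 0 < p ^ 2 := pow_pos hp.pos 2
  have hp2r : (0 : ℝ) < (p : ℝ) ^ 2 := by exact_mod_cast hp2
  have h0 : (Icc 1 X).filter (fun n => p ^ 2 ∣ n) ⊆
      (Icc 1 (X / p ^ 2)).image (fun m => p ^ 2 * m) := by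
    intro n hn
    rw [mem_filter, mem_Icc] at hn
    obtain ⟨⟨h1, h2⟩, m, rfl⟩ := hn
    rw [mem_image]
    refine ⟨m, mem_Icc.2 ⟨?_, ?_⟩, rfl⟩
    · rcases Nat.eq_zero_or_pos m with h | h
      · rw [h] at h1; simp at h1
      · exact h
    · exact (Nat.le_div_iff_mul_le hp2).2 (by rw [mul_comm]; exact h2)
  have hlog : 0 ≤ Real.log X := Real.log_natCast_nonneg X
  calc ∑ n ∈ (Icc 1 X).filter (fun n => p ^ 2 ∣ n), (n.divisors.card : ℝ) ^ 4
      ≤ ∑ n ∈ (Icc 1 (X / p ^ 2)).image (fun m => p ^ 2 * m), (n.divisors.card : ℝ) ^ 4 :=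
        sum_le_sum_of_subset_of_nonneg h0 (fun _ _ _ => by positivity)
    _ = ∑ m ∈ Icc 1 (X / p ^ 2), ((p ^ 2 * m).divisors.card : ℝ) ^ 4 := by
        rw [sum_image]
        intro a _ b _ h
        exact Nat.eq_of_mul_eq_mul_left hp2 h
    _ ≤ ∑ m ∈ Icc 1 (X / p ^ 2), 81 * (m.divisors.card : ℝ) ^ 4 := by
        apply sum_le_sum
        intro m _
        have h1 : (p ^ 2 * m).divisors.card ≤ 3 * m.divisors.card := by
          refine (tau_mul _ _).trans ?_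
          rw [Nat.divisors_prime_pow hp, card_map, card_range]
        have h2 : ((p ^ 2 * m).divisors.card : ℝ) ≤ 3 * m.divisors.card := by exact_mod_cast h1
        calc ((p ^ 2 * m).divisors.card : ℝ) ^ 4 ≤ (3 * m.divisors.card) ^ 4 := by gcongr
          _ = 81 * (m.divisors.card : ℝ) ^ 4 := by ring
    _ = 81 * ∑ m ∈ Icc 1 (X / p ^ 2), (m.divisors.card : ℝ) ^ 4 := by rw [mul_sum]
    _ ≤ 81 * (X * (1 + Real.log X) ^ 15) * ((p : ℝ) ^ 2)⁻¹ := by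
        rcases Nat.eq_zero_or_pos (X / p ^ 2) with h | h
        · rw [h]
          simp only [show Icc 1 0 = (∅ : Finset ℕ) from rfl, sum_empty, mul_zero]
          positivity
        · have h1 := tau_mom 4 (X / p ^ 2) h
          have h2 : ((X / p ^ 2 : ℕ) : ℝ) ≤ X * ((p : ℝ) ^ 2)⁻¹ := by
            have := Nat.cast_div_le (m := X) (n := p ^ 2) (α := ℝ)
            rw [← div_eq_mul_inv]
            push_cast at this
            exact this
          have h3 : Real.log ((X / p ^ 2 : ℕ) : ℝ) ≤ Real.log X := by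
            apply Real.log_le_log (by exact_mod_cast h)
            exact_mod_cast Nat.div_le_self _ _
          have h4 : 0 ≤ Real.log ((X / p ^ 2 : ℕ) : ℝ) := Real.log_natCast_nonneg _
          calc 81 * ∑ m ∈ Icc 1 (X / p ^ 2), (m.divisors.card : ℝ) ^ 4
              ≤ 81 * (((X / p ^ 2 : ℕ) : ℝ) * (1 + Real.log ((X / p ^ 2 : ℕ) : ℝ)) ^ 15) := by
                have := h1
                norm_num at this
                norm_num
                exact this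
            _ ≤ 81 * ((X * ((p : ℝ) ^ 2)⁻¹) * (1 + Real.log X) ^ 15) := by
                gcongr
            _ = _ := by ring

private theorem bs_evt (K C : ℝ) : ∀ᶠ l : ℝ in atTop, 2 ≤ l ∧ 1 + l ^ 10 ≤ Real.exp l ∧
    C * l ^ 3 + 255 * l + 2 * |K| * l + 2 * l ≤ l ^ 7 / 3 ∧
    15 * l + |K| * l + l + 162 ≤ l ^ 3 := by
  have h1 : ∀ᶠ l : ℝ in atTop, (2 : ℝ) ≤ l := eventually_ge_atTop 2
  have h2 : ∀ᶠ l : ℝ in atTop, 1 + l ^ 10 ≤ Real.exp l := by
    have h := Real.tendsto_exp_div_pow_atTop 10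
    have h' := h.eventually_ge_atTop 2
    filter_upwards [h', h1] with l hl hl1
    rw [le_div_iff₀ (by positivity)] at hl
    have : (1 : ℝ) ≤ l ^ 10 := one_le_pow₀ (by linarith)
    linarith
  have h3 : ∀ᶠ l : ℝ in atTop, 3 * (|C| + 257 + 2 * |K|) ≤ l := eventually_ge_atTop _
  have h4 : ∀ᶠ l : ℝ in atTop, (178 + |K| : ℝ) ≤ l := eventually_ge_atTop _
  filter_upwards [h1, h2, h3, h4] with l a1 a2 a3 a4
  have hK := abs_nonneg K
  have hC := abs_nonneg C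
  have hC' := le_abs_self C
  refine ⟨a1, a2, ?_, ?_⟩
  · have e1 : l ≤ l ^ 3 := by nlinarith [sq_nonneg (l - 1), mul_pos (show (0:ℝ) < l by linarith) (show (0:ℝ) < l by linarith)]
    have e2 : l ≤ l ^ 4 := by
      calc l = l ^ 1 := by ring
        _ ≤ l ^ 4 := pow_le_pow_right₀ (by linarith) (by norm_num)
    have e3 : C * l ^ 3 + 255 * l + 2 * |K| * l + 2 * l ≤ (|C| + 257 + 2 * |K|) * l ^ 3 := by
      have l3 : (0 : ℝ) ≤ l ^ 3 := by positivity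
      nlinarith [mul_le_mul_of_nonneg_right hC' l3, mul_le_mul_of_nonneg_left e1 hK]
    have e4 : (|C| + 257 + 2 * |K|) * l ^ 3 ≤ (l ^ 4 / 3) * l ^ 3 := by
      apply mul_le_mul_of_nonneg_right _ (by positivity)
      linarith
    calc C * l ^ 3 + 255 * l + 2 * |K| * l + 2 * l ≤ (l ^ 4 / 3) * l ^ 3 := e3.trans e4
      _ = l ^ 7 / 3 := by ring
  · have e1 : (1 : ℝ) ≤ l := by linarith
    have e2 : l ≤ l ^ 2 := by nlinarith
    have e3 : (178 + |K|) * l ^ 2 ≤ l * l ^ 2 := mul_le_mul_of_nonneg_right a4 (by positivity)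
    have e4 : (1 : ℝ) ≤ l ^ 2 := by nlinarith
    have e5 := mul_le_mul_of_nonneg_left e2 hK
    nlinarith

open Classical in
private theorem bs_smooth (K C l : ℝ) (X : ℕ) (hX0 : (0 : ℝ) < X) (hXn : 1 ≤ X)
    (hlog1 : l ^ 10 / 3 ≤ Real.log X) (hl2 : 2 ≤ l)
    (hlogexp : 1 + Real.log X ≤ Real.exp l)
    (a3 : C * l ^ 3 + 255 * l + 2 * |K| * l + 2 * l ≤ l ^ 7 / 3)
    (h1 : (((Icc 1 X).filter fun n => ∀ p : ℕ, p.Prime → p ∣ n → (p : ℝ) ≤ Real.exp (l ^ 3)).card : ℝ)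
      ≤ X * Real.exp (C * l ^ 3 - Real.log X / l ^ 3)) :
    ∑ n ∈ (Icc 1 X).filter (fun n => ∀ p : ℕ, p.Prime → p ∣ n → (p : ℝ) ≤ Real.exp (l ^ 3)),
      (n.divisors.card : ℝ) ^ 4 ≤ X * Real.exp (-(|K| + 1) * l) := by
  have hlog0 : 0 ≤ Real.log X := Real.log_natCast_nonneg X
  have h2 := tau_mom 8 X hXn
  rw [show 2 ^ 8 - 1 = 255 by norm_num] at h2
  set F := (Icc 1 X).filter (fun n => ∀ p : ℕ, p.Prime → p ∣ n → (p : ℝ) ≤ Real.exp (l ^ 3)) with hF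
  have h3 : (∑ n ∈ F, (n.divisors.card : ℝ) ^ 4) ^ 2 ≤
      (F.card : ℝ) * ∑ n ∈ Icc 1 X, (n.divisors.card : ℝ) ^ 8 := by
    have e1 : (∑ n ∈ F, (n.divisors.card : ℝ) ^ 4) ^ 2
        ≤ (F.card : ℝ) * ∑ n ∈ F, ((n.divisors.card : ℝ) ^ 4) ^ 2 := sq_sum_le_card_mul_sum_sq
    have e2 : ∑ n ∈ F, ((n.divisors.card : ℝ) ^ 4) ^ 2 = ∑ n ∈ F, (n.divisors.card : ℝ) ^ 8 := by
      apply sum_congr rfl
      intro n _
      ring
    have e3 : ∑ n ∈ F, (n.divisors.card : ℝ) ^ 8 ≤ ∑ n ∈ Icc 1 X, (n.divisors.card : ℝ) ^ 8 :=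
      sum_le_sum_of_subset_of_nonneg (filter_subset _ _) (fun _ _ _ => by positivity)
    rw [e2] at e1
    exact e1.trans (mul_le_mul_of_nonneg_left e3 (by positivity))
  have h4 : C * l ^ 3 - Real.log X / l ^ 3 ≤ C * l ^ 3 - l ^ 7 / 3 := by
    have : l ^ 7 / 3 ≤ Real.log X / l ^ 3 := by
      rw [le_div_iff₀ (by positivity)]
      calc l ^ 7 / 3 * l ^ 3 = l ^ 10 / 3 := by ring
        _ ≤ _ := hlog1
    linarith
  have h5 : (1 + Real.log X) ^ 255 ≤ Real.exp (255 * l) := by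
    have e1 : (1 + Real.log X) ^ 255 ≤ (Real.exp l) ^ 255 :=
      pow_le_pow_left₀ (by linarith) hlogexp 255
    have e2 : (Real.exp l) ^ 255 = Real.exp (255 * l) := by
      rw [← Real.exp_nat_mul]
      norm_num
    rw [← e2]
    exact e1
  have h6 : (∑ n ∈ F, (n.divisors.card : ℝ) ^ 4) ^ 2 ≤ (X * Real.exp (-(|K| + 1) * l)) ^ 2 := by
    have e1 : (F.card : ℝ) ≤ X * Real.exp (C * l ^ 3 - l ^ 7 / 3) := by
      refine h1.trans ?_
      exact mul_le_mul_of_nonneg_left (Real.exp_le_exp.2 h4) hX0.le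
    have e2 : ∑ n ∈ Icc 1 X, (n.divisors.card : ℝ) ^ 8 ≤ X * Real.exp (255 * l) :=
      h2.trans (mul_le_mul_of_nonneg_left h5 hX0.le)
    have e3 : (0 : ℝ) ≤ ∑ n ∈ Icc 1 X, (n.divisors.card : ℝ) ^ 8 :=
      sum_nonneg (fun _ _ => by positivity)
    have e4 : (0 : ℝ) ≤ X * Real.exp (C * l ^ 3 - l ^ 7 / 3) := by positivity
    have e5 := h3.trans (mul_le_mul e1 e2 e3 e4)
    refine e5.trans ?_
    have e6 : (X * Real.exp (C * l ^ 3 - l ^ 7 / 3)) * (X * Real.exp (255 * l)) =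
        X ^ 2 * Real.exp (C * l ^ 3 - l ^ 7 / 3 + 255 * l) := by
      rw [Real.exp_add]
      ring
    have e7 : (X * Real.exp (-(|K| + 1) * l)) ^ 2 =
        X ^ 2 * Real.exp (-(|K| + 1) * l + -(|K| + 1) * l) := by
      rw [Real.exp_add]
      ring
    rw [e6, e7]
    apply mul_le_mul_of_nonneg_left _ (by positivity)
    apply Real.exp_le_exp.2
    linarith
  exact (pow_le_pow_iff_left₀ (sum_nonneg (fun _ _ => by positivity)) (by positivity)
    two_ne_zero).1 h6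

private theorem bs_square (K l : ℝ) (X : ℕ) (hX0 : (0 : ℝ) < X) (hl2 : 2 ≤ l)
    (hlogexp : 1 + Real.log X ≤ Real.exp l)
    (a4 : 15 * l + |K| * l + l + 162 ≤ l ^ 3) :
    ∑ p ∈ (Ioc ⌊Real.exp (l ^ 3)⌋₊ X).filter Nat.Prime,
      ∑ n ∈ (Icc 1 X).filter (fun n => p ^ 2 ∣ n), (n.divisors.card : ℝ) ^ 4 ≤
      X * Real.exp (-(|K| + 1) * l) := by
  have hlog0 : 0 ≤ Real.log X := Real.log_natCast_nonneg X
  set z := Real.exp (l ^ 3) with hz
  have hl3 : (8 : ℝ) ≤ l ^ 3 := by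
    have := pow_le_pow_left₀ (show (0 : ℝ) ≤ 2 by norm_num) hl2 3
    linarith
  have hz8 : (8 : ℝ) ≤ z := by
    have := Real.add_one_le_exp (l ^ 3)
    linarith
  have hzf : z / 2 ≤ (⌊z⌋₊ : ℝ) := by
    have := Nat.lt_floor_add_one z
    linarith
  have hzf0 : ⌊z⌋₊ ≠ 0 := by
    intro h
    rw [h] at hzf
    simp only [Nat.cast_zero] at hzf
    linarith
  have h5 : (1 + Real.log X) ^ 15 ≤ Real.exp (15 * l) := by
    have e1 : (1 + Real.log X) ^ 15 ≤ (Real.exp l) ^ 15 :=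
      pow_le_pow_left₀ (by linarith) hlogexp 15
    have e2 : (Real.exp l) ^ 15 = Real.exp (15 * l) := by
      rw [← Real.exp_nat_mul]
      norm_num
    rw [← e2]
    exact e1
  have h6 : ∑ p ∈ Ioc ⌊z⌋₊ X, ((p : ℝ) ^ 2)⁻¹ ≤ 2 * Real.exp (-l ^ 3) := by
    rcases le_total ⌊z⌋₊ X with h | h
    · have h1 := sum_Ioc_inv_sq_le_sub (α := ℝ) hzf0 h
      have h2 : (0 : ℝ) ≤ (X : ℝ)⁻¹ := by positivity
      have h3 : ((⌊z⌋₊ : ℝ))⁻¹ ≤ 2 * Real.exp (-l ^ 3) := by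
        have e1 : ((⌊z⌋₊ : ℝ))⁻¹ ≤ (z / 2)⁻¹ := by
          apply inv_anti₀ _ hzf
          linarith
        have e2 : (z / 2)⁻¹ = 2 * Real.exp (-l ^ 3) := by
          rw [hz, Real.exp_neg, inv_div]
          rfl
        rw [← e2]
        exact e1
      linarith
    · rw [Ioc_eq_empty_of_le h, sum_empty]
      positivity
  have h7 : ∑ p ∈ (Ioc ⌊z⌋₊ X).filter Nat.Prime,
      ∑ n ∈ (Icc 1 X).filter (fun n => p ^ 2 ∣ n), (n.divisors.card : ℝ) ^ 4 ≤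
      81 * (X * (1 + Real.log X) ^ 15) * ∑ p ∈ Ioc ⌊z⌋₊ X, ((p : ℝ) ^ 2)⁻¹ := by
    rw [mul_sum]
    refine le_trans ?_ (sum_le_sum_of_subset_of_nonneg (filter_subset Nat.Prime _)
      (fun _ _ _ => by positivity))
    apply sum_le_sum
    intro p hp
    exact bs_sq X p (mem_filter.1 hp).2
  refine h7.trans ?_
  have h8 : 81 * (X * (1 + Real.log X) ^ 15) * ∑ p ∈ Ioc ⌊z⌋₊ X, ((p : ℝ) ^ 2)⁻¹ ≤
      81 * (X * Real.exp (15 * l)) * (2 * Real.exp (-l ^ 3)) := by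
    apply mul_le_mul _ h6 (sum_nonneg (fun _ _ => by positivity)) (by positivity)
    apply mul_le_mul_of_nonneg_left _ (by norm_num)
    exact mul_le_mul_of_nonneg_left h5 hX0.le
  refine h8.trans ?_
  have h9 : 81 * (X * Real.exp (15 * l)) * (2 * Real.exp (-l ^ 3)) =
      X * (162 * Real.exp (15 * l - l ^ 3)) := by
    rw [sub_eq_add_neg, Real.exp_add]
    ring
  rw [h9]
  apply mul_le_mul_of_nonneg_left _ hX0.le
  have h10 : (162 : ℝ) ≤ Real.exp 162 := by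
    have := Real.add_one_le_exp (162 : ℝ)
    linarith
  refine (mul_le_mul_of_nonneg_right h10 (Real.exp_pos _).le).trans ?_
  rw [← Real.exp_add]
  apply Real.exp_le_exp.2
  linarith

private theorem bs_biU {ι : Type*} [DecidableEq ι] (s : Finset ι) (f : ι → Finset ℕ) (g : ℕ → ℝ)
    (hg : ∀ n, 0 ≤ g n) : ∑ n ∈ s.biUnion f, g n ≤ ∑ i ∈ s, ∑ n ∈ f i, g n := by
  induction s using Finset.induction_on with
  | empty => simp
  | insert a s ha ih =>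
    rw [biUnion_insert, sum_insert ha]
    have h1 := sum_union_inter (s₁ := f a) (s₂ := s.biUnion f) (f := g)
    have h2 : 0 ≤ ∑ n ∈ f a ∩ s.biUnion f, g n := sum_nonneg (fun _ _ => hg _)
    linarith

open Classical in
private theorem bs_split (X : ℕ) (z : ℝ) (hz : 0 ≤ z) :
    ∑ n ∈ (Icc 1 X).filter (fun n => Bad z n), (n.divisors.card : ℝ) ^ 4 ≤
      ∑ n ∈ (Icc 1 X).filter (fun n => ∀ p : ℕ, p.Prime → p ∣ n → (p : ℝ) ≤ z),
        (n.divisors.card : ℝ) ^ 4 +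
      ∑ p ∈ (Ioc ⌊z⌋₊ X).filter Nat.Prime,
        ∑ n ∈ (Icc 1 X).filter (fun n => p ^ 2 ∣ n), (n.divisors.card : ℝ) ^ 4 := by
  have h1 : ∑ n ∈ (Icc 1 X).filter (fun n => Bad z n), (n.divisors.card : ℝ) ^ 4 =
      ∑ n ∈ ((Icc 1 X).filter (fun n => Bad z n)).filter
        (fun n => ∀ p : ℕ, p.Prime → p ∣ n → (p : ℝ) ≤ z), (n.divisors.card : ℝ) ^ 4 +
      ∑ n ∈ ((Icc 1 X).filter (fun n => Bad z n)).filter
        (fun n => ¬ ∀ p : ℕ, p.Prime → p ∣ n → (p : ℝ) ≤ z), (n.divisors.card : ℝ) ^ 4 :=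
    (sum_filter_add_sum_filter_not _ _ _).symm
  rw [h1]
  apply add_le_add
  · apply sum_le_sum_of_subset_of_nonneg
    · intro n hn
      rw [mem_filter, mem_filter] at hn
      exact mem_filter.2 ⟨hn.1.1, hn.2⟩
    · intro _ _ _
      positivity
  · have hsub : ((Icc 1 X).filter (fun n => Bad z n)).filter
        (fun n => ¬ ∀ p : ℕ, p.Prime → p ∣ n → (p : ℝ) ≤ z) ⊆
        ((Ioc ⌊z⌋₊ X).filter Nat.Prime).biUnion
          (fun p => (Icc 1 X).filter (fun n => p ^ 2 ∣ n)) := by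
      intro n hn
      rw [mem_filter, mem_filter] at hn
      obtain ⟨⟨h1, h2⟩, h3⟩ := hn
      push Not at h3
      obtain ⟨p, hp, hpn, hpz⟩ := h3
      rw [mem_biUnion]
      refine ⟨p, mem_filter.2 ⟨mem_Ioc.2 ⟨(Nat.floor_lt hz).2 hpz, ?_⟩, hp⟩,
        mem_filter.2 ⟨h1, h2 p hp hpz hpn⟩⟩
      rw [mem_Icc] at h1
      exact (Nat.le_of_dvd (by omega) hpn).trans h1.2
    refine (sum_le_sum_of_subset_of_nonneg hsub (fun _ _ _ => by positivity)).trans ?_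
    exact bs_biU _ _ _ (fun _ => by positivity)

open Classical in
theorem bad_sum (K : ℝ) : ∀ᶠ N : ℕ in atTop, ∀ X : ℕ,
    Real.exp (ell N ^ 10 / 3) ≤ (X : ℝ) → (X : ℝ) ≤ Real.exp (ell N ^ 10) →
    ∑ n ∈ (Icc 1 X).filter (fun n => Bad (Real.exp (ell N ^ 3)) n), (n.divisors.card : ℝ) ^ 4 ≤
      X * Real.exp (-K * ell N) := by
  obtain ⟨C, hC, hsm⟩ := smooth_count
  filter_upwards [ell_tendsto.eventually (bs_evt K C)] with N hN X hX1 hX2
  generalize ell N = l at *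
  obtain ⟨a1, a2, a3, a4⟩ := hN
  have hX0 : (0 : ℝ) < X := lt_of_lt_of_le (Real.exp_pos _) hX1
  have hXn : 1 ≤ X := by exact_mod_cast (show 0 < X by exact_mod_cast hX0)
  have hlog1 : l ^ 10 / 3 ≤ Real.log X := (Real.le_log_iff_exp_le hX0).2 hX1
  have hlog2 : Real.log X ≤ l ^ 10 := (Real.log_le_iff_le_exp hX0).2 hX2
  have hlogexp : 1 + Real.log X ≤ Real.exp l := by linarith
  have hl3 : (8 : ℝ) ≤ l ^ 3 := by
    have := pow_le_pow_left₀ (show (0 : ℝ) ≤ 2 by norm_num) a1 3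
    linarith
  have hz8 : (8 : ℝ) ≤ Real.exp (l ^ 3) := by
    have := Real.add_one_le_exp (l ^ 3)
    linarith
  have hS := bs_smooth K C l X hX0 hXn hlog1 a1 hlogexp a3 (by
    have := hsm (Real.exp (l ^ 3)) hz8 X hXn
    rw [Real.log_exp] at this
    exact this)
  have hQ := bs_square K l X hX0 a1 hlogexp a4
  have hsp := bs_split X (Real.exp (l ^ 3)) (Real.exp_pos _).le
  have h1 : (2 : ℝ) ≤ Real.exp l := by
    have := Real.add_one_le_exp l
    linarith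
  have h2 : Real.exp (-(|K| + 1) * l) * Real.exp l = Real.exp (-|K| * l) := by
    rw [← Real.exp_add]
    congr 1
    ring
  have h3 : X * Real.exp (-(|K| + 1) * l) + X * Real.exp (-(|K| + 1) * l) ≤
      X * Real.exp (-K * l) := by
    have e1 : Real.exp (-(|K| + 1) * l) * 2 ≤ Real.exp (-K * l) := by
      refine (mul_le_mul_of_nonneg_left h1 (Real.exp_pos _).le).trans ?_
      rw [h2]
      apply Real.exp_le_exp.2
      have := mul_le_mul_of_nonneg_right (le_abs_self K) (show (0 : ℝ) ≤ l by linarith)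
      linarith
    have e2 := mul_le_mul_of_nonneg_left e1 hX0.le
    linarith
  linarith

end Pool.Agent.MK47
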