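import Pool.Agent.MKA.Box

/-!
# Points of a conic in a box

`p` odd prime, `A, B, C, m ≠ 0` in `ZMod p`, `n, n' ≤ p`. The number `K` of
`(v, w) ∈ [s, s+n) × [s', s'+n')` with `A (r + m v)² - B (r' + m w)² + C = 0` satisfies
`K ≤ n n' / p + 4 p^(3/4) (2 + log p)²`.

By orthogonality (`∑_k ψ(k x) = p` if `x = 0` and `0` otherwise), for every `v, w`:
`1[(r+mv, r'+mw) on the conic] = p⁻² ∑_{k,l} ∑_{(V,W) on the conic} ψ(k (V - r - m v) + l (W - r' - m w))`.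
(Indeed for fixed `(V, W)` the sum over `k, l` is `p²` if `V = r + m v`, `W = r' + m w` and `0` otherwise.)
Sum over `v, w`: `K = p⁻² ∑_{k,l} ψ(-k r - l r') S(k,l) E(-k m) E'(-l m)` with `S(k,l)` the sum over
the conic of `ψ(k V + l W)` and `E(j) = ∑_{v ∈ [s, s+n)} ψ(j v)`, `E'` similarly.
The term `k = l = 0` is `n n' #conic / p² ≤ n n' (p + 1) / p² ≤ n n' / p + 1` (`con_card`). The other
terms: `‖S(k,l)‖ ≤ (3 p³)^(1/4)` (`con_sum`), `k ↦ -k m` is a bijection, so by `geo_sum` their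
total is at most `p⁻² (3 p³)^(1/4) (p (2 + log p))² = 3^(1/4) p^(3/4) (2 + log p)²`. As
`3^(1/4) ≤ 2` and `1 ≤ p^(3/4) (2 + log p)²` the claim follows.
-/

namespace Pool.Agent.MK47

open Finset

private theorem bc_shift (s n s' n' : ℕ) (P : ℕ × ℕ → Prop) [DecidablePred P] :
    ((Ico s (s + n) ×ˢ Ico s' (s' + n')).filter P).card =
      ((range n ×ˢ range n').filter fun q => P (s + q.1, s' + q.2)).card := by
  symm
  apply card_bij (fun q _ => (s + q.1, s' + q.2))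
  · rintro ⟨i, j⟩ hq
    rw [mem_filter, mem_product, mem_range, mem_range] at hq
    rw [mem_filter, mem_product, mem_Ico, mem_Ico]
    exact ⟨⟨⟨by omega, by omega⟩, ⟨by omega, by omega⟩⟩, hq.2⟩
  · rintro ⟨i, j⟩ _ ⟨i', j'⟩ _ h
    rw [Prod.mk.injEq] at h ⊢
    omega
  · rintro ⟨u, v⟩ hq
    rw [mem_filter, mem_product, mem_Ico, mem_Ico] at hq
    obtain ⟨⟨⟨h1, h2⟩, h3, h4⟩, h5⟩ := hq
    simp only at h1 h2 h3 h4
    refine ⟨(u - s, v - s'), ?_, ?_⟩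
    · rw [mem_filter, mem_product, mem_range, mem_range]
      refine ⟨⟨by simp only; omega, by simp only; omega⟩, ?_⟩
      simp only
      rw [Nat.add_sub_cancel' h1, Nat.add_sub_cancel' h3]
      exact h5
    · simp only
      rw [Nat.add_sub_cancel' h1, Nat.add_sub_cancel' h3]

theorem box_conic (p : ℕ) [hp : Fact p.Prime] (h2 : p ≠ 2) (A B C m r r' : ZMod p) (hA : A ≠ 0)
    (hB : B ≠ 0) (hC : C ≠ 0) (hm : m ≠ 0) (s n s' n' : ℕ) (hn : n ≤ p) (hn' : n' ≤ p) :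
    (((Ico s (s + n) ×ˢ Ico s' (s' + n')).filter fun v : ℕ × ℕ =>
      A * (r + m * (v.1 : ZMod p)) ^ 2 - B * (r' + m * (v.2 : ZMod p)) ^ 2 + C = 0).card : ℝ) ≤
      (n : ℝ) * n' / p + 4 * (p : ℝ) ^ ((3 : ℝ) / 4) * (2 + Real.log p) ^ 2 := by
  have hp0 : (0 : ℝ) < p := by exact_mod_cast hp.out.pos
  have hp1 : (1 : ℝ) ≤ p := by exact_mod_cast hp.out.one_le
  have hlog : 0 ≤ Real.log p := Real.log_nonneg hp1
  have hz : ∀ x : ZMod p, x ≠ 0 → ¬ (p : ℤ) ∣ (x.val : ℤ) := by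
    intro x hx h
    apply hx
    have h3 := (ZMod.intCast_zmod_eq_zero_iff_dvd (x.val : ℤ) p).2 h
    rwa [Int.cast_natCast, ZMod.natCast_zmod_val] at h3
  have hz' : ∀ x : ZMod p, x ≠ 0 → ¬ (p : ℤ) ∣ (-(x.val : ℤ)) := by
    intro x hx h
    exact hz x hx ((Int.dvd_neg).1 h)
  rw [bc_shift]
  have h1 : ∀ q : ℕ × ℕ, (A * (r + m * ((s + q.1 : ℕ) : ZMod p)) ^ 2 -
      B * (r' + m * ((s' + q.2 : ℕ) : ZMod p)) ^ 2 + C = 0) ↔
      (p : ℤ) ∣ (A.val : ℤ) * ((r.val + m.val * s : ℤ) + (m.val : ℤ) * q.1) ^ 2 -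
        (B.val : ℤ) * ((r'.val + m.val * s' : ℤ) + (m.val : ℤ) * q.2) ^ 2 - -(C.val : ℤ) := by
    intro q
    rw [← ZMod.intCast_zmod_eq_zero_iff_dvd]
    push_cast
    simp only [ZMod.natCast_zmod_val]
    constructor
    · intro h
      linear_combination h
    · intro h
      linear_combination h
  rw [filter_congr fun q _ => h1 q]
  refine (Pool.Agent.MKA.box_prime h2 (hz A hA) (hz B hB) (hz' C hC) (hz m hm) (hz m hm)
    _ _ n n').trans ?_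
  have hnp : (n : ℝ) ≤ p := by exact_mod_cast hn
  have hnp' : (n' : ℝ) ≤ p := by exact_mod_cast hn'
  have hn0 : (0 : ℝ) ≤ n := Nat.cast_nonneg n
  have hn0' : (0 : ℝ) ≤ n' := Nat.cast_nonneg n'
  have e1 : (n : ℝ) * n' * (p + 1) / (p : ℝ) ^ 2 ≤ n * n' / p + 1 := by
    have e2 : (n : ℝ) * n' * (p + 1) / (p : ℝ) ^ 2 = n * n' / p + n * n' / (p : ℝ) ^ 2 := by
      field_simp
    rw [e2]
    apply add_le_add le_rfl
    rw [div_le_one (by positivity)]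
    nlinarith
  have e3 : ((n : ℝ) + n') * (1 + Real.log p) / p ≤ 2 * (1 + Real.log p) := by
    rw [div_le_iff₀ hp0]
    nlinarith
  have e4 : (1 : ℝ) ≤ (p : ℝ) ^ (3 / 4 : ℝ) := Real.one_le_rpow hp1 (by norm_num)
  have e5 : 2 * (p : ℝ) ^ (3 / 4 : ℝ) * ((1 + Real.log p) ^ 2 +
      ((n : ℝ) + n') * (1 + Real.log p) / p) ≤
      2 * (p : ℝ) ^ (3 / 4 : ℝ) * ((1 + Real.log p) ^ 2 + 2 * (1 + Real.log p)) := by
    apply mul_le_mul_of_nonneg_left _ (by positivity)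
    linarith
  have e6 : 2 * (p : ℝ) ^ (3 / 4 : ℝ) * ((1 + Real.log p) ^ 2 + 2 * (1 + Real.log p)) + 1 ≤
      4 * (p : ℝ) ^ ((3 : ℝ) / 4) * (2 + Real.log p) ^ 2 := by
    have e7 : (p : ℝ) ^ (3 / 4 : ℝ) * ((1 + Real.log p) ^ 2 + 2 * (1 + Real.log p)) +
        (p : ℝ) ^ (3 / 4 : ℝ) = (p : ℝ) ^ (3 / 4 : ℝ) * (2 + Real.log p) ^ 2 := by ring
    have e8 : 0 ≤ (p : ℝ) ^ (3 / 4 : ℝ) * (2 + Real.log p) ^ 2 := by positivity
    linarith
  linarith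

end Pool.Agent.MK47
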