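import Pool.Agent.MK47.DivSum

/-!
# Counting the exceptional `b` at a prime

Let `p^(3 V1 + 3) ∣ 8 b² (a² b - 4)`. Then `p^(3 V1) ∣ b² (a² b - 4)` (`p = 2`: cancel `8 = 2³`; `p` odd: `p` is coprime to `8`), so
`p^(V1) ∣ b` or `p^(V1) ∣ a² b - 4` (otherwise `v_p(b² (a² b - 4)) ≤ 3 (V1 - 1)`; `b² (a²b-4)` may be zero, but then one of the factors is
zero and divisible). The number of `b ∈ [-N, N]` divisible by `p^V1` is at most `2N/p^V1 + 1`. If `b, b'` satisfy `p^V1 ∣ a² b - 4`, then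
`p^V1 ∣ a² (b - b')`, so `G ∣ b - b'` with `G = p^V1/gcd (p^V1, a²) ≥ p^V1/a²`, so there are at most `2N/G + 1 ≤ 2N a²/p^V1 + 1` such `b`.
(`class_card_int`: a set of integers in `[-N, N]`, pairwise congruent modulo `G`, has at most `2N/G + 1` elements.)
-/

namespace Pool.Agent.MK47

open Finset

theorem class_card_int (G : ℕ) (hG : 0 < G) (N : ℕ) (S : Finset ℤ)
    (h1 : ∀ b ∈ S, -(N : ℤ) ≤ b ∧ b ≤ N) (h2 : ∀ b ∈ S, ∀ b' ∈ S, (G : ℤ) ∣ b - b') :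
    (S.card : ℝ) ≤ 2 * N / G + 1 := by
  have hinj : Set.InjOn (fun b : ℤ => (b + N).toNat) (S : Set ℤ) := by
    intro b hb b' hb' he
    have := h1 b hb
    have := h1 b' hb'
    simp only at he
    omega
  have := class_card G hG 0 (2 * N) (Nat.zero_le _) (S.image (fun b : ℤ => (b + N).toNat)) ?_ ?_
  · rw [Finset.card_image_of_injOn hinj] at this
    push_cast at this
    simpa using this
  · intro n hn
    rw [Finset.mem_image] at hn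
    obtain ⟨b, hb, rfl⟩ := hn
    have := h1 b hb
    omega
  · intro n hn n' hn'
    rw [Finset.mem_image] at hn hn'
    obtain ⟨b, hb, rfl⟩ := hn
    obtain ⟨b', hb', rfl⟩ := hn'
    have e1 := h1 b hb
    have e2 := h1 b' hb'
    rw [Int.toNat_of_nonneg (by omega), Int.toNat_of_nonneg (by omega)]
    have := h2 b hb b' hb'
    have e : b + (N : ℤ) - (b' + N) = b - b' := by ring
    rw [e]
    exact this

private theorem pow_cases (p V : ℕ) (hp : p.Prime) (x y : ℤ)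
    (h : ((p ^ (3 * V + 3) : ℕ) : ℤ) ∣ 8 * x ^ 2 * y) :
    ((p ^ V : ℕ) : ℤ) ∣ x ∨ ((p ^ V : ℕ) : ℤ) ∣ y := by
  by_contra hcon
  push Not at hcon
  obtain ⟨hx, hy⟩ := hcon
  have hx0 : x ≠ 0 := by rintro rfl; simp at hx
  have hy0 : y ≠ 0 := by rintro rfl; simp at hy
  have : Fact p.Prime := ⟨hp⟩
  have h8 : (8 : ℤ) ≠ 0 := by norm_num
  push_cast at h hx hy
  have vx : padicValInt p x < V := by
    by_contra hc
    push Not at hc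
    exact hx ((padicValInt_dvd_iff V x).2 (Or.inr hc))
  have vy : padicValInt p y < V := by
    by_contra hc
    push Not at hc
    exact hy ((padicValInt_dvd_iff V y).2 (Or.inr hc))
  have hv := (padicValInt_dvd_iff (3 * V + 3) (8 * x ^ 2 * y)).1 h
  have hne : 8 * x ^ 2 * y ≠ 0 := mul_ne_zero (mul_ne_zero h8 (pow_ne_zero 2 hx0)) hy0
  rcases hv with hv | hv
  · exact hne hv
  · rw [padicValInt.mul (mul_ne_zero h8 (pow_ne_zero 2 hx0)) hy0,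
      padicValInt.mul h8 (pow_ne_zero 2 hx0), pow_two, padicValInt.mul hx0 hx0] at hv
    have v8 : padicValInt p 8 ≤ 3 := by
      by_contra hc
      push Not at hc
      have := (padicValInt_dvd_iff (p := p) 4 8).2 (Or.inr hc)
      have h16 : (p : ℤ) ^ 4 ≤ 8 := Int.le_of_dvd (by norm_num) this
      have h2 : (2 : ℤ) ≤ p := by exact_mod_cast hp.two_le
      have : (2 : ℤ) ^ 4 ≤ (p : ℤ) ^ 4 := pow_le_pow_left₀ (by norm_num) h2 4
      norm_num at this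
      linarith
    omega

theorem exc_card (a p V1 N : ℕ) (ha : 0 < a) (hp : p.Prime) :
    (((Icc (-(N : ℤ)) N).filter fun b : ℤ =>
      ((p ^ (3 * V1 + 3) : ℕ) : ℤ) ∣ 8 * b ^ 2 * ((a : ℤ) ^ 2 * b - 4)).card : ℝ) ≤
      2 * N * (1 + (a : ℝ) ^ 2) / (p : ℝ) ^ V1 + 2 := by
  have hpV : 0 < p ^ V1 := pow_pos hp.pos _
  have hpVr : (0 : ℝ) < (p : ℝ) ^ V1 := by exact_mod_cast hpV
  have hsub : ((Icc (-(N : ℤ)) N).filter fun b : ℤ =>
      ((p ^ (3 * V1 + 3) : ℕ) : ℤ) ∣ 8 * b ^ 2 * ((a : ℤ) ^ 2 * b - 4)) ⊆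
      ((Icc (-(N : ℤ)) N).filter fun b : ℤ => ((p ^ V1 : ℕ) : ℤ) ∣ b) ∪
      ((Icc (-(N : ℤ)) N).filter fun b : ℤ => ((p ^ V1 : ℕ) : ℤ) ∣ (a : ℤ) ^ 2 * b - 4) := by
    intro b hb
    rw [Finset.mem_filter] at hb
    rw [Finset.mem_union, Finset.mem_filter, Finset.mem_filter]
    rcases pow_cases p V1 hp _ _ hb.2 with h | h
    · exact Or.inl ⟨hb.1, h⟩
    · exact Or.inr ⟨hb.1, h⟩
  have c1 := class_card_int (p ^ V1) hpV N
    ((Icc (-(N : ℤ)) N).filter fun b : ℤ => ((p ^ V1 : ℕ) : ℤ) ∣ b)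
    (by intro b hb; rw [Finset.mem_filter, Finset.mem_Icc] at hb; exact hb.1)
    (by
      intro b hb b' hb'
      rw [Finset.mem_filter] at hb hb'
      exact dvd_sub hb.2 hb'.2)
  have hgcd : 0 < Nat.gcd (p ^ V1) (a ^ 2) := Nat.gcd_pos_of_pos_left _ hpV
  have hG : 0 < p ^ V1 / Nat.gcd (p ^ V1) (a ^ 2) :=
    Nat.div_pos (Nat.le_of_dvd hpV (Nat.gcd_dvd_left _ _)) hgcd
  have c2 := class_card_int (p ^ V1 / Nat.gcd (p ^ V1) (a ^ 2)) hG N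
    ((Icc (-(N : ℤ)) N).filter fun b : ℤ => ((p ^ V1 : ℕ) : ℤ) ∣ (a : ℤ) ^ 2 * b - 4)
    (by intro b hb; rw [Finset.mem_filter, Finset.mem_Icc] at hb; exact hb.1)
    (by
      intro b hb b' hb'
      rw [Finset.mem_filter] at hb hb'
      have h1 := dvd_sub hb.2 hb'.2
      have h2 : (a : ℤ) ^ 2 * b - 4 - ((a : ℤ) ^ 2 * b' - 4) = ((a ^ 2 : ℕ) : ℤ) * (b - b') := by
        push_cast; ring
      rw [h2] at h1
      rw [← Int.natAbs_dvd_natAbs, Int.natAbs_mul, Int.natAbs_natCast, Int.natAbs_natCast] at h1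
      rw [← Int.natAbs_dvd_natAbs, Int.natAbs_natCast]
      have hg : Nat.Coprime (p ^ V1 / Nat.gcd (p ^ V1) (a ^ 2)) (a ^ 2 / Nat.gcd (p ^ V1) (a ^ 2)) :=
        Nat.coprime_div_gcd_div_gcd hgcd
      refine hg.dvd_of_dvd_mul_left ?_
      have e1 : p ^ V1 = Nat.gcd (p ^ V1) (a ^ 2) * (p ^ V1 / Nat.gcd (p ^ V1) (a ^ 2)) :=
        (Nat.mul_div_cancel' (Nat.gcd_dvd_left _ _)).symm
      have e2 : a ^ 2 = Nat.gcd (p ^ V1) (a ^ 2) * (a ^ 2 / Nat.gcd (p ^ V1) (a ^ 2)) :=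
        (Nat.mul_div_cancel' (Nat.gcd_dvd_right _ _)).symm
      have h3 : Nat.gcd (p ^ V1) (a ^ 2) * (p ^ V1 / Nat.gcd (p ^ V1) (a ^ 2)) ∣
          Nat.gcd (p ^ V1) (a ^ 2) * (a ^ 2 / Nat.gcd (p ^ V1) (a ^ 2) * (b - b').natAbs) := by
        rw [← mul_assoc, ← e1, ← e2]
        exact h1
      exact Nat.dvd_of_mul_dvd_mul_left hgcd h3)
  have c2' : 2 * (N : ℝ) / ((p ^ V1 / Nat.gcd (p ^ V1) (a ^ 2) : ℕ) : ℝ) ≤
      2 * N * (a : ℝ) ^ 2 / (p : ℝ) ^ V1 := by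
    have hGr : (0 : ℝ) < ((p ^ V1 / Nat.gcd (p ^ V1) (a ^ 2) : ℕ) : ℝ) := by exact_mod_cast hG
    rw [div_le_div_iff₀ hGr hpVr]
    have e : (p : ℝ) ^ V1 ≤ (a : ℝ) ^ 2 * ((p ^ V1 / Nat.gcd (p ^ V1) (a ^ 2) : ℕ) : ℝ) := by
      have : p ^ V1 ≤ a ^ 2 * (p ^ V1 / Nat.gcd (p ^ V1) (a ^ 2)) := by
        calc p ^ V1 = Nat.gcd (p ^ V1) (a ^ 2) * (p ^ V1 / Nat.gcd (p ^ V1) (a ^ 2)) :=
              (Nat.mul_div_cancel' (Nat.gcd_dvd_left _ _)).symm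
          _ ≤ _ := Nat.mul_le_mul_right _ (Nat.le_of_dvd (by positivity) (Nat.gcd_dvd_right _ _))
      exact_mod_cast this
    have hN : (0 : ℝ) ≤ 2 * N := by positivity
    nlinarith [mul_le_mul_of_nonneg_left e hN]
  have hcard := le_trans (Finset.card_le_card hsub) (Finset.card_union_le _ _)
  have hcard' : (((Icc (-(N : ℤ)) N).filter fun b : ℤ =>
      ((p ^ (3 * V1 + 3) : ℕ) : ℤ) ∣ 8 * b ^ 2 * ((a : ℤ) ^ 2 * b - 4)).card : ℝ) ≤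
      (((Icc (-(N : ℤ)) N).filter fun b : ℤ => ((p ^ V1 : ℕ) : ℤ) ∣ b).card : ℝ) +
      (((Icc (-(N : ℤ)) N).filter fun b : ℤ => ((p ^ V1 : ℕ) : ℤ) ∣ (a : ℤ) ^ 2 * b - 4).card : ℝ) := by
    exact_mod_cast hcard
  have e0 : ((p ^ V1 : ℕ) : ℝ) = (p : ℝ) ^ V1 := Nat.cast_pow _ _
  rw [e0] at c1
  have e3 : 2 * (N : ℝ) * (1 + (a : ℝ) ^ 2) / (p : ℝ) ^ V1 =
      2 * N / (p : ℝ) ^ V1 + 2 * N * (a : ℝ) ^ 2 / (p : ℝ) ^ V1 := by ring
  rw [e3]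
  linarith

end Pool.Agent.MK47
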