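import Pool.Agent.MK47.ApSum

/-!
# The `x` with `d ∣ a² x² - 4`

* `dz_classes`: `d ≥ 1` without prime factor dividing `2 a`. There is a set `R` of at most `τ(d)` integers such that
  `d ∣ a² x² - 4` implies `d ∣ x - r` for some `r ∈ R`. By induction over coprime prime powers
  (`Nat.recOnPosPrimePosCoprime`): for `d = p^k`, `k ≥ 1`: `p` cannot divide both `a x - 2` and `a x + 2`
  (their difference is `4`), so `p^k ∣ a x - 2` or `p^k ∣ a x + 2`; with `a a' ≡ 1 (mod p^k)`, `x ≡ ± 2 a'`: `R = {2a', -2a'}`,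
  `2 ≤ k + 1 = τ(p^k)`. For coprime `m, n`: Chinese remainder theorem, `|R| ≤ |R_m| |R_n|`. For `d = 1`: `R = {0}`.
* `dz_sum`: union bound over `R` and `ap_sum`; a prime factor of a rough `d` is `> P0`, so it does
  not divide `h`, so it is neither `2` nor a divisor of `a` (`c.two_h`, `c.a_h`).
-/

namespace Pool.Agent.MK47

open Finset Filter

theorem dz_classes (a d : ℕ) (hd : 0 < d) (h : ∀ p : ℕ, p.Prime → p ∣ d → p ≠ 2 ∧ ¬ p ∣ a) :
    ∃ R : Finset ℤ, R.card ≤ d.divisors.card ∧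
      ∀ x : ℤ, (d : ℤ) ∣ (a : ℤ) ^ 2 * x ^ 2 - 4 → ∃ r ∈ R, (d : ℤ) ∣ x - r := by
  classical
  induction d using Nat.recOnPosPrimePosCoprime with
  | zero => exact absurd hd (lt_irrefl 0)
  | one =>
    refine ⟨{0}, ?_, ?_⟩
    · rw [Finset.card_singleton, Nat.divisors_one, Finset.card_singleton]
    · intro x _
      exact ⟨0, Finset.mem_singleton_self _, by simp⟩
  | prime_pow p k hp hk =>
    obtain ⟨h2, ha⟩ := h p hp (dvd_pow_self p hk.ne')
    have hpz : Prime (p : ℤ) := Nat.prime_iff_prime_int.1 hp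
    have hcop : IsCoprime (a : ℤ) ((p : ℤ) ^ k) := by
      have h3 : a.Coprime (p ^ k) := Nat.Coprime.pow_right k ((Nat.Prime.coprime_iff_not_dvd hp).2 ha).symm
      have h4 := Nat.isCoprime_iff_coprime.mpr h3
      push_cast at h4
      exact h4
    obtain ⟨u, v, huv⟩ := hcop
    refine ⟨{2 * u, -(2 * u)}, ?_, ?_⟩
    · refine (Finset.card_insert_le _ _).trans ?_
      rw [Finset.card_singleton, Nat.divisors_prime_pow hp, Finset.card_map, Finset.card_range]
      omega
    · intro x hx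
      push_cast at hx ⊢
      have h5 : ((p : ℤ) ^ k) ∣ (a * x - 2) * (a * x + 2) := by
        have : ((a : ℤ) * x - 2) * (a * x + 2) = (a : ℤ) ^ 2 * x ^ 2 - 4 := by ring
        rw [this]
        exact hx
      by_cases h6 : (p : ℤ) ∣ a * x - 2
      · have h7 : ¬ (p : ℤ) ∣ a * x + 2 := by
          intro h8
          have h9 : (p : ℤ) ∣ 4 := by
            have : (4 : ℤ) = (a * x + 2) - (a * x - 2) := by ring
            rw [this]
            exact dvd_sub h8 h6
          have h10 : p ∣ 2 ^ 2 := by exact_mod_cast h9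
          exact h2 ((Nat.prime_dvd_prime_iff_eq hp Nat.prime_two).1 (hp.dvd_of_dvd_pow h10))
        have h8 : IsCoprime ((p : ℤ) ^ k) (a * x + 2) :=
          IsCoprime.pow_left ((Prime.coprime_iff_not_dvd hpz).2 h7)
        obtain ⟨t, ht⟩ := h8.dvd_of_dvd_mul_right h5
        refine ⟨2 * u, Finset.mem_insert_self _ _, u * t + v * x, ?_⟩
        linear_combination u * ht - x * huv
      · have h8 : IsCoprime ((p : ℤ) ^ k) (a * x - 2) :=
          IsCoprime.pow_left ((Prime.coprime_iff_not_dvd hpz).2 h6)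
        obtain ⟨t, ht⟩ := h8.dvd_of_dvd_mul_left h5
        refine ⟨-(2 * u), Finset.mem_insert_of_mem (Finset.mem_singleton_self _), u * t + v * x, ?_⟩
        linear_combination u * ht - x * huv
  | coprime m n hm hn hmn ihm ihn =>
    obtain ⟨Rm, hRm, hRm'⟩ := ihm (by omega) fun p hp hpm => h p hp (hpm.mul_right n)
    obtain ⟨Rn, hRn, hRn'⟩ := ihn (by omega) fun p hp hpn => h p hp (hpn.mul_left m)
    have hcop := Nat.isCoprime_iff_coprime.mpr hmn
    obtain ⟨u, v, huv⟩ := id hcop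
    refine ⟨(Rm ×ˢ Rn).image fun r => r.1 * (v * n) + r.2 * (u * m), ?_, ?_⟩
    · refine Finset.card_image_le.trans ?_
      rw [Finset.card_product, hmn.card_divisors_mul]
      exact Nat.mul_le_mul hRm hRn
    · intro x hx
      push_cast at hx ⊢
      obtain ⟨r, hr, t, ht⟩ := hRm' x ((Dvd.intro _ rfl).trans hx)
      obtain ⟨s, hs, w, hw⟩ := hRn' x ((Dvd.intro_left _ rfl).trans hx)
      refine ⟨r * (v * n) + s * (u * m), Finset.mem_image.2 ⟨(r, s), Finset.mem_product.2 ⟨hr, hs⟩, rfl⟩,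
        hcop.mul_dvd ⟨t + (r - s) * u, ?_⟩ ⟨w + (s - r) * v, ?_⟩⟩
      · linear_combination ht - r * huv
      · linear_combination hw - s * huv

theorem dz_sum (c : Cls) (P0 : ℕ) (hc : c.Full P0) (N d : ℕ) (hd : 0 < d) (h : Rough P0 d) :
    ∑ x ∈ (XX c N).filter (fun x : ℕ => d ∣ (DD c.a x).natAbs), 1 / (x : ℝ) ≤
      d.divisors.card * (Real.exp (-(2 / 3) * ell N) + (ell N + 1) / ((d : ℝ) * c.Q)) := by
  classical
  have hcop := rough_cop c P0 hc d hd.ne' h
  obtain ⟨R, hR, hR'⟩ := dz_classes c.a d hd fun p hp hpd => by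
    have h1 : P0 < p := h p hp hpd
    refine ⟨fun h2 => ?_, fun h2 => ?_⟩
    · have h3 := (hc 2 Nat.prime_two).1 c.two_h
      omega
    · have h3 := (hc p hp).1 (c.a_h p hp h2)
      omega
  have hB : 0 ≤ Real.exp (-(2 / 3) * ell N) + (ell N + 1) / ((d : ℝ) * c.Q) := by
    have := ell_nonneg N
    positivity
  have h1 : ∑ x ∈ (XX c N).filter (fun x : ℕ => d ∣ (DD c.a x).natAbs), 1 / (x : ℝ) ≤
      ∑ x ∈ XX c N, ∑ r ∈ R, if (d : ℤ) ∣ (x : ℤ) - r then 1 / (x : ℝ) else 0 := by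
    refine le_trans (Finset.sum_le_sum (g := fun x : ℕ => ∑ r ∈ R, if (d : ℤ) ∣ (x : ℤ) - r then
      1 / (x : ℝ) else 0) fun x hx => ?_)
      (Finset.sum_le_sum_of_subset_of_nonneg (Finset.filter_subset _ _) fun x _ _ =>
        Finset.sum_nonneg fun r _ => by split_ifs <;> positivity)
    rw [Finset.mem_filter] at hx
    have h2 : (d : ℤ) ∣ (c.a : ℤ) ^ 2 * (x : ℤ) ^ 2 - 4 := Int.natCast_dvd.2 hx.2
    obtain ⟨r, hr, hr'⟩ := hR' x h2
    have h3 := Finset.single_le_sum (f := fun r : ℤ => if (d : ℤ) ∣ (x : ℤ) - r then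
      1 / (x : ℝ) else 0) (fun r _ => by split_ifs <;> positivity) hr
    rw [if_pos hr'] at h3
    exact h3
  refine h1.trans ?_
  rw [Finset.sum_comm]
  refine (Finset.sum_le_sum fun r _ => ?_).trans (?_ : ∑ _r ∈ R,
    (Real.exp (-(2 / 3) * ell N) + (ell N + 1) / ((d : ℝ) * c.Q)) ≤ _)
  · rw [← Finset.sum_filter]
    exact ap_sum c N d hd hcop r
  · rw [Finset.sum_const, nsmul_eq_mul]
    exact mul_le_mul_of_nonneg_right (by exact_mod_cast hR) hB

end Pool.Agent.MK47
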