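import Pool.Agent.MK47.Defs

/-!
# Properties of `gf` and `WW`

* `gp_nonneg`, `gf_nonneg`: all factors are nonnegative; `gf_one = 1` (empty product).
* `gf_mul`: for coprime `m, n`: `(m n).factorization = m.factorization + n.factorization` with disjoint
  supports (`Finsupp.prod_add_index_of_disjoint`, `Nat.factorization_mul_of_coprime`).
* `WW_mul`: the divisors of `m n` are the products of divisors of `m` and of `n`
  (`Nat.Coprime.sum_divisors_mul` or `ArithmeticFunction` `IsMultiplicative.mul` with `zeta`,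
  or `Nat.divisors_mul` + coprimality).
* `WW_one_le`: the divisor `1` gives `1`.
* `WW_mono`: `m ∣ n`, `n ≠ 0`: `divisors m ⊆ divisors n` and the terms are nonnegative.
* `WW_le`: for `A ≠ 0`, `n ≥ 1`: `WW n ≤ gcd(A, B) τ(n)^4`. By multiplicativity
  (`Nat.recOnPosPrimePosCoprime` or `Nat.recOnMul`, or a product over the factorization) it suffices that for a prime `p` and
  `k ≥ 1`: `WW (p^k) ≤ p^(min k δ) (k+1)^4` with `δ = del A B p`, and `∏_{p ∣ n} p^(δ_p) ∣ gcd(A,B)`, `gcd(A, B) ≠ 0`.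
  `WW (p^k) = 1 + ∑_{j=1}^k gp p j`. If `p ∣ A B C` it is `1 + 8 ∑_{j ≤ k} p^(min j δ) ≤ (1 + 8 k) p^(min k δ) ≤ (k+1)^4 p^(min k δ)`
  since `(k+1)^4 ≥ 1 + 4k + 6k² + 4k³ + k⁴ ≥ 1 + 8k`. If `p ∤ A B C` it is `≤ 1 + 1/p + 2 ≤ 4 ≤ (k+1)^4`.
  (A convenient inductive statement: `WW n ≤ (∏ p ∈ n.primeFactors, p^(del A B p)) * τ(n)^4`.)
-/

namespace Pool.Agent.MK47

open Finset

theorem gp_nonneg (A B C : ℤ) (p k : ℕ) : 0 ≤ gp A B C p k := by
  unfold gp
  split_ifs <;> positivity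

theorem gf_nonneg (A B C : ℤ) (n : ℕ) : 0 ≤ gf A B C n := by
  unfold gf
  exact Finset.prod_nonneg fun p _ => gp_nonneg _ _ _ _ _

theorem gf_one (A B C : ℤ) : gf A B C 1 = 1 := by
  unfold gf
  simp

theorem gf_mul (A B C : ℤ) (m n : ℕ) (h : m.Coprime n) : gf A B C (m * n) = gf A B C m * gf A B C n := by
  unfold gf
  rw [Nat.factorization_mul_of_coprime h]
  exact Finsupp.prod_add_index_of_disjoint (by simpa using h.disjoint_primeFactors) _

theorem WW_one_le (A B C : ℤ) (n : ℕ) (hn : n ≠ 0) : 1 ≤ WW A B C n := by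
  unfold WW
  have h1 : (1 : ℕ) ∈ n.divisors := Nat.one_mem_divisors.2 hn
  have h2 := Finset.single_le_sum (f := fun d => gf A B C d) (fun d _ => gf_nonneg A B C d) h1
  simpa only [gf_one] using h2

theorem WW_mul (A B C : ℤ) (m n : ℕ) (h : m.Coprime n) : WW A B C (m * n) = WW A B C m * WW A B C n := by
  unfold WW
  rw [h.divisors_mul, Finset.sum_map, Finset.sum_mul_sum, ← Finset.sum_product']
  rw [← Finset.sum_attach (m.divisors ×ˢ n.divisors)]
  refine Finset.sum_congr rfl fun x _ => ?_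
  have hx := x.2
  rw [Finset.mem_coe, Finset.mem_product, Nat.mem_divisors, Nat.mem_divisors] at hx
  exact gf_mul A B C _ _ ((h.coprime_dvd_left hx.1.1).coprime_dvd_right hx.2.1)

theorem WW_mono (A B C : ℤ) (m n : ℕ) (h : m ∣ n) (hn : n ≠ 0) : WW A B C m ≤ WW A B C n := by
  unfold WW
  exact Finset.sum_le_sum_of_subset_of_nonneg (Nat.divisors_subset_of_dvd hn h)
    fun d _ _ => gf_nonneg A B C d

private theorem gp_le_aux (A B C : ℤ) (p : ℕ) (hp : p.Prime) (j : ℕ) :
    gp A B C p j ≤ 8 * (p : ℝ) ^ del A B p := by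
  have hp1 : (1 : ℝ) ≤ p := by exact_mod_cast hp.one_lt.le
  have h1 : (1 : ℝ) ≤ (p : ℝ) ^ del A B p := one_le_pow₀ hp1
  unfold gp
  split_ifs
  · have : (p : ℝ) ^ min j (del A B p) ≤ (p : ℝ) ^ del A B p :=
      pow_le_pow_right₀ hp1 (min_le_right _ _)
    linarith
  · have : (1 : ℝ) / p ≤ 1 := by
      rw [div_le_one (by linarith)]
      exact hp1
    linarith
  · linarith
  · linarith

private theorem WW_pp_aux (A B C : ℤ) (p : ℕ) (hp : p.Prime) (k : ℕ) (hk : 0 < k) :
    WW A B C (p ^ k) ≤ (p : ℝ) ^ del A B p * ((k : ℝ) + 1) ^ 4 := by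
  have hp1 : (1 : ℝ) ≤ p := by exact_mod_cast hp.one_lt.le
  have h1 : (1 : ℝ) ≤ (p : ℝ) ^ del A B p := one_le_pow₀ hp1
  have hk1 : (1 : ℝ) ≤ k := by exact_mod_cast hk
  have h2 : WW A B C (p ^ k) ≤ 1 + ∑ j ∈ range k, 8 * (p : ℝ) ^ del A B p := by
    unfold WW
    rw [Nat.sum_divisors_prime_pow hp, Finset.sum_range_succ', pow_zero, gf_one, add_comm]
    refine add_le_add le_rfl (Finset.sum_le_sum fun j _ => ?_)
    unfold gf
    rw [hp.factorization_pow, Finsupp.prod]
    have hs : (Finsupp.single p (j + 1)).support = {p} :=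
      Finsupp.support_single_ne_zero _ (by omega)
    rw [hs, Finset.prod_singleton]
    exact gp_le_aux _ _ _ _ hp _
  rw [Finset.sum_const, Finset.card_range, nsmul_eq_mul] at h2
  set X := (p : ℝ) ^ del A B p with hX
  have h3 : 1 + 8 * (k : ℝ) ≤ ((k : ℝ) + 1) ^ 4 := by
    have e : ((k : ℝ) + 1) ^ 4 = 1 + 4 * k + 6 * k ^ 2 + 4 * k ^ 3 + k ^ 4 := by ring
    have e2 : (k : ℝ) ≤ k ^ 2 := by nlinarith
    have e3 : (0 : ℝ) ≤ (k : ℝ) ^ 3 := by positivity
    have e4 : (0 : ℝ) ≤ (k : ℝ) ^ 4 := by positivity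
    rw [e]
    linarith
  calc WW A B C (p ^ k) ≤ 1 + k * (8 * X) := h2
    _ ≤ X * (1 + 8 * k) := by nlinarith
    _ ≤ X * ((k : ℝ) + 1) ^ 4 := mul_le_mul_of_nonneg_left h3 (by linarith)

private theorem WW_le_aux (A B C : ℤ) (n : ℕ) (hn : n ≠ 0) :
    WW A B C n ≤ ((∏ p ∈ n.primeFactors, p ^ del A B p : ℕ) : ℝ) * (n.divisors.card : ℝ) ^ 4 := by
  induction n using Nat.recOnPosPrimePosCoprime with
  | prime_pow p k hp hk =>
    have h := WW_pp_aux A B C p hp k hk
    rw [Nat.primeFactors_prime_pow hk.ne' hp, Finset.prod_singleton, Nat.divisors_prime_pow hp,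
      Finset.card_map, Finset.card_range]
    push_cast
    exact h
  | zero => exact absurd rfl hn
  | one =>
    unfold WW
    rw [Nat.divisors_one, Finset.sum_singleton, gf_one]
    simp
  | coprime a b ha hb hab iha ihb =>
    have ha0 : a ≠ 0 := by omega
    have hb0 : b ≠ 0 := by omega
    have h1 := iha ha0
    have h2 := ihb hb0
    rw [WW_mul A B C a b hab, hab.card_divisors_mul, Nat.primeFactors_mul ha0 hb0,
      Finset.prod_union hab.disjoint_primeFactors]
    have h3 : (0 : ℝ) ≤ WW A B C b := le_trans zero_le_one (WW_one_le A B C b hb0)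
    have h4 := mul_le_mul h1 h2 h3 (by positivity)
    refine h4.trans (le_of_eq ?_)
    push_cast
    ring

theorem WW_le (A B C : ℤ) (hA : A ≠ 0) (n : ℕ) (hn : n ≠ 0) :
    WW A B C n ≤ (Int.gcd A B : ℝ) * (n.divisors.card : ℝ) ^ 4 := by
  have h1 := WW_le_aux A B C n hn
  have hg : Int.gcd A B ≠ 0 := by
    intro h
    exact hA (Int.gcd_eq_zero_iff.1 h).1
  have h2 : (∏ p ∈ n.primeFactors, p ^ del A B p) ∣ Int.gcd A B := by
    have e1 : ∏ p ∈ n.primeFactors ∩ (Int.gcd A B).primeFactors, p ^ del A B p =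
        ∏ p ∈ n.primeFactors, p ^ del A B p := by
      refine Finset.prod_subset Finset.inter_subset_left fun p hp hp' => ?_
      have hp2 : p ∉ (Int.gcd A B).primeFactors := fun hq => hp' (Finset.mem_inter.2 ⟨hp, hq⟩)
      have hd : del A B p = 0 := by
        unfold del
        rw [← Nat.support_factorization] at hp2
        exact Finsupp.notMem_support_iff.1 hp2
      rw [hd, pow_zero]
    have e2 : ∏ p ∈ (Int.gcd A B).primeFactors, p ^ del A B p = Int.gcd A B := by
      have := Nat.prod_factorization_pow_eq_self hg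
      rw [Finsupp.prod, Nat.support_factorization] at this
      exact this
    rw [← e1]
    conv_rhs => rw [← e2]
    exact Finset.prod_dvd_prod_of_subset _ _ _ Finset.inter_subset_right
  have h3 : (∏ p ∈ n.primeFactors, p ^ del A B p) ≤ Int.gcd A B :=
    Nat.le_of_dvd (Nat.pos_of_ne_zero hg) h2
  have h4 : ((∏ p ∈ n.primeFactors, p ^ del A B p : ℕ) : ℝ) ≤ (Int.gcd A B : ℝ) := by
    exact_mod_cast h3
  exact h1.trans (mul_le_mul_of_nonneg_right h4 (by positivity))

end Pool.Agent.MK47
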