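import Pool.Agent.MK47.RhoPP
import Pool.Agent.MK47.WWprops

/-!
# `ρ(n) ≤ n W(n)`

For `n` without prime factors dividing `2 a`: write `n = ∏ p^k` and use `rho_mul`, `WW_mul`, `rho_pp`
(e.g. `Nat.recOnPosPrimePosCoprime` with the statement
`(∀ p prime, p ∣ n → p ≠ 2 ∧ ¬ p ∣ a) → rho A B C n ≤ n * WW A B C n`; `n = 0` and `n = 1` are
immediate: `rho_one`, `WW_one_le`; for `n = 0` both sides vanish).
`gcd_DD`: for `A = DD a x`, `B = DD a x'`, `C = CC x x'` the relation `a² C = 4 (B - A)` is `ring`.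
-/

namespace Pool.Agent.MK47

open Finset

theorem rel_DD (a x x' : ℕ) : (a : ℤ) ^ 2 * CC x x' = 4 * (DD a x' - DD a x) := by
  unfold CC DD
  ring

theorem DD_pos (a x : ℕ) (h : 3 ≤ a * x) : 0 < DD a x := by
  unfold DD
  have h1 : (3 : ℤ) ≤ (a : ℤ) * x := by exact_mod_cast h
  nlinarith

theorem rho_WW (a : ℕ) (A B C : ℤ) (hA : A ≠ 0) (hC : (a : ℤ) ^ 2 * C = 4 * (B - A)) (n : ℕ)
    (hn : ∀ p : ℕ, p.Prime → p ∣ n → p ≠ 2 ∧ ¬ p ∣ a) :
    (rho A B C n : ℝ) ≤ n * WW A B C n := by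
  induction n using Nat.recOnPosPrimePosCoprime with
  | prime_pow p k hp hk =>
    obtain ⟨h2, ha⟩ := hn p hp (dvd_pow_self p hk.ne')
    have h := rho_pp a p hp h2 ha A B C hA hC k
    push_cast
    exact h
  | zero =>
    have h0 : rho A B C 0 = 0 := by
      unfold rho
      simp
    rw [h0]
    simp
  | one =>
    rw [rho_one]
    have := WW_one_le A B C 1 one_ne_zero
    simpa using this
  | coprime m n hm hn' hmn ihm ihn =>
    have h1 := ihm fun p hp hpm => hn p hp (hpm.mul_right n)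
    have h2 := ihn fun p hp hpn => hn p hp (hpn.mul_left m)
    rw [rho_mul A B C m n (by omega) (by omega) hmn, WW_mul A B C m n hmn]
    have hW : (0 : ℝ) ≤ WW A B C m := le_trans zero_le_one (WW_one_le A B C m (by omega))
    have h3 := mul_le_mul h1 h2 (Nat.cast_nonneg _) (mul_nonneg (Nat.cast_nonneg _) hW)
    push_cast
    refine h3.trans (le_of_eq ?_)
    ring

end Pool.Agent.MK47
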