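import Pool.Agent.MK47.VGen
import Pool.Agent.MK47.DZ
import Pool.Agent.MK47.Rho

/-!
# Averages of `S1 (D_x)`, `S1 |x - x'|`, `S1 (x + x')`

All from `v_gen` with the same `P1` (plus `P1 ≥ 2`):
* `v_one`: `f x = |DD a x|`, `M = a²`; positive since `a x ≥ 3` for large `N` (`x_large`, `DD_pos`); the divisor condition is
  `dz_sum`.
* `v_two`: `x ∈ XX` fixed (the eventual set of `N` from `v_gen` does not depend on `f`, so not on `x`), `f x' = |x - x'|` for `x' ≠ x` and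
  `f x = 1`, `M = 1`. For `d ≥ 2`, `d ∣ f x'` implies `x' ≠ x` and `d ∣ x' - x`; `ap_sum` with `r = x` (`rough_cop`),
  `τ(d) ≥ 1`. The sum over `XX.erase x` is at most the sum over `XX` (`S1 ≥ 0`).
* `v_three`: `f x' = x + x'`, `M = 2` (`x + x' ≤ 2 exp ℓ ≤ 2 exp (2ℓ)`), `r = -x`.
-/

namespace Pool.Agent.MK47

open Finset Filter

private theorem exp_ell_le (N : ℕ) : Real.exp (ell N) ≤ Real.exp (2 * ell N) :=
  Real.exp_le_exp.mpr (by linarith [ell_nonneg N])

private theorem bound_nonneg (c : Cls) (N d : ℕ) :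
    0 ≤ Real.exp (-(2 / 3) * ell N) + (ell N + 1) / ((d : ℝ) * c.Q) := by
  have := ell_nonneg N
  positivity

private theorem le_tau_mul {d : ℕ} (hd : d ≠ 0) {t : ℝ} (ht : 0 ≤ t) :
    t ≤ (d.divisors.card : ℝ) * t := by
  have h1 : (1 : ℝ) ≤ (d.divisors.card : ℝ) := by
    have : 0 < d.divisors.card := Finset.card_pos.2 ⟨1, Nat.one_mem_divisors.2 hd⟩
    exact_mod_cast this
  calc t = 1 * t := (one_mul t).symm
    _ ≤ _ := mul_le_mul_of_nonneg_right h1 ht

theorem v_one (ε : ℝ) (hε : 0 < ε) : ∃ P1 : ℕ, ∀ P0 : ℕ, P1 ≤ P0 → ∀ c : Cls, c.Full P0 →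
    ∀ᶠ N : ℕ in atTop, ∑ x ∈ XX c N, S1 P0 (DD c.a x).natAbs / x ≤ (1 + ε) * SX c N := by
  obtain ⟨P1, h⟩ := v_gen ε hε
  refine ⟨P1, fun P0 hP c hc => ?_⟩
  filter_upwards [h P0 hP c hc ((c.a : ℝ) ^ 2), x_large 3] with N hN hlarge
  refine hN (fun x : ℕ => (DD c.a x).natAbs) ?_ ?_
  · intro x hx
    obtain ⟨h1, h2, -⟩ := mem_XX hx
    have h3 : (3 : ℝ) ≤ x := hlarge x h1
    have h3' : 3 ≤ x := by exact_mod_cast h3
    have h4 : 3 ≤ c.a * x := h3'.trans (Nat.le_mul_of_pos_left x c.a_pos)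
    have hpos := DD_pos c.a x h4
    refine ⟨Int.natAbs_pos.2 hpos.ne', ?_⟩
    have h5 : (((DD c.a x).natAbs : ℕ) : ℝ) = (DD c.a x : ℝ) := by
      rw [Nat.cast_natAbs, abs_of_pos hpos]
    rw [h5]
    unfold DD
    push_cast
    have h6 : (x : ℝ) ^ 2 ≤ Real.exp (2 * ell N) := by
      have : Real.exp (2 * ell N) = Real.exp (ell N) ^ 2 := by
        rw [← Real.exp_nat_mul]
        norm_num
      rw [this]
      exact pow_le_pow_left₀ (by positivity) h2 2
    have h7 : (c.a : ℝ) ^ 2 * (x : ℝ) ^ 2 ≤ (c.a : ℝ) ^ 2 * Real.exp (2 * ell N) :=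
      mul_le_mul_of_nonneg_left h6 (by positivity)
    linarith
  · intro d hd hr
    exact dz_sum c P0 hc N d (by omega) hr

theorem v_two (ε : ℝ) (hε : 0 < ε) : ∃ P1 : ℕ, ∀ P0 : ℕ, P1 ≤ P0 → ∀ c : Cls, c.Full P0 →
    ∀ᶠ N : ℕ in atTop, ∀ x ∈ XX c N,
    ∑ x' ∈ (XX c N).erase x, S1 P0 ((x : ℤ) - (x' : ℤ)).natAbs / (x' : ℝ) ≤ (1 + ε) * SX c N := by
  obtain ⟨P1, h⟩ := v_gen ε hε
  refine ⟨P1, fun P0 hP c hc => ?_⟩
  filter_upwards [h P0 hP c hc 1] with N hN x hx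
  have hxX := mem_XX hx
  have key := hN (fun x' : ℕ => if x' = x then 1 else ((x : ℤ) - (x' : ℤ)).natAbs) ?_ ?_
  · refine le_trans ?_ key
    refine le_trans (le_of_eq ?_) (Finset.sum_le_sum_of_subset_of_nonneg (Finset.erase_subset x (XX c N))
      fun x' _ _ => div_nonneg (S1_nonneg _ _) (Nat.cast_nonneg _))
    refine Finset.sum_congr rfl fun x' hx' => ?_
    rw [if_neg (Finset.ne_of_mem_erase hx')]
  · intro x' hx'
    have hx'X := mem_XX hx'
    split_ifs with heq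
    · refine ⟨one_pos, ?_⟩
      rw [Nat.cast_one, one_mul]
      exact Real.one_le_exp (by linarith [ell_nonneg N])
    · constructor
      · rw [Int.natAbs_pos]
        intro h0
        apply heq
        have : (x : ℤ) = x' := by linarith
        exact_mod_cast this.symm
      · rw [Nat.cast_natAbs, Int.cast_abs]
        push_cast
        rw [one_mul]
        refine le_trans ?_ (exp_ell_le N)
        rw [abs_le]
        have p1 : (0 : ℝ) ≤ (x : ℝ) := Nat.cast_nonneg _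
        have p2 : (0 : ℝ) ≤ (x' : ℝ) := Nat.cast_nonneg _
        constructor
        · linarith [hx'X.2.1]
        · linarith [hxX.2.1]
  · intro d hd hr
    have h1 := ap_sum c N d (by omega) (rough_cop c P0 hc d (by omega) hr) (x : ℤ)
    refine le_trans ?_ (le_trans h1 (le_tau_mul (by omega) (bound_nonneg c N d)))
    refine Finset.sum_le_sum_of_subset_of_nonneg ?_ fun x' _ _ => by positivity
    intro x' hx'
    rw [Finset.mem_filter] at hx' ⊢
    refine ⟨hx'.1, ?_⟩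
    have h2 := hx'.2
    split_ifs at h2 with heq
    · rw [heq, sub_self]
      exact dvd_zero _
    · have h3 : (d : ℤ) ∣ (x : ℤ) - x' := Int.natCast_dvd.2 h2
      rw [← neg_sub]
      exact (dvd_neg).2 h3

theorem v_three (ε : ℝ) (hε : 0 < ε) : ∃ P1 : ℕ, ∀ P0 : ℕ, P1 ≤ P0 → ∀ c : Cls, c.Full P0 →
    ∀ᶠ N : ℕ in atTop, ∀ x ∈ XX c N,
    ∑ x' ∈ (XX c N).erase x, S1 P0 (x + x') / (x' : ℝ) ≤ (1 + ε) * SX c N := by
  obtain ⟨P1, h⟩ := v_gen ε hε
  refine ⟨P1, fun P0 hP c hc => ?_⟩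
  filter_upwards [h P0 hP c hc 2] with N hN x hx
  have hxX := mem_XX hx
  have hxpos : 0 < x := by
    have h1 : (0 : ℝ) < x := lt_of_lt_of_le (Real.exp_pos _) hxX.1
    exact_mod_cast h1
  have key := hN (fun x' : ℕ => x + x') ?_ ?_
  · refine le_trans ?_ key
    exact Finset.sum_le_sum_of_subset_of_nonneg (Finset.erase_subset x (XX c N))
      fun x' _ _ => div_nonneg (S1_nonneg _ _) (Nat.cast_nonneg _)
  · intro x' hx'
    have hx'X := mem_XX hx'
    refine ⟨by omega, ?_⟩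
    push_cast
    have := exp_ell_le N
    linarith [hx'X.2.1, hxX.2.1]
  · intro d hd hr
    have h1 := ap_sum c N d (by omega) (rough_cop c P0 hc d (by omega) hr) (-(x : ℤ))
    refine le_trans ?_ (le_trans h1 (le_tau_mul (by omega) (bound_nonneg c N d)))
    refine Finset.sum_le_sum_of_subset_of_nonneg ?_ fun x' _ _ => by positivity
    intro x' hx'
    rw [Finset.mem_filter] at hx' ⊢
    refine ⟨hx'.1, ?_⟩
    have h3 : (d : ℤ) ∣ ((x + x' : ℕ) : ℤ) := Int.natCast_dvd_natCast.2 hx'.2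
    have h4 : (x' : ℤ) - -(x : ℤ) = ((x + x' : ℕ) : ℤ) := by push_cast; ring
    rw [h4]
    exact h3

end Pool.Agent.MK47
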