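import Pool.Agent.MK47.RoughTail
import Pool.Agent.MK47.DZ
import Pool.Agent.MK47.Rho

/-!
# The average of `S3 (gcd (D_x, D_x'))`

Let `ε > 0`; `P1` from `rough_tail` with `k = 22` and `ε' = ε/1200`. `T = exp (ℓ/2)`, `ℓ = ell N ≥ 1`, `SX ≥ ℓ/(6 Q)` (`ap_low`), so
`(ℓ+1)/Q ≤ 12 SX`. For `x ≠ x'` in `XX`, `G = gcd (D_x, D_x') ≥ 1` (`DD_pos`, large `N`), and
`S3 P0 G = 1 + ∑_{d ∣ G, d ≥ 2, rough} τ(d)^20`; `d ∣ G` iff `d ∣ D_x` and `d ∣ D_x'`. Write
`σ(d) = ∑_{x ∈ XX, d ∣ D_x} 1/x ≤ τ(d) (exp (-2ℓ/3) + (ℓ+1)/(d Q))` (`dz_sum`).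
* `1`: contributes at most `SX²`.
* `2 ≤ d ≤ T`: at most `∑ τ(d)^20 σ(d)² ≤ ∑ 2 τ(d)^22 (exp (-4ℓ/3) + (ℓ+1)²/(d Q)²)`. With `τ(d)^22 ≤ C d` the first part is at most
  `2 C T² exp (-4ℓ/3) = 2 C exp (-ℓ/3)`, small against `SX² ≥ 1/(36 Q²)`; the second, as `d² ≥ d^(3/2)`, is at most
  `2 ε' (12 SX)² = 288 ε' SX²`.
* `d > T`: at most `∑_x (1/x) ∑_{d ∣ D_x, d > T} τ(d)^20 σ(d)`, and `τ(d) ≤ τ(D_x)`,
  `σ(d) ≤ τ(D_x) (exp (-2ℓ/3) + (ℓ+1) exp (-ℓ/2)/Q) ≤ τ(D_x) (ℓ+2) exp (-ℓ/2)`, the number of `d` is at most `τ(D_x)`; and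
  `τ(D_x)^22 ≤ C (a² exp (2ℓ))^(1/16)` (`tau_le`, `k = 22`), so it is at most `SX C' (ℓ+2) exp (-ℓ/4) ≤ (ε/4) SX²` for large `N`.
-/

namespace Pool.Agent.MK47

open Finset Filter

private theorem pair_bound (R : ℕ → Prop) [DecidablePred R] (g : ℕ → ℝ) (hg : ∀ d, 0 ≤ g d)
    (Tn u v : ℕ) (hu : u ≠ 0) :
    ∑ d ∈ (Nat.gcd u v).divisors.filter R, g d ≤
      g 1 + ∑ d ∈ (Icc 2 Tn).filter R, (if d ∣ u ∧ d ∣ v then g d else 0) +
      ∑ d ∈ u.divisors.filter (fun d => R d ∧ Tn < d), (if d ∣ v then g d else 0) := by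
  rw [← Finset.sum_filter_add_sum_filter_not ((Nat.gcd u v).divisors.filter R) (fun d => d = 1)]
  rw [← Finset.sum_filter_add_sum_filter_not
    (((Nat.gcd u v).divisors.filter R).filter (fun d => ¬ d = 1)) (fun d => d ≤ Tn), ← add_assoc]
  refine add_le_add (add_le_add ?_ ?_) ?_
  · calc _ ≤ ∑ d ∈ ({1} : Finset ℕ), g d := by
          apply Finset.sum_le_sum_of_subset_of_nonneg
          · intro d hd
            simp only [mem_filter] at hd
            simp [hd.2]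
          · intro d _ _; exact hg d
      _ = g 1 := by simp
  · rw [← Finset.sum_filter]
    apply Finset.sum_le_sum_of_subset_of_nonneg
    · intro d hd
      simp only [mem_filter, Nat.mem_divisors, mem_Icc] at hd ⊢
      obtain ⟨⟨⟨⟨h1, h2⟩, h3⟩, h4⟩, h5⟩ := hd
      have hd0 : d ≠ 0 := by
        rintro rfl
        exact h2 (by simpa using h1)
      exact ⟨⟨⟨by omega, h5⟩, h3⟩, h1.trans (Nat.gcd_dvd_left _ _), h1.trans (Nat.gcd_dvd_right _ _)⟩
    · intro d _ _; exact hg d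
  · rw [← Finset.sum_filter]
    apply Finset.sum_le_sum_of_subset_of_nonneg
    · intro d hd
      simp only [mem_filter, Nat.mem_divisors] at hd ⊢
      obtain ⟨⟨⟨⟨h1, h2⟩, h3⟩, h4⟩, h5⟩ := hd
      exact ⟨⟨⟨h1.trans (Nat.gcd_dvd_left _ _), hu⟩, h3, by omega⟩, h1.trans (Nat.gcd_dvd_right _ _)⟩
    · intro d _ _; exact hg d

private theorem double_bound (R : ℕ → Prop) [DecidablePred R] (g : ℕ → ℝ) (hg : ∀ d, 0 ≤ g d)
    (Tn : ℕ) (X : Finset ℕ) (f : ℕ → ℕ) (hf : ∀ x ∈ X, f x ≠ 0) :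
    ∑ x ∈ X, ∑ x' ∈ X.erase x, (∑ d ∈ (Nat.gcd (f x) (f x')).divisors.filter R, g d) /
      ((x : ℝ) * x') ≤
      g 1 * (∑ x ∈ X, 1 / (x : ℝ)) ^ 2 +
      ∑ d ∈ (Icc 2 Tn).filter R, g d * (∑ x ∈ X.filter (fun x => d ∣ f x), 1 / (x : ℝ)) ^ 2 +
      ∑ x ∈ X, (1 / (x : ℝ)) * ∑ d ∈ (f x).divisors.filter (fun d => R d ∧ Tn < d),
        g d * (∑ x' ∈ X.filter (fun x' => d ∣ f x'), 1 / (x' : ℝ)) := by
  have h1 : ∑ x ∈ X, ∑ x' ∈ X.erase x, (∑ d ∈ (Nat.gcd (f x) (f x')).divisors.filter R, g d) /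
      ((x : ℝ) * x') ≤ ∑ x ∈ X, ∑ x' ∈ X, (g 1 +
        ∑ d ∈ (Icc 2 Tn).filter R, (if d ∣ f x ∧ d ∣ f x' then g d else 0) +
      ∑ d ∈ (f x).divisors.filter (fun d => R d ∧ Tn < d), (if d ∣ f x' then g d else 0)) *
        ((1 / (x : ℝ)) * (1 / (x' : ℝ))) := by
    apply Finset.sum_le_sum
    intro x hx
    have hpos : ∀ x' : ℕ, 0 ≤ (g 1 +
        ∑ d ∈ (Icc 2 Tn).filter R, (if d ∣ f x ∧ d ∣ f x' then g d else 0) +
      ∑ d ∈ (f x).divisors.filter (fun d => R d ∧ Tn < d), (if d ∣ f x' then g d else 0)) *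
        ((1 / (x : ℝ)) * (1 / (x' : ℝ))) := by
      intro x'
      apply mul_nonneg
      · apply add_nonneg (add_nonneg (hg 1) ?_) ?_
        · apply Finset.sum_nonneg; intro d _; split_ifs; exacts [hg d, le_rfl]
        · apply Finset.sum_nonneg; intro d _; split_ifs; exacts [hg d, le_rfl]
      · positivity
    calc _ ≤ ∑ x' ∈ X.erase x, (g 1 +
        ∑ d ∈ (Icc 2 Tn).filter R, (if d ∣ f x ∧ d ∣ f x' then g d else 0) +
      ∑ d ∈ (f x).divisors.filter (fun d => R d ∧ Tn < d), (if d ∣ f x' then g d else 0)) *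
        ((1 / (x : ℝ)) * (1 / (x' : ℝ))) := by
          apply Finset.sum_le_sum
          intro x' hx'
          have h2 := pair_bound R g hg Tn (f x) (f x') (hf x hx)
          have h3 : (∑ d ∈ (Nat.gcd (f x) (f x')).divisors.filter R, g d) / ((x : ℝ) * x') =
            (∑ d ∈ (Nat.gcd (f x) (f x')).divisors.filter R, g d) * ((1 / (x : ℝ)) * (1 / (x' : ℝ))) := by
            rw [div_eq_mul_inv, mul_inv, one_div, one_div]
          rw [h3]
          exact mul_le_mul_of_nonneg_right h2 (by positivity)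
      _ ≤ _ := by
          apply Finset.sum_le_sum_of_subset_of_nonneg (Finset.erase_subset _ _)
          intro x' _ _
          exact hpos x'
  refine h1.trans (le_of_eq ?_)
  simp only [add_mul, Finset.sum_add_distrib]
  congr 1
  · congr 1
    · rw [sq, Finset.sum_mul_sum, Finset.mul_sum]
      apply Finset.sum_congr rfl
      intro x _
      rw [Finset.mul_sum]
    · -- exchange
      have h4 : ∀ x ∈ X, ∀ x' ∈ X, (∑ d ∈ (Icc 2 Tn).filter R, (if d ∣ f x ∧ d ∣ f x' then g d else 0)) *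
          ((1 / (x : ℝ)) * (1 / (x' : ℝ))) = ∑ d ∈ (Icc 2 Tn).filter R,
            g d * ((if d ∣ f x then 1 / (x : ℝ) else 0) * (if d ∣ f x' then 1 / (x' : ℝ) else 0)) := by
        intro x _ x' _
        rw [Finset.sum_mul]
        apply Finset.sum_congr rfl
        intro d _
        by_cases hh1 : d ∣ f x <;> by_cases hh2 : d ∣ f x' <;> simp [hh1, hh2]
      rw [Finset.sum_congr rfl (fun x hx => Finset.sum_congr rfl (fun x' hx' => h4 x hx x' hx'))]
      have h5 : ∀ x ∈ X, ∑ x' ∈ X, ∑ d ∈ (Icc 2 Tn).filter R,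
            g d * ((if d ∣ f x then 1 / (x : ℝ) else 0) * (if d ∣ f x' then 1 / (x' : ℝ) else 0)) =
          ∑ d ∈ (Icc 2 Tn).filter R, g d * ((if d ∣ f x then 1 / (x : ℝ) else 0) *
            ∑ x' ∈ X, (if d ∣ f x' then 1 / (x' : ℝ) else 0)) := by
        intro x _
        rw [Finset.sum_comm]
        apply Finset.sum_congr rfl
        intro d _
        rw [← Finset.mul_sum, ← Finset.mul_sum]
      rw [Finset.sum_congr rfl h5, Finset.sum_comm]
      apply Finset.sum_congr rfl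
      intro d _
      rw [← Finset.mul_sum, ← Finset.sum_mul, sq, Finset.sum_filter]
  · apply Finset.sum_congr rfl
    intro x _
    have h6 : ∀ x' ∈ X, (∑ d ∈ (f x).divisors.filter (fun d => R d ∧ Tn < d),
        (if d ∣ f x' then g d else 0)) * ((1 / (x : ℝ)) * (1 / (x' : ℝ))) =
        ∑ d ∈ (f x).divisors.filter (fun d => R d ∧ Tn < d), (1 / (x : ℝ)) * (g d *
          (if d ∣ f x' then 1 / (x' : ℝ) else 0)) := by
      intro x' _
      rw [Finset.sum_mul]
      apply Finset.sum_congr rfl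
      intro d _
      split_ifs <;> ring
    rw [Finset.sum_congr rfl h6, Finset.sum_comm, Finset.mul_sum]
    apply Finset.sum_congr rfl
    intro d _
    rw [← Finset.mul_sum, ← Finset.mul_sum, Finset.sum_filter]


private theorem ev_exp (K δ c : ℝ) (hδ : 0 < δ) (hc : 0 < c) :
    ∀ᶠ N : ℕ in atTop, K * Real.exp (-(c * ell N)) ≤ δ := by
  have h1 : Tendsto (fun N : ℕ => K * Real.exp (-(c * ell N))) atTop (nhds (K * 0)) := by
    apply Tendsto.const_mul
    exact Real.tendsto_exp_neg_atTop_nhds_zero.comp (ell_tendsto.const_mul_atTop hc)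
  rw [mul_zero] at h1
  exact (h1.eventually_lt_const hδ).mono fun N h => h.le

theorem v_gcd (ε : ℝ) (hε : 0 < ε) : ∃ P1 : ℕ, ∀ P0 : ℕ, P1 ≤ P0 → ∀ c : Cls, c.Full P0 →
    ∀ᶠ N : ℕ in atTop, ∑ x ∈ XX c N, ∑ x' ∈ (XX c N).erase x,
      S3 P0 (Int.gcd (DD c.a x) (DD c.a x')) / ((x : ℝ) * x') ≤ (1 + ε) * SX c N ^ 2 := by
  classical
  obtain ⟨P1, hP1⟩ := rough_tail 22 (ε / 1200) (by positivity)
  refine ⟨P1, fun P0 hP0 c hc => ?_⟩
  obtain ⟨C1, hC1, hτ1⟩ := tau_le 22 1 one_pos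
  obtain ⟨C2, hC2, hτ2⟩ := tau_le 22 (1 / 16) (by norm_num)
  have hQn : 0 < c.Q := by
    unfold Cls.Q
    have := c.g_pos; have := c.h_pos
    positivity
  have hQ : (0 : ℝ) < c.Q := by exact_mod_cast hQn
  have hQ1 : (1 : ℝ) ≤ c.Q := by exact_mod_cast hQn
  set Ca : ℝ := ((c.a : ℝ) ^ 2) ^ ((1 : ℝ) / 16) with hCa
  have hCa0 : 0 ≤ Ca := by positivity
  have E1 := ev_exp (2 * C1) ((ε / 4) / (36 * (c.Q : ℝ) ^ 2)) (1 / 3) (by positivity) (by norm_num)
  have E2 := ev_exp (C2 * Ca * 8) ((ε / 4) / (6 * (c.Q : ℝ))) (1 / 4) (by positivity) (by norm_num)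
  have E3 := ell_tendsto.eventually_ge_atTop 1
  have E4 := ap_low c (1 / 2) (by norm_num)
  have E5 := x_large 3
  filter_upwards [E1, E2, E3, E4, E5] with N e1 e2 e3 e4 e5
  set l : ℝ := ell N with hl
  have hSX : l / (6 * c.Q) ≤ SX c N := by
    refine le_trans (le_of_eq ?_) e4
    ring
  have hSX1 : 1 / (6 * (c.Q : ℝ)) ≤ SX c N := by
    refine le_trans ?_ hSX
    exact div_le_div_of_nonneg_right e3 (by positivity)
  have hSX0 : 0 < SX c N := lt_of_lt_of_le (by positivity) hSX1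
  set E : ℝ := Real.exp (-(2 / 3) * l) with hE
  set F : ℝ := (l + 1) / c.Q with hF
  have hE0 : 0 < E := Real.exp_pos _
  have hF0 : 0 < F := by positivity
  have hF12 : F ≤ 12 * SX c N := by
    have : F ≤ 12 * (l / (6 * c.Q)) := by
      rw [hF, show 12 * (l / (6 * (c.Q : ℝ))) = (2 * l) / c.Q by field_simp; ring]
      exact div_le_div_of_nonneg_right (by linarith) hQ.le
    linarith
  set T : ℝ := Real.exp (l / 2) with hT
  have hT0 : 0 < T := Real.exp_pos _
  set Tn : ℕ := ⌊T⌋₊ with hTn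
  have hTn1 : (Tn : ℝ) ≤ T := Nat.floor_le hT0.le
  have hTn2 : T < (Tn : ℝ) + 1 := Nat.lt_floor_add_one _
  set f : ℕ → ℕ := fun x => (DD c.a x).natAbs with hf
  have hx3 : ∀ x ∈ XX c N, 3 ≤ c.a * x := by
    intro x hx
    have h1 := (mem_XX hx).1
    have h2 : (3 : ℝ) ≤ x := e5 x h1
    have h3 : 3 ≤ x := by exact_mod_cast h2
    exact h3.trans (Nat.le_mul_of_pos_left _ c.a_pos)
  have hDpos : ∀ x ∈ XX c N, 0 < DD c.a x := fun x hx => DD_pos c.a x (hx3 x hx)
  have hf0 : ∀ x ∈ XX c N, f x ≠ 0 := by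
    intro x hx
    have := hDpos x hx
    simp only [hf]
    omega
  set g : ℕ → ℝ := fun d => (d.divisors.card : ℝ) ^ 20 with hg
  have hg0 : ∀ d, 0 ≤ g d := fun d => by positivity
  have hmain := double_bound (Rough P0) g hg0 Tn (XX c N) f hf0
  have hLHS : ∑ x ∈ XX c N, ∑ x' ∈ (XX c N).erase x,
      S3 P0 (Int.gcd (DD c.a x) (DD c.a x')) / ((x : ℝ) * x') =
      ∑ x ∈ XX c N, ∑ x' ∈ (XX c N).erase x,
        (∑ d ∈ (Nat.gcd (f x) (f x')).divisors.filter (Rough P0), g d) / ((x : ℝ) * x') := by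
    apply Finset.sum_congr rfl
    intro x _
    apply Finset.sum_congr rfl
    intro x' _
    congr 1
  rw [hLHS]
  refine hmain.trans ?_
  -- the bound for sigma
  have hσ : ∀ d : ℕ, 0 < d → Rough P0 d →
      ∑ x ∈ (XX c N).filter (fun x => d ∣ f x), 1 / (x : ℝ) ≤
        d.divisors.card * (E + F / d) := by
    intro d hd hR
    have h := dz_sum c P0 hc N d hd hR
    refine h.trans (le_of_eq ?_)
    have hd' : (0 : ℝ) < d := by exact_mod_cast hd
    rw [hE, hF, div_div, mul_comm (c.Q : ℝ) (d : ℝ)]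
  have hσ0 : ∀ d : ℕ, 0 ≤ ∑ x ∈ (XX c N).filter (fun x => d ∣ f x), 1 / (x : ℝ) := by
    intro d
    apply Finset.sum_nonneg; intro x _; positivity
  -- part A
  have hA : ∑ d ∈ (Icc 2 Tn).filter (Rough P0),
      g d * (∑ x ∈ (XX c N).filter (fun x => d ∣ f x), 1 / (x : ℝ)) ^ 2 ≤
      2 * E ^ 2 * C1 * T ^ 2 + 2 * F ^ 2 * (ε / 1200) := by
    have h1 : ∀ d ∈ (Icc 2 Tn).filter (Rough P0),
        g d * (∑ x ∈ (XX c N).filter (fun x => d ∣ f x), 1 / (x : ℝ)) ^ 2 ≤
        2 * E ^ 2 * C1 * T + 2 * F ^ 2 * ((d.divisors.card : ℝ) ^ 22 / (d : ℝ) ^ ((3 : ℝ) / 2)) := by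
      intro d hd
      rw [mem_filter, mem_Icc] at hd
      obtain ⟨⟨hd2, hdT⟩, hR⟩ := hd
      have hd0 : 0 < d := by omega
      have hd1 : (1 : ℝ) ≤ d := by exact_mod_cast hd0
      have hdpos : (0 : ℝ) < d := by linarith
      have hs := hσ d hd0 hR
      have hsq : (∑ x ∈ (XX c N).filter (fun x => d ∣ f x), 1 / (x : ℝ)) ^ 2 ≤
          (d.divisors.card * (E + F / d)) ^ 2 := pow_le_pow_left₀ (hσ0 d) hs 2
      have hsq2 : (E + F / d) ^ 2 ≤ 2 * E ^ 2 + 2 * F ^ 2 / (d : ℝ) ^ 2 := by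
        have h0 : 0 ≤ (E - F / d) ^ 2 := sq_nonneg _
        have h3 : 2 * F ^ 2 / (d : ℝ) ^ 2 = 2 * (F / d) ^ 2 := by
          rw [div_pow]; ring
        have h4 : 2 * E ^ 2 + 2 * (F / d) ^ 2 - (E + F / d) ^ 2 = (E - F / d) ^ 2 := by ring
        rw [h3]
        linarith only [h0, h4]
      have hτ := hτ1 d hd0
      rw [Real.rpow_one] at hτ
      have hdT' : (d : ℝ) ≤ T := le_trans (by exact_mod_cast hdT) hTn1
      have hpow : (d : ℝ) ^ ((3 : ℝ) / 2) ≤ (d : ℝ) ^ 2 := by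
        rw [← Real.rpow_natCast]
        apply Real.rpow_le_rpow_of_exponent_le hd1
        norm_num
      have hpow0 : 0 < (d : ℝ) ^ ((3 : ℝ) / 2) := Real.rpow_pos_of_pos hdpos _
      set t : ℝ := (d.divisors.card : ℝ) with ht
      have ht0 : 0 ≤ t := by positivity
      calc g d * (∑ x ∈ (XX c N).filter (fun x => d ∣ f x), 1 / (x : ℝ)) ^ 2
          ≤ t ^ 20 * (t * (E + F / d)) ^ 2 := mul_le_mul_of_nonneg_left hsq (hg0 d)
        _ = t ^ 22 * (E + F / d) ^ 2 := by ring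
        _ ≤ t ^ 22 * (2 * E ^ 2 + 2 * F ^ 2 / (d : ℝ) ^ 2) :=
            mul_le_mul_of_nonneg_left hsq2 (by positivity)
        _ = 2 * E ^ 2 * t ^ 22 + 2 * F ^ 2 * (t ^ 22 / (d : ℝ) ^ 2) := by ring
        _ ≤ 2 * E ^ 2 * (C1 * T) + 2 * F ^ 2 * (t ^ 22 / (d : ℝ) ^ ((3 : ℝ) / 2)) := by
            apply add_le_add
            · apply mul_le_mul_of_nonneg_left _ (by positivity)
              refine hτ.trans ?_
              exact mul_le_mul_of_nonneg_left hdT' (by linarith)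
            · apply mul_le_mul_of_nonneg_left _ (by positivity)
              exact div_le_div_of_nonneg_left (by positivity) hpow0 hpow
        _ = _ := by ring
    refine (Finset.sum_le_sum h1).trans ?_
    rw [Finset.sum_add_distrib]
    apply add_le_add
    · rw [Finset.sum_const, nsmul_eq_mul]
      have hcard : (((Icc 2 Tn).filter (Rough P0)).card : ℝ) ≤ T := by
        refine le_trans ?_ hTn1
        have h2 : ((Icc 2 Tn).filter (Rough P0)).card ≤ Tn := by
          refine (Finset.card_filter_le _ _).trans ?_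
          rw [Nat.card_Icc]; omega
        exact_mod_cast h2
      calc _ ≤ T * (2 * E ^ 2 * C1 * T) := by
            apply mul_le_mul_of_nonneg_right hcard
            positivity
        _ = _ := by ring
    · rw [← Finset.mul_sum]
      apply mul_le_mul_of_nonneg_left _ (by positivity)
      have h3 := hP1 P0 hP0 Tn
      exact h3
  -- part B
  have hB : ∀ x ∈ XX c N, ∑ d ∈ (f x).divisors.filter (fun d => Rough P0 d ∧ Tn < d),
        g d * (∑ x' ∈ (XX c N).filter (fun x' => d ∣ f x'), 1 / (x' : ℝ)) ≤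
        C2 * Ca * 8 * Real.exp (-(1 / 4 * l)) := by
    intro x hx
    set t : ℝ := ((f x).divisors.card : ℝ) with ht
    have ht0 : 0 ≤ t := by positivity
    have h1 : ∀ d ∈ (f x).divisors.filter (fun d => Rough P0 d ∧ Tn < d),
        g d * (∑ x' ∈ (XX c N).filter (fun x' => d ∣ f x'), 1 / (x' : ℝ)) ≤
          t ^ 21 * ((l + 2) * Real.exp (-(l / 2))) := by
      intro d hd
      rw [mem_filter, Nat.mem_divisors] at hd
      obtain ⟨⟨hdx, hfx⟩, hR, hdT⟩ := hd
      have hd0 : 0 < d := Nat.pos_of_dvd_of_pos hdx (Nat.pos_of_ne_zero hfx)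
      have hdpos : (0 : ℝ) < d := by exact_mod_cast hd0
      have hτ : (d.divisors.card : ℝ) ≤ t := by
        have : d.divisors.card ≤ (f x).divisors.card :=
          Finset.card_le_card (Nat.divisors_subset_of_dvd hfx hdx)
        rw [ht]
        exact_mod_cast this
      have hs := hσ d hd0 hR
      have hdT' : T ≤ d := by
        have : (Tn : ℝ) + 1 ≤ d := by exact_mod_cast hdT
        linarith
      have hTi : 1 / T = Real.exp (-(l / 2)) := by
        rw [hT, Real.exp_neg, one_div]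
      have hE2 : E ≤ Real.exp (-(l / 2)) := by
        rw [hE]
        apply Real.exp_le_exp.mpr
        linarith
      have hF2 : F / d ≤ (l + 1) * Real.exp (-(l / 2)) := by
        rw [← hTi, hF]
        calc (l + 1) / c.Q / d ≤ (l + 1) / d := by
              apply div_le_div_of_nonneg_right _ hdpos.le
              exact div_le_self (by linarith) hQ1
          _ ≤ (l + 1) / T := div_le_div_of_nonneg_left (by linarith) hT0 hdT'
          _ = _ := by ring
      have hEF : E + F / d ≤ (l + 2) * Real.exp (-(l / 2)) := by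
        have : (l + 2) * Real.exp (-(l / 2)) =
          Real.exp (-(l / 2)) + (l + 1) * Real.exp (-(l / 2)) := by ring
        rw [this]; exact add_le_add hE2 hF2
      have hEF0 : 0 ≤ E + F / d := by positivity
      calc g d * (∑ x' ∈ (XX c N).filter (fun x' => d ∣ f x'), 1 / (x' : ℝ))
          ≤ t ^ 20 * (t * ((l + 2) * Real.exp (-(l / 2)))) := by
            apply mul_le_mul _ _ (hσ0 d) (by positivity)
            · exact pow_le_pow_left₀ (by positivity) hτ 20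
            · refine hs.trans ?_
              exact mul_le_mul hτ hEF hEF0 ht0
        _ = _ := by ring
    refine (Finset.sum_le_sum h1).trans ?_
    rw [Finset.sum_const, nsmul_eq_mul]
    have hcard : (((f x).divisors.filter (fun d => Rough P0 d ∧ Tn < d)).card : ℝ) ≤ t := by
      rw [ht]
      exact_mod_cast Finset.card_filter_le _ _
    have hl2 : l + 2 ≤ 8 * Real.exp (l / 8) := by
      have := Real.add_one_le_exp (l / 8)
      linarith
    have hfx1 : 1 ≤ f x := Nat.one_le_iff_ne_zero.mpr (hf0 x hx)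
    have hτx := hτ2 (f x) hfx1
    have hfle : (f x : ℝ) ≤ (c.a : ℝ) ^ 2 * Real.exp (2 * l) := by
      have h2 : ((f x : ℕ) : ℤ) = DD c.a x := by
        simp only [hf]
        rw [Int.natAbs_of_nonneg (hDpos x hx).le]
      have h3 : (f x : ℝ) = (c.a : ℝ) ^ 2 * (x : ℝ) ^ 2 - 4 := by
        have h4 : (((f x : ℕ) : ℤ) : ℝ) = ((DD c.a x : ℤ) : ℝ) := by rw [h2]
        rw [Int.cast_natCast] at h4
        rw [h4]
        unfold DD
        push_cast
        ring
      have h5 : (x : ℝ) ≤ Real.exp l := (mem_XX hx).2.1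
      have h6 : (x : ℝ) ^ 2 ≤ Real.exp (2 * l) := by
        have : Real.exp (2 * l) = Real.exp l ^ 2 := by
          rw [← Real.exp_nat_mul]; norm_num
        rw [this]
        exact pow_le_pow_left₀ (by positivity) h5 2
      have h7 : (c.a : ℝ) ^ 2 * (x : ℝ) ^ 2 ≤ (c.a : ℝ) ^ 2 * Real.exp (2 * l) :=
        mul_le_mul_of_nonneg_left h6 (by positivity)
      linarith
    have hfp : (f x : ℝ) ^ ((1 : ℝ) / 16) ≤ Ca * Real.exp (l / 8) := by
      calc (f x : ℝ) ^ ((1 : ℝ) / 16) ≤ ((c.a : ℝ) ^ 2 * Real.exp (2 * l)) ^ ((1 : ℝ) / 16) :=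
            Real.rpow_le_rpow (by positivity) hfle (by norm_num)
        _ = Ca * Real.exp (l / 8) := by
            rw [Real.mul_rpow (by positivity) (Real.exp_pos _).le, ← Real.exp_mul, hCa]
            congr 2
            ring
    have h9 : Real.exp (l / 8) * Real.exp (l / 8) * Real.exp (-(l / 2)) =
        Real.exp (-(1 / 4 * l)) := by
      rw [← Real.exp_add, ← Real.exp_add]
      congr 1
      ring
    calc (((f x).divisors.filter (fun d => Rough P0 d ∧ Tn < d)).card : ℝ) *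
          (t ^ 21 * ((l + 2) * Real.exp (-(l / 2))))
        ≤ t * (t ^ 21 * ((l + 2) * Real.exp (-(l / 2)))) := by
          apply mul_le_mul_of_nonneg_right hcard
          positivity
      _ = t ^ 22 * ((l + 2) * Real.exp (-(l / 2))) := by ring
      _ ≤ (C2 * (Ca * Real.exp (l / 8))) * ((8 * Real.exp (l / 8)) * Real.exp (-(l / 2))) := by
          apply mul_le_mul
          · refine hτx.trans ?_
            exact mul_le_mul_of_nonneg_left hfp (by linarith)
          · exact mul_le_mul_of_nonneg_right hl2 (Real.exp_pos _).le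
          · positivity
          · positivity
      _ = C2 * Ca * 8 * (Real.exp (l / 8) * Real.exp (l / 8) * Real.exp (-(l / 2))) := by ring
      _ = C2 * Ca * 8 * Real.exp (-(1 / 4 * l)) := by rw [h9]
  have hB2 : ∑ x ∈ XX c N, (1 / (x : ℝ)) * ∑ d ∈ (f x).divisors.filter
      (fun d => Rough P0 d ∧ Tn < d),
        g d * (∑ x' ∈ (XX c N).filter (fun x' => d ∣ f x'), 1 / (x' : ℝ)) ≤
      SX c N * ((ε / 4) * SX c N) := by
    calc _ ≤ ∑ x ∈ XX c N, (1 / (x : ℝ)) * ((ε / 4) * SX c N) := by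
          apply Finset.sum_le_sum
          intro x hx
          apply mul_le_mul_of_nonneg_left _ (by positivity)
          refine (hB x hx).trans (e2.trans ?_)
          have : (ε / 4) / (6 * (c.Q : ℝ)) = (ε / 4) * (1 / (6 * (c.Q : ℝ))) := by ring
          rw [this]
          exact mul_le_mul_of_nonneg_left hSX1 (by positivity)
      _ = _ := by rw [← Finset.sum_mul]; rfl
  have hg1 : g 1 = 1 := by simp [hg]
  have hA2 : 2 * E ^ 2 * C1 * T ^ 2 ≤ (ε / 4) * SX c N ^ 2 := by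
    have h1 : 2 * E ^ 2 * C1 * T ^ 2 = 2 * C1 * Real.exp (-(1 / 3 * l)) := by
      have : E ^ 2 * T ^ 2 = Real.exp (-(1 / 3 * l)) := by
        rw [hE, hT, ← Real.exp_nat_mul, ← Real.exp_nat_mul, ← Real.exp_add]
        congr 1
        push_cast
        ring
      calc 2 * E ^ 2 * C1 * T ^ 2 = 2 * C1 * (E ^ 2 * T ^ 2) := by ring
        _ = _ := by rw [this]
    rw [h1]
    refine e1.trans ?_
    have h2 : (ε / 4) / (36 * (c.Q : ℝ) ^ 2) = (ε / 4) * (1 / (6 * (c.Q : ℝ))) ^ 2 := by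
      field_simp
      ring
    rw [h2]
    apply mul_le_mul_of_nonneg_left _ (by positivity)
    exact pow_le_pow_left₀ (by positivity) hSX1 2
  have hA3 : 2 * F ^ 2 * (ε / 1200) ≤ (ε / 4) * SX c N ^ 2 := by
    have h1 : F ^ 2 ≤ (12 * SX c N) ^ 2 := pow_le_pow_left₀ hF0.le hF12 2
    have h2 : 2 * F ^ 2 * (ε / 1200) ≤ 2 * (12 * SX c N) ^ 2 * (ε / 1200) := by
      apply mul_le_mul_of_nonneg_right _ (by positivity)
      linarith
    refine h2.trans ?_
    have h3 : 0 ≤ ε * SX c N ^ 2 := by positivity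
    have h4 : 2 * (12 * SX c N) ^ 2 * (ε / 1200) = 24 / 100 * (ε * SX c N ^ 2) := by ring
    have h5 : ε / 4 * SX c N ^ 2 = 1 / 4 * (ε * SX c N ^ 2) := by ring
    linarith only [h3, h4, h5]
  have hsum : g 1 * (∑ x ∈ XX c N, 1 / (x : ℝ)) ^ 2 = SX c N ^ 2 := by
    rw [hg1, one_mul]; rfl
  rw [hsum]
  have k1 : SX c N * ((ε / 4) * SX c N) = 1 / 4 * (ε * SX c N ^ 2) := by ring
  have k2 : (1 + ε) * SX c N ^ 2 = SX c N ^ 2 + ε * SX c N ^ 2 := by ring
  have k3 : ε / 4 * SX c N ^ 2 = 1 / 4 * (ε * SX c N ^ 2) := by ring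
  have k4 : 0 < ε * SX c N ^ 2 := mul_pos hε (pow_pos hSX0 2)
  linarith only [hA, hA2, hA3, hB2, k1, k2, k3, k4]

end Pool.Agent.MK47
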