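import Pool.Agent.MK47.HPt
import Pool.Agent.MK47.VAvg
import Pool.Agent.MK47.VGcd

/-!
# The average of `HH`

`P1` the maximum of the ones in `h_pt`, `v_one`, `v_two`, `v_three`, `v_gcd` (with `ε/10`, `ε ≤ 1` without loss of generality) and so large that
`exp (3/P0) ≤ 1 + ε/10`. Sum `h_pt` over `x ≠ x'` with weights `1/(x x')`: each of the five double sums is at most `(1+ε/10) SX²`:
for `S1 (D_x)`: `∑_x S1(D_x)/x ∑_{x' ≠ x} 1/x' ≤ (1+ε/10) SX * SX`; for `S1 (D_x')`: extend the inner sum to all `x'` and use `v_one`;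
`v_two`, `v_three` for each `x`, times `1/x`; `v_gcd`. Total `(1+ε/10)² SX² ≤ (1+ε) SX²`. (`a x ≥ 3` for large `N` by `x_large`, `a ≥ 1`.)
-/

namespace Pool.Agent.MK47

open Finset Filter

theorem h_avg (ε : ℝ) (hε : 0 < ε) : ∃ P1 : ℕ, ∀ P0 : ℕ, P1 ≤ P0 → ∀ c : Cls, c.Full P0 →
    ∀ᶠ N : ℕ in atTop, ∑ x ∈ XX c N, ∑ x' ∈ (XX c N).erase x,
      HH P0 (DD c.a x) (DD c.a x') (CC x x') / ((x : ℝ) * x') ≤ (1 + ε) * SX c N ^ 2 := by
  obtain ⟨η, hη, hη1, hη2⟩ : ∃ η : ℝ, 0 < η ∧ η ≤ 1 ∧ 3 * η ≤ ε := by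
    refine ⟨min 1 (ε / 3), lt_min one_pos (by linarith), min_le_left _ _, ?_⟩
    have := min_le_right (1 : ℝ) (ε / 3)
    linarith
  obtain ⟨p1, h1⟩ := h_pt
  obtain ⟨p2, h2⟩ := v_one η hη
  obtain ⟨p3, h3⟩ := v_two η hη
  obtain ⟨p4, h4⟩ := v_three η hη
  obtain ⟨p5, h5⟩ := v_gcd η hη
  obtain ⟨p6, h6⟩ : ∃ p6 : ℕ, ∀ P0 : ℕ, p6 ≤ P0 → Real.exp (3 / P0) ≤ 1 + η := by
    have t1 : Tendsto (fun n : ℕ => (3 : ℝ) / n) atTop (nhds 0) :=
      tendsto_const_div_atTop_nhds_zero_nat 3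
    have t2 : Tendsto (fun n : ℕ => Real.exp ((3 : ℝ) / n)) atTop (nhds (Real.exp 0)) :=
      (Real.continuous_exp.tendsto 0).comp t1
    rw [Real.exp_zero] at t2
    obtain ⟨p, hp⟩ := eventually_atTop.1 (t2.eventually_lt_const (by linarith : (1 : ℝ) < 1 + η))
    exact ⟨p, fun P0 h => (hp P0 h).le⟩
  refine ⟨p1 + p2 + p3 + p4 + p5 + p6, fun P0 hP0 c hc => ?_⟩
  filter_upwards [h2 P0 (by omega) c hc, h3 P0 (by omega) c hc, h4 P0 (by omega) c hc,
    h5 P0 (by omega) c hc, x_large 3] with N g2 g3 g4 g5 g6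
  have hpos : ∀ x ∈ XX c N, (0 : ℝ) < x := fun x hx => by
    have := g6 x (mem_XX hx).1
    linarith
  have hax : ∀ x ∈ XX c N, 3 ≤ c.a * x := fun x hx => by
    have e1 : (3 : ℝ) ≤ x := g6 x (mem_XX hx).1
    have e2 : 3 ≤ x := by exact_mod_cast e1
    have e3 := c.a_pos
    nlinarith
  have hSX0 : 0 ≤ SX c N := Finset.sum_nonneg fun x _ => by positivity
  set E := Real.exp (3 / (P0 : ℝ)) with hE
  have hE0 : 0 < E := Real.exp_pos _
  have hE1 : E ≤ 1 + η := h6 P0 (by omega)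
  -- the five sums
  set T1 := ∑ x ∈ XX c N, ∑ x' ∈ (XX c N).erase x, S1 P0 (DD c.a x).natAbs / ((x : ℝ) * x') with hT1
  set T2 := ∑ x ∈ XX c N, ∑ x' ∈ (XX c N).erase x, S1 P0 (DD c.a x').natAbs / ((x : ℝ) * x')
    with hT2
  set T3 := ∑ x ∈ XX c N, ∑ x' ∈ (XX c N).erase x,
    S1 P0 ((x : ℤ) - (x' : ℤ)).natAbs / ((x : ℝ) * x') with hT3
  set T4 := ∑ x ∈ XX c N, ∑ x' ∈ (XX c N).erase x, S1 P0 (x + x') / ((x : ℝ) * x') with hT4
  set T5 := ∑ x ∈ XX c N, ∑ x' ∈ (XX c N).erase x,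
      S3 P0 (Int.gcd (DD c.a x) (DD c.a x')) / ((x : ℝ) * x') with hT5
  have hmain : ∑ x ∈ XX c N, ∑ x' ∈ (XX c N).erase x,
      HH P0 (DD c.a x) (DD c.a x') (CC x x') / ((x : ℝ) * x') ≤
      E / 5 * (T1 + T2 + T3 + T4 + T5) := by
    have : E / 5 * (T1 + T2 + T3 + T4 + T5) = ∑ x ∈ XX c N, ∑ x' ∈ (XX c N).erase x,
      (E / 5 * (S1 P0 (DD c.a x).natAbs + S1 P0 (DD c.a x').natAbs +
        S1 P0 ((x : ℤ) - (x' : ℤ)).natAbs +
        S1 P0 (x + x') + S3 P0 (Int.gcd (DD c.a x) (DD c.a x')))) / ((x : ℝ) * x') := by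
      rw [hT1, hT2, hT3, hT4, hT5]
      simp only [← Finset.sum_add_distrib, Finset.mul_sum]
      refine Finset.sum_congr rfl fun x _ => Finset.sum_congr rfl fun x' _ => ?_
      ring
    rw [this]
    refine Finset.sum_le_sum fun x hx => Finset.sum_le_sum fun x' hx' => ?_
    obtain ⟨hne, hx2⟩ := Finset.mem_erase.1 hx'
    refine div_le_div_of_nonneg_right ?_ ?_
    · exact h1 P0 (by omega) c.a x x' (hax x hx) (hax x' hx2) (Ne.symm hne)
    · have := hpos x hx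
      have := hpos x' hx2
      positivity
  have b1 : T1 ≤ (1 + η) * SX c N ^ 2 := by
    have e : ∀ x ∈ XX c N, ∑ x' ∈ (XX c N).erase x, S1 P0 (DD c.a x).natAbs / ((x : ℝ) * x') ≤
        (S1 P0 (DD c.a x).natAbs / x) * SX c N := by
      intro x hx
      have : ∑ x' ∈ (XX c N).erase x, S1 P0 (DD c.a x).natAbs / ((x : ℝ) * x') =
          (S1 P0 (DD c.a x).natAbs / x) * ∑ x' ∈ (XX c N).erase x, 1 / (x' : ℝ) := by
        rw [Finset.mul_sum]
        refine Finset.sum_congr rfl fun x' _ => ?_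
        ring
      rw [this]
      refine mul_le_mul_of_nonneg_left ?_ (div_nonneg (S1_nonneg _ _) (hpos x hx).le)
      exact Finset.sum_le_sum_of_subset_of_nonneg (Finset.erase_subset _ _) fun _ _ _ => by
        positivity
    refine (Finset.sum_le_sum e).trans ?_
    rw [← Finset.sum_mul]
    refine (mul_le_mul_of_nonneg_right g2 hSX0).trans (le_of_eq (by ring))
  have b2 : T2 ≤ (1 + η) * SX c N ^ 2 := by
    have e : ∀ x ∈ XX c N, ∑ x' ∈ (XX c N).erase x, S1 P0 (DD c.a x').natAbs / ((x : ℝ) * x') ≤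
        (1 / (x : ℝ)) * ((1 + η) * SX c N) := by
      intro x hx
      have : ∑ x' ∈ (XX c N).erase x, S1 P0 (DD c.a x').natAbs / ((x : ℝ) * x') =
          (1 / (x : ℝ)) * ∑ x' ∈ (XX c N).erase x, S1 P0 (DD c.a x').natAbs / (x' : ℝ) := by
        rw [Finset.mul_sum]
        refine Finset.sum_congr rfl fun x' _ => ?_
        ring
      rw [this]
      refine mul_le_mul_of_nonneg_left (le_trans ?_ g2) (by positivity)
      exact Finset.sum_le_sum_of_subset_of_nonneg (Finset.erase_subset _ _) fun x' _ _ =>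
        div_nonneg (S1_nonneg _ _) (by positivity)
    refine (Finset.sum_le_sum e).trans ?_
    rw [← Finset.sum_mul]
    exact le_of_eq (by unfold SX; ring)
  have b3 : T3 ≤ (1 + η) * SX c N ^ 2 := by
    have e : ∀ x ∈ XX c N, ∑ x' ∈ (XX c N).erase x,
        S1 P0 ((x : ℤ) - (x' : ℤ)).natAbs / ((x : ℝ) * x') ≤
        (1 / (x : ℝ)) * ((1 + η) * SX c N) := by
      intro x hx
      have : ∑ x' ∈ (XX c N).erase x, S1 P0 ((x : ℤ) - (x' : ℤ)).natAbs / ((x : ℝ) * x') =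
          (1 / (x : ℝ)) * ∑ x' ∈ (XX c N).erase x, S1 P0 ((x : ℤ) - (x' : ℤ)).natAbs / (x' : ℝ) := by
        rw [Finset.mul_sum]
        refine Finset.sum_congr rfl fun x' _ => ?_
        ring
      rw [this]
      exact mul_le_mul_of_nonneg_left (g3 x hx) (by positivity)
    refine (Finset.sum_le_sum e).trans ?_
    rw [← Finset.sum_mul]
    exact le_of_eq (by unfold SX; ring)
  have b4 : T4 ≤ (1 + η) * SX c N ^ 2 := by
    have e : ∀ x ∈ XX c N, ∑ x' ∈ (XX c N).erase x,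
        S1 P0 (x + x') / ((x : ℝ) * x') ≤ (1 / (x : ℝ)) * ((1 + η) * SX c N) := by
      intro x hx
      have : ∑ x' ∈ (XX c N).erase x, S1 P0 (x + x') / ((x : ℝ) * x') =
          (1 / (x : ℝ)) * ∑ x' ∈ (XX c N).erase x, S1 P0 (x + x') / (x' : ℝ) := by
        rw [Finset.mul_sum]
        refine Finset.sum_congr rfl fun x' _ => ?_
        ring
      rw [this]
      exact mul_le_mul_of_nonneg_left (g4 x hx) (by positivity)
    refine (Finset.sum_le_sum e).trans ?_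
    rw [← Finset.sum_mul]
    exact le_of_eq (by unfold SX; ring)
  have hb : E / 5 * (T1 + T2 + T3 + T4 + T5) ≤ E / 5 * (5 * ((1 + η) * SX c N ^ 2)) :=
    mul_le_mul_of_nonneg_left (by linarith) (by positivity)
  refine hmain.trans (hb.trans ?_)
  have : E / 5 * (5 * ((1 + η) * SX c N ^ 2)) = E * ((1 + η) * SX c N ^ 2) := by ring
  rw [this]
  calc E * ((1 + η) * SX c N ^ 2) ≤ (1 + η) * ((1 + η) * SX c N ^ 2) :=
        mul_le_mul_of_nonneg_right hE1 (by positivity)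
    _ = ((1 + η) * (1 + η)) * SX c N ^ 2 := by ring
    _ ≤ (1 + ε) * SX c N ^ 2 := by
        refine mul_le_mul_of_nonneg_right ?_ (by positivity)
        nlinarith

end Pool.Agent.MK47
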