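import Pool.Agent.MK47.Defs

/-!
# The trivial bound for `cnt`

* `class_count`: `Q, n ≥ 1` coprime. The set of `y ∈ [s, s+L)` with `Q ∣ y - y0` and `y ≡ r (mod n)` lies in
  one residue class modulo `n Q`; so it is contained in `{t + n Q v : v ∈ [0, m)}` where
  `t` is its least element and `m = (L - 1)/(n Q) + 1 ≤ L / (n Q) + 1` (real). (If it is empty take any `t` and
  `m = 0`.) State: there are `t m : ℕ` with `(m : ℝ) ≤ L/(n Q) + 1`, `m ≤ (L - 1)/(n Q) + 1` in `ℕ`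
  (for `L ≥ 1`), such that every `y` of the set is `t + n Q v` with `v < m`, and if `m > 0` then
  `n ∣ t - r`.
* `cnt_triv`: `cnt` splits according to the residues `(r, r') ∈ range n ×ˢ range n` of `(y, y')` modulo `n`;
  `n ∣ A y² - B y'² + C ↔ n ∣ A r² - B r'² + C`, so there are `rho A B C n` pairs `(r, r')`, and for each the number of
  `(y, y')` is at most `(L/(nQ) + 1)²`.
-/

namespace Pool.Agent.MK47

open Finset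

theorem class_count (Q n : ℕ) (hQ : 0 < Q) (hn : 0 < n) (hc : n.Coprime Q) (y0 r : ℤ) (s L : ℕ) :
    ∃ t m : ℕ, (m : ℝ) ≤ (L : ℝ) / (n * Q) + 1 ∧ m ≤ (L - 1) / (n * Q) + 1 ∧
      (0 < m → (n : ℤ) ∣ (t : ℤ) - r ∧ (Q : ℤ) ∣ (t : ℤ) - y0) ∧
      ∀ y : ℕ, s ≤ y → y < s + L → (Q : ℤ) ∣ (y : ℤ) - y0 → (n : ℤ) ∣ (y : ℤ) - r →
        ∃ v, v < m ∧ y = t + n * Q * v := by
  classical
  have hnQ : 0 < n * Q := Nat.mul_pos hn hQ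
  by_cases hex : ∃ y : ℕ, s ≤ y ∧ y < s + L ∧ (Q : ℤ) ∣ (y : ℤ) - y0 ∧ (n : ℤ) ∣ (y : ℤ) - r
  · set t := Nat.find hex with ht
    obtain ⟨h1, h2, h3, h4⟩ := Nat.find_spec hex
    refine ⟨t, (L - 1) / (n * Q) + 1, ?_, le_rfl, fun _ => ⟨h4, h3⟩, ?_⟩
    · have h5 : (((L - 1) / (n * Q) : ℕ) : ℝ) ≤ ((L - 1 : ℕ) : ℝ) / ((n * Q : ℕ) : ℝ) :=
        Nat.cast_div_le
      have h6 : ((L - 1 : ℕ) : ℝ) ≤ (L : ℝ) := by exact_mod_cast Nat.sub_le L 1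
      have h7 : (0 : ℝ) < ((n * Q : ℕ) : ℝ) := by exact_mod_cast hnQ
      have h8 : ((L - 1 : ℕ) : ℝ) / ((n * Q : ℕ) : ℝ) ≤ (L : ℝ) / ((n * Q : ℕ) : ℝ) :=
        div_le_div_of_nonneg_right h6 h7.le
      push_cast at h5 h8 ⊢
      linarith
    · intro y hy1 hy2 hy3 hy4
      have hty : t ≤ y := Nat.find_min' hex ⟨hy1, hy2, hy3, hy4⟩
      have h5 : (Q : ℤ) ∣ (y : ℤ) - t := by
        have := dvd_sub hy3 h3
        have e : (y : ℤ) - y0 - ((t : ℤ) - y0) = (y : ℤ) - t := by ring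
        rwa [e] at this
      have h6 : (n : ℤ) ∣ (y : ℤ) - t := by
        have := dvd_sub hy4 h4
        have e : (y : ℤ) - r - ((t : ℤ) - r) = (y : ℤ) - t := by ring
        rwa [e] at this
      have h7 : ((n * Q : ℕ) : ℤ) ∣ (y : ℤ) - t := by
        push_cast
        exact (Nat.isCoprime_iff_coprime.2 hc).mul_dvd h6 h5
      have h8 : n * Q ∣ y - t := by
        have e : (y : ℤ) - t = ((y - t : ℕ) : ℤ) := by push_cast [hty]; ring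
        rw [e] at h7
        exact_mod_cast h7
      obtain ⟨v, hv⟩ := h8
      refine ⟨v, ?_, by omega⟩
      have h9 : n * Q * v ≤ L - 1 := by
        have : y - t ≤ L - 1 := by omega
        omega
      have h10 : v ≤ (L - 1) / (n * Q) := by
        rw [Nat.le_div_iff_mul_le hnQ, mul_comm]
        exact h9
      omega
  · refine ⟨0, 0, ?_, Nat.zero_le _, fun h => absurd h (lt_irrefl 0), ?_⟩
    · push_cast
      positivity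
    · intro y hy1 hy2 hy3 hy4
      exact absurd ⟨y, hy1, hy2, hy3, hy4⟩ hex

/-- splitting `cnt` along the residues modulo a divisor -/
theorem cnt_split (A B C : ℤ) (Q f n : ℕ) (hf : 0 < f) (y0 : ℤ) (s s' L : ℕ) (K : ℝ)
    (hfn : f ∣ n)
    (hK : ∀ r ∈ range f, ∀ r' ∈ range f,
      (f : ℤ) ∣ A * (r : ℤ) ^ 2 - B * (r' : ℤ) ^ 2 + C →
      ((((Ico s (s + L) ×ˢ Ico s' (s' + L)).filter fun v => ((Q : ℤ) ∣ (v.1 : ℤ) - y0 ∧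
        (Q : ℤ) ∣ (v.2 : ℤ) - y0 ∧ (n : ℤ) ∣ A * (v.1 : ℤ) ^ 2 - B * (v.2 : ℤ) ^ 2 + C) ∧
        ((f : ℤ) ∣ (v.1 : ℤ) - r ∧ (f : ℤ) ∣ (v.2 : ℤ) - r')).card : ℕ) : ℝ) ≤ K) :
    (cnt A B C Q y0 n s s' L : ℝ) ≤ rho A B C f * K := by
  classical
  have hfz : (f : ℤ) ≠ 0 := by exact_mod_cast hf.ne'
  have hmod : ∀ y : ℕ, (f : ℤ) ∣ (y : ℤ) - ((y % f : ℕ) : ℤ) := by
    intro y
    push_cast
    exact Int.dvd_self_sub_emod
  have h1 : cnt A B C Q y0 n s s' L = ∑ w ∈ (range f ×ˢ range f).filter fun v =>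
      (f : ℤ) ∣ A * (v.1 : ℤ) ^ 2 - B * (v.2 : ℤ) ^ 2 + C,
      (((Ico s (s + L) ×ˢ Ico s' (s' + L)).filter fun v => (Q : ℤ) ∣ (v.1 : ℤ) - y0 ∧
        (Q : ℤ) ∣ (v.2 : ℤ) - y0 ∧ (n : ℤ) ∣ A * (v.1 : ℤ) ^ 2 - B * (v.2 : ℤ) ^ 2 + C).filter
        fun v => (v.1 % f, v.2 % f) = w).card := by
    unfold cnt
    apply card_eq_sum_card_fiberwise
    intro v hv
    rw [mem_coe, mem_filter] at hv
    rw [mem_coe, mem_filter, mem_product, mem_range, mem_range]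
    refine ⟨⟨Nat.mod_lt _ hf, Nat.mod_lt _ hf⟩, ?_⟩
    have h3 : (f : ℤ) ∣ A * (v.1 : ℤ) ^ 2 - B * (v.2 : ℤ) ^ 2 + C :=
      dvd_trans (by exact_mod_cast hfn) hv.2.2.2
    have h4 : (f : ℤ) ∣ (A * (v.1 : ℤ) ^ 2 - B * (v.2 : ℤ) ^ 2 + C) -
        (A * ((v.1 % f : ℕ) : ℤ) ^ 2 - B * ((v.2 % f : ℕ) : ℤ) ^ 2 + C) := by
      have e : (A * (v.1 : ℤ) ^ 2 - B * (v.2 : ℤ) ^ 2 + C) -
        (A * ((v.1 % f : ℕ) : ℤ) ^ 2 - B * ((v.2 % f : ℕ) : ℤ) ^ 2 + C) =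
        ((v.1 : ℤ) - ((v.1 % f : ℕ) : ℤ)) * (A * ((v.1 : ℤ) + ((v.1 % f : ℕ) : ℤ))) -
        ((v.2 : ℤ) - ((v.2 % f : ℕ) : ℤ)) * (B * ((v.2 : ℤ) + ((v.2 % f : ℕ) : ℤ))) := by ring
      rw [e]
      exact dvd_sub (dvd_mul_of_dvd_left (hmod _) _) (dvd_mul_of_dvd_left (hmod _) _)
    exact (dvd_iff_dvd_of_dvd_sub h4).1 h3
  have h2 : ∀ w ∈ (range f ×ˢ range f).filter fun v =>
      (f : ℤ) ∣ A * (v.1 : ℤ) ^ 2 - B * (v.2 : ℤ) ^ 2 + C,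
      (((((Ico s (s + L) ×ˢ Ico s' (s' + L)).filter fun v => (Q : ℤ) ∣ (v.1 : ℤ) - y0 ∧
        (Q : ℤ) ∣ (v.2 : ℤ) - y0 ∧ (n : ℤ) ∣ A * (v.1 : ℤ) ^ 2 - B * (v.2 : ℤ) ^ 2 + C).filter
        fun v => (v.1 % f, v.2 % f) = w).card : ℕ) : ℝ) ≤ K := by
    rintro ⟨r, r'⟩ hw
    rw [mem_filter, mem_product] at hw
    refine le_trans ?_ (hK r hw.1.1 r' hw.1.2 hw.2)
    have h5 : (((Ico s (s + L) ×ˢ Ico s' (s' + L)).filter fun v => (Q : ℤ) ∣ (v.1 : ℤ) - y0 ∧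
        (Q : ℤ) ∣ (v.2 : ℤ) - y0 ∧ (n : ℤ) ∣ A * (v.1 : ℤ) ^ 2 - B * (v.2 : ℤ) ^ 2 + C).filter
        fun v => (v.1 % f, v.2 % f) = (r, r')).card ≤
        ((Ico s (s + L) ×ˢ Ico s' (s' + L)).filter fun v => ((Q : ℤ) ∣ (v.1 : ℤ) - y0 ∧
        (Q : ℤ) ∣ (v.2 : ℤ) - y0 ∧ (n : ℤ) ∣ A * (v.1 : ℤ) ^ 2 - B * (v.2 : ℤ) ^ 2 + C) ∧
        ((f : ℤ) ∣ (v.1 : ℤ) - r ∧ (f : ℤ) ∣ (v.2 : ℤ) - r')).card := by
      apply card_le_card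
      intro v hv
      rw [mem_filter, mem_filter, Prod.mk.injEq] at hv
      rw [mem_filter]
      refine ⟨hv.1.1, hv.1.2, ?_, ?_⟩
      · have := hmod v.1
        rwa [hv.2.1] at this
      · have := hmod v.2
        rwa [hv.2.2] at this
    exact_mod_cast h5
  rw [h1]
  push_cast
  refine (sum_le_sum h2).trans ?_
  rw [sum_const, nsmul_eq_mul]
  rfl

/-- the points of a box in a pair of classes, as a sub-box of two progressions -/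
theorem box_param (Q f : ℕ) (hQ : 0 < Q) (hf : 0 < f) (hc : f.Coprime Q) (y0 r r' : ℤ)
    (s s' L : ℕ) (P : ℕ × ℕ → Prop) [DecidablePred P] :
    ∃ t t' m m' : ℕ, (m : ℝ) ≤ (L : ℝ) / (f * Q) + 1 ∧ (m' : ℝ) ≤ (L : ℝ) / (f * Q) + 1 ∧
      m ≤ (L - 1) / (f * Q) + 1 ∧ m' ≤ (L - 1) / (f * Q) + 1 ∧
      ((Ico s (s + L) ×ˢ Ico s' (s' + L)).filter fun v => ((Q : ℤ) ∣ (v.1 : ℤ) - y0 ∧
        (Q : ℤ) ∣ (v.2 : ℤ) - y0 ∧ P v) ∧ ((f : ℤ) ∣ (v.1 : ℤ) - r ∧ (f : ℤ) ∣ (v.2 : ℤ) - r')).card ≤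
      ((range m ×ˢ range m').filter fun q => P (t + f * Q * q.1, t' + f * Q * q.2)).card := by
  classical
  obtain ⟨t, m, h1, h2, _, h4⟩ := class_count Q f hQ hf hc y0 r s L
  obtain ⟨t', m', h1', h2', _, h4'⟩ := class_count Q f hQ hf hc y0 r' s' L
  refine ⟨t, t', m, m', h1, h1', h2, h2', ?_⟩
  have hfQ : 0 < f * Q := Nat.mul_pos hf hQ
  apply card_le_card_of_injOn (fun v => ((v.1 - t) / (f * Q), (v.2 - t') / (f * Q)))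
  · rintro ⟨y, y'⟩ hv
    rw [mem_coe, mem_filter, mem_product, mem_Ico, mem_Ico] at hv
    obtain ⟨⟨⟨a1, a2⟩, a3, a4⟩, ⟨b1, b2, b3⟩, c1, c2⟩ := hv
    simp only at a1 a2 a3 a4 b1 b2 c1 c2
    obtain ⟨v, hv1, hv2⟩ := h4 y a1 a2 b1 c1
    obtain ⟨v', hv1', hv2'⟩ := h4' y' a3 a4 b2 c2
    have e1 : (y - t) / (f * Q) = v := by
      rw [hv2, Nat.add_sub_cancel_left, Nat.mul_div_cancel_left _ hfQ]
    have e2 : (y' - t') / (f * Q) = v' := by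
      rw [hv2', Nat.add_sub_cancel_left, Nat.mul_div_cancel_left _ hfQ]
    simp only [mem_coe]
    rw [mem_filter, mem_product, mem_range, mem_range]
    simp only
    rw [e1, e2]
    refine ⟨⟨hv1, hv1'⟩, ?_⟩
    rw [← hv2, ← hv2']
    exact b3
  · rintro ⟨y, y'⟩ hv ⟨z, z'⟩ hw h
    rw [mem_coe, mem_filter, mem_product, mem_Ico, mem_Ico] at hv hw
    obtain ⟨⟨⟨a1, a2⟩, a3, a4⟩, ⟨b1, b2, b3⟩, c1, c2⟩ := hv
    obtain ⟨⟨⟨d1, d2⟩, d3, d4⟩, ⟨e1, e2, e3⟩, f1, f2⟩ := hw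
    simp only at a1 a2 a3 a4 b1 b2 c1 c2 d1 d2 d3 d4 e1 e2 f1 f2
    obtain ⟨v, hv1, hv2⟩ := h4 y a1 a2 b1 c1
    obtain ⟨v', hv1', hv2'⟩ := h4' y' a3 a4 b2 c2
    obtain ⟨w, hw1, hw2⟩ := h4 z d1 d2 e1 f1
    obtain ⟨w', hw1', hw2'⟩ := h4' z' d3 d4 e2 f2
    simp only [Prod.mk.injEq] at h
    have g1 : (y - t) / (f * Q) = v := by
      rw [hv2, Nat.add_sub_cancel_left, Nat.mul_div_cancel_left _ hfQ]
    have g2 : (y' - t') / (f * Q) = v' := by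
      rw [hv2', Nat.add_sub_cancel_left, Nat.mul_div_cancel_left _ hfQ]
    have g3 : (z - t) / (f * Q) = w := by
      rw [hw2, Nat.add_sub_cancel_left, Nat.mul_div_cancel_left _ hfQ]
    have g4 : (z' - t') / (f * Q) = w' := by
      rw [hw2', Nat.add_sub_cancel_left, Nat.mul_div_cancel_left _ hfQ]
    rw [g1, g2, g3, g4] at h
    rw [hv2, hv2', hw2, hw2', h.1, h.2]

theorem cnt_triv (A B C : ℤ) (Q n : ℕ) (hQ : 0 < Q) (hn : 0 < n) (hc : n.Coprime Q) (y0 : ℤ)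
    (s s' L : ℕ) :
    (cnt A B C Q y0 n s s' L : ℝ) ≤ rho A B C n * ((L : ℝ) / (n * Q) + 1) ^ 2 := by
  classical
  apply cnt_split A B C Q n n hn y0 s s' L _ dvd_rfl
  intro r _ r' _ _
  obtain ⟨t, t', m, m', h1, h2, _, _, h5⟩ := box_param Q n hQ hn hc y0 r r' s s' L
    (fun v => (n : ℤ) ∣ A * (v.1 : ℤ) ^ 2 - B * (v.2 : ℤ) ^ 2 + C)
  have h6 : ((range m ×ˢ range m').filter fun q : ℕ × ℕ => (n : ℤ) ∣
      A * ((t + n * Q * q.1 : ℕ) : ℤ) ^ 2 - B * ((t' + n * Q * q.2 : ℕ) : ℤ) ^ 2 + C).card ≤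
      m * m' := by
    refine (card_filter_le _ _).trans ?_
    rw [card_product, card_range, card_range]
  have h7 := h5.trans h6
  have h8 : ((m * m' : ℕ) : ℝ) ≤ ((L : ℝ) / (n * Q) + 1) ^ 2 := by
    push_cast
    rw [sq]
    apply mul_le_mul h1 h2 (Nat.cast_nonneg _) (by positivity)
  refine le_trans ?_ h8
  exact_mod_cast h7

end Pool.Agent.MK47
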