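import Pool.Agent.MK47.NRange
import Pool.Agent.MK47.CntTriv
import Pool.Agent.MK47.Rho
import Pool.Agent.MK47.BadSum

/-!
# The contribution of the bad `n`

`A = DD a x`, `B = DD a x'`, `C = CC x x'`, `x ≠ x'` in `XX c N`, `L = LL N`, `S = √N`, for large `N`.
For `i < mm Y L`, `s = Y + i L ≤ 2 Y` (`mm_lt`), and same for `j`. For `n ∈ nset`: `S ≤ n ≤ X` where
`X = ⌊S exp ℓ⌋₊`; `n` is coprime to `Q`, `h`, `2`, `a`. `cnt_triv` and `L/(nQ) ≤ 1` give
`cnt ≤ 4 rho n ≤ 4 n WW n ≤ 4 n gcd(A,B) τ(n)^4 ≤ 4 S exp ℓ * a² exp (2ℓ) * τ(n)^4` (`rho_WW`, `WW_le`,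
`gcd(A,B) ≤ A ≤ a² exp (2ℓ)`). The sum over the bad `n ≤ X` is at most
`4 a² S exp (3ℓ) * X exp (-30 ℓ) ≤ 4 a² N exp (-26 ℓ)` (`bad_sum` with `K = 30`: `exp (ℓ^10/3) ≤ X ≤ exp (ℓ^10)` since
`S exp ℓ = exp (ℓ^10/2 + ℓ)`). The number of pairs `(i, j)` is at most `mm Y L * mm Y' L`, and
`mm Y L ≤ Y/L + 1 ≤ S exp (-ℓ/2) / (S exp (-3ℓ)/2) + 1 ≤ 3 exp (5ℓ/2)`. Total
`≤ 9 exp (5ℓ) * 4 a² N exp (-26ℓ) ≤ N exp (-10 ℓ)`.
-/

namespace Pool.Agent.MK47

open Finset Filter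

/-- The bound for one term. -/
private theorem pb_term (c : Cls) (N x x' s s' n : ℕ) (hx3 : 3 ≤ c.a * x)
    (hxl : (x : ℝ) ≤ Real.exp (ell N))
    (hL : (LL N : ℝ) ≤ Real.sqrt N)
    (h1 : Real.sqrt N ≤ (nlo c N x x' s s' : ℝ))
    (h2 : (nhi c N x x' s s' (LL N) : ℝ) ≤ Real.sqrt N * Real.exp (ell N))
    (hn : n ∈ nset c N x x' s s' (LL N)) :
    (cnt (DD c.a x) (DD c.a x') (CC x x') c.Q c.y0 n s s' (LL N) : ℝ) ≤
      4 * (c.a : ℝ) ^ 2 * (Real.sqrt N * Real.exp (3 * ell N)) * (n.divisors.card : ℝ) ^ 4 := by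
  unfold nset at hn
  rw [mem_filter, mem_Icc] at hn
  obtain ⟨⟨hn1, hn2⟩, hn3⟩ := hn
  obtain ⟨hQ, -, hn0⟩ := cop_nQ c n hn3
  have hQ0 : 0 < c.Q := by
    have h1 := c.g_pos
    have h2 := c.h_pos
    unfold Cls.Q
    positivity
  have hA := DD_pos c.a x hx3
  have hn0r : (0 : ℝ) < n := by exact_mod_cast hn0
  have hQr : (1 : ℝ) ≤ c.Q := by exact_mod_cast hQ0
  have hnl : Real.sqrt N ≤ (n : ℝ) := h1.trans (by exact_mod_cast hn1)
  have hnh : (n : ℝ) ≤ Real.sqrt N * Real.exp (ell N) := le_trans (by exact_mod_cast hn2) h2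
  have e1 := cnt_triv (DD c.a x) (DD c.a x') (CC x x') c.Q n hQ0 hn0 hQ c.y0 s s' (LL N)
  have e2 : (LL N : ℝ) / (n * c.Q) ≤ 1 := by
    rw [div_le_one (by positivity)]
    nlinarith
  have e3 : ((LL N : ℝ) / (n * c.Q) + 1) ^ 2 ≤ 4 := by
    have h0 : (0 : ℝ) ≤ (LL N : ℝ) / (n * c.Q) := by positivity
    nlinarith
  have e4 := rho_WW c.a (DD c.a x) (DD c.a x') (CC x x') hA.ne' (rel_DD c.a x x') n (by
    intro p hp hpn
    constructor
    · rintro rfl
      exact cop_n c n hn3 2 hp c.two_h hpn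
    · intro hpa
      exact cop_n c n hn3 p hp (c.a_h p hp hpa) hpn)
  have e5 := WW_le (DD c.a x) (DD c.a x') (CC x x') hA.ne' n hn0.ne'
  have e6 : (Int.gcd (DD c.a x) (DD c.a x') : ℝ) ≤ (c.a : ℝ) ^ 2 * Real.exp (2 * ell N) := by
    have g1 : Int.gcd (DD c.a x) (DD c.a x') ≤ (DD c.a x).natAbs :=
      Nat.le_of_dvd (Int.natAbs_pos.2 hA.ne') (Int.gcd_dvd_natAbs_left _ _)
    have g2 : ((DD c.a x).natAbs : ℤ) = DD c.a x := Int.natAbs_of_nonneg hA.le
    have g3 : (((DD c.a x).natAbs : ℕ) : ℝ) = ((DD c.a x : ℤ) : ℝ) := by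
      rw [← g2]
      simp
    have g4 : ((DD c.a x : ℤ) : ℝ) ≤ (c.a : ℝ) ^ 2 * (x : ℝ) ^ 2 := by
      unfold DD
      push_cast
      linarith
    have g5 : (x : ℝ) ^ 2 ≤ Real.exp (2 * ell N) := by
      have g6 : (x : ℝ) ^ 2 ≤ Real.exp (ell N) ^ 2 := pow_le_pow_left₀ (by positivity) hxl 2
      have g7 : Real.exp (ell N) ^ 2 = Real.exp (2 * ell N) := by
        rw [← Real.exp_nat_mul]
        norm_num
      rw [← g7]
      exact g6
    have g8 : (Int.gcd (DD c.a x) (DD c.a x') : ℝ) ≤ (((DD c.a x).natAbs : ℕ) : ℝ) := by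
      exact_mod_cast g1
    rw [g3] at g8
    exact g8.trans (g4.trans (mul_le_mul_of_nonneg_left g5 (by positivity)))
  have hr0 : (0 : ℝ) ≤ (rho (DD c.a x) (DD c.a x') (CC x x') n : ℝ) := Nat.cast_nonneg _
  have ht0 : (0 : ℝ) ≤ (n.divisors.card : ℝ) ^ 4 := by positivity
  have f1 : (cnt (DD c.a x) (DD c.a x') (CC x x') c.Q c.y0 n s s' (LL N) : ℝ) ≤
      rho (DD c.a x) (DD c.a x') (CC x x') n * 4 :=
    e1.trans (mul_le_mul_of_nonneg_left e3 hr0)
  have f2 : WW (DD c.a x) (DD c.a x') (CC x x') n ≤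
      (c.a : ℝ) ^ 2 * Real.exp (2 * ell N) * (n.divisors.card : ℝ) ^ 4 :=
    e5.trans (mul_le_mul_of_nonneg_right e6 ht0)
  have f3 : (n : ℝ) * WW (DD c.a x) (DD c.a x') (CC x x') n ≤
      (Real.sqrt N * Real.exp (ell N)) *
        ((c.a : ℝ) ^ 2 * Real.exp (2 * ell N) * (n.divisors.card : ℝ) ^ 4) := by
    refine (mul_le_mul_of_nonneg_left f2 hn0r.le).trans ?_
    exact mul_le_mul_of_nonneg_right hnh (by positivity)
  have f4 : Real.exp (3 * ell N) = Real.exp (ell N) * Real.exp (2 * ell N) := by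
    rw [← Real.exp_add]
    congr 1
    ring
  rw [f4]
  have f5 := e4.trans f3
  linarith

/-- The number of boxes. -/
private theorem pb_mm (Y L : ℕ) (S l : ℝ) (hS : 0 < S) (hl : 0 ≤ l) (hL : 1 ≤ L)
    (h1 : S * Real.exp (-3 * l) / 2 ≤ (L : ℝ)) (h2 : (Y : ℝ) ≤ S * Real.exp (-l / 2)) :
    (mm Y L : ℝ) ≤ 3 * Real.exp (5 / 2 * l) := by
  have hL0 : (0 : ℝ) < L := by exact_mod_cast hL
  have e1 : (mm Y L : ℝ) ≤ (Y : ℝ) / L + 1 := by
    unfold mm
    have g1 : (((Y + L - 1) / L : ℕ) : ℝ) ≤ ((Y + L - 1 : ℕ) : ℝ) / L := Nat.cast_div_le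
    have g2 : ((Y + L - 1 : ℕ) : ℝ) ≤ (Y : ℝ) + L := by
      have : Y + L - 1 ≤ Y + L := Nat.sub_le _ _
      exact_mod_cast this
    have g3 : ((Y + L - 1 : ℕ) : ℝ) / L ≤ ((Y : ℝ) + L) / L := div_le_div_of_nonneg_right g2 hL0.le
    have g4 : ((Y : ℝ) + L) / L = (Y : ℝ) / L + 1 := by
      rw [add_div, div_self hL0.ne']
    linarith
  have e2 : (Y : ℝ) / L ≤ 2 * Real.exp (5 / 2 * l) := by
    rw [div_le_iff₀ hL0]
    have g1 : 2 * Real.exp (5 / 2 * l) * (S * Real.exp (-3 * l) / 2) = S * Real.exp (-l / 2) := by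
      have : Real.exp (5 / 2 * l) * Real.exp (-3 * l) = Real.exp (-l / 2) := by
        rw [← Real.exp_add]
        congr 1
        ring
      calc 2 * Real.exp (5 / 2 * l) * (S * Real.exp (-3 * l) / 2)
          = S * (Real.exp (5 / 2 * l) * Real.exp (-3 * l)) := by ring
        _ = S * Real.exp (-l / 2) := by rw [this]
    have g2 := mul_le_mul_of_nonneg_left h1 (show (0 : ℝ) ≤ 2 * Real.exp (5 / 2 * l) by positivity)
    rw [g1] at g2
    exact h2.trans g2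
  have e3 : (1 : ℝ) ≤ Real.exp (5 / 2 * l) := Real.one_le_exp (by positivity)
  linarith

private theorem pb_evt (a : ℕ) : ∀ᶠ l : ℝ in atTop, 2 ≤ l ∧
    36 * (a : ℝ) ^ 2 ≤ Real.exp (11 * l) := by
  filter_upwards [eventually_ge_atTop (2 : ℝ), eventually_ge_atTop (36 * (a : ℝ) ^ 2)] with l h1 h2
  refine ⟨h1, ?_⟩
  have := Real.add_one_le_exp (11 * l)
  linarith

open Classical in
theorem p_bad (c : Cls) : ∀ᶠ N : ℕ in atTop, ∀ x ∈ XX c N, ∀ x' ∈ XX c N, x ≠ x' →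
    ∑ i ∈ range (mm (YY c.a N x) (LL N)), ∑ j ∈ range (mm (YY c.a N x') (LL N)),
      ∑ n ∈ (nset c N x x' (YY c.a N x + i * LL N) (YY c.a N x' + j * LL N) (LL N)).filter
        (fun n => Bad (Real.exp (ell N ^ 3)) n),
        (cnt (DD c.a x) (DD c.a x') (CC x x') c.Q c.y0 n
          (YY c.a N x + i * LL N) (YY c.a N x' + j * LL N) (LL N) : ℝ) ≤
      N * Real.exp (-10 * ell N) := by
  filter_upwards [n_range c 1 one_pos, bad_sum 30, size_LL, size_Y c.a c.a_pos, x_large 3,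
    ell_tendsto.eventually (pb_evt c.a), eventually_ge_atTop 1] with N hR hB hLL hY hx3 hev hN1
    x hx x' hx' hne
  obtain ⟨hl2, ha36⟩ := hev
  obtain ⟨hL1, hL2, hL3⟩ := hLL
  obtain ⟨hxa, hxb, -⟩ := mem_XX hx
  obtain ⟨hxa', hxb', -⟩ := mem_XX hx'
  have hS : Real.sqrt N = Real.exp (ell N ^ 10 / 2) := sqrt_ell N hN1
  have hNr : (0 : ℝ) < N := by exact_mod_cast hN1
  have hS0 : 0 < Real.sqrt N := Real.sqrt_pos.2 hNr
  have hSS : Real.sqrt N * Real.sqrt N = N := Real.mul_self_sqrt hNr.le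
  have hl0 : 0 ≤ ell N := by linarith
  have hx3' : 3 ≤ c.a * x := by
    have h1 : 3 ≤ x := by exact_mod_cast hx3 x hxa
    have h2 : 1 ≤ c.a := c.a_pos
    nlinarith
  have hLS : (LL N : ℝ) ≤ Real.sqrt N := by
    refine hL3.trans ?_
    have : Real.exp (-3 * ell N) ≤ 1 := Real.exp_le_one_iff.2 (by linarith)
    nlinarith
  -- the range of the sum
  set X : ℕ := ⌊Real.sqrt N * Real.exp (ell N)⌋₊ with hX
  have hX2 : (X : ℝ) ≤ Real.sqrt N * Real.exp (ell N) := Nat.floor_le (by positivity)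
  have hX1 : Real.sqrt N * Real.exp (ell N) < X + 1 := Nat.lt_floor_add_one _
  have hbs : ∑ n ∈ (Icc 1 X).filter (fun n => Bad (Real.exp (ell N ^ 3)) n),
      (n.divisors.card : ℝ) ^ 4 ≤ X * Real.exp (-30 * ell N) := by
    apply hB X
    · have h1 : (2 : ℝ) ≤ Real.exp (ell N) := by
        have := Real.add_one_le_exp (ell N)
        linarith
      have h2 : (1 : ℝ) ≤ Real.exp (ell N ^ 10 / 2) := Real.one_le_exp (by positivity)
      have h3 : Real.exp (ell N ^ 10 / 3) ≤ Real.exp (ell N ^ 10 / 2) := by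
        apply Real.exp_le_exp.2
        have : 0 ≤ ell N ^ 10 := by positivity
        linarith
      rw [hS] at hX1
      nlinarith
    · refine hX2.trans ?_
      rw [hS, ← Real.exp_add]
      apply Real.exp_le_exp.2
      have h1 : ell N ^ 10 = ell N * ell N ^ 9 := by ring
      have h2 : (2 : ℝ) ≤ ell N ^ 9 := by
        calc (2 : ℝ) ≤ 2 ^ 9 := by norm_num
          _ ≤ ell N ^ 9 := pow_le_pow_left₀ (by norm_num) hl2 9
      nlinarith
  set G : ℝ := 4 * (c.a : ℝ) ^ 2 * (Real.sqrt N * Real.exp (3 * ell N)) with hG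
  have hG0 : 0 ≤ G := by positivity
  have hbox : ∀ i ∈ range (mm (YY c.a N x) (LL N)), ∀ j ∈ range (mm (YY c.a N x') (LL N)),
      ∑ n ∈ (nset c N x x' (YY c.a N x + i * LL N) (YY c.a N x' + j * LL N) (LL N)).filter
        (fun n => Bad (Real.exp (ell N ^ 3)) n),
        (cnt (DD c.a x) (DD c.a x') (CC x x') c.Q c.y0 n
          (YY c.a N x + i * LL N) (YY c.a N x' + j * LL N) (LL N) : ℝ) ≤
      4 * (c.a : ℝ) ^ 2 * (N * Real.exp (-26 * ell N)) := by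
    intro i hi j hj
    have hi' := mm_lt _ _ i (by omega) (mem_range.1 hi)
    have hj' := mm_lt _ _ j (by omega) (mem_range.1 hj)
    obtain ⟨r1, r2, -⟩ := hR x hx x' hx' (YY c.a N x + i * LL N) (YY c.a N x' + j * LL N)
      (by omega) (by omega) (by omega) (by omega)
    have h1 : ∀ n ∈ (nset c N x x' (YY c.a N x + i * LL N) (YY c.a N x' + j * LL N)
        (LL N)).filter (fun n => Bad (Real.exp (ell N ^ 3)) n),
        (cnt (DD c.a x) (DD c.a x') (CC x x') c.Q c.y0 n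
          (YY c.a N x + i * LL N) (YY c.a N x' + j * LL N) (LL N) : ℝ) ≤
        G * (n.divisors.card : ℝ) ^ 4 := by
      intro n hn
      exact pb_term c N x x' _ _ n hx3' hxb hLS r1 r2 (mem_filter.1 hn).1
    refine (sum_le_sum h1).trans ?_
    rw [← mul_sum]
    have h2 : (nset c N x x' (YY c.a N x + i * LL N) (YY c.a N x' + j * LL N)
        (LL N)).filter (fun n => Bad (Real.exp (ell N ^ 3)) n) ⊆
        (Icc 1 X).filter (fun n => Bad (Real.exp (ell N ^ 3)) n) := by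
      apply filter_subset_filter
      intro n hn
      unfold nset at hn
      rw [mem_filter, mem_Icc] at hn
      obtain ⟨⟨hn1, hn2⟩, hn3⟩ := hn
      obtain ⟨-, -, hn0⟩ := cop_nQ c n hn3
      refine mem_Icc.2 ⟨hn0, Nat.le_floor ?_⟩
      exact le_trans (by exact_mod_cast hn2) r2
    have h3 : ∑ n ∈ (nset c N x x' (YY c.a N x + i * LL N) (YY c.a N x' + j * LL N)
        (LL N)).filter (fun n => Bad (Real.exp (ell N ^ 3)) n), (n.divisors.card : ℝ) ^ 4 ≤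
        X * Real.exp (-30 * ell N) :=
      (sum_le_sum_of_subset_of_nonneg h2 (fun _ _ _ => by positivity)).trans hbs
    have h4 : (X : ℝ) * Real.exp (-30 * ell N) ≤
        (Real.sqrt N * Real.exp (ell N)) * Real.exp (-30 * ell N) :=
      mul_le_mul_of_nonneg_right hX2 (Real.exp_pos _).le
    refine (mul_le_mul_of_nonneg_left (h3.trans h4) hG0).trans ?_
    have h5 : Real.exp (3 * ell N) * (Real.exp (ell N) * Real.exp (-30 * ell N)) =
        Real.exp (-26 * ell N) := by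
      rw [← Real.exp_add, ← Real.exp_add]
      congr 1
      ring
    rw [hG]
    calc 4 * (c.a : ℝ) ^ 2 * (Real.sqrt N * Real.exp (3 * ell N)) *
        (Real.sqrt N * Real.exp (ell N) * Real.exp (-30 * ell N))
        = 4 * (c.a : ℝ) ^ 2 * ((Real.sqrt N * Real.sqrt N) *
          (Real.exp (3 * ell N) * (Real.exp (ell N) * Real.exp (-30 * ell N)))) := by ring
      _ = 4 * (c.a : ℝ) ^ 2 * (N * Real.exp (-26 * ell N)) := by rw [h5, hSS]
      _ ≤ _ := le_refl _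
  set W : ℝ := 4 * (c.a : ℝ) ^ 2 * (N * Real.exp (-26 * ell N)) with hW
  have hW0 : 0 ≤ W := by positivity
  refine (sum_le_sum (fun i hi => sum_le_sum (hbox i hi))).trans ?_
  rw [sum_const, sum_const, card_range, card_range, nsmul_eq_mul, nsmul_eq_mul]
  have m1 := pb_mm (YY c.a N x) (LL N) (Real.sqrt N) (ell N) hS0 hl0 hL1 hL2 (hY x hxa hxb).2.2.2.1
  have m2 := pb_mm (YY c.a N x') (LL N) (Real.sqrt N) (ell N) hS0 hl0 hL1 hL2
    (hY x' hxa' hxb').2.2.2.1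
  have m3 : (mm (YY c.a N x') (LL N) : ℝ) * W ≤ 3 * Real.exp (5 / 2 * ell N) * W :=
    mul_le_mul_of_nonneg_right m2 hW0
  have m4 : (mm (YY c.a N x) (LL N) : ℝ) * ((mm (YY c.a N x') (LL N) : ℝ) * W) ≤
      3 * Real.exp (5 / 2 * ell N) * (3 * Real.exp (5 / 2 * ell N) * W) :=
    mul_le_mul m1 m3 (by positivity) (by positivity)
  refine m4.trans ?_
  have m5 : Real.exp (5 / 2 * ell N) * (Real.exp (5 / 2 * ell N) * Real.exp (-26 * ell N)) =
      Real.exp (-21 * ell N) := by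
    rw [← Real.exp_add, ← Real.exp_add]
    congr 1
    ring
  have m6 : 3 * Real.exp (5 / 2 * ell N) * (3 * Real.exp (5 / 2 * ell N) * W) =
      N * (36 * (c.a : ℝ) ^ 2 * Real.exp (-21 * ell N)) := by
    rw [hW, ← m5]
    ring
  rw [m6]
  apply mul_le_mul_of_nonneg_left _ hNr.le
  have m7 : Real.exp (11 * ell N) * Real.exp (-21 * ell N) = Real.exp (-10 * ell N) := by
    rw [← Real.exp_add]
    congr 1
    ring
  rw [← m7]
  exact mul_le_mul_of_nonneg_right ha36 (Real.exp_pos _).le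

end Pool.Agent.MK47
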