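import Pool.Agent.MK47.PairInj

/-!
# Second moment: from pairs of representations to `cnt`

* `mm_lt`: `i < mm Y L = (Y + L - 1) / L` gives `i L < Y`: `(i + 1) L ≤ Y + L - 1`.
* `mm_cover`: for `y ∈ [Y, 2 Y)` put `i = (y - Y) / L`; then `Y + i L ≤ y < Y + (i+1) L` and
  `i < mm Y L` since `i L ≤ Y - 1`.
* `uu_mono`: if `a x ≥ 2` the radicand is nondecreasing in `y ≥ 0` and in `t`.
* `second`: Let `Y = YY c.a N x`, `Y' = YY c.a N x'`. The left side is the number of triples `(b, y, y')` with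
  `|b| ≤ N`, `y ∈ [Y, 2Y)`, `y' ∈ [Y', 2Y')`, such that there are `u, u' : ℕ` as in the definition of `rr`
  (write each `rr` as a `card`, the product of cards as the card of a product, and the sum over
  `b` as the card of a sigma/biUnion). Map such a triple to `(i, j, n, (y, y'))` with `i, j` from `mm_cover` and
  `u + u' = g n` from `pair_arith` (applied to the integers; `DD a x = a²x²-4`; subtract the two
  equations `u² = DD y² + 4b - 4x²`, `u'² = DD' y'² + 4b - 4x'²`). `n ≥ 0` since `u + u' ≥ 0`,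
  `g > 0`; in fact `n > 0` (`cop_nQ`). Bounds for `n`: `u = √(DD y² + 4 b - 4 x²)` as a real number, i.e. `u = uu a x y b`,
  so by `uu_mono`, with `s = Y + i L ≤ y ≤ s + L`, `-N ≤ b ≤ N`: `uu a x s (-N) ≤ u ≤ uu a x (s+L) N`;
  the same for `u'`. So `nlo ≤ n ≤ nhi` (`Nat.ceil_le`, `Nat.le_floor`). So `n ∈ nset` and `(y, y')`
  is counted by `cnt` (`n ∣ A y² - B y'² + C`). The map is injective: `(y, y')` is recorded, and
  `n` gives `u + u' = g n > 0` and `(u - u') g n = A y² - B y'² + C`, hence `u - u'`, hence `u`,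
  hence `4 b = u² - DD y² + 4 x²`.
  (The right side is the card of the corresponding finite sigma type; or prove
  `LHS ≤ card (image) ≤ ∑∑∑` with `Finset.card_le_card_of_injOn` into
  `(range _).sigma ...` or into a product and then sum by `card_biUnion_le`.)
-/

namespace Pool.Agent.MK47

open Finset Filter

theorem mm_lt (Y L i : ℕ) (hL : 0 < L) (hi : i < mm Y L) : i * L < Y := by
  unfold mm at hi
  have h1 : i + 1 ≤ (Y + L - 1) / L := hi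
  rw [Nat.le_div_iff_mul_le hL] at h1
  have h2 : (i + 1) * L = i * L + L := by ring
  omega

theorem mm_cover (Y L y : ℕ) (hL : 0 < L) (h1 : Y ≤ y) (h2 : y < 2 * Y) :
    ∃ i, i < mm Y L ∧ Y + i * L ≤ y ∧ y < Y + i * L + L := by
  refine ⟨(y - Y) / L, ?_, ?_, ?_⟩
  · unfold mm
    rw [Nat.lt_iff_add_one_le, Nat.le_div_iff_mul_le hL]
    have h3 := Nat.div_mul_le_self (y - Y) L
    have h4 : ((y - Y) / L + 1) * L = (y - Y) / L * L + L := by ring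
    omega
  · have h3 := Nat.div_mul_le_self (y - Y) L
    omega
  · have h3 := Nat.lt_div_mul_add (a := y - Y) hL
    omega

theorem uu_mono (a x : ℕ) (hx : 2 ≤ a * x) (y y' t t' : ℝ) (hy : 0 ≤ y) (h1 : y ≤ y') (h2 : t ≤ t') :
    uu a x y t ≤ uu a x y' t' := by
  unfold uu
  apply Real.sqrt_le_sqrt
  have h3 : (2 : ℝ) ≤ (a : ℝ) * x := by exact_mod_cast hx
  have h4 : 0 ≤ (a : ℝ) ^ 2 * (x : ℝ) ^ 2 - 4 := by nlinarith
  have h5 : y ^ 2 ≤ y' ^ 2 := pow_le_pow_left₀ hy h1 2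
  have h6 := mul_le_mul_of_nonneg_left h5 h4
  linarith

open Classical in
private noncomputable def FF (c : Cls) (N x : ℕ) (b : ℤ) : Finset ℕ :=
  (Ico (YY c.a N x) (2 * YY c.a N x)).filter fun y => (c.Q : ℤ) ∣ (y : ℤ) - c.y0 ∧
    ∃ u : ℕ, (c.q : ℤ) ∣ (u : ℤ) - c.u0 ∧
      (u : ℤ) ^ 2 = DD c.a x * (y : ℤ) ^ 2 + 4 * b - 4 * (x : ℤ) ^ 2

private theorem rr_eq (c : Cls) (N x : ℕ) (b : ℤ) : rr c N x b = (FF c N x b).card := by
  classical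
  unfold rr FF
  have h1 : ∀ S : Finset ℕ, (S >>= fun a => pure ((a : ℕ) : ℤ) : Finset ℤ) =
      S.image (fun a : ℕ => (a : ℤ)) := by
    intro S
    rw [bind_pure_comp, Finset.fmap_def]
    ext z
    simp only [Finset.mem_image]
  have h2 : ∀ (S : Finset ℕ) (P : ℤ → Prop) [DecidablePred P],
      ((S.image (fun a : ℕ => (a : ℤ))).filter P).card = (S.filter (fun a : ℕ => P (a : ℤ))).card := by
    intro S P _
    rw [filter_image, card_image_of_injective _ Nat.cast_injective]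
  convert h2 (Ico (YY c.a N x) (2 * YY c.a N x)) (fun y : ℤ => (c.Q : ℤ) ∣ y - c.y0 ∧
    ∃ u : ℕ, (c.q : ℤ) ∣ (u : ℤ) - c.u0 ∧
      (u : ℤ) ^ 2 = DD c.a x * y ^ 2 + 4 * b - 4 * (x : ℤ) ^ 2) using 3
  exact h1 _

private def bx (A B C : ℤ) (Q : ℕ) (y0 : ℤ) (n s s' L : ℕ) : Finset (ℕ × ℕ) :=
  (Ico s (s + L) ×ˢ Ico s' (s' + L)).filter fun v => (Q : ℤ) ∣ (v.1 : ℤ) - y0 ∧
    (Q : ℤ) ∣ (v.2 : ℤ) - y0 ∧ (n : ℤ) ∣ A * (v.1 : ℤ) ^ 2 - B * (v.2 : ℤ) ^ 2 + C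

private theorem uu_eq (a x y u : ℕ) (b : ℤ)
    (h : (u : ℤ) ^ 2 = DD a x * (y : ℤ) ^ 2 + 4 * b - 4 * (x : ℤ) ^ 2) :
    uu a x y b = u := by
  unfold uu
  unfold DD at h
  have h1 : ((a : ℝ) ^ 2 * (x : ℝ) ^ 2 - 4) * (y : ℝ) ^ 2 + 4 * (b : ℝ) - 4 * (x : ℝ) ^ 2 =
      (u : ℝ) ^ 2 := by
    exact_mod_cast h.symm
  rw [h1, Real.sqrt_sq (by positivity)]

private theorem sec_ex (c : Cls) (N x x' L : ℕ) (hL : 0 < L) (hx : x ∈ XX c N) (hx' : x' ∈ XX c N)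
    (h2 : 2 ≤ c.a * x) (h2' : 2 ≤ c.a * x') (b : ℤ) (hb : b ∈ Icc (-(N : ℤ)) N) (y y' : ℕ)
    (hy : y ∈ FF c N x b) (hy' : y' ∈ FF c N x' b) :
    ∃ i j n : ℕ, i < mm (YY c.a N x) L ∧ j < mm (YY c.a N x') L ∧
      n ∈ nset c N x x' (YY c.a N x + i * L) (YY c.a N x' + j * L) L ∧
      (y, y') ∈ bx (DD c.a x) (DD c.a x') (CC x x') c.Q c.y0 n
            (YY c.a N x + i * L) (YY c.a N x' + j * L) L ∧
      0 < n ∧ ∃ u u' : ℕ, (u : ℤ) ^ 2 = DD c.a x * (y : ℤ) ^ 2 + 4 * b - 4 * (x : ℤ) ^ 2 ∧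
        (u' : ℤ) ^ 2 = DD c.a x' * (y' : ℤ) ^ 2 + 4 * b - 4 * (x' : ℤ) ^ 2 ∧
        (u : ℤ) + u' = c.g * n := by
  classical
  unfold FF at hy hy'
  rw [mem_filter, mem_Ico] at hy hy'
  obtain ⟨⟨ha1, ha2⟩, ha3, u, ha4, ha5⟩ := hy
  obtain ⟨⟨hb1, hb2⟩, hb3, u', hb4, hb5⟩ := hy'
  obtain ⟨i, hi1, hi2, hi3⟩ := mm_cover (YY c.a N x) L y hL ha1 ha2
  obtain ⟨j, hj1, hj2, hj3⟩ := mm_cover (YY c.a N x') L y' hL hb1 hb2
  unfold XX at hx hx'
  rw [mem_filter] at hx hx'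
  obtain ⟨n, hn1, hn2, hn3⟩ := pair_arith c x x' y y' u u' hx.2 hx'.2 ha3 hb3 ha4 hb4 (by
    rw [ha5, hb5]
    unfold DD
    ring)
  have hg : (0 : ℤ) < c.g := by exact_mod_cast c.g_pos
  have hn0 : 0 ≤ n := by
    by_contra h
    rw [not_le] at h
    have h3 : (c.g : ℤ) * n < 0 := mul_neg_of_pos_of_neg hg h
    have h4 : (0 : ℤ) ≤ (u : ℤ) + u' := by positivity
    rw [hn1] at h4
    linarith
  obtain ⟨m, rfl⟩ := Int.eq_ofNat_of_zero_le hn0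
  have hm := (cop_nQ c m hn2).2.2
  refine ⟨i, j, m, hi1, hj1, ?_, ?_, hm, u, u', ha5, hb5, hn1⟩
  · unfold nset
    rw [mem_filter, mem_Icc]
    refine ⟨⟨?_, ?_⟩, hn2⟩
    · unfold nlo
      apply Nat.ceil_le.mpr
      have hgr : (0 : ℝ) < (c.g : ℝ) := by exact_mod_cast c.g_pos
      rw [div_le_iff₀ hgr]
      rw [mem_Icc] at hb
      have hb6 : (-(N : ℝ)) ≤ (b : ℝ) := by exact_mod_cast hb.1
      have h3 : uu c.a x ((YY c.a N x + i * L : ℕ) : ℝ) (-N) ≤ (u : ℝ) := by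
        rw [← uu_eq c.a x y u b ha5]
        exact uu_mono c.a x h2 _ _ _ _ (by positivity) (by exact_mod_cast hi2) hb6
      have h4 : uu c.a x' ((YY c.a N x' + j * L : ℕ) : ℝ) (-N) ≤ (u' : ℝ) := by
        rw [← uu_eq c.a x' y' u' b hb5]
        exact uu_mono c.a x' h2' _ _ _ _ (by positivity) (by exact_mod_cast hj2) hb6
      have h5 : (u : ℝ) + u' = c.g * m := by exact_mod_cast hn1
      linarith
    · unfold nhi
      apply Nat.le_floor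
      have hgr : (0 : ℝ) < (c.g : ℝ) := by exact_mod_cast c.g_pos
      rw [le_div_iff₀ hgr]
      rw [mem_Icc] at hb
      have hb6 : (b : ℝ) ≤ (N : ℝ) := by exact_mod_cast hb.2
      have h3 : (u : ℝ) ≤ uu c.a x (((YY c.a N x + i * L : ℕ) : ℝ) + L) N := by
        rw [← uu_eq c.a x y u b ha5]
        exact uu_mono c.a x h2 _ _ _ _ (by positivity) (by exact_mod_cast hi3.le) hb6
      have h4 : (u' : ℝ) ≤ uu c.a x' (((YY c.a N x' + j * L : ℕ) : ℝ) + L) N := by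
        rw [← uu_eq c.a x' y' u' b hb5]
        exact uu_mono c.a x' h2' _ _ _ _ (by positivity) (by exact_mod_cast hj3.le) hb6
      have h5 : (u : ℝ) + u' = c.g * m := by exact_mod_cast hn1
      linarith
  · unfold bx
    rw [mem_filter, mem_product, mem_Ico, mem_Ico]
    refine ⟨⟨⟨hi2, hi3⟩, hj2, hj3⟩, ha3, hb3, ?_⟩
    unfold DD CC
    exact hn3

private theorem sec_inj (g : ℤ) (hg : 0 < g) (n : ℕ) (hn : 0 < n) (E1 E2 b b' : ℤ)
    (u u' v v' : ℕ) (h1 : (u : ℤ) ^ 2 = E1 + 4 * b) (h2 : (u' : ℤ) ^ 2 = E2 + 4 * b)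
    (h3 : (v : ℤ) ^ 2 = E1 + 4 * b') (h4 : (v' : ℤ) ^ 2 = E2 + 4 * b')
    (h5 : (u : ℤ) + u' = g * n) (h6 : (v : ℤ) + v' = g * n) : b = b' := by
  have hn' : (0 : ℤ) < n := by exact_mod_cast hn
  have h7 : (0 : ℤ) < g * n := mul_pos hg hn'
  have h8 : ((u : ℤ) - u') * (g * n) = ((v : ℤ) - v') * (g * n) := by
    rw [← h5]
    rw [h5, ← h6]
    have h9 : ((u : ℤ) - u') * (v + v') = ((u : ℤ) - u') * (u + u') := by rw [h5, h6]
    rw [h9]
    linear_combination h1 - h2 - h3 + h4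
  have h9 : (u : ℤ) - u' = v - v' := mul_right_cancel₀ h7.ne' h8
  have h10 : (u : ℤ) = v := by linarith
  rw [h10] at h1
  linarith

theorem second (c : Cls) (N x x' L : ℕ) (hL : 0 < L) (hx : x ∈ XX c N) (hx' : x' ∈ XX c N)
    (h2 : 2 ≤ c.a * x) (h2' : 2 ≤ c.a * x') :
    ∑ b ∈ Icc (-(N : ℤ)) N, rr c N x b * rr c N x' b ≤
      ∑ i ∈ range (mm (YY c.a N x) L), ∑ j ∈ range (mm (YY c.a N x') L),
        ∑ n ∈ nset c N x x' (YY c.a N x + i * L) (YY c.a N x' + j * L) L,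
          cnt (DD c.a x) (DD c.a x') (CC x x') c.Q c.y0 n
            (YY c.a N x + i * L) (YY c.a N x' + j * L) L := by
  classical
  set D : Finset (Σ _ : ℤ, ℕ × ℕ) := (Icc (-(N : ℤ)) N).sigma
    (fun b => FF c N x b ×ˢ FF c N x' b) with hD
  set T : Finset (Σ _ : ℕ × ℕ, Σ _ : ℕ, ℕ × ℕ) :=
    (range (mm (YY c.a N x) L) ×ˢ range (mm (YY c.a N x') L)).sigma
    (fun ij => (nset c N x x' (YY c.a N x + ij.1 * L) (YY c.a N x' + ij.2 * L) L).sigma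
      (fun n => bx (DD c.a x) (DD c.a x') (CC x x') c.Q c.y0 n
            (YY c.a N x + ij.1 * L) (YY c.a N x' + ij.2 * L) L)) with hT
  have hDc : ∑ b ∈ Icc (-(N : ℤ)) N, rr c N x b * rr c N x' b = D.card := by
    rw [hD, card_sigma]
    apply sum_congr rfl
    intro b _
    rw [card_product, rr_eq, rr_eq]
  have hTc : ∑ i ∈ range (mm (YY c.a N x) L), ∑ j ∈ range (mm (YY c.a N x') L),
        ∑ n ∈ nset c N x x' (YY c.a N x + i * L) (YY c.a N x' + j * L) L,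
          cnt (DD c.a x) (DD c.a x') (CC x x') c.Q c.y0 n
            (YY c.a N x + i * L) (YY c.a N x' + j * L) L = T.card := by
    rw [hT, card_sigma, sum_product]
    apply sum_congr rfl
    intro i _
    apply sum_congr rfl
    intro j _
    rw [card_sigma]
    rfl
  rw [hDc, hTc]
  have ex : ∀ d : (Σ _ : ℤ, ℕ × ℕ), d ∈ D → ∃ t : (Σ _ : ℕ × ℕ, Σ _ : ℕ, ℕ × ℕ),
      t ∈ T ∧ t.2.2 = d.2 ∧ 0 < t.2.1 ∧
      ∃ u u' : ℕ, (u : ℤ) ^ 2 = DD c.a x * (d.2.1 : ℤ) ^ 2 + 4 * d.1 - 4 * (x : ℤ) ^ 2 ∧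
        (u' : ℤ) ^ 2 = DD c.a x' * (d.2.2 : ℤ) ^ 2 + 4 * d.1 - 4 * (x' : ℤ) ^ 2 ∧
        (u : ℤ) + u' = c.g * t.2.1 := by
    rintro ⟨b, y, y'⟩ hd
    rw [hD, mem_sigma, mem_product] at hd
    obtain ⟨hb, hy, hy'⟩ := hd
    obtain ⟨i, j, n, hi, hj, hn, hbx, hn0, u, u', h3, h4, h5⟩ :=
      sec_ex c N x x' L hL hx hx' h2 h2' b hb y y' hy hy'
    refine ⟨⟨(i, j), n, (y, y')⟩, ?_, rfl, hn0, u, u', h3, h4, h5⟩
    rw [hT, mem_sigma, mem_product, mem_range, mem_range, mem_sigma]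
    exact ⟨⟨hi, hj⟩, hn, hbx⟩
  choose! f hf using ex
  refine card_le_card_of_injOn f (fun d hd => (hf d hd).1) ?_
  rintro ⟨b, v⟩ hd ⟨b', v'⟩ hd' hff
  obtain ⟨_, h3, h4, u, u', h5, h6, h7⟩ := hf _ hd
  obtain ⟨_, k3, k4, w, w', k5, k6, k7⟩ := hf _ hd'
  simp only at h3 h5 h6 k3 k5 k6
  rw [← hff] at k3 k7
  have hv : v = v' := by rw [← h3, ← k3]
  subst hv
  have hg : (0 : ℤ) < c.g := by exact_mod_cast c.g_pos
  have hb : b = b' := by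
    refine sec_inj c.g hg _ h4 (DD c.a x * (v.1 : ℤ) ^ 2 - 4 * (x : ℤ) ^ 2)
      (DD c.a x' * (v.2 : ℤ) ^ 2 - 4 * (x' : ℤ) ^ 2) b b' u u' w w' ?_ ?_ ?_ ?_ h7 k7
    · rw [h5]; ring
    · rw [h6]; ring
    · rw [k5]; ring
    · rw [k6]; ring
  subst hb
  rfl

end Pool.Agent.MK47
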