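import Pool.Agent.MK47.Size
import Pool.Agent.MK47.Second

/-!
# The sum over the boxes

`Y = YY a N x`, `L = LL N`, `s_i = Y + i L`, `i < m = mm Y L`, `(m - 1) L < Y` (`mm_lt`), so `s_i ≤ 2 Y`.
By `size_u` (with small `ε'`), `uu a x s_i (-N) ≥ (1 - ε') a x s_i`, so the sum is at most
`(1/((1-ε') a x)) ∑_i L/s_i`. And `L / s_i ≤ ∫_{s_(i-1)}^{s_i} dt/t = log (s_i/s_(i-1))` for `i ≥ 1` (i.e. `1 - 1/r ≤ log r`),
telescoping to `log (s_(m-1)/Y) ≤ log 2`, and the term `i = 0` is `L/Y ≤ exp (-2ℓ)` (`size_LL`, `size_Y`).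
So the total is `≤ (log 2 + exp (-2ℓ))/((1-ε') a x) ≤ (1+ε) log 2/(a x)`.
-/

namespace Pool.Agent.MK47

open Finset Filter

private theorem harm (Y L : ℝ) (hY : 0 < Y) (hL : 0 < L) (m : ℕ) :
    ∑ i ∈ range (m + 1), L / (Y + i * L) ≤ L / Y + Real.log ((Y + m * L) / Y) := by
  induction m with
  | zero =>
    simp [div_self hY.ne']
  | succ m ih =>
    rw [Finset.sum_range_succ]
    have h0 : (0 : ℝ) < Y + m * L := by positivity
    have h1 : (0 : ℝ) < Y + (m + 1 : ℕ) * L := by positivity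
    have h2 := Real.log_le_sub_one_of_pos (div_pos h0 h1)
    rw [Real.log_div h0.ne' h1.ne'] at h2
    have h3 : (Y + m * L) / (Y + (m + 1 : ℕ) * L) - 1 = -(L / (Y + (m + 1 : ℕ) * L)) := by
      rw [div_sub_one h1.ne', ← neg_div]
      congr 1
      push_cast
      ring
    rw [h3] at h2
    rw [Real.log_div h0.ne' hY.ne'] at ih
    rw [Real.log_div h1.ne' hY.ne']
    linarith

theorem sum_l (a : ℕ) (ha : 0 < a) (ε : ℝ) (hε : 0 < ε) : ∀ᶠ N : ℕ in atTop, ∀ x : ℕ,
    Real.exp (2 / 3 * ell N) ≤ x → (x : ℝ) ≤ Real.exp (ell N) →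
    ∑ i ∈ range (mm (YY a N x) (LL N)),
      (LL N : ℝ) / uu a x ((YY a N x + i * LL N : ℕ) : ℝ) (-N) ≤
      (1 + ε) * Real.log 2 / ((a : ℝ) * x) := by
  have hlog2 : 0 < Real.log 2 := Real.log_pos (by norm_num)
  set e : ℝ := min (1 / 2) (ε / 8) with he
  have he0 : 0 < e := lt_min (by norm_num) (by positivity)
  have he1 : e ≤ 1 / 2 := min_le_left _ _
  have he2 : e ≤ ε / 8 := min_le_right _ _
  set η : ℝ := min 1 (ε / 4) with hη
  have hη0 : 0 < η := lt_min (by norm_num) (by positivity)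
  have hη1 : η ≤ 1 := min_le_left _ _
  have hη2 : η ≤ ε / 4 := min_le_right _ _
  have hexp : ∀ᶠ N : ℕ in atTop, Real.exp (-2 * ell N) ≤ η * Real.log 2 := by
    have h1 : Tendsto (fun N : ℕ => Real.exp (-(2 * ell N))) atTop (nhds 0) :=
      Real.tendsto_exp_neg_atTop_nhds_zero.comp (ell_tendsto.const_mul_atTop (by norm_num))
    refine (h1.eventually_lt_const (by positivity : 0 < η * Real.log 2)).mono fun N hN => ?_
    have : -2 * ell N = -(2 * ell N) := by ring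
    rw [this]
    exact hN.le
  filter_upwards [size_u a ha e he0, size_LL, size_Y a ha, hexp, x_large 1,
    eventually_ge_atTop 1] with N hu hLL hY hexpN hx1 hN1
  intro x hxl hxu
  obtain ⟨hL1, -, hL3⟩ := hLL
  obtain ⟨-, -, hY3, -, -⟩ := hY x hxl hxu
  have hx : (1 : ℝ) ≤ x := hx1 x hxl
  have haR : (1 : ℝ) ≤ a := by exact_mod_cast ha
  have hax : (0 : ℝ) < (a : ℝ) * x := by positivity
  have hLR : (0 : ℝ) < (LL N : ℝ) := by exact_mod_cast hL1
  have hN : (1 : ℝ) ≤ N := by exact_mod_cast hN1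
  have hsN : (0 : ℝ) < Real.sqrt N := Real.sqrt_pos.mpr (by linarith)
  have hYR : (0 : ℝ) < (YY a N x : ℝ) := lt_of_lt_of_le (by positivity) hY3
  have hLY : (LL N : ℝ) / (YY a N x : ℝ) ≤ Real.exp (-2 * ell N) := by
    rw [div_le_iff₀ hYR]
    have h1 : Real.sqrt N * Real.exp (-3 * ell N) =
        Real.exp (-2 * ell N) * (Real.sqrt N * Real.exp (-ell N)) := by
      have : Real.exp (-3 * ell N) = Real.exp (-2 * ell N) * Real.exp (-ell N) := by
        rw [← Real.exp_add]; congr 1; ring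
      rw [this]; ring
    have h2 : Real.exp (-2 * ell N) * (Real.sqrt N * Real.exp (-ell N)) ≤
        Real.exp (-2 * ell N) * (YY a N x : ℝ) :=
      mul_le_mul_of_nonneg_left hY3 (Real.exp_pos _).le
    linarith
  -- each term
  have hterm : ∀ i ∈ range (mm (YY a N x) (LL N)),
      (LL N : ℝ) / uu a x ((YY a N x + i * LL N : ℕ) : ℝ) (-N) ≤
        (1 / ((1 - e) * ((a : ℝ) * x))) * ((LL N : ℝ) / ((YY a N x : ℝ) + i * (LL N : ℝ))) := by
    intro i hi
    rw [Finset.mem_range] at hi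
    have h1 := mm_lt (YY a N x) (LL N) i hL1 hi
    have h1' : (i : ℝ) * (LL N : ℝ) < (YY a N x : ℝ) := by exact_mod_cast h1
    have hcast : ((YY a N x + i * LL N : ℕ) : ℝ) = (YY a N x : ℝ) + i * (LL N : ℝ) := by
      push_cast; ring
    have hi0 : (0 : ℝ) ≤ (i : ℝ) * (LL N : ℝ) := by positivity
    have h2 := (hu x hxl hxu ((YY a N x + i * LL N : ℕ) : ℝ) (by rw [hcast]; linarith)
      (by rw [hcast]; linarith)).1
    rw [hcast] at h2 ⊢
    have hs : (0 : ℝ) < (YY a N x : ℝ) + i * (LL N : ℝ) := by linarith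
    have h1e : (0 : ℝ) < 1 - e := by linarith
    have h3 : (LL N : ℝ) / uu a x ((YY a N x : ℝ) + i * (LL N : ℝ)) (-N) ≤
        (LL N : ℝ) / ((1 - e) * ((a : ℝ) * x * ((YY a N x : ℝ) + i * (LL N : ℝ)))) :=
      div_le_div_of_nonneg_left hLR.le (by positivity) h2
    refine le_trans h3 (le_of_eq ?_)
    field_simp
  have h1e : (0 : ℝ) < 1 - e := by linarith
  have hS : ∑ i ∈ range (mm (YY a N x) (LL N)),
      (LL N : ℝ) / ((YY a N x : ℝ) + i * (LL N : ℝ)) ≤ (1 + η) * Real.log 2 := by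
    rcases Nat.eq_zero_or_pos (mm (YY a N x) (LL N)) with h0 | hpos
    · rw [h0]
      simp only [Finset.range_zero, Finset.sum_empty]
      positivity
    · obtain ⟨m, hm⟩ := Nat.exists_eq_succ_of_ne_zero hpos.ne'
      rw [hm]
      have h2 := harm (YY a N x) (LL N) hYR hLR m
      have h3 := mm_lt (YY a N x) (LL N) m hL1 (by omega)
      have h3' : (m : ℝ) * (LL N : ℝ) < (YY a N x : ℝ) := by exact_mod_cast h3
      have h4 : Real.log (((YY a N x : ℝ) + m * (LL N : ℝ)) / (YY a N x : ℝ)) ≤ Real.log 2 := by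
        apply Real.log_le_log (by positivity)
        rw [div_le_iff₀ hYR]
        linarith
      have h5 : (LL N : ℝ) / (YY a N x : ℝ) ≤ η * Real.log 2 := le_trans hLY hexpN
      calc _ ≤ _ := h2
        _ ≤ η * Real.log 2 + Real.log 2 := add_le_add h5 h4
        _ = _ := by ring
  calc ∑ i ∈ range (mm (YY a N x) (LL N)),
      (LL N : ℝ) / uu a x ((YY a N x + i * LL N : ℕ) : ℝ) (-N)
      ≤ ∑ i ∈ range (mm (YY a N x) (LL N)),
        (1 / ((1 - e) * ((a : ℝ) * x))) * ((LL N : ℝ) / ((YY a N x : ℝ) + i * (LL N : ℝ))) :=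
        Finset.sum_le_sum hterm
    _ = (1 / ((1 - e) * ((a : ℝ) * x))) * ∑ i ∈ range (mm (YY a N x) (LL N)),
        (LL N : ℝ) / ((YY a N x : ℝ) + i * (LL N : ℝ)) := by rw [Finset.mul_sum]
    _ ≤ (1 / ((1 - e) * ((a : ℝ) * x))) * ((1 + η) * Real.log 2) :=
        mul_le_mul_of_nonneg_left hS (by positivity)
    _ ≤ (1 + ε) * Real.log 2 / ((a : ℝ) * x) := by
        have h2 : (1 + η) ≤ (1 + ε) * (1 - e) := by nlinarith
        rw [div_mul_eq_mul_div, one_mul, div_le_div_iff₀ (by positivity) hax]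
        have h3 : (1 + η) * (Real.log 2 * ((a : ℝ) * x)) ≤
            (1 + ε) * (1 - e) * (Real.log 2 * ((a : ℝ) * x)) :=
          mul_le_mul_of_nonneg_right h2 (by positivity)
        linarith

end Pool.Agent.MK47
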