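import Mathlib

/-!
# A divisor sum over an arithmetic progression

`m ≥ 1`, `w` coprime to `m`, `f ≥ 0`, `1 ≤ lo ≤ hi`. Then
`∑_{lo ≤ n ≤ hi, m ∣ n - w} ∑_{d ∣ n} f d ≤ ∑_{d ≤ hi, (d, m) = 1} f d ((hi - lo)/(m d) + 1)`.
Exchange the sums: `d ∣ n` and `m ∣ n - w` force `(d, m) = 1` (a common prime divides `n` and `n - w`, so
`w`), and `1 ≤ d ≤ n ≤ hi`. For fixed `d`, the `n ∈ [lo, hi]` with `d ∣ n`, `m ∣ n - w` lie in one class modulo
`m d`, so their number is at most `(hi - lo)/(m d) + 1`.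
-/

namespace Pool.Agent.MK47

open Finset

theorem class_card (M : ℕ) (hM : 0 < M) (lo hi : ℕ) (h : lo ≤ hi) (S : Finset ℕ)
    (h1 : ∀ n ∈ S, lo ≤ n ∧ n ≤ hi) (h2 : ∀ n ∈ S, ∀ n' ∈ S, (M : ℤ) ∣ (n : ℤ) - n') :
    (S.card : ℝ) ≤ ((hi : ℝ) - lo) / M + 1 := by
  have hc : S.card ≤ (range ((hi - lo) / M + 1)).card := by
    apply Finset.card_le_card_of_injOn (fun n => (n - lo) / M)
    · intro n hn
      have := h1 n hn
      simp only [Finset.coe_range, Set.mem_Iio]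
      exact Nat.lt_succ_of_le (Nat.div_le_div_right (by omega))
    · intro n hn n' hn' he
      have a1 := h1 n hn
      have a2 := h1 n' hn'
      have a3 := h2 n hn n' hn'
      simp only at he
      have b1 := Nat.div_add_mod (n - lo) M
      have b2 := Nat.div_add_mod (n' - lo) M
      have b3 := Nat.mod_lt (n - lo) hM
      have b4 := Nat.mod_lt (n' - lo) hM
      rw [he] at b1
      have hlt : |(n : ℤ) - n'| < M := by
        rw [abs_lt]
        constructor
        · zify [a1.1, a2.1] at b1 b2 b3 b4 ⊢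
          have := Int.emod_nonneg ((n : ℤ) - lo) (by exact_mod_cast hM.ne' : (M : ℤ) ≠ 0)
          have := Int.emod_nonneg ((n' : ℤ) - lo) (by exact_mod_cast hM.ne' : (M : ℤ) ≠ 0)
          linarith
        · zify [a1.1, a2.1] at b1 b2 b3 b4 ⊢
          have := Int.emod_nonneg ((n : ℤ) - lo) (by exact_mod_cast hM.ne' : (M : ℤ) ≠ 0)
          have := Int.emod_nonneg ((n' : ℤ) - lo) (by exact_mod_cast hM.ne' : (M : ℤ) ≠ 0)
          linarith
      have := Int.eq_zero_of_abs_lt_dvd a3 hlt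
      omega
  rw [Finset.card_range] at hc
  have h3 : (((hi - lo) / M : ℕ) : ℝ) ≤ ((hi : ℝ) - lo) / M := by
    refine le_trans Nat.cast_div_le ?_
    rw [Nat.cast_sub h]
  have h4 : (S.card : ℝ) ≤ (((hi - lo) / M + 1 : ℕ) : ℝ) := by exact_mod_cast hc
  push_cast at h4
  linarith

theorem div_sum (m : ℕ) (hm : 0 < m) (w : ℤ) (hw : ∀ p : ℕ, p.Prime → p ∣ m → ¬ (p : ℤ) ∣ w)
    (f : ℕ → ℝ) (hf : ∀ d, 0 ≤ f d) (lo hi : ℕ) (hlo : 1 ≤ lo) (h : lo ≤ hi) :
    ∑ n ∈ (Icc lo hi).filter (fun n : ℕ => (m : ℤ) ∣ (n : ℤ) - w), ∑ d ∈ n.divisors, f d ≤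
      ∑ d ∈ (Icc 1 hi).filter (fun d : ℕ => d.Coprime m), f d * (((hi : ℝ) - lo) / (m * d) + 1) := by
  have key : ∀ n ∈ (Icc lo hi).filter (fun n : ℕ => (m : ℤ) ∣ (n : ℤ) - w),
      ∑ d ∈ n.divisors, f d = ∑ d ∈ (Icc 1 hi).filter (fun d : ℕ => d.Coprime m),
        if d ∣ n then f d else 0 := by
    intro n hn
    rw [Finset.mem_filter, Finset.mem_Icc] at hn
    rw [← Finset.sum_filter]
    apply Finset.sum_congr _ (fun _ _ => rfl)
    ext d
    simp only [Nat.mem_divisors, Finset.mem_filter, Finset.mem_Icc]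
    constructor
    · rintro ⟨hd, hn0⟩
      refine ⟨⟨⟨Nat.pos_of_dvd_of_pos hd (by omega), le_trans (Nat.le_of_dvd (by omega) hd) hn.1.2⟩,
        ?_⟩, hd⟩
      refine Nat.Coprime.symm (Nat.coprime_of_dvd ?_)
      intro p hp hpm hpd
      refine hw p hp hpm ?_
      have e1 : (p : ℤ) ∣ (n : ℤ) := by exact_mod_cast hpd.trans hd
      have e2 : (p : ℤ) ∣ (n : ℤ) - w := dvd_trans (by exact_mod_cast hpm) hn.2
      have := dvd_sub e1 e2
      simpa using this
    · rintro ⟨⟨⟨_, _⟩, _⟩, hd⟩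
      exact ⟨hd, by omega⟩
  rw [Finset.sum_congr rfl key, Finset.sum_comm]
  apply Finset.sum_le_sum
  intro d hd
  rw [Finset.mem_filter, Finset.mem_Icc] at hd
  rw [← Finset.sum_filter, Finset.sum_const, nsmul_eq_mul, mul_comm]
  apply mul_le_mul_of_nonneg_left _ (hf d)
  have := class_card (m * d) (Nat.mul_pos hm (by omega)) lo hi h
    (((Icc lo hi).filter (fun n : ℕ => (m : ℤ) ∣ (n : ℤ) - w)).filter (fun n => d ∣ n)) ?_ ?_
  · push_cast at this
    exact this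
  · intro n hn
    simp only [Finset.mem_filter, Finset.mem_Icc] at hn
    exact hn.1.1
  · intro n hn n' hn'
    simp only [Finset.mem_filter, Finset.mem_Icc] at hn hn'
    push_cast
    apply IsCoprime.mul_dvd
    · have := hd.2
      rw [Nat.isCoprime_iff_coprime]
      exact this.symm
    · have := dvd_sub hn.1.2 hn'.1.2
      simpa using this
    · exact dvd_sub (by exact_mod_cast hn.2) (by exact_mod_cast hn'.2)

end Pool.Agent.MK47
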