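import Pool.Agent.MK47.MulBound
import Pool.Agent.MK47.WWprops

/-!
# The sum of `g(d)` over rough `d`

There is an absolute constant `C0` with `∑_{d ≤ X, rough} gf d ≤ C0 X^(3/4) |A B C|^4` whenever
`A B C ≠ 0`, `P0 ≥ 2`. Proof: `1 ≤ (X/d)^(3/4)`, so the sum is at most
`X^(3/4) ∑ gf d / d^(3/4)`, and by `mul_bound` with `F p k = gp p k / p^(3k/4)`, `S` = primes in `(P0, X]` (so
`p ≥ 3`), the sum is at most `∏_{p ∈ S} (1 + ∑_{k=1}^X F p k)`.
* `p ∤ A B C`: `∑ = p^(-7/4) + 2 p^(-3/2) ≤ 3 p^(-3/2)`; the product of these factors is at most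
  `exp (3 ∑_{n ≥ 1} n^(-3/2)) =: C0`.
* `p ∣ A B C`, `δ = del A B p`: `∑_k 8 p^(min k δ - 3k/4) ≤ 8 ∑_{k ≤ δ} p^(k/4) + 8 ∑_{j ≥ 1} p^(δ/4 - 3j/4)
  ≤ 8 p^(δ/4) (δ + 1/(p^(3/4) - 1)) ≤ 8 p^(δ/4) (δ + 0.8)` as `p^(3/4) ≥ 3^(3/4) > 2.25`. If `δ = 0` the
  factor is at most `1 + 6.4 ≤ p^2`. If `δ ≥ 1` it is at most `p^(δ/4) (7.4 + 8 δ) ≤ p^(δ/4) p^(3 δ) ≤ p^(4 δ)`
  (`27^δ ≥ 7.4 + 8 δ`). In both cases it is at most `p^(4 v)` with `v = v_p(A B C) ≥ max(1, 2 δ)`.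
  The product over `p ∣ A B C` is at most `|A B C|^4`.
-/

namespace Pool.Agent.MK47

open Finset

/-- The local factors divided by `p^(3k/4)`. -/
private noncomputable def gF (A B C : ℤ) (p k : ℕ) : ℝ :=
  gp A B C p k / ((p : ℝ) ^ ((1 : ℝ) / 4)) ^ (3 * k)

private theorem gF_prod (A B C : ℤ) (n : ℕ) (hn : n ≠ 0) :
    n.factorization.prod (fun p k => gF A B C p k) = gf A B C n / (n : ℝ) ^ ((3 : ℝ) / 4) := by
  unfold gf gF
  unfold Finsupp.prod
  simp only []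
  rw [Finset.prod_div_distrib]
  congr 1
  have h1 : ∀ p ∈ n.factorization.support, ((p : ℝ) ^ ((1 : ℝ) / 4)) ^ (3 * n.factorization p) =
      (((p : ℝ) ^ (n.factorization p)) ^ ((3 : ℝ) / 4)) := by
    intro p _
    rw [← Real.rpow_natCast ((p : ℝ) ^ ((1 : ℝ) / 4)), ← Real.rpow_mul (by positivity),
      ← Real.rpow_natCast (p : ℝ), ← Real.rpow_mul (by positivity)]
    congr 1
    push_cast
    ring
  rw [Finset.prod_congr rfl h1, Real.finsetProd_rpow _ _ (fun i _ => by positivity)]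
  congr 1
  have h2 := Nat.prod_factorization_pow_eq_self hn
  unfold Finsupp.prod at h2
  have h3 : ((∏ a ∈ n.factorization.support, a ^ (n.factorization a) : ℕ) : ℝ) = (n : ℝ) := by
    exact_mod_cast congrArg (Nat.cast (R := ℝ)) h2
  rw [← h3]
  push_cast
  rfl

private theorem gF_nonneg (A B C : ℤ) (p k : ℕ) : 0 ≤ gF A B C p k := by
  unfold gF
  exact div_nonneg (gp_nonneg A B C p k) (by positivity)

private theorem q4 (p : ℕ) : ((p : ℝ) ^ ((1 : ℝ) / 4)) ^ 4 = (p : ℝ) := by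
  rw [← Real.rpow_natCast ((p : ℝ) ^ ((1 : ℝ) / 4)), ← Real.rpow_mul (by positivity)]
  norm_num

private theorem q3 (p : ℕ) (hp : 3 ≤ p) : 9 / 4 ≤ ((p : ℝ) ^ ((1 : ℝ) / 4)) ^ 3 := by
  by_contra h
  rw [not_le] at h
  have h1 := q4 p
  have h2 : (3 : ℝ) ≤ (p : ℝ) := by exact_mod_cast hp
  set q := (p : ℝ) ^ ((1 : ℝ) / 4) with hq
  have hq0 : 0 ≤ q := by positivity
  have h3 : (q ^ 3) ^ 4 < (9 / 4) ^ 4 := pow_lt_pow_left₀ h (by positivity) (by norm_num)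
  have h4 : (q ^ 4) ^ 3 = (q ^ 3) ^ 4 := by ring
  rw [← h4, h1] at h3
  have h5 : (3 : ℝ) ^ 3 ≤ (p : ℝ) ^ 3 := pow_le_pow_left₀ (by norm_num) h2 3
  norm_num at h3 h5
  linarith

private theorem q1 (p : ℕ) (hp : 3 ≤ p) : 1 ≤ (p : ℝ) ^ ((1 : ℝ) / 4) := by
  apply Real.one_le_rpow _ (by norm_num)
  exact_mod_cast (by omega : 1 ≤ p)

private theorem gF_bad_sum (A B C : ℤ) (p : ℕ) (hp : 3 ≤ p) (hd : (p : ℤ) ∣ A * B * C) (K : ℕ) :
    ∑ k ∈ Icc 1 K, gF A B C p k ≤ 8 * ((p : ℝ) ^ ((1 : ℝ) / 4)) ^ (del A B p) *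
      ((min K (del A B p) : ℕ) + 4 / 5 *
        (1 - (1 / ((p : ℝ) ^ ((1 : ℝ) / 4)) ^ 3) ^ (K - del A B p))) := by
  set δ := del A B p with hδ
  have h4 := q4 p
  have h3 := q3 p hp
  have h1 := q1 p hp
  set q := (p : ℝ) ^ ((1 : ℝ) / 4) with hq
  have hq0 : 0 < q := by linarith
  set r := 1 / q ^ 3 with hr
  have hr0 : 0 < r := by positivity
  have hr1 : r ≤ 4 / 9 := by
    rw [hr, div_le_iff₀ (by positivity)]
    linarith
  induction K with
  | zero => simp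
  | succ K ih =>
    rw [Finset.sum_Icc_succ_top (by omega)]
    have h5 : gF A B C p (K + 1) = 8 * q ^ (4 * min (K + 1) δ) / q ^ (3 * (K + 1)) := by
      unfold gF gp
      rw [if_pos hd, ← hδ, ← hq, pow_mul q 4, h4]
    rw [h5]
    by_cases h6 : K < δ
    · have h7 : min (K + 1) δ = K + 1 := by omega
      have h8 : min K δ = K := by omega
      have h9 : K - δ = 0 := by omega
      have h10 : K + 1 - δ = 0 := by omega
      rw [h7, h10]
      rw [h8, h9] at ih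
      have h11 : 8 * q ^ (4 * (K + 1)) / q ^ (3 * (K + 1)) = 8 * q ^ (K + 1) := by
        rw [div_eq_iff (by positivity)]
        rw [mul_assoc, ← pow_add]
        congr 2
        ring
      rw [h11]
      have h12 : q ^ (K + 1) ≤ q ^ δ := pow_le_pow_right₀ h1 (by omega)
      push_cast
      simp only [pow_zero, sub_self, mul_zero, add_zero] at ih ⊢
      nlinarith
    · have h7 : min (K + 1) δ = δ := by omega
      have h8 : min K δ = δ := by omega
      rw [h7]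
      rw [h8] at ih
      obtain ⟨j, hj⟩ : ∃ j, K = δ + j := ⟨K - δ, by omega⟩
      have h9 : K - δ = j := by omega
      have h10 : K + 1 - δ = j + 1 := by omega
      rw [h10]
      rw [h9] at ih
      have h11 : 8 * q ^ (4 * δ) / q ^ (3 * (K + 1)) = 8 * q ^ δ * r ^ (j + 1) := by
        rw [hr, hj, one_div, inv_pow, ← pow_mul, div_eq_iff (by positivity)]
        field_simp
        rw [← pow_add, ← pow_add]
        congr 1
        ring
      rw [h11]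
      have h12 : r ^ (j + 1) = r ^ j * r := pow_succ r j
      have h13 : 0 < r ^ j := by positivity
      have h14 : 0 < q ^ δ := by positivity
      rw [h12]
      have h15 : r ^ j * r ≤ r ^ j * (4 / 9) := mul_le_mul_of_nonneg_left hr1 h13.le
      have h16 : 4 / 5 * (1 - r ^ j) + r ^ j * r ≤ 4 / 5 * (1 - r ^ j * r) := by nlinarith
      have h17 := mul_le_mul_of_nonneg_left h16 (by positivity : (0 : ℝ) ≤ 8 * q ^ δ)
      nlinarith

private theorem gF_bad (A B C : ℤ) (h0 : A * B * C ≠ 0) (p : ℕ) (hpp : p.Prime) (hp : 3 ≤ p)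
    (hd : (p : ℤ) ∣ A * B * C) (K : ℕ) :
    1 + ∑ k ∈ Icc 1 K, gF A B C p k ≤ ((p : ℝ) ^ ((A * B * C).natAbs.factorization p)) ^ 4 := by
  have h1 := gF_bad_sum A B C p hp hd K
  set δ := del A B p with hδ
  have h4 := q4 p
  have h3 := q3 p hp
  have h2 := q1 p hp
  set q := (p : ℝ) ^ ((1 : ℝ) / 4) with hq
  have hq0 : 0 < q := by linarith
  set v := (A * B * C).natAbs.factorization p with hv
  have hM : (A * B * C).natAbs ≠ 0 := Int.natAbs_ne_zero.mpr h0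
  have hv1 : 1 ≤ v := by
    have h5 : p ∣ (A * B * C).natAbs := Int.natCast_dvd.mp hd
    exact (hpp.dvd_iff_one_le_factorization hM).mp h5
  have hv2 : 2 * δ ≤ v := by
    have h5 : p ^ δ ∣ Int.gcd A B := Nat.ordProj_dvd _ _
    have h6 : p ^ δ ∣ A.natAbs := h5.trans (Int.gcd_dvd_natAbs_left A B)
    have h7 : p ^ δ ∣ B.natAbs := h5.trans (Int.gcd_dvd_natAbs_right A B)
    have h8 : p ^ (2 * δ) ∣ (A * B * C).natAbs := by
      rw [Int.natAbs_mul, Int.natAbs_mul, two_mul, pow_add]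
      exact (mul_dvd_mul h6 h7).mul_right _
    exact (hpp.pow_dvd_iff_le_factorization hM).mp h8
  have hpr : (3 : ℝ) ≤ (p : ℝ) := by exact_mod_cast hp
  have hr0 : 0 < 1 / q ^ 3 := by positivity
  have h5 : ((min K δ : ℕ) : ℝ) ≤ (δ : ℝ) := by exact_mod_cast min_le_right _ _
  have h6 : (0 : ℝ) ≤ (1 / q ^ 3) ^ (K - δ) := by positivity
  have hqd : 1 ≤ q ^ δ := one_le_pow₀ h2
  have h7 : 1 + ∑ k ∈ Icc 1 K, gF A B C p k ≤ q ^ δ * (8 * ((δ : ℝ) + 1)) := by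
    have h8 : ((min K δ : ℕ) : ℝ) + 4 / 5 * (1 - (1 / q ^ 3) ^ (K - δ)) ≤ (δ : ℝ) + 4 / 5 := by
      linarith
    have h9 := mul_le_mul_of_nonneg_left h8 (by positivity : (0 : ℝ) ≤ 8 * q ^ δ)
    nlinarith
  have h8 : 8 * ((δ : ℝ) + 1) ≤ (p : ℝ) ^ (2 * (δ + 1)) := by
    have h9 : 1 + ((δ + 1 : ℕ) : ℝ) * 8 ≤ (1 + 8) ^ (δ + 1) :=
      one_add_mul_le_pow (by norm_num) (δ + 1)
    have h10 : ((1 : ℝ) + 8) ^ (δ + 1) ≤ ((p : ℝ) ^ 2) ^ (δ + 1) :=
      pow_le_pow_left₀ (by norm_num) (by nlinarith) _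
    rw [← pow_mul] at h10
    push_cast at h9
    linarith
  have h9 : q ^ δ ≤ (p : ℝ) ^ δ := by
    apply pow_le_pow_left₀ hq0.le
    rw [← h4]
    calc q = q ^ 1 := (pow_one q).symm
      _ ≤ q ^ 4 := pow_le_pow_right₀ h2 (by norm_num)
  have h10 : q ^ δ * (8 * ((δ : ℝ) + 1)) ≤ (p : ℝ) ^ δ * (p : ℝ) ^ (2 * (δ + 1)) :=
    mul_le_mul h9 h8 (by positivity) (by positivity)
  rw [← pow_add] at h10
  refine (h7.trans h10).trans ?_
  rw [← pow_mul]
  exact pow_le_pow_right₀ (by linarith) (by omega)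

private theorem gF_good (A B C : ℤ) (p : ℕ) (hp : 3 ≤ p)
    (hd : ¬ (p : ℤ) ∣ A * B * C) (K : ℕ) :
    1 + ∑ k ∈ Icc 1 K, gF A B C p k ≤ Real.exp (3 * (1 / (p : ℝ) ^ ((3 : ℝ) / 2))) := by
  have h4 := q4 p
  have h2 := q1 p hp
  have h6 : ((p : ℝ) ^ ((1 : ℝ) / 4)) ^ 6 = (p : ℝ) ^ ((3 : ℝ) / 2) := by
    rw [← Real.rpow_natCast ((p : ℝ) ^ ((1 : ℝ) / 4)), ← Real.rpow_mul (by positivity)]
    congr 1
    norm_num
  have h1 : ∑ k ∈ Icc 1 K, gF A B C p k ≤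
      ∑ k ∈ Icc 1 K, ((if k = 1 then gF A B C p 1 else 0) + (if k = 2 then gF A B C p 2 else 0)) := by
    apply sum_le_sum
    intro k _
    by_cases h1 : k = 1
    · subst h1; simp
    · by_cases h3 : k = 2
      · subst h3; simp
      · rw [if_neg h1, if_neg h3]
        unfold gF gp
        rw [if_neg hd, if_neg h1, if_neg h3]
        simp
  have h5 : ∑ k ∈ Icc 1 K, ((if k = 1 then gF A B C p 1 else 0) +
      (if k = 2 then gF A B C p 2 else 0)) ≤ gF A B C p 1 + gF A B C p 2 := by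
    rw [sum_add_distrib, sum_ite_eq', sum_ite_eq']
    have h7 := gF_nonneg A B C p 1
    have h8 := gF_nonneg A B C p 2
    split_ifs <;> linarith
  have h7 : gF A B C p 1 + gF A B C p 2 ≤ 3 * (1 / (p : ℝ) ^ ((3 : ℝ) / 2)) := by
    rw [← h6]
    unfold gF gp
    rw [if_neg hd, if_neg hd, if_pos rfl, if_neg (by norm_num), if_pos rfl]
    set q := (p : ℝ) ^ ((1 : ℝ) / 4) with hq
    have hq0 : 0 < q := by linarith
    rw [← h4]
    have h8 : 1 / q ^ 4 / q ^ (3 * 1) ≤ 1 / q ^ 6 := by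
      rw [div_div, ← pow_add]
      apply one_div_le_one_div_of_le (by positivity)
      exact pow_le_pow_right₀ h2 (by norm_num)
    have h9 : 2 / q ^ (3 * 2) = 2 * (1 / q ^ 6) := by
      norm_num
      ring
    rw [h9]
    linarith
  have h8 := Real.add_one_le_exp (3 * (1 / (p : ℝ) ^ ((3 : ℝ) / 2)))
  linarith

open Classical in
theorem g_sum : ∃ C0 : ℝ, 0 < C0 ∧ ∀ (P0 : ℕ), 2 ≤ P0 → ∀ (A B C : ℤ), A * B * C ≠ 0 → ∀ X : ℕ,
    ∑ d ∈ (Icc 1 X).filter (fun d => Rough P0 d), gf A B C d ≤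
      C0 * (X : ℝ) ^ ((3 : ℝ) / 4) * |((A * B * C : ℤ) : ℝ)| ^ 4 := by
  have hsum : Summable (fun n : ℕ => 1 / (n : ℝ) ^ ((3 : ℝ) / 2)) :=
    Real.summable_one_div_nat_rpow.mpr (by norm_num)
  refine ⟨Real.exp (3 * ∑' n : ℕ, 1 / (n : ℝ) ^ ((3 : ℝ) / 2)), Real.exp_pos _, ?_⟩
  intro P0 hP0 A B C h0 X
  set T := (Icc 1 X).filter (fun d => Rough P0 d) with hT
  set S := (Icc 1 X).filter (fun p => p.Prime ∧ P0 < p) with hS
  have hM : (A * B * C).natAbs ≠ 0 := Int.natAbs_ne_zero.mpr h0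
  have h1 : ∑ d ∈ T, gf A B C d ≤
      (X : ℝ) ^ ((3 : ℝ) / 4) * ∑ d ∈ T, d.factorization.prod (fun p k => gF A B C p k) := by
    rw [mul_sum]
    apply sum_le_sum
    intro d hd
    rw [hT, mem_filter, mem_Icc] at hd
    have hd0 : d ≠ 0 := by omega
    rw [gF_prod A B C d hd0]
    have h2 : (0 : ℝ) < (d : ℝ) ^ ((3 : ℝ) / 4) := by
      apply Real.rpow_pos_of_pos
      exact_mod_cast (by omega : 0 < d)
    have h3 : (d : ℝ) ^ ((3 : ℝ) / 4) ≤ (X : ℝ) ^ ((3 : ℝ) / 4) := by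
      apply Real.rpow_le_rpow (by positivity) _ (by norm_num)
      exact_mod_cast hd.1.2
    rw [← mul_div_assoc, le_div_iff₀ h2]
    have h4 := gf_nonneg A B C d
    nlinarith
  have h2 : ∑ d ∈ T, d.factorization.prod (fun p k => gF A B C p k) ≤
      ∏ p ∈ S, (1 + ∑ k ∈ Icc 1 X, gF A B C p k) := by
    apply mul_bound (fun p k => gF A B C p k) (fun p k => gF_nonneg A B C p k) S _ X T
    · intro n hn
      rw [hT, mem_filter, mem_Icc] at hn
      obtain ⟨⟨hn1, hn2⟩, hn3⟩ := hn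
      refine ⟨by omega, ?_, ?_⟩
      · intro p hp
        have hp1 := Nat.prime_of_mem_primeFactors hp
        have hp2 := Nat.dvd_of_mem_primeFactors hp
        have hp3 := Nat.le_of_dvd (by omega) hp2
        rw [hS, mem_filter, mem_Icc]
        exact ⟨⟨hp1.one_lt.le, hp3.trans hn2⟩, hp1, hn3 p hp1 hp2⟩
      · intro p
        have h3 := Nat.factorization_lt (n := n) p (by omega)
        omega
    · intro p hp
      rw [hS, mem_filter] at hp
      exact hp.2.1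
  have h3 : ∏ p ∈ S, (1 + ∑ k ∈ Icc 1 X, gF A B C p k) ≤
      ∏ p ∈ S, (Real.exp (3 * (1 / (p : ℝ) ^ ((3 : ℝ) / 2))) *
        (if (p : ℤ) ∣ A * B * C then ((p : ℝ) ^ ((A * B * C).natAbs.factorization p)) ^ 4 else 1)) := by
    apply prod_le_prod
    · intro p _
      have h4 : 0 ≤ ∑ k ∈ Icc 1 X, gF A B C p k := sum_nonneg (fun k _ => gF_nonneg A B C p k)
      linarith
    · intro p hp
      rw [hS, mem_filter, mem_Icc] at hp
      obtain ⟨⟨hp1, hp2⟩, hp3, hp4⟩ := hp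
      have hp5 : 3 ≤ p := by omega
      by_cases hd : (p : ℤ) ∣ A * B * C
      · rw [if_pos hd]
        have h4 := gF_bad A B C h0 p hp3 hp5 hd X
        have h5 : 1 ≤ Real.exp (3 * (1 / (p : ℝ) ^ ((3 : ℝ) / 2))) := by
          apply Real.one_le_exp
          positivity
        have h6 : 0 ≤ ((p : ℝ) ^ ((A * B * C).natAbs.factorization p)) ^ 4 := by positivity
        nlinarith
      · rw [if_neg hd, mul_one]
        exact gF_good A B C p hp5 hd X
  have h4 : ∏ p ∈ S, Real.exp (3 * (1 / (p : ℝ) ^ ((3 : ℝ) / 2))) ≤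
      Real.exp (3 * ∑' n : ℕ, 1 / (n : ℝ) ^ ((3 : ℝ) / 2)) := by
    rw [← Real.exp_sum, ← mul_sum]
    apply Real.exp_le_exp.mpr
    have h5 : ∑ p ∈ S, 1 / (p : ℝ) ^ ((3 : ℝ) / 2) ≤ ∑' n : ℕ, 1 / (n : ℝ) ^ ((3 : ℝ) / 2) :=
      hsum.sum_le_tsum S (fun i _ => by positivity)
    linarith
  have h5 : ∏ p ∈ S, (if (p : ℤ) ∣ A * B * C then
      ((p : ℝ) ^ ((A * B * C).natAbs.factorization p)) ^ 4 else 1) ≤
      |((A * B * C : ℤ) : ℝ)| ^ 4 := by
    rw [← prod_filter, prod_pow]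
    apply pow_le_pow_left₀ (prod_nonneg (fun i _ => by positivity))
    have h6 : S.filter (fun p : ℕ => (p : ℤ) ∣ A * B * C) ⊆ (A * B * C).natAbs.primeFactors := by
      intro p hp
      rw [mem_filter, hS, mem_filter] at hp
      rw [Nat.mem_primeFactors]
      exact ⟨hp.1.2.1, Int.natCast_dvd.mp hp.2, hM⟩
    have h7 : ∏ p ∈ S.filter (fun p : ℕ => (p : ℤ) ∣ A * B * C),
        (p : ℝ) ^ ((A * B * C).natAbs.factorization p) ≤
        ∏ p ∈ (A * B * C).natAbs.primeFactors, (p : ℝ) ^ ((A * B * C).natAbs.factorization p) := by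
      have h7' : ∏ p ∈ S.filter (fun p : ℕ => (p : ℤ) ∣ A * B * C),
          p ^ ((A * B * C).natAbs.factorization p) ≤
          ∏ p ∈ (A * B * C).natAbs.primeFactors, p ^ ((A * B * C).natAbs.factorization p) :=
        prod_le_prod_of_subset_of_one_le' h6
          (fun p hp _ => Nat.one_le_pow _ _ (Nat.prime_of_mem_primeFactors hp).pos)
      exact_mod_cast h7'
    refine h7.trans ?_
    have h8 := Nat.prod_factorization_pow_eq_self hM
    unfold Finsupp.prod at h8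
    rw [Nat.support_factorization] at h8
    have h9 : ((∏ a ∈ (A * B * C).natAbs.primeFactors, a ^ ((A * B * C).natAbs.factorization a) : ℕ) : ℝ) =
        ((A * B * C).natAbs : ℝ) := by
      exact_mod_cast congrArg (Nat.cast (R := ℝ)) h8
    push_cast at h9
    rw [h9]
    rw [Nat.cast_natAbs]
    push_cast
    exact le_refl _
  have h6 : 0 ≤ (X : ℝ) ^ ((3 : ℝ) / 4) := by positivity
  rw [prod_mul_distrib] at h3
  have h7 : 0 ≤ ∏ p ∈ S, (if (p : ℤ) ∣ A * B * C then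
      ((p : ℝ) ^ ((A * B * C).natAbs.factorization p)) ^ 4 else 1) := by
    apply prod_nonneg
    intro p _
    split_ifs
    · positivity
    · norm_num
  have h8 := mul_le_mul h4 h5 h7 (Real.exp_pos _).le
  have h9 := (h2.trans h3).trans h8
  have h10 := mul_le_mul_of_nonneg_left h9 h6
  calc ∑ d ∈ T, gf A B C d ≤ _ := h1
    _ ≤ _ := h10
    _ = _ := by ring

end Pool.Agent.MK47
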