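import Pool.Agent.MK47.MulBound
import Pool.Agent.MK47.WWprops

/-!
# The sum of `g(d) / d` over rough `d`

Let `A B C ≠ 0`, `P0 ≥ 2`. `gf d / d = ∏_{p^k || d} gp p k / p^k`, since `d = ∏ p^k`. Use `mul_bound` with
`F p k = gp A B C p k / p^k`, `S` = the primes in `(P0, X]`, `K = X` (`v_p(d) < d ≤ X`),
`T = {1 ≤ d ≤ X rough}`. For every `K`:
* `p ∤ A B C`: `∑_{k=1}^K gp p k / p^k ≤ (1/p)/p + 2/p² = 3 / p²` and `1 + 3/p² ≤ exp (3/p²)`;
* `p ∣ A B C`: `∑_{k=1}^K 8 p^(min k δ) / p^k ≤ 8 δ + 8 ∑_{j ≥ 1} p^(-j) = 8 δ + 8 / (p - 1)`.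
So the product is at most `exp (3 ∑_{P0 < n ≤ X} 1 / n²) ∏_{p ∣ A B C, p > P0} (1 + 8 δ + 8/(p-1))` and
`∑_{n > P0} 1/n² ≤ 1/P0` (telescoping `1/n² ≤ 1/(n-1) - 1/n`). The factors for the primes `p ∣ ABC`
with `p > X` are at least `1`.
`HH_one_le`: `1 ≤ HH`: exponential of a nonnegative number times factors `≥ 1` (`p ≥ 2` for a prime).
-/

namespace Pool.Agent.MK47

open Finset

theorem HHfac {A B : ℤ} {p : ℕ} (hp : p.Prime) :
    1 ≤ 1 + 8 * (del A B p : ℝ) + 8 / ((p : ℝ) - 1) := by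
  have h2 : (2 : ℝ) ≤ p := by exact_mod_cast hp.two_le
  have h3 : 0 ≤ 8 / ((p : ℝ) - 1) := div_nonneg (by norm_num) (by linarith)
  have h4 : (0 : ℝ) ≤ del A B p := by positivity
  linarith

theorem one_le_prodR (S : Finset ℕ) (f : ℕ → ℝ) (h : ∀ p ∈ S, 1 ≤ f p) : 1 ≤ ∏ p ∈ S, f p := by
  have := Finset.prod_le_prod (s := S) (f := fun _ => (1 : ℝ)) (g := f)
    (fun _ _ => by norm_num) h
  simpa using this

theorem HH_one_le (P0 : ℕ) (A B C : ℤ) : 1 ≤ HH P0 A B C := by
  unfold HH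
  apply one_le_mul_of_one_le_of_one_le
  · apply Real.one_le_exp
    positivity
  · apply one_le_prodR
    intro p hp
    exact HHfac (Nat.prime_of_mem_primeFactors (Finset.mem_filter.1 hp).1)

theorem geo_aux (p : ℕ) (hp : 2 ≤ p) (δ X : ℕ) :
    ∑ k ∈ Icc 1 X, (1 / (p : ℝ)) ^ (k - δ) + (1 / (p : ℝ)) ^ (X - δ) / ((p : ℝ) - 1) ≤
      (min X δ : ℕ) + 1 / ((p : ℝ) - 1) := by
  have h2 : (2 : ℝ) ≤ p := by exact_mod_cast hp
  have h1 : (0 : ℝ) < (p : ℝ) - 1 := by linarith
  induction X with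
  | zero => simp
  | succ X ih =>
    rw [Finset.sum_Icc_succ_top (by omega)]
    rcases Nat.lt_or_ge X δ with h | h
    · have e1 : X + 1 - δ = 0 := by omega
      have e2 : X - δ = 0 := by omega
      have e3 : min (X + 1) δ = X + 1 := by omega
      have e4 : min X δ = X := by omega
      rw [e1, e3]
      rw [e2, e4] at ih
      push_cast
      simp only [pow_zero] at ih ⊢
      linarith
    · have e1 : X + 1 - δ = (X - δ) + 1 := by omega
      have e3 : min (X + 1) δ = δ := by omega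
      have e4 : min X δ = δ := by omega
      rw [e1, e3]
      rw [e4] at ih
      have e5 : (1 / (p : ℝ)) ^ (X - δ + 1) + (1 / (p : ℝ)) ^ (X - δ + 1) / ((p : ℝ) - 1) =
          (1 / (p : ℝ)) ^ (X - δ) / ((p : ℝ) - 1) := by
        rw [pow_succ]
        have : (p : ℝ) ≠ 0 := by positivity
        field_simp
        ring
      linarith

open Classical in
theorem h_bound (P0 : ℕ) (hP0 : 2 ≤ P0) (A B C : ℤ) (hABC : A * B * C ≠ 0) (X : ℕ) :
    ∑ d ∈ (Icc 1 X).filter (fun d => Rough P0 d), gf A B C d / d ≤ HH P0 A B C := by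
  set F : ℕ → ℕ → ℝ := fun p k => gp A B C p k / (p : ℝ) ^ k with hF
  have hgp0 : ∀ p j, 0 ≤ gp A B C p j := by
    intro p j
    unfold gp
    split_ifs <;> positivity
  have hF0 : ∀ p k, 0 ≤ F p k := by
    intro p k
    simp only [hF]
    have := hgp0 p k
    positivity
  set S : Finset ℕ := (Icc 1 X).filter (fun p => p.Prime ∧ P0 < p) with hS
  have hSp : ∀ p ∈ S, Nat.Prime p := fun p hp => (Finset.mem_filter.1 hp).2.1
  have hgf : ∀ d ∈ (Icc 1 X).filter (fun d => Rough P0 d),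
      gf A B C d / d = d.factorization.prod F := by
    intro d hd
    have hd0 : d ≠ 0 := by
      have := (Finset.mem_Icc.1 (Finset.mem_filter.1 hd).1).1
      omega
    have h1 : (d : ℝ) = d.factorization.prod fun p k => (p : ℝ) ^ k := by
      conv_lhs => rw [← Nat.prod_factorization_pow_eq_self hd0]
      simp only [Finsupp.prod]
      push_cast
      rfl
    unfold gf
    rw [h1]
    simp only [Finsupp.prod, hF]
    rw [Finset.prod_div_distrib]
  rw [Finset.sum_congr rfl hgf]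
  have hT : ∀ n ∈ (Icc 1 X).filter (fun d => Rough P0 d),
      n ≠ 0 ∧ n.primeFactors ⊆ S ∧ ∀ p, n.factorization p ≤ X := by
    intro n hn
    obtain ⟨h1, h2⟩ := Finset.mem_filter.1 hn
    rw [Finset.mem_Icc] at h1
    have hn0 : n ≠ 0 := by omega
    refine ⟨hn0, ?_, ?_⟩
    · intro p hp
      have hpp := Nat.prime_of_mem_primeFactors hp
      have hpd := Nat.dvd_of_mem_primeFactors hp
      have hle := Nat.le_of_dvd (by omega) hpd
      have := hpp.two_le
      exact Finset.mem_filter.2 ⟨Finset.mem_Icc.2 ⟨by omega, by omega⟩, hpp, h2 p hpp hpd⟩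
    · intro p
      have := Nat.factorization_lt p hn0
      omega
  refine (mul_bound F hF0 S hSp X _ hT).trans ?_
  set G : ℕ → ℝ := fun p => if (p : ℤ) ∣ A * B * C then
    1 + 8 * (del A B p : ℝ) + 8 / ((p : ℝ) - 1) else 1 with hG
  have hG1 : ∀ p ∈ S, 1 ≤ G p := by
    intro p hp
    simp only [hG]
    split_ifs
    · exact HHfac (hSp p hp)
    · exact le_refl _
  have hfac : ∀ p ∈ S, 1 + ∑ k ∈ Icc 1 X, F p k ≤ Real.exp (3 * ((p : ℝ) ^ 2)⁻¹) * G p := by
    intro p hp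
    have hpp := hSp p hp
    have h2 : (2 : ℝ) ≤ p := by exact_mod_cast hpp.two_le
    have h1 : (0 : ℝ) < (p : ℝ) - 1 := by linarith
    by_cases hd : (p : ℤ) ∣ A * B * C
    · have e1 : ∀ k ∈ Icc 1 X, F p k = 8 * (1 / (p : ℝ)) ^ (k - del A B p) := by
        intro k _
        simp only [hF]
        unfold gp
        rw [if_pos hd, mul_div_assoc]
        congr 1
        have hk : (p : ℝ) ^ k = (p : ℝ) ^ (min k (del A B p)) * (p : ℝ) ^ (k - del A B p) := by
          rw [← pow_add]; congr 1; omega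
        rw [hk, one_div, inv_pow]
        have : (p : ℝ) ≠ 0 := by positivity
        field_simp
      rw [Finset.sum_congr rfl e1, ← Finset.mul_sum]
      have h3 := geo_aux p hpp.two_le (del A B p) X
      have h4 : 0 ≤ (1 / (p : ℝ)) ^ (X - del A B p) / ((p : ℝ) - 1) := by positivity
      have h5 : ((min X (del A B p) : ℕ) : ℝ) ≤ del A B p := by
        exact_mod_cast min_le_right _ _
      have h6 : 1 + 8 * ∑ k ∈ Icc 1 X, (1 / (p : ℝ)) ^ (k - del A B p) ≤ G p := by
        simp only [hG]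
        rw [if_pos hd]
        have : 8 / ((p : ℝ) - 1) = 8 * (1 / ((p : ℝ) - 1)) := by ring
        rw [this]
        linarith
      refine h6.trans ?_
      have h7 : 1 ≤ Real.exp (3 * ((p : ℝ) ^ 2)⁻¹) := Real.one_le_exp (by positivity)
      have h8 := hG1 p hp
      nlinarith
    · have e1 : ∀ k ∈ Icc 1 X, F p k = (if k = 1 then ((p : ℝ) ^ 2)⁻¹ else 0) +
          (if k = 2 then 2 * ((p : ℝ) ^ 2)⁻¹ else 0) := by
        intro k _
        simp only [hF]
        unfold gp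
        rw [if_neg hd]
        by_cases hk1 : k = 1
        · subst hk1
          simp
          ring
        · by_cases hk2 : k = 2
          · subst hk2
            simp
            ring
          · simp [hk1, hk2]
      rw [Finset.sum_congr rfl e1, Finset.sum_add_distrib, Finset.sum_ite_eq', Finset.sum_ite_eq']
      have h3 : 0 ≤ ((p : ℝ) ^ 2)⁻¹ := by positivity
      have h4 : (if 1 ∈ Icc 1 X then ((p : ℝ) ^ 2)⁻¹ else 0) ≤ ((p : ℝ) ^ 2)⁻¹ := by
        split_ifs <;> linarith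
      have h5 : (if 2 ∈ Icc 1 X then 2 * ((p : ℝ) ^ 2)⁻¹ else 0) ≤ 2 * ((p : ℝ) ^ 2)⁻¹ := by
        split_ifs <;> linarith
      have h6 := Real.add_one_le_exp (3 * ((p : ℝ) ^ 2)⁻¹)
      have h7 : G p = 1 := by simp only [hG]; rw [if_neg hd]
      rw [h7, mul_one]
      linarith
  have hle : ∏ p ∈ S, (1 + ∑ k ∈ Icc 1 X, F p k) ≤
      ∏ p ∈ S, (Real.exp (3 * ((p : ℝ) ^ 2)⁻¹) * G p) := by
    apply Finset.prod_le_prod
    · intro p _
      have : 0 ≤ ∑ k ∈ Icc 1 X, F p k := Finset.sum_nonneg fun k _ => hF0 p k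
      linarith
    · exact hfac
  refine hle.trans ?_
  rw [Finset.prod_mul_distrib, ← Real.exp_sum]
  unfold HH
  have hGp : 0 ≤ ∏ p ∈ S, G p := Finset.prod_nonneg fun p hp => by linarith [hG1 p hp]
  apply mul_le_mul _ _ hGp (Real.exp_pos _).le
  · apply Real.exp_le_exp.2
    rw [← Finset.mul_sum]
    have h1 : ∑ p ∈ S, ((p : ℝ) ^ 2)⁻¹ ≤ (P0 : ℝ)⁻¹ := by
      rcases Nat.lt_or_ge X P0 with hX | hX
      · have : S = ∅ := by
          rw [Finset.eq_empty_iff_forall_notMem]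
          intro p hp
          obtain ⟨h1, _, h3⟩ := Finset.mem_filter.1 hp
          rw [Finset.mem_Icc] at h1
          omega
        rw [this, Finset.sum_empty]
        positivity
      · have h2 : S ⊆ Ioc P0 X := by
          intro p hp
          obtain ⟨h1, _, h3⟩ := Finset.mem_filter.1 hp
          rw [Finset.mem_Icc] at h1
          exact Finset.mem_Ioc.2 ⟨h3, h1.2⟩
        have h3 : ∑ p ∈ S, ((p : ℝ) ^ 2)⁻¹ ≤ ∑ p ∈ Ioc P0 X, ((p : ℝ) ^ 2)⁻¹ :=
          Finset.sum_le_sum_of_subset_of_nonneg h2 (fun _ _ _ => by positivity)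
        have h4 := sum_Ioc_inv_sq_le_sub (α := ℝ) (by omega : P0 ≠ 0) hX
        have h5 : (0 : ℝ) ≤ (X : ℝ)⁻¹ := by positivity
        linarith
    have : (3 : ℝ) / P0 = 3 * (P0 : ℝ)⁻¹ := by ring
    rw [this]
    linarith
  · have e1 : ∏ p ∈ S, G p = ∏ p ∈ S.filter (fun p : ℕ => (p : ℤ) ∣ A * B * C),
        (1 + 8 * (del A B p : ℝ) + 8 / ((p : ℝ) - 1)) := (Finset.prod_filter _ _).symm
    rw [e1]
    set Z := (A * B * C).natAbs.primeFactors.filter (fun p => P0 < p) with hZ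
    have hsub : S.filter (fun p : ℕ => (p : ℤ) ∣ A * B * C) ⊆ Z := by
      intro p hp
      obtain ⟨h1, h2⟩ := Finset.mem_filter.1 hp
      obtain ⟨_, h3, h4⟩ := Finset.mem_filter.1 h1
      refine Finset.mem_filter.2 ⟨?_, h4⟩
      rw [Nat.mem_primeFactors]
      exact ⟨h3, Int.natCast_dvd.1 h2, Int.natAbs_ne_zero.2 hABC⟩
    rw [← Finset.prod_sdiff hsub]
    apply le_mul_of_one_le_left
    · apply Finset.prod_nonneg
      intro p hp
      have := HHfac (A := A) (B := B) (hSp p (Finset.mem_filter.1 hp).1)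
      linarith
    · apply one_le_prodR
      intro p hp
      have h1 := (Finset.mem_sdiff.1 hp).1
      exact HHfac (Nat.prime_of_mem_primeFactors (Finset.mem_filter.1 h1).1)

end Pool.Agent.MK47
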