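import Pool.Agent.MK47.NRange
import Pool.Agent.MK47.DivSum
import Pool.Agent.MK47.HBound
import Pool.Agent.MK47.GSum
import Pool.Agent.MK47.Rho

/-!
# The sum of `WW n / n` over `nset`

`A = DD a x`, `B = DD a x'`, `C = CC x x'`, `x ≠ x'`, all nonzero for large `N` (`x_large`, `DD_pos`). Put
`lo = nlo`, `hi = nhi`, `R = 4 N/(u₋ u'₋)`. If `hi < lo` the sum is empty. Otherwise, as `n ≥ lo ≥ √N ≥ 1`
on `nset`, the sum is at most `(1/lo) ∑_{n ∈ nset} WW n`, and `WW n = ∑_{d ∣ n} gf d`; `div_sum` with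
`m = 2 h`, `w = c.w` (`c.cop`, `c.two_h`) bounds it by
`(1/lo) ∑_{d ≤ hi, (d, 2h) = 1} gf d ((hi - lo)/(2 h d) + 1)`. The `d` coprime to `2 h` are rough
(`c.Full P0`: every prime `≤ P0` divides `h`). By `h_bound` and `g_sum` the sum is at most
`(1/lo) ((hi-lo)/(2h) HH + C0 hi^(3/4) |A B C|^4)`. By `n_range` (with `ε/2`): the first part is
`≤ (1+ε/2) R HH/(2h)`; the second: `|A|, |B|, |C| ≤ 4 a² exp (2ℓ)` so `|ABC|^4 ≤ (4a²)^12 exp (24ℓ)`,
`hi^(3/4)/lo ≤ N^(3/8) exp ℓ / N^(1/2) = N^(-1/8) exp ℓ` with `N^(-1/8) = exp (-ℓ^10/8)`, and `R ≥ exp (-2ℓ)`, `HH ≥ 1`, so it is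
`≤ (ε/2) R HH/(2h)` for large `N`.
-/

namespace Pool.Agent.MK47

open Finset Filter

private theorem abc_bound (a x x' : ℕ) (E : ℝ) (hE : 0 ≤ E) (hA : 0 < DD a x) (hB : 0 < DD a x')
    (hx : (x : ℝ) ^ 2 ≤ E) (hx' : (x' : ℝ) ^ 2 ≤ E) :
    |((DD a x * DD a x' * CC x x' : ℤ) : ℝ)| ≤ 4 * (a : ℝ) ^ 4 * E ^ 3 := by
  have h1 : |((DD a x : ℤ) : ℝ)| ≤ (a : ℝ) ^ 2 * E := by
    rw [abs_of_pos (by exact_mod_cast hA)]
    unfold DD
    push_cast
    have : (a : ℝ) ^ 2 * (x : ℝ) ^ 2 ≤ (a : ℝ) ^ 2 * E := mul_le_mul_of_nonneg_left hx (by positivity)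
    linarith
  have h2 : |((DD a x' : ℤ) : ℝ)| ≤ (a : ℝ) ^ 2 * E := by
    rw [abs_of_pos (by exact_mod_cast hB)]
    unfold DD
    push_cast
    have : (a : ℝ) ^ 2 * (x' : ℝ) ^ 2 ≤ (a : ℝ) ^ 2 * E := mul_le_mul_of_nonneg_left hx' (by positivity)
    linarith
  have h3 : |((CC x x' : ℤ) : ℝ)| ≤ 4 * E := by
    unfold CC
    push_cast
    rw [abs_le]
    have h4 : (0 : ℝ) ≤ (x : ℝ) ^ 2 := by positivity
    have h5 : (0 : ℝ) ≤ (x' : ℝ) ^ 2 := by positivity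
    constructor <;> linarith
  push_cast
  rw [abs_mul, abs_mul]
  calc |((DD a x : ℤ) : ℝ)| * |((DD a x' : ℤ) : ℝ)| * |((CC x x' : ℤ) : ℝ)|
      ≤ ((a : ℝ) ^ 2 * E) * ((a : ℝ) ^ 2 * E) * (4 * E) := by
        apply mul_le_mul (mul_le_mul h1 h2 (abs_nonneg _) (by positivity)) h3 (abs_nonneg _)
          (by positivity)
    _ = 4 * (a : ℝ) ^ 4 * E ^ 3 := by ring

theorem sum_w (c : Cls) (P0 : ℕ) (hP0 : 2 ≤ P0) (hc : c.Full P0) (ε : ℝ) (hε : 0 < ε) :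
    ∀ᶠ N : ℕ in atTop, ∀ x ∈ XX c N, ∀ x' ∈ XX c N, x ≠ x' → ∀ s s' : ℕ, YY c.a N x ≤ s →
    s ≤ 2 * YY c.a N x → YY c.a N x' ≤ s' → s' ≤ 2 * YY c.a N x' →
    ∑ n ∈ nset c N x x' s s' (LL N), WW (DD c.a x) (DD c.a x') (CC x x') n / n ≤
      (1 + ε) * (1 / (2 * (c.h : ℝ))) * (4 * N / (uu c.a x s (-N) * uu c.a x' s' (-N))) *
        HH P0 (DD c.a x) (DD c.a x') (CC x x') := by
  classical
  obtain ⟨C0, hC0, hg⟩ := g_sum
  have ha : (0 : ℝ) < c.a := by exact_mod_cast c.a_pos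
  have hh : (0 : ℝ) < c.h := by exact_mod_cast c.h_pos
  obtain ⟨δ, hδ⟩ : ∃ δ : ℝ, δ = ε / (4 * c.h * C0 * (4 * (c.a : ℝ) ^ 4) ^ 4) := ⟨_, rfl⟩
  have hδ0 : 0 < δ := by rw [hδ]; positivity
  have hε2 : 0 < ε / 2 := by positivity
  filter_upwards [n_range c (ε / 2) hε2, x_large 3, ell_tendsto.eventually_ge_atTop 2,
    ell_tendsto.eventually_ge_atTop (-Real.log δ), eventually_ge_atTop 1] with N hN hx3 hl2 hlδ hN1
  intro x hx x' hx' hne s s' hs1 hs2 hs1' hs2'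
  obtain ⟨hlo, hhi, hdiff, hR, hu, hu'⟩ := hN x hx x' hx' s s' hs1 hs2 hs1' hs2'
  obtain ⟨hxl, hxu, _⟩ := mem_XX hx
  obtain ⟨hxl', hxu', _⟩ := mem_XX hx'
  have hx3a := hx3 x hxl
  have hx3b := hx3 x' hxl'
  have hxa : 3 ≤ x := by exact_mod_cast hx3a
  have hxb : 3 ≤ x' := by exact_mod_cast hx3b
  have hA : 0 < DD c.a x := DD_pos _ _ (by nlinarith [c.a_pos])
  have hB : 0 < DD c.a x' := DD_pos _ _ (by nlinarith [c.a_pos])
  have hC : CC x x' ≠ 0 := by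
    unfold CC
    intro h0
    apply hne
    have h1 : (x' : ℤ) ^ 2 = (x : ℤ) ^ 2 := by linarith
    have h2 : (x' : ℤ) = x := by
      rcases sq_eq_sq_iff_eq_or_eq_neg.mp h1 with h | h
      · exact h
      · omega
    omega
  have hABC : DD c.a x * DD c.a x' * CC x x' ≠ 0 :=
    mul_ne_zero (mul_ne_zero hA.ne' hB.ne') hC
  have hHH := HH_one_le P0 (DD c.a x) (DD c.a x') (CC x x')
  have hHb := h_bound P0 hP0 (DD c.a x) (DD c.a x') (CC x x') hABC (nhi c N x x' s s' (LL N))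
  have hgb := hg P0 hP0 (DD c.a x) (DD c.a x') (CC x x') hABC (nhi c N x x' s s' (LL N))
  have hgn := fun d => gf_nonneg (DD c.a x) (DD c.a x') (CC x x') d
  have habc := abc_bound c.a x x' (Real.exp (2 * ell N)) (Real.exp_pos _).le hA hB
    (by
      have h1 : (x : ℝ) ^ 2 ≤ Real.exp (ell N) ^ 2 := pow_le_pow_left₀ (by positivity) hxu 2
      rw [← Real.exp_nat_mul] at h1
      exact_mod_cast h1)
    (by
      have h1 : (x' : ℝ) ^ 2 ≤ Real.exp (ell N) ^ 2 := pow_le_pow_left₀ (by positivity) hxu' 2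
      rw [← Real.exp_nat_mul] at h1
      exact_mod_cast h1)
  have hS := sqrt_ell N hN1
  unfold nset
  generalize nlo c N x x' s s' = lo at *
  generalize nhi c N x x' s s' (LL N) = hi at *
  generalize 4 * (N : ℝ) / (uu c.a x s (-N) * uu c.a x' s' (-N)) = R at *
  generalize HH P0 (DD c.a x) (DD c.a x') (CC x x') = H at *
  have hR0 : 0 < R := lt_of_lt_of_le (Real.exp_pos _) hR
  have hRHS : 0 ≤ (1 + ε) * (1 / (2 * (c.h : ℝ))) * R * H := by positivity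
  rcases lt_or_ge hi lo with hlt | hle
  · rw [Finset.Icc_eq_empty (by omega)]
    simpa using hRHS
  have hS1 : 1 ≤ Real.sqrt N := by
    rw [hS]
    apply Real.one_le_exp
    positivity
  have hlo1 : (1 : ℝ) ≤ lo := hS1.trans hlo
  have hlo1' : 1 ≤ lo := by exact_mod_cast hlo1
  have hlo0 : (0 : ℝ) < lo := by linarith
  have hler : (lo : ℝ) ≤ hi := by exact_mod_cast hle
  have hds := div_sum (2 * c.h) (by have := c.h_pos; omega) c.w
    (by
      intro p hp hpd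
      apply c.cop p hp
      rcases (Nat.Prime.dvd_mul hp).mp hpd with h | h
      · exact h.trans c.two_h
      · exact h)
    (fun d => gf (DD c.a x) (DD c.a x') (CC x x') d) hgn lo hi hlo1' hle
  have hWn : ∀ n, 0 ≤ WW (DD c.a x) (DD c.a x') (CC x x') n := fun n => by
    unfold WW
    exact Finset.sum_nonneg fun d _ => hgn d
  have h1 : ∑ n ∈ (Icc lo hi).filter (fun n : ℕ => ((2 * c.h : ℕ) : ℤ) ∣ (n : ℤ) - c.w),
      WW (DD c.a x) (DD c.a x') (CC x x') n / n ≤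
      (1 / (lo : ℝ)) * ∑ n ∈ (Icc lo hi).filter (fun n : ℕ => ((2 * c.h : ℕ) : ℤ) ∣ (n : ℤ) - c.w),
        ∑ d ∈ n.divisors, gf (DD c.a x) (DD c.a x') (CC x x') d := by
    rw [Finset.mul_sum]
    apply Finset.sum_le_sum
    intro n hn
    rw [Finset.mem_filter, Finset.mem_Icc] at hn
    have h2 : (lo : ℝ) ≤ n := by exact_mod_cast hn.1.1
    have h3 := hWn n
    rw [one_div, inv_mul_eq_div]
    exact div_le_div_of_nonneg_left h3 hlo0 h2
  have h2 : ∑ d ∈ (Icc 1 hi).filter (fun d : ℕ => d.Coprime (2 * c.h)),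
      gf (DD c.a x) (DD c.a x') (CC x x') d * (((hi : ℝ) - lo) / (((2 * c.h : ℕ) : ℝ) * d) + 1) ≤
      ∑ d ∈ (Icc 1 hi).filter (fun d => Rough P0 d),
      gf (DD c.a x) (DD c.a x') (CC x x') d * (((hi : ℝ) - lo) / (((2 * c.h : ℕ) : ℝ) * d) + 1) := by
    apply Finset.sum_le_sum_of_subset_of_nonneg
    · intro d hd
      rw [Finset.mem_filter] at hd ⊢
      refine ⟨hd.1, ?_⟩
      intro p hp hpd
      by_contra hle'
      rw [not_lt] at hle'
      have h3 : p ∣ c.h := (hc p hp).mpr hle'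
      have h4 : p ∣ 1 := by
        rw [← Nat.coprime_iff_gcd_eq_one.mp hd.2]
        exact Nat.dvd_gcd hpd (h3.mul_left 2)
      exact hp.one_lt.ne' (Nat.dvd_one.mp h4)
    · intro d _ _
      apply mul_nonneg (hgn d)
      have h3 : 0 ≤ (hi : ℝ) - lo := by linarith
      positivity
  have h3 : ∑ d ∈ (Icc 1 hi).filter (fun d => Rough P0 d),
      gf (DD c.a x) (DD c.a x') (CC x x') d * (((hi : ℝ) - lo) / (((2 * c.h : ℕ) : ℝ) * d) + 1) =
      ((hi : ℝ) - lo) / (2 * c.h) * ∑ d ∈ (Icc 1 hi).filter (fun d => Rough P0 d),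
        gf (DD c.a x) (DD c.a x') (CC x x') d / d +
      ∑ d ∈ (Icc 1 hi).filter (fun d => Rough P0 d), gf (DD c.a x) (DD c.a x') (CC x x') d := by
    rw [Finset.mul_sum, ← Finset.sum_add_distrib]
    apply Finset.sum_congr rfl
    intro d hd
    rw [Finset.mem_filter, Finset.mem_Icc] at hd
    have hd0 : (d : ℝ) ≠ 0 := by
      have : 1 ≤ d := hd.1.1
      positivity
    push_cast
    field_simp
  have h4 : ((hi : ℝ) - lo) / (2 * c.h) * ∑ d ∈ (Icc 1 hi).filter (fun d => Rough P0 d),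
        gf (DD c.a x) (DD c.a x') (CC x x') d / d ≤ ((hi : ℝ) - lo) / (2 * c.h) * H := by
    apply mul_le_mul_of_nonneg_left
    · convert hHb
    · have h3 : 0 ≤ (hi : ℝ) - lo := by linarith
      positivity
  have h5 : ∑ d ∈ (Icc 1 hi).filter (fun d => Rough P0 d), gf (DD c.a x) (DD c.a x') (CC x x') d ≤
      C0 * (hi : ℝ) ^ ((3 : ℝ) / 4) * |((DD c.a x * DD c.a x' * CC x x' : ℤ) : ℝ)| ^ 4 := by
    convert hgb
  have h6 : (hi : ℝ) ^ ((3 : ℝ) / 4) ≤ Real.exp (3 / 8 * ell N ^ 10 + 3 / 4 * ell N) := by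
    have h7 : (hi : ℝ) ^ ((3 : ℝ) / 4) ≤ (Real.sqrt N * Real.exp (ell N)) ^ ((3 : ℝ) / 4) :=
      Real.rpow_le_rpow (by positivity) hhi (by norm_num)
    rw [hS, ← Real.exp_add, ← Real.exp_mul] at h7
    refine h7.trans (le_of_eq ?_)
    congr 1
    ring
  have h7 : |((DD c.a x * DD c.a x' * CC x x' : ℤ) : ℝ)| ^ 4 ≤
      (4 * (c.a : ℝ) ^ 4) ^ 4 * Real.exp (24 * ell N) := by
    have h8 := pow_le_pow_left₀ (abs_nonneg _) habc 4
    refine h8.trans (le_of_eq ?_)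
    rw [← Real.exp_nat_mul, mul_pow, ← Real.exp_nat_mul]
    congr 2
    push_cast
    ring
  have h8 : C0 * (hi : ℝ) ^ ((3 : ℝ) / 4) * |((DD c.a x * DD c.a x' * CC x x' : ℤ) : ℝ)| ^ 4 ≤
      C0 * (4 * (c.a : ℝ) ^ 4) ^ 4 * Real.exp (3 / 8 * ell N ^ 10 + 25 * ell N) := by
    have h9 : C0 * (hi : ℝ) ^ ((3 : ℝ) / 4) * |((DD c.a x * DD c.a x' * CC x x' : ℤ) : ℝ)| ^ 4 ≤
        C0 * Real.exp (3 / 8 * ell N ^ 10 + 3 / 4 * ell N) *
          ((4 * (c.a : ℝ) ^ 4) ^ 4 * Real.exp (24 * ell N)) := by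
      apply mul_le_mul (mul_le_mul_of_nonneg_left h6 hC0.le) h7 (by positivity) (by positivity)
    refine h9.trans ?_
    have h10 : C0 * Real.exp (3 / 8 * ell N ^ 10 + 3 / 4 * ell N) *
          ((4 * (c.a : ℝ) ^ 4) ^ 4 * Real.exp (24 * ell N)) =
        C0 * (4 * (c.a : ℝ) ^ 4) ^ 4 *
          Real.exp ((3 / 8 * ell N ^ 10 + 3 / 4 * ell N) + 24 * ell N) := by
      rw [Real.exp_add (3 / 8 * ell N ^ 10 + 3 / 4 * ell N)]
      ring
    rw [h10]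
    apply mul_le_mul_of_nonneg_left _ (by positivity)
    apply Real.exp_le_exp.mpr
    linarith
  have h9 : (1 / (lo : ℝ)) * (C0 * (4 * (c.a : ℝ) ^ 4) ^ 4 *
      Real.exp (3 / 8 * ell N ^ 10 + 25 * ell N)) ≤ ε / (4 * c.h) * Real.exp (-2 * ell N) := by
    have h10 : 1 / (lo : ℝ) ≤ Real.exp (-(ell N ^ 10 / 2)) := by
      rw [Real.exp_neg, ← hS, ← one_div]
      exact one_div_le_one_div_of_le (by linarith) hlo
    have h11 : (1 / (lo : ℝ)) * (C0 * (4 * (c.a : ℝ) ^ 4) ^ 4 *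
        Real.exp (3 / 8 * ell N ^ 10 + 25 * ell N)) ≤
        Real.exp (-(ell N ^ 10 / 2)) * (C0 * (4 * (c.a : ℝ) ^ 4) ^ 4 *
        Real.exp (3 / 8 * ell N ^ 10 + 25 * ell N)) :=
      mul_le_mul_of_nonneg_right h10 (by positivity)
    refine h11.trans ?_
    have h12 : Real.exp (-(ell N ^ 10 / 2)) * (C0 * (4 * (c.a : ℝ) ^ 4) ^ 4 *
        Real.exp (3 / 8 * ell N ^ 10 + 25 * ell N)) =
        C0 * (4 * (c.a : ℝ) ^ 4) ^ 4 * Real.exp (27 * ell N - ell N ^ 10 / 8) *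
          Real.exp (-2 * ell N) := by
      rw [mul_assoc (C0 * (4 * (c.a : ℝ) ^ 4) ^ 4), ← Real.exp_add, mul_left_comm, ← Real.exp_add]
      congr 2
      ring
    rw [h12]
    apply mul_le_mul_of_nonneg_right _ (Real.exp_pos _).le
    have h13 : 27 * ell N - ell N ^ 10 / 8 ≤ Real.log δ := by
      have h14 : (2 : ℝ) ^ 9 ≤ ell N ^ 9 := pow_le_pow_left₀ (by norm_num) hl2 9
      have h15 : ell N ^ 10 = ell N ^ 9 * ell N := by ring
      rw [h15]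
      norm_num at h14
      nlinarith
    have h14 : Real.exp (27 * ell N - ell N ^ 10 / 8) ≤ δ := by
      rw [← Real.exp_log hδ0]
      exact Real.exp_le_exp.mpr h13
    calc C0 * (4 * (c.a : ℝ) ^ 4) ^ 4 * Real.exp (27 * ell N - ell N ^ 10 / 8)
        ≤ C0 * (4 * (c.a : ℝ) ^ 4) ^ 4 * δ := mul_le_mul_of_nonneg_left h14 (by positivity)
      _ = ε / (4 * c.h) := by
        rw [hδ]
        field_simp
  have h10 : (1 / (lo : ℝ)) * (((hi : ℝ) - lo) / (2 * c.h) * H) ≤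
      (1 + ε / 2) * (1 / (2 * (c.h : ℝ))) * R * H := by
    have h11 : ((hi : ℝ) - lo) / lo ≤ (1 + ε / 2) * R := by
      rw [div_le_iff₀ hlo0]
      exact hdiff
    have h12 : (1 / (lo : ℝ)) * (((hi : ℝ) - lo) / (2 * c.h) * H) =
        (((hi : ℝ) - lo) / lo) * (1 / (2 * (c.h : ℝ)) * H) := by
      field_simp
    rw [h12]
    calc (((hi : ℝ) - lo) / lo) * (1 / (2 * (c.h : ℝ)) * H)
        ≤ ((1 + ε / 2) * R) * (1 / (2 * (c.h : ℝ)) * H) :=
          mul_le_mul_of_nonneg_right h11 (by positivity)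
      _ = (1 + ε / 2) * (1 / (2 * (c.h : ℝ))) * R * H := by ring
  have h11 : ε / (4 * c.h) * Real.exp (-2 * ell N) ≤ ε / 2 * (1 / (2 * (c.h : ℝ))) * R * H := by
    have h12 : Real.exp (-2 * ell N) * 1 ≤ R * H :=
      mul_le_mul hR hHH (by norm_num) hR0.le
    have h13 := mul_le_mul_of_nonneg_left h12 (by positivity : (0 : ℝ) ≤ ε / (4 * c.h))
    calc ε / (4 * c.h) * Real.exp (-2 * ell N) = ε / (4 * c.h) * (Real.exp (-2 * ell N) * 1) := by ring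
      _ ≤ ε / (4 * c.h) * (R * H) := h13
      _ = ε / 2 * (1 / (2 * (c.h : ℝ))) * R * H := by field_simp; ring
  have hl0 : (0 : ℝ) ≤ 1 / (lo : ℝ) := by positivity
  have h12 := mul_le_mul_of_nonneg_left (hds.trans (h2.trans (le_of_eq h3))) hl0
  have h13 := mul_le_mul_of_nonneg_left (h5.trans h8) hl0
  have h14 := mul_le_mul_of_nonneg_left h4 hl0
  rw [mul_add] at h12
  calc _ ≤ _ := h1
    _ ≤ _ := h12
    _ ≤ (1 + ε / 2) * (1 / (2 * (c.h : ℝ))) * R * H + ε / 2 * (1 / (2 * (c.h : ℝ))) * R * H :=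
      add_le_add (h14.trans h10) ((h13.trans h9).trans h11)
    _ = (1 + ε) * (1 / (2 * (c.h : ℝ))) * R * H := by ring

end Pool.Agent.MK47
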