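import Pool.Agent.MK47.CntW
import Pool.Agent.MK47.SumW
import Pool.Agent.MK47.PBad
import Pool.Agent.MK47.SumL

/-!
# The second moment for two different `x`

`A = DD a x`, `B = DD a x'`, `C = CC x x'`, `x ≠ x'` in `XX c N`, `L = LL N`, `N` large, `ε` small
(`η = ` a small number with `(1+η)^5 ≤ 1 + ε/2`). By `second` (cast to `ℝ`) the left side is at most the sum
over `i, j` and `n ∈ nset` of `cnt`. Split `nset` into bad and good `n` (`Finset.sum_filter_add_sum_filter_not`).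
Bad: `p_bad`: `≤ N exp (-10ℓ)`. Good: `cnt_w` and `sum_w` (all terms nonnegative; extend the sum of `WW n / n` from the good `n`
to `nset`), with `s = Y + i L ≤ 2 Y` (`mm_lt`):
`∑_{n good} cnt ≤ (1+η)(L²/Q²) (1+η)(1/(2h)) 4N/(u_i u'_j) HH`. Sum over `i, j`: the double sum factors,
`∑_i L/u_i ≤ (1+η) log 2/(a x)`, same for `x'` (`sum_l`). Total
`(1+η)^4 (1/Q²)(4N/(2h)) (log 2)²/(a² x x') HH = (1+η)^4 K2 N/(x x') HH` (`K2 = 2 (log 2)²/(h Q² a²)`).
The bad part: `N exp (-10ℓ) ≤ η K2 N/(x x') HH` since `x x' ≤ exp (2ℓ)`, `HH ≥ 1` (`HH_one_le`).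
-/

namespace Pool.Agent.MK47

open Finset Filter

theorem Q_pos (c : Cls) : 0 < c.Q := by
  unfold Cls.Q
  have h1 := c.g_pos
  have h2 := c.h_pos
  positivity

theorem K2_pos (c : Cls) : 0 < K2 c := by
  unfold K2
  have h1 : (0 : ℝ) < c.h := by exact_mod_cast c.h_pos
  have h2 : (0 : ℝ) < c.Q := by exact_mod_cast Q_pos c
  have h3 : (0 : ℝ) < c.a := by exact_mod_cast c.a_pos
  have h4 : 0 < Real.log 2 := Real.log_pos (by norm_num)
  positivity

theorem pair_main (c : Cls) (P0 : ℕ) (hP0 : 2 ≤ P0) (hc : c.Full P0) (ε : ℝ) (hε : 0 < ε) :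
    ∀ᶠ N : ℕ in atTop, ∀ x ∈ XX c N, ∀ x' ∈ XX c N, x ≠ x' →
    ((∑ b ∈ Icc (-(N : ℤ)) N, rr c N x b * rr c N x' b : ℕ) : ℝ) ≤
      (1 + ε) * K2 c * N * (HH P0 (DD c.a x) (DD c.a x') (CC x x') / ((x : ℝ) * x')) := by
  classical
  obtain ⟨η, hη, hη1, hη2⟩ : ∃ η : ℝ, 0 < η ∧ η ≤ 1 ∧ 16 * η ≤ ε := by
    refine ⟨min 1 (ε / 16), lt_min one_pos (by linarith), min_le_left _ _, ?_⟩
    have := min_le_right (1 : ℝ) (ε / 16)
    linarith
  have hK2 := K2_pos c
  have hsmall : ∀ᶠ N : ℕ in atTop, Real.exp (-8 * ell N) ≤ η * K2 c := by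
    have h1 : Tendsto (fun N : ℕ => Real.exp (-8 * ell N)) atTop (nhds 0) := by
      apply Real.tendsto_exp_atBot.comp
      exact ell_tendsto.const_mul_atTop_of_neg (by norm_num)
    exact (h1.eventually_lt_const (by positivity : (0 : ℝ) < η * K2 c)).mono fun N h => h.le
  filter_upwards [cnt_w c η hη, sum_w c P0 hP0 hc η hη, p_bad c, sum_l c.a c.a_pos η hη, size_LL,
    x_large 3, hsmall] with N h1 h2 h3 h4 h5 h6 h7 x hx x' hx' hne
  obtain ⟨hx1, hx2, -⟩ := mem_XX hx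
  obtain ⟨hx1', hx2', -⟩ := mem_XX hx'
  have hx3 : (3 : ℝ) ≤ x := h6 x hx1
  have hx3' : (3 : ℝ) ≤ x' := h6 x' hx1'
  have hx4 : 3 ≤ x := by exact_mod_cast hx3
  have hx4' : 3 ≤ x' := by exact_mod_cast hx3'
  have ha := c.a_pos
  have hax : 2 ≤ c.a * x := by nlinarith
  have hax' : 2 ≤ c.a * x' := by nlinarith
  set L := LL N with hL
  set A := DD c.a x with hA
  set B := DD c.a x' with hB
  set C := CC x x' with hC
  set Y := YY c.a N x with hY
  set Y' := YY c.a N x' with hY'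
  have hL0 : 0 < L := h5.1
  have hHH : 1 ≤ HH P0 A B C := HH_one_le P0 A B C
  have hsec : ((∑ b ∈ Icc (-(N : ℤ)) N, rr c N x b * rr c N x' b : ℕ) : ℝ) ≤
      ∑ i ∈ range (mm Y L), ∑ j ∈ range (mm Y' L), ∑ n ∈ nset c N x x' (Y + i * L) (Y' + j * L) L,
          (cnt A B C c.Q c.y0 n (Y + i * L) (Y' + j * L) L : ℝ) := by
    exact_mod_cast second c N x x' L hL0 hx hx' hax hax'
  refine hsec.trans ?_
  have hsplit : ∑ i ∈ range (mm Y L), ∑ j ∈ range (mm Y' L),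
      ∑ n ∈ nset c N x x' (Y + i * L) (Y' + j * L) L,
          (cnt A B C c.Q c.y0 n (Y + i * L) (Y' + j * L) L : ℝ) =
      (∑ i ∈ range (mm Y L), ∑ j ∈ range (mm Y' L),
      ∑ n ∈ (nset c N x x' (Y + i * L) (Y' + j * L) L).filter (fun n => Bad (Real.exp (ell N ^ 3)) n),
          (cnt A B C c.Q c.y0 n (Y + i * L) (Y' + j * L) L : ℝ)) +
      ∑ i ∈ range (mm Y L), ∑ j ∈ range (mm Y' L),
      ∑ n ∈ (nset c N x x' (Y + i * L) (Y' + j * L) L).filter
        (fun n => ¬ Bad (Real.exp (ell N ^ 3)) n),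
          (cnt A B C c.Q c.y0 n (Y + i * L) (Y' + j * L) L : ℝ) := by
    rw [← Finset.sum_add_distrib]
    refine Finset.sum_congr rfl fun i _ => ?_
    rw [← Finset.sum_add_distrib]
    refine Finset.sum_congr rfl fun j _ => ?_
    rw [Finset.sum_filter_add_sum_filter_not]
  rw [hsplit]
  have hbad := h3 x hx x' hx' hne
  have hgood : ∑ i ∈ range (mm Y L), ∑ j ∈ range (mm Y' L),
      ∑ n ∈ (nset c N x x' (Y + i * L) (Y' + j * L) L).filter
        (fun n => ¬ Bad (Real.exp (ell N ^ 3)) n),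
          (cnt A B C c.Q c.y0 n (Y + i * L) (Y' + j * L) L : ℝ) ≤
      (1 + η) ^ 4 * K2 c * N * (HH P0 A B C / ((x : ℝ) * x')) := by
    have hs : ∀ i ∈ range (mm Y L), ∀ j ∈ range (mm Y' L),
        ∑ n ∈ (nset c N x x' (Y + i * L) (Y' + j * L) L).filter
        (fun n => ¬ Bad (Real.exp (ell N ^ 3)) n),
          (cnt A B C c.Q c.y0 n (Y + i * L) (Y' + j * L) L : ℝ) ≤
        ((L : ℝ) / uu c.a x ((Y + i * L : ℕ) : ℝ) (-N)) *
          ((L : ℝ) / uu c.a x' ((Y' + j * L : ℕ) : ℝ) (-N)) *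
          ((1 + η) ^ 2 * (1 / (c.Q : ℝ) ^ 2) * (1 / (2 * (c.h : ℝ))) * (4 * N) * HH P0 A B C) := by
      intro i hi j hj
      have hi1 := mm_lt Y L i hL0 (Finset.mem_range.1 hi)
      have hj1 := mm_lt Y' L j hL0 (Finset.mem_range.1 hj)
      have e1 : Y ≤ Y + i * L := by omega
      have e2 : Y + i * L ≤ 2 * Y := by omega
      have e3 : Y' ≤ Y' + j * L := by omega
      have e4 : Y' + j * L ≤ 2 * Y' := by omega
      have hw := h2 x hx x' hx' hne (Y + i * L) (Y' + j * L) e1 e2 e3 e4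
      have hc1 : ∑ n ∈ (nset c N x x' (Y + i * L) (Y' + j * L) L).filter
          (fun n => ¬ Bad (Real.exp (ell N ^ 3)) n),
            (cnt A B C c.Q c.y0 n (Y + i * L) (Y' + j * L) L : ℝ) ≤
          ∑ n ∈ (nset c N x x' (Y + i * L) (Y' + j * L) L),
            (1 + η) * ((L : ℝ) ^ 2 / (c.Q : ℝ) ^ 2) * (WW A B C n / n) := by
        refine (Finset.sum_le_sum fun n hn => h1 x hx x' hx' hne (Y + i * L) (Y' + j * L) e1 e2 e3 e4
          n (Finset.mem_filter.1 hn).1 (Finset.mem_filter.1 hn).2).trans ?_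
        refine Finset.sum_le_sum_of_subset_of_nonneg (Finset.filter_subset _ _) fun n _ _ => ?_
        have : 0 ≤ WW A B C n := Finset.sum_nonneg fun d _ => gf_nonneg A B C d
        positivity
      refine hc1.trans ?_
      rw [← Finset.mul_sum]
      refine (mul_le_mul_of_nonneg_left hw (by positivity)).trans (le_of_eq ?_)
      ring
    refine (Finset.sum_le_sum fun i hi => Finset.sum_le_sum fun j hj => hs i hi j hj).trans ?_
    set R : ℝ := (1 + η) ^ 2 * (1 / (c.Q : ℝ) ^ 2) * (1 / (2 * (c.h : ℝ))) * (4 * N) * HH P0 A B C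
      with hR
    have hR0 : 0 ≤ R := by
      have : 0 ≤ HH P0 A B C := by linarith
      positivity
    have hfac : ∑ i ∈ range (mm Y L), ∑ j ∈ range (mm Y' L),
        ((L : ℝ) / uu c.a x ((Y + i * L : ℕ) : ℝ) (-N)) *
          ((L : ℝ) / uu c.a x' ((Y' + j * L : ℕ) : ℝ) (-N)) * R =
        (∑ i ∈ range (mm Y L), (L : ℝ) / uu c.a x ((Y + i * L : ℕ) : ℝ) (-N)) *
        (∑ j ∈ range (mm Y' L), (L : ℝ) / uu c.a x' ((Y' + j * L : ℕ) : ℝ) (-N)) * R := by
      rw [Finset.sum_mul_sum, Finset.sum_mul]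
      refine Finset.sum_congr rfl fun i _ => ?_
      rw [Finset.sum_mul]
    rw [hfac]
    have g1 := h4 x hx1 hx2
    have g2 := h4 x' hx1' hx2'
    have g3 : 0 ≤ ∑ j ∈ range (mm Y' L), (L : ℝ) / uu c.a x' ((Y' + j * L : ℕ) : ℝ) (-N) :=
      Finset.sum_nonneg fun j _ => div_nonneg (by positivity) (Real.sqrt_nonneg _)
    have g4 : 0 ≤ (1 + η) * Real.log 2 / ((c.a : ℝ) * x) := by
      have : 0 < Real.log 2 := Real.log_pos (by norm_num)
      positivity
    refine (mul_le_mul_of_nonneg_right (mul_le_mul g1 g2 g3 g4) hR0).trans (le_of_eq ?_)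
    rw [hR]
    unfold K2
    have q1 : (c.h : ℝ) ≠ 0 := by exact_mod_cast c.h_pos.ne'
    have q2 : (c.Q : ℝ) ≠ 0 := by exact_mod_cast (Q_pos c).ne'
    have q3 : (c.a : ℝ) ≠ 0 := by exact_mod_cast c.a_pos.ne'
    have q4 : (x : ℝ) ≠ 0 := by positivity
    have q5 : (x' : ℝ) ≠ 0 := by positivity
    field_simp
    ring
  have hbad2 : (N : ℝ) * Real.exp (-10 * ell N) ≤ η * K2 c * N * (HH P0 A B C / ((x : ℝ) * x')) := by
    have hxx : (x : ℝ) * x' ≤ Real.exp (2 * ell N) := by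
      calc (x : ℝ) * x' ≤ Real.exp (ell N) * Real.exp (ell N) :=
            mul_le_mul hx2 hx2' (by positivity) (Real.exp_pos _).le
        _ = Real.exp (2 * ell N) := by rw [← Real.exp_add]; ring_nf
    have hpos : 0 < (x : ℝ) * x' := by positivity
    have k1 : Real.exp (-10 * ell N) = Real.exp (-8 * ell N) * Real.exp (-(2 * ell N)) := by
      rw [← Real.exp_add]; ring_nf
    have k2 : Real.exp (-(2 * ell N)) ≤ HH P0 A B C / ((x : ℝ) * x') := by
      rw [le_div_iff₀ hpos, Real.exp_neg]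
      calc (Real.exp (2 * ell N))⁻¹ * ((x : ℝ) * x') ≤
            (Real.exp (2 * ell N))⁻¹ * Real.exp (2 * ell N) :=
            mul_le_mul_of_nonneg_left hxx (by positivity)
        _ = 1 := inv_mul_cancel₀ (Real.exp_pos _).ne'
        _ ≤ HH P0 A B C := hHH
    rw [k1]
    calc (N : ℝ) * (Real.exp (-8 * ell N) * Real.exp (-(2 * ell N))) ≤
        N * ((η * K2 c) * (HH P0 A B C / ((x : ℝ) * x'))) := by
          refine mul_le_mul_of_nonneg_left ?_ (by positivity)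
          exact mul_le_mul h7 k2 (Real.exp_pos _).le (by positivity)
      _ = η * K2 c * N * (HH P0 A B C / ((x : ℝ) * x')) := by ring
  have hfin : (1 + η) ^ 4 + η ≤ 1 + ε := by nlinarith [pow_pos hη 2, pow_pos hη 3, mul_le_mul hη1 hη1 hη.le zero_le_one, mul_le_mul_of_nonneg_left hη1 hη.le, mul_le_mul_of_nonneg_left hη1 (pow_pos hη 2).le, mul_le_mul_of_nonneg_left hη1 (pow_pos hη 3).le]
  have hT : 0 ≤ K2 c * N * (HH P0 A B C / ((x : ℝ) * x')) := by
    have : 0 ≤ HH P0 A B C := by linarith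
    positivity
  calc _ ≤ N * Real.exp (-10 * ell N) +
        (1 + η) ^ 4 * K2 c * N * (HH P0 A B C / ((x : ℝ) * x')) := add_le_add hbad hgood
    _ ≤ η * K2 c * N * (HH P0 A B C / ((x : ℝ) * x')) +
        (1 + η) ^ 4 * K2 c * N * (HH P0 A B C / ((x : ℝ) * x')) := by linarith
    _ = ((1 + η) ^ 4 + η) * (K2 c * N * (HH P0 A B C / ((x : ℝ) * x'))) := by ring
    _ ≤ (1 + ε) * (K2 c * N * (HH P0 A B C / ((x : ℝ) * x'))) :=
        mul_le_mul_of_nonneg_right hfin hT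
    _ = (1 + ε) * K2 c * N * (HH P0 A B C / ((x : ℝ) * x')) := by ring

end Pool.Agent.MK47
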