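import Pool.Agent.MK47.Defs
import Pool.Agent.Pal.Divisor

/-!
# Tails of divisor sums over rough numbers

* `tau_le`: for every `k` and `η > 0` there is `C ≥ 1` with `τ(n)^k ≤ C n^η` for all `n ≥ 1`
  (`Pool.Agent.Pal.card_divisors_le_rpow` with `η/(k+1)`, take the `k`-th power).
* `rough_tail`: a rough `d ≥ 2` is `> P0` (it has a prime factor `> P0`). So
  `∑_{2 ≤ d ≤ T, rough} τ(d)^k / d^(3/2) ≤ C ∑_{d > P0} d^(-5/4)`, (`η = 1/4`) and this is `≤ ε` for `P0` large,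
  since `∑ d^(-5/4)` converges (`Real.summable_nat_rpow_inv`, tail of a summable series).
-/

namespace Pool.Agent.MK47

open Finset

theorem tau_le (k : ℕ) (η : ℝ) (hη : 0 < η) : ∃ C : ℝ, 1 ≤ C ∧ ∀ n : ℕ, 1 ≤ n →
    (n.divisors.card : ℝ) ^ k ≤ C * (n : ℝ) ^ η := by
  have hk : (0 : ℝ) < (k : ℝ) + 1 := by positivity
  obtain ⟨C, hC1, hC⟩ := Pool.Agent.Pal.card_divisors_le_rpow (η := η / ((k : ℝ) + 1))
    (div_pos hη hk)
  refine ⟨C ^ k, one_le_pow₀ hC1, fun n hn => ?_⟩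
  have hn1 : (1 : ℝ) ≤ (n : ℝ) := by exact_mod_cast hn
  have h1 := pow_le_pow_left₀ (Nat.cast_nonneg _) (hC n hn) k
  refine h1.trans ?_
  rw [mul_pow]
  apply mul_le_mul_of_nonneg_left _ (by positivity)
  rw [← Real.rpow_natCast, ← Real.rpow_mul (by linarith)]
  apply Real.rpow_le_rpow_of_exponent_le hn1
  rw [div_mul_eq_mul_div, div_le_iff₀ hk]
  nlinarith

open Classical in
theorem rough_tail (k : ℕ) (ε : ℝ) (hε : 0 < ε) : ∃ P1 : ℕ, ∀ P0 : ℕ, P1 ≤ P0 → ∀ T : ℕ,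
    ∑ d ∈ (Icc 2 T).filter (fun d => Rough P0 d),
      (d.divisors.card : ℝ) ^ k / (d : ℝ) ^ ((3 : ℝ) / 2) ≤ ε := by
  obtain ⟨C, hC1, hC⟩ := tau_le k (1 / 4) (by norm_num)
  have hCpos : (0 : ℝ) < C := by linarith
  have hs : Summable (fun n : ℕ => ((n : ℝ) ^ ((5 : ℝ) / 4))⁻¹) :=
    Real.summable_nat_rpow_inv.2 (by norm_num)
  rw [summable_iff_vanishing_norm] at hs
  obtain ⟨s, hs⟩ := hs (ε / C) (div_pos hε hCpos)
  refine ⟨s.sup id, fun P0 hP0 T => ?_⟩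
  have hdis : Disjoint ((Icc 2 T).filter (fun d => Rough P0 d)) s := by
    rw [Finset.disjoint_left]
    intro d hd hds
    rw [Finset.mem_filter, Finset.mem_Icc] at hd
    obtain ⟨⟨hd2, _⟩, hr⟩ := hd
    have hne : d ≠ 1 := by omega
    have h1 : P0 < d.minFac := hr _ (Nat.minFac_prime hne) (Nat.minFac_dvd d)
    have h2 : d.minFac ≤ d := Nat.minFac_le (by omega)
    have h3 : d ≤ s.sup id := Finset.le_sup (f := id) hds
    omega
  have h4 := hs _ hdis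
  rw [Real.norm_of_nonneg (Finset.sum_nonneg fun _ _ => by positivity)] at h4
  have h5 : ∑ d ∈ (Icc 2 T).filter (fun d => Rough P0 d),
      (d.divisors.card : ℝ) ^ k / (d : ℝ) ^ ((3 : ℝ) / 2) ≤
      ∑ d ∈ (Icc 2 T).filter (fun d => Rough P0 d), C * ((d : ℝ) ^ ((5 : ℝ) / 4))⁻¹ := by
    apply Finset.sum_le_sum
    intro d hd
    rw [Finset.mem_filter, Finset.mem_Icc] at hd
    have hd1 : (0 : ℝ) < (d : ℝ) := by
      have : 0 < d := by omega
      exact_mod_cast this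
    have h6 := hC d (by omega)
    rw [div_le_iff₀ (Real.rpow_pos_of_pos hd1 _)]
    have h7 : C * ((d : ℝ) ^ ((5 : ℝ) / 4))⁻¹ * (d : ℝ) ^ ((3 : ℝ) / 2) =
        C * (d : ℝ) ^ ((1 : ℝ) / 4) := by
      rw [mul_assoc, ← Real.rpow_neg hd1.le, ← Real.rpow_add hd1]
      norm_num
    rw [h7]
    exact h6
  rw [← Finset.mul_sum] at h5
  refine h5.trans ?_
  have h8 : C * ∑ d ∈ (Icc 2 T).filter (fun d => Rough P0 d), ((d : ℝ) ^ ((5 : ℝ) / 4))⁻¹ ≤
      C * (ε / C) := mul_le_mul_of_nonneg_left h4.le hCpos.le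
  refine h8.trans (le_of_eq ?_)
  field_simp

end Pool.Agent.MK47
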