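import Pool.Agent.MK47.Defs

/-!
# `rr` as the cardinality of a set of natural numbers

In `Defs.lean` the filter in `rr` elaborates (because of `open Classical` and `(y : ℤ)`) as a filter
of a `Finset ℤ` obtained from the interval of natural numbers by the monad coercion
`do let a ← Ico _ _; pure ↑a`. This file removes the coercion.
-/

namespace Pool.Agent.MK47

open Finset

open Classical in
/-- The `y` counted by `rr`, as natural numbers. -/
noncomputable def rrSet (c : Cls) (N x : ℕ) (b : ℤ) : Finset ℕ :=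
  (Ico (YY c.a N x) (2 * YY c.a N x)).filter fun y => (c.Q : ℤ) ∣ (y : ℤ) - c.y0 ∧
    ∃ u : ℕ, (c.q : ℤ) ∣ (u : ℤ) - c.u0 ∧
      (u : ℤ) ^ 2 = DD c.a x * (y : ℤ) ^ 2 + 4 * b - 4 * (x : ℤ) ^ 2

theorem mem_rrSet (c : Cls) (N x : ℕ) (b : ℤ) (y : ℕ) : y ∈ rrSet c N x b ↔
    (YY c.a N x ≤ y ∧ y < 2 * YY c.a N x) ∧ (c.Q : ℤ) ∣ (y : ℤ) - c.y0 ∧
    ∃ u : ℕ, (c.q : ℤ) ∣ (u : ℤ) - c.u0 ∧
      (u : ℤ) ^ 2 = DD c.a x * (y : ℤ) ^ 2 + 4 * b - 4 * (x : ℤ) ^ 2 := by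
  classical
  unfold rrSet
  rw [mem_filter, mem_Ico]

theorem rr_eq_card (c : Cls) (N x : ℕ) (b : ℤ) : rr c N x b = (rrSet c N x b).card := by
  classical
  unfold rr rrSet
  have h1 : ∀ S : Finset ℕ, (S >>= fun a => pure ((a : ℕ) : ℤ) : Finset ℤ) =
      S.image (fun a : ℕ => (a : ℤ)) := by
    intro S
    rw [bind_pure_comp, Finset.fmap_def]
    congr!
  have h2 : ∀ (S : Finset ℕ) (P : ℤ → Prop) [DecidablePred P],
      ((S.image (fun a : ℕ => (a : ℤ))).filter P).card = (S.filter (fun a : ℕ => P (a : ℤ))).card := by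
    intro S P _
    rw [filter_image, card_image_of_injective _ Nat.cast_injective]
  convert h2 (Ico (YY c.a N x) (2 * YY c.a N x)) (fun y : ℤ => (c.Q : ℤ) ∣ y - c.y0 ∧
    ∃ u : ℕ, (c.q : ℤ) ∣ (u : ℤ) - c.u0 ∧
      (u : ℤ) ^ 2 = DD c.a x * y ^ 2 + 4 * b - 4 * (x : ℤ) ^ 2) using 3
  exact h1 _

end Pool.Agent.MK47
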