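import Pool.Agent.MK47.FirstCount
import Pool.Agent.MK47.TauMom
import Pool.Agent.MK47.RoughTail
import Pool.Agent.MK47.Rho
import Pool.Agent.MK47.RrEq

/-!
# The second moment for the same `x`

`Y = YY c.a N x`, `D = DD c.a x > 0`, `t = a x`. `rr(b)²` counts the pairs `(y, y')`; the diagonal gives `rr(b)`. By symmetry the
off-diagonal part of `∑_b rr(b)²` is twice the number of `(b, y, y')`, `y > y'` (both in `[Y, 2Y)`), with `u, u' ≥ 0`,
`u² = D y² + 4b - 4x²`, `u'² = D y'² + 4b - 4x²`. Put `e = y - y' ∈ [1, Y]`, `f = y + y' ∈ [1, 4Y]`, `k = u - u'`. Then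
`(u + u') k = D e f`, and `u = uu a x y b`, `u' = uu a x y' b` (real square roots), so by `size_u` (`ε = 1/8`) and `uu_mono`
`(7/8) t f ≤ u + u' ≤ (9/8) t f`, and `(7/8) t² ≤ D ≤ t²`; so `k = D e f/(u+u')` lies in `[t e/2, 2 t e]`, in particular `k > 0`. The map
`(b, y, y') ↦ (e, k, f)` is injective (`e, f` give `y, y'`; then `u + u' = D e f/k`, so `u`, so `b`), and
`k ∣ D e f`. For fixed `e, k` put `g = gcd (k, D e)`; `k ∣ D e f ↔ k/g ∣ f`, so the number of `f ∈ [1, 4Y]` is at most `4 Y g/k`. And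
`∑_{t e/2 ≤ k ≤ 2 t e} gcd (k, D e)/k ≤ ∑_{d ∣ D e} ∑_{k, d ∣ k} d/k = ∑_{d ∣ D e} ∑_{t e/(2d) ≤ j ≤ 2 t e/d} 1/j ≤ 4 τ(D e)`
(a sum of `1/j` over integers `j ≥ 1` in `[α, 4α]` is at most `1 + 1 + log 4 ≤ 4`, cf. `ap_gen` with `m = 1` and `α' = max α 1`). With
`τ(D e) ≤ τ(D) τ(e)` (`tau_mul`) and `∑_{e ≤ Y} τ(e) ≤ Y (1 + log Y)` (`tau_mom`, `k = 1`), the off-diagonal part is at most
`2 * 4 Y * 4 τ(D) Y (1 + log Y) = 32 τ(D) Y² (1 + log Y)`. Now `Y² ≤ N/t^(3/2)` (`size_Y`), `τ(D) ≤ C D^(1/8) ≤ C t^(1/4)` (`tau_le`),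
`1 + log Y ≤ 1 + ℓ^10` (`Y ≤ √N`), so it is at most `32 C (N/t) t^(-1/4) (1 + ℓ^10) ≤ N/x` as `t^(1/4) ≥ exp (ℓ/6)`. Finally `first_up`:
`∑_b rr ≤ 10 N/x`. Total `≤ 11 N/x`.
-/

namespace Pool.Agent.MK47

open Finset Filter

theorem sx_bounds (t e f D S k : ℝ) (ht : 6 ≤ t) (hf : 0 < f) (he : 0 < e) (hD : D = t ^ 2 - 4)
    (hS1 : 7 / 8 * (t * f) ≤ S) (hS2 : S ≤ 9 / 8 * (t * f)) (hk : k * S = D * e * f) :
    t * e / 2 ≤ k ∧ k ≤ 2 * (t * e) := by
  have ht0 : 0 < t := by linarith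
  have htf : 0 < t * f := mul_pos ht0 hf
  have hte : 0 < t * e := mul_pos ht0 he
  have hS : 0 < S := by linarith
  have hef : 0 < e * f := mul_pos he hf
  have h36 : 36 ≤ t ^ 2 := by nlinarith
  have hD1 : 7 / 8 * t ^ 2 ≤ D := by
    rw [hD]
    linarith
  have hD2 : D ≤ t ^ 2 := by
    rw [hD]
    linarith
  have h1 : D * e * f ≤ (t * e) * (t * f) := by
    have h2 : D * (e * f) ≤ t ^ 2 * (e * f) := mul_le_mul_of_nonneg_right hD2 hef.le
    nlinarith
  have h2 : 7 / 8 * ((t * e) * (t * f)) ≤ D * e * f := by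
    have h3 : 7 / 8 * t ^ 2 * (e * f) ≤ D * (e * f) := mul_le_mul_of_nonneg_right hD1 hef.le
    nlinarith
  have h0 : 0 < (t * e) * (t * f) := mul_pos hte htf
  constructor
  · by_contra hcon
    push Not at hcon
    have h3 : k * S < t * e / 2 * S := mul_lt_mul_of_pos_right hcon hS
    have h4 : t * e / 2 * S ≤ t * e / 2 * (9 / 8 * (t * f)) :=
      mul_le_mul_of_nonneg_left hS2 (by linarith)
    have h5 : t * e / 2 * (9 / 8 * (t * f)) = 9 / 16 * ((t * e) * (t * f)) := by ring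
    linarith
  · by_contra hcon
    push Not at hcon
    have h3 : 2 * (t * e) * S < k * S := mul_lt_mul_of_pos_right hcon hS
    have h4 : 2 * (t * e) * (7 / 8 * (t * f)) ≤ 2 * (t * e) * S :=
      mul_le_mul_of_nonneg_left hS1 (by linarith)
    have h5 : 2 * (t * e) * (7 / 8 * (t * f)) = 14 / 8 * ((t * e) * (t * f)) := by ring
    linarith

theorem sx_inner (d : ℕ) (hd : 0 < d) (α : ℝ) (hα : 0 < α) (S : Finset ℕ)
    (hS : ∀ k ∈ S, 0 < k ∧ α ≤ (k : ℝ) ∧ (k : ℝ) ≤ 4 * α) :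
    ∑ k ∈ S.filter (fun k => d ∣ k), (d : ℝ) / k ≤ 4 := by
  have hd' : (0 : ℝ) < d := by exact_mod_cast hd
  rcases (S.filter (fun k => d ∣ k)).eq_empty_or_nonempty with h0 | hne
  · rw [h0]
    norm_num
  have hinj : Set.InjOn (fun k => k / d) (S.filter (fun k => d ∣ k) : Set ℕ) := by
    intro k hk k' hk' h
    rw [mem_coe, mem_filter] at hk hk'
    obtain ⟨j, rfl⟩ := hk.2
    obtain ⟨j', rfl⟩ := hk'.2
    simp only [Nat.mul_div_cancel_left _ hd] at h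
    rw [h]
  have hsum : ∑ k ∈ S.filter (fun k => d ∣ k), (d : ℝ) / k =
      ∑ j ∈ (S.filter (fun k => d ∣ k)).image (fun k => k / d), 1 / (j : ℝ) := by
    rw [sum_image hinj]
    refine sum_congr rfl fun k hk => ?_
    rw [mem_filter] at hk
    obtain ⟨j, rfl⟩ := hk.2
    rw [Nat.mul_div_cancel_left _ hd]
    have hj : (0 : ℝ) < j := by
      have := (hS _ hk.1).1
      have hj : 0 < j := Nat.pos_of_mul_pos_left this
      exact_mod_cast hj
    push_cast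
    field_simp
  rw [hsum]
  have hmem : ∀ j ∈ (S.filter (fun k => d ∣ k)).image (fun k => k / d),
      1 ≤ (j : ℝ) ∧ α / d ≤ (j : ℝ) ∧ (j : ℝ) ≤ 4 * α / d := by
    intro j hj
    rw [mem_image] at hj
    obtain ⟨k, hk, rfl⟩ := hj
    rw [mem_filter] at hk
    obtain ⟨j, rfl⟩ := hk.2
    rw [Nat.mul_div_cancel_left _ hd]
    obtain ⟨h1, h2, h3⟩ := hS _ hk.1
    have hj : 0 < j := Nat.pos_of_mul_pos_left h1
    push_cast at h2 h3
    refine ⟨by exact_mod_cast hj, ?_, ?_⟩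
    · rw [div_le_iff₀ hd']
      linarith
    · rw [le_div_iff₀ hd']
      linarith
  obtain ⟨k, hk⟩ := hne
  obtain ⟨hj1, hj2, hj3⟩ := hmem (k / d) (mem_image_of_mem _ hk)
  have h1 : (1 : ℝ) ≤ 4 * α / d := hj1.trans hj3
  have hαd : 0 < α / d := div_pos hα hd'
  have hmax : (0 : ℝ) < max (α / d) 1 := lt_of_lt_of_le one_pos (le_max_right _ _)
  have hle : max (α / d) 1 ≤ 4 * α / d := by
    apply max_le _ h1
    have : 4 * α / d = 4 * (α / d) := by ring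
    linarith
  refine (ap_gen 1 one_pos (max (α / d) 1) (4 * α / d) hmax hle _ ?_ ?_).trans ?_
  · intro j hj
    obtain ⟨h2, h3, h4⟩ := hmem j hj
    exact ⟨max_le h3 h2, h4⟩
  · intro j _ j' _
    simp
  · have h5 : 1 / max (α / d) 1 ≤ 1 := by
      rw [div_le_one hmax]
      exact le_max_right _ _
    have h6 : (4 * α / d) / max (α / d) 1 ≤ 4 := by
      rw [div_le_iff₀ hmax]
      have h7 : 4 * α / d = 4 * (α / d) := by ring
      rw [h7]
      exact mul_le_mul_of_nonneg_left (le_max_left _ _) (by norm_num)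
    have h7 : 0 < (4 * α / d) / max (α / d) 1 := div_pos (by linarith) hmax
    have h8 := Real.log_le_sub_one_of_pos h7
    rw [Nat.cast_one, div_one]
    linarith

theorem sx_gcd (m : ℕ) (hm : 0 < m) (α : ℝ) (hα : 0 < α) (S : Finset ℕ)
    (hS : ∀ k ∈ S, 0 < k ∧ α ≤ (k : ℝ) ∧ (k : ℝ) ≤ 4 * α) :
    ∑ k ∈ S, ((Nat.gcd k m : ℕ) : ℝ) / k ≤ 4 * (m.divisors.card : ℝ) := by
  have h1 : ∀ k ∈ S, ((Nat.gcd k m : ℕ) : ℝ) / k ≤
      ∑ d ∈ m.divisors, if d ∣ k then (d : ℝ) / k else 0 := by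
    intro k _
    have h2 : Nat.gcd k m ∈ m.divisors := Nat.mem_divisors.2 ⟨Nat.gcd_dvd_right _ _, hm.ne'⟩
    have h3 : (if Nat.gcd k m ∣ k then ((Nat.gcd k m : ℕ) : ℝ) / k else 0) =
        ((Nat.gcd k m : ℕ) : ℝ) / k := if_pos (Nat.gcd_dvd_left _ _)
    rw [← h3]
    refine single_le_sum (f := fun d : ℕ => if d ∣ k then (d : ℝ) / k else 0) ?_ h2
    intro d _
    split_ifs
    · positivity
    · exact le_rfl
  refine (sum_le_sum h1).trans ?_
  rw [sum_comm]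
  have h4 : ∀ d ∈ m.divisors, ∑ k ∈ S, (if d ∣ k then (d : ℝ) / k else 0) ≤ 4 := by
    intro d hd
    rw [← sum_filter]
    exact sx_inner d (Nat.pos_of_mem_divisors hd) α hα S hS
  refine (sum_le_sum h4).trans ?_
  rw [sum_const, nsmul_eq_mul, mul_comm]

theorem sx_mult (k m M : ℕ) (hk : 0 < k) :
    (((Icc 1 M).filter fun f => k ∣ m * f).card : ℝ) ≤ M * (((Nat.gcd k m : ℕ) : ℝ) / k) := by
  have hg : 0 < Nat.gcd k m := Nat.gcd_pos_of_pos_left _ hk
  obtain ⟨k', hk'⟩ := Nat.gcd_dvd_left k m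
  have hk'0 : 0 < k' := by
    rcases Nat.eq_zero_or_pos k' with h | h
    · rw [h, mul_zero] at hk'
      omega
    · exact h
  have hsub : ((Icc 1 M).filter fun f => k ∣ m * f) ⊆ ((Ioc 0 M).filter fun f => k' ∣ f) := by
    intro f hf
    rw [mem_filter, mem_Icc] at hf
    rw [mem_filter, mem_Ioc]
    refine ⟨by omega, ?_⟩
    obtain ⟨m', hm'⟩ := Nat.gcd_dvd_right k m
    have h1 : Nat.gcd k m * k' ∣ Nat.gcd k m * (m' * f) := by
      rw [← hk', ← mul_assoc, ← hm']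
      exact hf.2
    have h2 : k' ∣ m' * f := Nat.dvd_of_mul_dvd_mul_left hg h1
    have hco : Nat.Coprime k' m' := by
      have h3 := Nat.coprime_div_gcd_div_gcd (m := k) (n := m) hg
      have h4 : k / Nat.gcd k m = k' := Nat.div_eq_of_eq_mul_right hg hk'
      have h5 : m / Nat.gcd k m = m' := Nat.div_eq_of_eq_mul_right hg hm'
      rwa [h4, h5] at h3
    exact hco.dvd_of_dvd_mul_left h2
  have h1 : (((Icc 1 M).filter fun f => k ∣ m * f).card : ℝ) ≤ ((M / k' : ℕ) : ℝ) := by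
    have h2 := card_le_card hsub
    rw [Nat.Ioc_filter_dvd_card_eq_div] at h2
    exact_mod_cast h2
  refine h1.trans (Nat.cast_div_le.trans (le_of_eq ?_))
  have h2 : (k : ℝ) = (Nat.gcd k m : ℕ) * (k' : ℝ) := by exact_mod_cast hk'
  have hg' : (0 : ℝ) < ((Nat.gcd k m : ℕ) : ℝ) := by exact_mod_cast hg
  have hk'' : (0 : ℝ) < (k' : ℝ) := by exact_mod_cast hk'0
  rw [h2]
  field_simp

/-- The set of triples `(e, k, f)`. -/
def sxT (t D Y : ℕ) : Finset (ℕ × ℕ × ℕ) :=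
  (Icc 1 Y ×ˢ Icc 1 (2 * t * Y) ×ˢ Icc 1 (4 * Y)).filter fun z =>
    (t * z.1 ≤ 2 * z.2.1 ∧ z.2.1 ≤ 2 * (t * z.1)) ∧ z.2.1 ∣ D * z.1 * z.2.2

theorem sxT_card (t D Y : ℕ) (ht : 0 < t) (hD : 0 < D) (hY : 1 ≤ Y) :
    ((sxT t D Y).card : ℝ) ≤ 16 * (D.divisors.card : ℝ) * (Y : ℝ) ^ 2 * (1 + Real.log Y) := by
  have h1 : (sxT t D Y).card = ∑ e ∈ Icc 1 Y,
      ∑ k ∈ (Icc 1 (2 * t * Y)).filter (fun k => t * e ≤ 2 * k ∧ k ≤ 2 * (t * e)),
        ((Icc 1 (4 * Y)).filter fun f => k ∣ D * e * f).card := by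
    unfold sxT
    rw [card_filter, sum_product]
    refine sum_congr rfl fun e _ => ?_
    rw [sum_product, sum_filter]
    refine sum_congr rfl fun k _ => ?_
    dsimp only
    by_cases h : t * e ≤ 2 * k ∧ k ≤ 2 * (t * e)
    · rw [if_pos h, card_filter]
      refine sum_congr rfl fun f _ => ?_
      simp [h]
    · rw [if_neg h]
      apply sum_eq_zero
      intro f _
      rw [if_neg]
      exact fun h' => h h'.1
  rw [h1]
  push_cast
  have h2 : ∀ e ∈ Icc 1 Y,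
      ∑ k ∈ (Icc 1 (2 * t * Y)).filter (fun k => t * e ≤ 2 * k ∧ k ≤ 2 * (t * e)),
        (((Icc 1 (4 * Y)).filter fun f => k ∣ D * e * f).card : ℝ) ≤
        16 * (Y : ℝ) * ((D.divisors.card : ℝ) * (e.divisors.card : ℝ)) := by
    intro e he
    rw [mem_Icc] at he
    have hte : (0 : ℝ) < (t : ℝ) * e := by
      have : 0 < t * e := Nat.mul_pos ht he.1
      exact_mod_cast this
    have h3 : ∑ k ∈ (Icc 1 (2 * t * Y)).filter (fun k => t * e ≤ 2 * k ∧ k ≤ 2 * (t * e)),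
        (((Icc 1 (4 * Y)).filter fun f => k ∣ D * e * f).card : ℝ) ≤
        ∑ k ∈ (Icc 1 (2 * t * Y)).filter (fun k => t * e ≤ 2 * k ∧ k ≤ 2 * (t * e)),
          ((4 * Y : ℕ) : ℝ) * (((Nat.gcd k (D * e) : ℕ) : ℝ) / k) := by
      refine sum_le_sum fun k hk => ?_
      rw [mem_filter, mem_Icc] at hk
      exact sx_mult k (D * e) (4 * Y) hk.1.1
    refine h3.trans ?_
    rw [← mul_sum]
    have h4 := sx_gcd (D * e) (Nat.mul_pos hD he.1) ((t : ℝ) * e / 2) (by linarith)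
      ((Icc 1 (2 * t * Y)).filter (fun k => t * e ≤ 2 * k ∧ k ≤ 2 * (t * e))) (by
        intro k hk
        rw [mem_filter, mem_Icc] at hk
        have h5 : (t : ℝ) * e ≤ 2 * k := by exact_mod_cast hk.2.1
        have h6 : (k : ℝ) ≤ 2 * ((t : ℝ) * e) := by exact_mod_cast hk.2.2
        exact ⟨hk.1.1, by linarith, by linarith⟩)
    have h5 : (((D * e).divisors.card : ℕ) : ℝ) ≤ (D.divisors.card : ℝ) * (e.divisors.card : ℝ) := by
      exact_mod_cast tau_mul D e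
    calc ((4 * Y : ℕ) : ℝ) * _ ≤ ((4 * Y : ℕ) : ℝ) * (4 * (((D * e).divisors.card : ℕ) : ℝ)) :=
          mul_le_mul_of_nonneg_left h4 (Nat.cast_nonneg _)
      _ ≤ ((4 * Y : ℕ) : ℝ) * (4 * ((D.divisors.card : ℝ) * (e.divisors.card : ℝ))) := by
          apply mul_le_mul_of_nonneg_left _ (Nat.cast_nonneg _)
          linarith
      _ = 16 * (Y : ℝ) * ((D.divisors.card : ℝ) * (e.divisors.card : ℝ)) := by
          push_cast
          ring
  refine (sum_le_sum h2).trans ?_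
  rw [← mul_sum, ← mul_sum]
  have h3 := tau_mom 1 Y hY
  simp only [pow_one] at h3
  norm_num at h3
  calc 16 * (Y : ℝ) * ((D.divisors.card : ℝ) * ∑ e ∈ Icc 1 Y, (e.divisors.card : ℝ)) ≤
      16 * (Y : ℝ) * ((D.divisors.card : ℝ) * (Y * (1 + Real.log Y))) := by
        apply mul_le_mul_of_nonneg_left _ (by positivity)
        exact mul_le_mul_of_nonneg_left h3 (Nat.cast_nonneg _)
    _ = _ := by ring

theorem sx_sq (R : Finset ℕ) :
    R.card ^ 2 ≤ R.card + 2 * ((R ×ˢ R).filter fun v => v.2 < v.1).card := by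
  have h1 : R ×ˢ R ⊆ (R.image fun y => (y, y)) ∪ (((R ×ˢ R).filter fun v => v.2 < v.1) ∪
      (((R ×ˢ R).filter fun v => v.2 < v.1).image Prod.swap)) := by
    intro v hv
    rw [mem_product] at hv
    rw [mem_union, mem_union]
    rcases lt_trichotomy v.2 v.1 with h | h | h
    · right
      left
      rw [mem_filter, mem_product]
      exact ⟨hv, h⟩
    · left
      rw [mem_image]
      exact ⟨v.1, hv.1, Prod.ext rfl h.symm⟩
    · right
      right
      rw [mem_image]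
      refine ⟨(v.2, v.1), ?_, rfl⟩
      rw [mem_filter, mem_product]
      exact ⟨⟨hv.2, hv.1⟩, h⟩
  have h2 := card_le_card h1
  rw [card_product] at h2
  have h3 := card_union_le (R.image fun y => (y, y)) (((R ×ˢ R).filter fun v => v.2 < v.1) ∪
      (((R ×ˢ R).filter fun v => v.2 < v.1).image Prod.swap))
  have h4 := card_union_le ((R ×ˢ R).filter fun v => v.2 < v.1)
      (((R ×ˢ R).filter fun v => v.2 < v.1).image Prod.swap)
  have h5 : (R.image fun y => (y, y)).card ≤ R.card := card_image_le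
  have h6 : (((R ×ˢ R).filter fun v => v.2 < v.1).image Prod.swap).card ≤
    ((R ×ˢ R).filter fun v => v.2 < v.1).card := card_image_le
  rw [sq]
  omega

open Classical in
/-- The set of `y` counted by `rr`. -/
noncomputable def sxR (c : Cls) (N x : ℕ) (b : ℤ) : Finset ℕ :=
  (Ico (YY c.a N x) (2 * YY c.a N x)).filter fun y => (c.Q : ℤ) ∣ (y : ℤ) - c.y0 ∧
    ∃ u : ℕ, (c.q : ℤ) ∣ (u : ℤ) - c.u0 ∧
      (u : ℤ) ^ 2 = DD c.a x * (y : ℤ) ^ 2 + 4 * b - 4 * (x : ℤ) ^ 2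

theorem sx_off (c : Cls) (N x : ℕ) (hx6 : 6 ≤ c.a * x)
    (hu : ∀ s : ℝ, (YY c.a N x : ℝ) ≤ s → s ≤ 3 * (YY c.a N x : ℝ) →
      (1 - 1 / 8) * ((c.a : ℝ) * x * s) ≤ uu c.a x s (-N) ∧
        uu c.a x s N ≤ (1 + 1 / 8) * ((c.a : ℝ) * x * s)) :
    ∑ b ∈ Icc (-(N : ℤ)) N, ((sxR c N x b ×ˢ sxR c N x b).filter fun v => v.2 < v.1).card ≤
      (sxT (c.a * x) (DD c.a x).natAbs (YY c.a N x)).card := by
  set Y := YY c.a N x with hY
  set D := DD c.a x with hD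
  have hxa : (6 : ℤ) ≤ (c.a : ℤ) * x := by exact_mod_cast hx6
  have hDpos : 0 < D := by
    rw [hD]
    unfold DD
    nlinarith
  have hDabs : ((D.natAbs : ℕ) : ℤ) = D := Int.natAbs_of_nonneg hDpos.le
  -- the root
  let U : ℤ → ℕ → ℕ := fun b y => Nat.sqrt ((D * (y : ℤ) ^ 2 + 4 * b - 4 * (x : ℤ) ^ 2).toNat)
  have hU : ∀ b : ℤ, ∀ y ∈ sxR c N x b, Y ≤ y ∧ y < 2 * Y ∧
      ((U b y : ℕ) : ℤ) ^ 2 = D * (y : ℤ) ^ 2 + 4 * b - 4 * (x : ℤ) ^ 2 := by
    intro b y hy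
    classical
    unfold sxR at hy
    rw [mem_filter, mem_Ico] at hy
    obtain ⟨⟨h1, h2⟩, _, u, _, h3⟩ := hy
    refine ⟨h1, h2, ?_⟩
    have h4 : (D * (y : ℤ) ^ 2 + 4 * b - 4 * (x : ℤ) ^ 2).toNat = u * u := by
      rw [← h3, sq]
      have : ((u : ℤ) * u).toNat = u * u := by
        rw [← Nat.cast_mul, Int.toNat_natCast]
      exact this
    have h5 : U b y = u := by
      show Nat.sqrt ((D * (y : ℤ) ^ 2 + 4 * b - 4 * (x : ℤ) ^ 2).toNat) = u
      rw [h4]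
      exact Nat.sqrt_eq u
    rw [h5]
    exact h3
  have hUb : ∀ b ∈ Icc (-(N : ℤ)) N, ∀ y ∈ sxR c N x b,
      7 / 8 * ((c.a : ℝ) * x * y) ≤ (U b y : ℝ) ∧ (U b y : ℝ) ≤ 9 / 8 * ((c.a : ℝ) * x * y) := by
    intro b hb y hy
    rw [mem_Icc] at hb
    obtain ⟨h1, h2, h3⟩ := hU b y hy
    have h1' : (Y : ℝ) ≤ y := by exact_mod_cast h1
    have h2' : (y : ℝ) ≤ 3 * Y := by
      have h4 : (y : ℝ) ≤ 2 * Y := by exact_mod_cast h2.le
      have h5 : (0 : ℝ) ≤ Y := Nat.cast_nonneg _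
      linarith
    obtain ⟨h4, h5⟩ := hu y h1' h2'
    have h6 : (U b y : ℝ) = uu c.a x y b := by
      unfold uu
      have h7 : ((U b y : ℕ) : ℝ) ^ 2 = (((c.a : ℝ) ^ 2 * (x : ℝ) ^ 2 - 4) * (y : ℝ) ^ 2 +
          4 * (b : ℝ) - 4 * (x : ℝ) ^ 2) := by
        have h8 : (((U b y : ℕ) : ℤ) : ℝ) ^ 2 = (((D * (y : ℤ) ^ 2 + 4 * b - 4 * (x : ℤ) ^ 2 : ℤ)) : ℝ) := by
          rw [← h3]
          push_cast
          ring
        rw [hD] at h8
        unfold DD at h8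
        push_cast at h8
        exact h8
      rw [← h7, Real.sqrt_sq (Nat.cast_nonneg _)]
    have hb1 : (-(N : ℝ)) ≤ (b : ℝ) := by exact_mod_cast hb.1
    have hb2 : (b : ℝ) ≤ (N : ℝ) := by exact_mod_cast hb.2
    have hy0 : (0 : ℝ) ≤ (y : ℝ) := Nat.cast_nonneg _
    have h7 := uu_mono c.a x (by omega) (y : ℝ) y (-(N : ℝ)) b hy0 le_rfl hb1
    have h8 := uu_mono c.a x (by omega) (y : ℝ) y b (N : ℝ) hy0 le_rfl hb2
    rw [h6]
    constructor
    · linarith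
    · linarith
  rw [← card_sigma]
  apply card_le_card_of_injOn (fun z : (_ : ℤ) × (ℕ × ℕ) =>
    (z.2.1 - z.2.2, U z.1 z.2.1 - U z.1 z.2.2, z.2.1 + z.2.2))
  · rintro ⟨b, y, y'⟩ hz
    rw [mem_coe, mem_sigma, mem_filter, mem_product] at hz
    obtain ⟨hb, ⟨hy, hy'⟩, hlt⟩ := hz
    dsimp only at hy hy' hlt hb
    obtain ⟨h1, h2, h3⟩ := hU b y hy
    obtain ⟨h1', h2', h3'⟩ := hU b y' hy'
    obtain ⟨h4, h5⟩ := hUb b hb y hy
    obtain ⟨h4', h5'⟩ := hUb b hb y' hy'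
    set u := U b y with hu1
    set u' := U b y' with hu2
    obtain ⟨e, he⟩ : ∃ e, y = y' + e := ⟨y - y', by omega⟩
    have he0 : 0 < e := by omega
    have hY0 : 0 < Y := by omega
    have hsq : ((u : ℤ) - u') * (u + u') = D * e * (y + y') := by
      have h6 : ((u : ℤ) - u') * (u + u') = (u : ℤ) ^ 2 - (u' : ℤ) ^ 2 := by ring
      rw [h6, h3, h3', he]
      push_cast
      ring
    have hsqr : ((u : ℝ) - u') * (u + u') = ((D : ℤ) : ℝ) * e * (y + y') := by exact_mod_cast hsq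
    have hkb := sx_bounds ((c.a : ℝ) * x) e (y + y') ((D : ℤ) : ℝ) (u + u') ((u : ℝ) - u')
      (by exact_mod_cast hx6) (by
        have : 0 < y + y' := by omega
        exact_mod_cast this) (by exact_mod_cast he0) (by
        rw [hD]
        unfold DD
        push_cast
        ring) (by linarith) (by linarith) hsqr
    obtain ⟨hk1, hk2⟩ := hkb
    have hte0 : (0 : ℝ) < (c.a : ℝ) * x * e := by
      have : 0 < c.a * x * e := Nat.mul_pos (by omega) he0
      exact_mod_cast this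
    have hlt' : u' < u := by
      have : (u' : ℝ) < u := by linarith
      exact_mod_cast this
    obtain ⟨k, hk⟩ : ∃ k, u = u' + k := ⟨u - u', by omega⟩
    have hkr : (u : ℝ) - u' = k := by
      rw [hk]
      push_cast
      ring
    rw [hkr] at hk1 hk2
    have hk1' : c.a * x * e ≤ 2 * k := by
      have : (c.a : ℝ) * x * e ≤ 2 * k := by linarith
      exact_mod_cast this
    have hk2' : k ≤ 2 * (c.a * x * e) := by exact_mod_cast hk2
    have heY : e ≤ Y := by omega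
    rw [mem_coe]
    unfold sxT
    rw [mem_filter, mem_product, mem_product, mem_Icc, mem_Icc, mem_Icc]
    dsimp only
    have e1 : y - y' = e := by omega
    have e2 : u - u' = k := by omega
    rw [e1, e2]
    refine ⟨⟨⟨he0, heY⟩, ⟨by omega, ?_⟩, ⟨by omega, by omega⟩⟩, ⟨hk1', hk2'⟩, ?_⟩
    · calc k ≤ 2 * (c.a * x * e) := hk2'
        _ ≤ 2 * (c.a * x * Y) := Nat.mul_le_mul_left _ (Nat.mul_le_mul_left _ heY)
        _ = 2 * (c.a * x) * Y := by ring
    · have h6 : ((k : ℕ) : ℤ) ∣ ((D.natAbs * e * (y + y') : ℕ) : ℤ) := by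
        push_cast
        rw [← Int.natCast_natAbs, hDabs, ← hsq]
        have h7 : (u : ℤ) - u' = k := by
          rw [hk]
          push_cast
          ring
        rw [h7]
        exact dvd_mul_right _ _
      exact_mod_cast h6
  · rintro ⟨b, y, y'⟩ hz ⟨b2, y2, y2'⟩ hz2 heq
    rw [mem_coe, mem_sigma, mem_filter, mem_product] at hz hz2
    obtain ⟨hb, ⟨hy, hy'⟩, hlt⟩ := hz
    obtain ⟨hb2, ⟨hy2, hy2'⟩, hlt2⟩ := hz2
    dsimp only at hy hy' hlt hb hy2 hy2' hlt2 hb2 heq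
    rw [Prod.mk.injEq, Prod.mk.injEq] at heq
    obtain ⟨heq1, heq2, heq3⟩ := heq
    have ey : y = y2 := by omega
    have ey' : y' = y2' := by omega
    subst ey
    subst ey'
    obtain ⟨h1, h2, h3⟩ := hU b y hy
    obtain ⟨h1', h2', h3'⟩ := hU b y' hy'
    obtain ⟨_, _, g3⟩ := hU b2 y hy2
    obtain ⟨_, _, g3'⟩ := hU b2 y' hy2'
    have hlt' : ∀ b, ((U b y : ℕ) : ℤ) ^ 2 = D * (y : ℤ) ^ 2 + 4 * b - 4 * (x : ℤ) ^ 2 →
        ((U b y' : ℕ) : ℤ) ^ 2 = D * (y' : ℤ) ^ 2 + 4 * b - 4 * (x : ℤ) ^ 2 → U b y' < U b y := by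
      intro b k1 k2
      have h6 : ((U b y' : ℕ) : ℤ) ^ 2 < ((U b y : ℕ) : ℤ) ^ 2 := by
        rw [k1, k2]
        have h7 : (y' : ℤ) ^ 2 < (y : ℤ) ^ 2 := by
          have : (y' : ℤ) < y := by exact_mod_cast hlt
          nlinarith
        nlinarith
      have h7 : ((U b y' : ℕ) : ℤ) < ((U b y : ℕ) : ℤ) := lt_of_pow_lt_pow_left₀ 2 (by positivity) h6
      exact_mod_cast h7
    have hl1 := hlt' b h3 h3'
    have hl2 := hlt' b2 g3 g3'
    set u := U b y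
    set u' := U b y'
    set v := U b2 y
    set v' := U b2 y'
    have hk : (u : ℤ) - u' = (v : ℤ) - v' := by omega
    have hs : ((u : ℤ) - u') * (u + u') = ((u : ℤ) - u') * (v + v') := by
      have h6 : ((u : ℤ) - u') * (u + u') = (u : ℤ) ^ 2 - (u' : ℤ) ^ 2 := by ring
      have h7 : ((u : ℤ) - u') * (v + v') = (v : ℤ) ^ 2 - (v' : ℤ) ^ 2 := by
        rw [hk]
        ring
      rw [h6, h7, h3, h3', g3, g3']
      ring
    have hne : (u : ℤ) - u' ≠ 0 := by omega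
    have hs2 := mul_left_cancel₀ hne hs
    have huv : (u : ℤ) = v := by omega
    have hbb : b = b2 := by
      rw [huv] at h3
      rw [h3] at g3
      linarith
    rw [hbb]

theorem sx_asym (C : ℝ) : ∀ᶠ l : ℝ in atTop, 32 * C * (1 + l ^ 10) * Real.exp (-(l / 6)) ≤ 1 := by
  have h1 : Tendsto (fun l : ℝ => l ^ 10 * Real.exp (-(l / 6))) atTop (nhds 0) := by
    have h := (Real.tendsto_pow_mul_exp_neg_atTop_nhds_zero 10).comp
      (tendsto_id.atTop_div_const (show (0 : ℝ) < 6 by norm_num))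
    have h2 := h.const_mul ((6 : ℝ) ^ 10)
    rw [mul_zero] at h2
    refine h2.congr fun l => ?_
    simp only [Function.comp, id]
    ring
  have h2 : Tendsto (fun l : ℝ => Real.exp (-(l / 6))) atTop (nhds 0) := by
    have h := (Real.tendsto_exp_neg_atTop_nhds_zero).comp
      (tendsto_id.atTop_div_const (show (0 : ℝ) < 6 by norm_num))
    exact h
  have h3 : Tendsto (fun l : ℝ => 32 * C * (1 + l ^ 10) * Real.exp (-(l / 6))) atTop (nhds 0) := by
    have h := (h2.add h1).const_mul (32 * C)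
    rw [add_zero, mul_zero] at h
    refine h.congr fun l => ?_
    ring
  exact h3.eventually_le_const (by norm_num)

theorem same_x (c : Cls) : ∀ᶠ N : ℕ in atTop, ∀ x ∈ XX c N,
    ((∑ b ∈ Icc (-(N : ℤ)) N, rr c N x b ^ 2 : ℕ) : ℝ) ≤ 11 * (N / x) := by
  obtain ⟨C, hC1, hC⟩ := tau_le 1 (1 / 8) (by norm_num)
  filter_upwards [first_up c, size_Y c.a c.a_pos, size_u c.a c.a_pos (1 / 8) (by norm_num),
    x_large 6, ell_tendsto.eventually (sx_asym C), eventually_ge_atTop 1]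
    with N hfirst hsizeY hsizeu hxl hasym hN1 x hx
  obtain ⟨hx1, hx2, _⟩ := mem_XX hx
  have ha1 : (1 : ℝ) ≤ (c.a : ℝ) := by exact_mod_cast c.a_pos
  have hx6 : (6 : ℝ) ≤ (x : ℝ) := hxl x hx1
  have hx0 : (0 : ℝ) < x := by linarith
  have hxt : (x : ℝ) ≤ (c.a : ℝ) * x := by nlinarith
  have ht6 : 6 ≤ c.a * x := by
    have : (6 : ℝ) ≤ (c.a : ℝ) * x := by linarith
    exact_mod_cast this
  obtain ⟨_, _, hY3, hY4, hY5⟩ := hsizeY x hx1 hx2
  have hN0 : (0 : ℝ) < N := by exact_mod_cast hN1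
  have hYpos : 1 ≤ YY c.a N x := by
    have h1 : (0 : ℝ) < (YY c.a N x : ℝ) :=
      lt_of_lt_of_le (mul_pos (Real.sqrt_pos.2 hN0) (Real.exp_pos _)) hY3
    exact_mod_cast h1
  have hrr : ∀ b, rr c N x b = (sxR c N x b).card := by
    intro b
    rw [rr_eq_card]
    rfl
  have h1 : ∑ b ∈ Icc (-(N : ℤ)) N, rr c N x b ^ 2 ≤ ∑ b ∈ Icc (-(N : ℤ)) N, rr c N x b +
      2 * (sxT (c.a * x) (DD c.a x).natAbs (YY c.a N x)).card := by
    have h2 := sx_off c N x ht6 (hsizeu x hx1 hx2)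
    have h3 : ∑ b ∈ Icc (-(N : ℤ)) N, rr c N x b ^ 2 ≤ ∑ b ∈ Icc (-(N : ℤ)) N,
        (rr c N x b + 2 * ((sxR c N x b ×ˢ sxR c N x b).filter fun v => v.2 < v.1).card) := by
      refine sum_le_sum fun b _ => ?_
      rw [hrr]
      exact sx_sq _
    rw [sum_add_distrib, ← mul_sum] at h3
    omega
  have hDz : 0 < DD c.a x := by
    unfold DD
    have : (6 : ℤ) ≤ (c.a : ℤ) * x := by exact_mod_cast ht6
    nlinarith
  have hDpos : 0 < (DD c.a x).natAbs := Int.natAbs_pos.2 hDz.ne'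
  have h4 := sxT_card (c.a * x) (DD c.a x).natAbs (YY c.a N x) (by omega) hDpos hYpos
  set t : ℝ := (c.a : ℝ) * x with ht
  have ht0 : 0 < t := by linarith
  set Y := YY c.a N x
  set l := ell N with hl
  have hl0 : 0 ≤ l := ell_nonneg N
  -- tau bound
  have h5 : ((DD c.a x).natAbs.divisors.card : ℝ) ≤ C * t ^ ((1 : ℝ) / 4) := by
    have h6 := hC (DD c.a x).natAbs hDpos
    rw [pow_one] at h6
    refine h6.trans ?_
    apply mul_le_mul_of_nonneg_left _ (by linarith)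
    have h7 : (((DD c.a x).natAbs : ℕ) : ℝ) ≤ t ^ (2 : ℝ) := by
      have h8 : (((DD c.a x).natAbs : ℕ) : ℝ) = ((DD c.a x : ℤ) : ℝ) := by
        rw [Nat.cast_natAbs, abs_of_pos hDz]
      rw [h8, Real.rpow_two, ht]
      unfold DD
      push_cast
      nlinarith
    calc (((DD c.a x).natAbs : ℕ) : ℝ) ^ ((1 : ℝ) / 8) ≤ (t ^ (2 : ℝ)) ^ ((1 : ℝ) / 8) :=
          Real.rpow_le_rpow (Nat.cast_nonneg _) h7 (by norm_num)
      _ = t ^ ((1 : ℝ) / 4) := by
          rw [← Real.rpow_mul ht0.le]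
          norm_num
  -- log bound
  have h6 : 1 + Real.log Y ≤ 1 + l ^ 10 := by
    have h7 : (Y : ℝ) ≤ N := by
      have h8 : (Y : ℝ) ≤ Real.sqrt N * 1 := by
        refine hY4.trans ?_
        apply mul_le_mul_of_nonneg_left _ (Real.sqrt_nonneg _)
        rw [Real.exp_le_one_iff]
        linarith
      have h9 : Real.sqrt N ≤ N := by
        rw [Real.sqrt_le_left hN0.le]
        have : (1 : ℝ) ≤ N := by exact_mod_cast hN1
        nlinarith
      linarith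
    have h8 : Real.log Y ≤ Real.log N := Real.log_le_log (by exact_mod_cast hYpos) h7
    rw [hl, ell_pow]
    linarith
  have h6' : 0 ≤ 1 + Real.log Y := by
    have : 0 ≤ Real.log Y := Real.log_nonneg (by exact_mod_cast hYpos)
    linarith
  -- total
  have h7 : 2 * ((sxT (c.a * x) (DD c.a x).natAbs Y).card : ℝ) ≤ N / x := by
    have hq : t ^ ((1 : ℝ) / 4) * (N / t ^ ((3 : ℝ) / 2)) = N / t * t ^ (-((1 : ℝ) / 4)) := by
      have e1 : t ^ ((3 : ℝ) / 2) = t * (t ^ ((1 : ℝ) / 4) * t ^ ((1 : ℝ) / 4)) := by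
        rw [← Real.rpow_add ht0, ← Real.rpow_one_add' ht0.le (by norm_num)]
        norm_num
      rw [e1, Real.rpow_neg ht0.le]
      have e2 : 0 < t ^ ((1 : ℝ) / 4) := Real.rpow_pos_of_pos ht0 _
      field_simp
    have hexp : t ^ (-((1 : ℝ) / 4)) ≤ Real.exp (-(l / 6)) := by
      have e1 : Real.exp (2 / 3 * l) ≤ t := by linarith
      calc t ^ (-((1 : ℝ) / 4)) ≤ (Real.exp (2 / 3 * l)) ^ (-((1 : ℝ) / 4)) :=
            Real.rpow_le_rpow_of_nonpos (Real.exp_pos _) e1 (by norm_num)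
        _ = Real.exp (-(l / 6)) := by
            rw [← Real.exp_mul]
            congr 1
            ring
    have hNt : (0 : ℝ) ≤ N / t := by positivity
    have hl10 : 0 ≤ 1 + l ^ 10 := by positivity
    calc 2 * ((sxT (c.a * x) (DD c.a x).natAbs Y).card : ℝ)
        ≤ 2 * (16 * ((DD c.a x).natAbs.divisors.card : ℝ) * (Y : ℝ) ^ 2 * (1 + Real.log Y)) := by
          linarith
      _ ≤ 2 * (16 * (C * t ^ ((1 : ℝ) / 4)) * (N / t ^ ((3 : ℝ) / 2)) * (1 + l ^ 10)) := by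
          gcongr
      _ = 32 * C * (1 + l ^ 10) * (t ^ ((1 : ℝ) / 4) * (N / t ^ ((3 : ℝ) / 2))) := by ring
      _ = (N / t) * (32 * C * (1 + l ^ 10) * t ^ (-((1 : ℝ) / 4))) := by
          rw [hq]
          ring
      _ ≤ (N / t) * (32 * C * (1 + l ^ 10) * Real.exp (-(l / 6))) := by
          gcongr
      _ ≤ (N / t) * 1 := mul_le_mul_of_nonneg_left hasym hNt
      _ ≤ N / x := by
          rw [mul_one]
          exact div_le_div_of_nonneg_left hN0.le hx0 hxt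
  have h8 := hfirst x hx
  have h9 : ((∑ b ∈ Icc (-(N : ℤ)) N, rr c N x b ^ 2 : ℕ) : ℝ) ≤
      ((∑ b ∈ Icc (-(N : ℤ)) N, rr c N x b : ℕ) : ℝ) +
      2 * ((sxT (c.a * x) (DD c.a x).natAbs Y).card : ℝ) := by exact_mod_cast h1
  linarith

end Pool.Agent.MK47
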