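import Pool.Agent.MK47.FirstCount
import Pool.Agent.MK47.Same
import Pool.Agent.MK47.PairMain
import Pool.Agent.MK47.HAvg
import Pool.Agent.MK47.Exc

/-!
# Almost all `b` in a class are represented

Let `η > 0` be small with `1 - (1-η)²/(1+η)^3 ≤ ε/2`; `P1` from `h_avg` with `η`, and `P1 ≥ 2`. `M1 = ∑_b RR(b)`, `M2 = ∑_b RR(b)²`
(`b` over `|b| ≤ N`). `M1 = ∑_{x ∈ XX} ∑_b rr ≥ (1-η) K1 N SX` (`first_low`), if `η < 1`. `M2 = ∑_{x,x'} ∑_b rr rr'`; the terms `x ≠ x'` are at most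
`(1+η) K2 N ∑_{x ≠ x'} HH/(x x') ≤ (1+η)² K2 N SX²` (`pair_main`, `h_avg`); the terms `x = x'` are at most `11 N SX` (`same_x`), which is at
most `η K2 N SX²` for large `N` since `SX → ∞` (`ap_low`, `ell_tendsto`). So `M2 ≤ (1+η)³ K2 N SX²`. Cauchy-Schwarz:
`M1² ≤ #{RR ≠ 0} M2`, so `#{|b| ≤ N : RR(b) ≠ 0} ≥ ((1-η)²/(1+η)³) K1² N/K2 = ((1-η)²/(1+η)³) (2N/B)` because
`K1²/K2 = 8 h/q² = 8/(g g h) = 2/B` (`four_B`, `q = g h`). By `sol_of_RR` all these `b` are in the class `B ∣ b - β` and soluble. The class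
has at most `2N/B + 1` elements in `[-N, N]`. So the set in question has at most
`2N/B + 1 - (1 - ε/2) 2N/B = (ε/2)(2N/B) + 1 ≤ ε (2N/B)` elements for large `N`.
-/

namespace Pool.Agent.MK47

open Finset Filter

theorem K_rel (c : Cls) : K1 c ^ 2 = K2 c * (2 / c.B) := by
  have h1 : (0 : ℝ) < c.h := by exact_mod_cast c.h_pos
  have h2 : (0 : ℝ) < c.g := by exact_mod_cast c.g_pos
  have h3 : (0 : ℝ) < c.a := by exact_mod_cast c.a_pos
  have h4 : (0 : ℝ) < c.Q := by exact_mod_cast Q_pos c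
  have hB : (4 : ℝ) * c.B = c.g * c.g * c.h := by exact_mod_cast four_B c
  have hq : (c.q : ℝ) = c.g * c.h := by unfold Cls.q; push_cast; ring
  have hB' : (c.B : ℝ) = c.g * c.g * c.h / 4 := by linarith
  unfold K1 K2
  rw [hq, hB']
  field_simp
  ring

open Classical in
theorem cheb (ε : ℝ) (hε : 0 < ε) : ∃ P1 : ℕ, ∀ P0 : ℕ, P1 ≤ P0 → ∀ c : Cls, c.Full P0 →
    ∀ᶠ N : ℕ in atTop, (((Icc (-(N : ℤ)) N).filter fun b => (c.B : ℤ) ∣ b - c.beta ∧
      ¬ ∃ x y z : ℤ, x ^ 2 + y ^ 2 + z ^ 2 + (c.a : ℤ) * x * y * z = b).card : ℝ) ≤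
      ε * (2 * N / c.B) := by
  obtain ⟨η, hη, hη1, hη2⟩ : ∃ η : ℝ, 0 < η ∧ η ≤ 1 / 9 ∧ 18 * η ≤ ε := by
    refine ⟨min (1 / 9) (ε / 18), lt_min (by norm_num) (by linarith), min_le_left _ _, ?_⟩
    have := min_le_right (1 / 9 : ℝ) (ε / 18)
    linarith
  obtain ⟨P1, hP1⟩ := h_avg η hη
  refine ⟨max P1 2, fun P0 hP0 c hc => ?_⟩
  have hP2 : 2 ≤ P0 := le_trans (le_max_right _ _) hP0
  have hK2 := K2_pos c
  have hQ : (0 : ℝ) < c.Q := by exact_mod_cast Q_pos c
  have hBp : (0 : ℝ) < c.B := by exact_mod_cast B_pos c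
  have hSXl : ∀ᶠ N : ℕ in atTop, 66 * c.Q / (η * K2 c) + 1 ≤ ell N :=
    ell_tendsto.eventually_ge_atTop _
  have hNl : ∀ᶠ N : ℕ in atTop, c.B / ε + 1 ≤ (N : ℝ) :=
    (tendsto_natCast_atTop_atTop (R := ℝ)).eventually_ge_atTop _
  filter_upwards [hP1 P0 (le_trans (le_max_left _ _) hP0) c hc, pair_main c P0 hP2 hc η hη, same_x c,
    first_low c η hη, ap_low c (1 / 2) (by norm_num), hSXl, hNl, eventually_ge_atTop 1]
    with N h1 h2 h3 h4 h5 h6 h7 h8
  have hN : (0 : ℝ) < N := by exact_mod_cast h8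
  have hSX : 11 ≤ η * K2 c * SX c N := by
    have e1 : 66 * c.Q / (η * K2 c) ≤ ell N := by linarith
    have e2 : 66 * c.Q ≤ ell N * (η * K2 c) := by
      rwa [div_le_iff₀ (by positivity)] at e1
    have e3 : (1 - 1 / 2) * (ell N / (3 * c.Q)) * (η * K2 c) ≤ SX c N * (η * K2 c) :=
      mul_le_mul_of_nonneg_right h5 (by positivity)
    have e4 : (11 : ℝ) ≤ (1 - 1 / 2) * (ell N / (3 * c.Q)) * (η * K2 c) := by
      have : (1 - 1 / 2) * (ell N / (3 * c.Q)) * (η * K2 c) = (ell N * (η * K2 c)) / (6 * c.Q) := by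
        field_simp
        ring
      rw [this, le_div_iff₀ (by positivity)]
      linarith
    linarith
  have hSX0 : 0 < SX c N := by
    by_contra hcon
    push Not at hcon
    have : η * K2 c * SX c N ≤ 0 := mul_nonpos_of_nonneg_of_nonpos (by positivity) hcon
    linarith
  set s := Icc (-(N : ℤ)) N with hs
  -- first moment
  have hM1 : (1 - η) * K1 c * N * SX c N ≤ ∑ b ∈ s, (RR c N b : ℝ) := by
    have e1 : ∑ b ∈ s, (RR c N b : ℝ) = ∑ x ∈ XX c N, ((∑ b ∈ s, rr c N x b : ℕ) : ℝ) := by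
      unfold RR
      push_cast
      rw [Finset.sum_comm]
    rw [e1]
    have e2 : (1 - η) * K1 c * N * SX c N = ∑ x ∈ XX c N, (1 - η) * K1 c * (N / x) := by
      unfold SX
      rw [Finset.mul_sum]
      refine Finset.sum_congr rfl fun x _ => ?_
      ring
    rw [e2]
    exact Finset.sum_le_sum fun x hx => h4 x hx
  -- second moment
  have hM2 : ∑ b ∈ s, (RR c N b : ℝ) ^ 2 ≤ (1 + η) ^ 3 * K2 c * N * SX c N ^ 2 := by
    have e1 : ∑ b ∈ s, (RR c N b : ℝ) ^ 2 =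
        ∑ x ∈ XX c N, ((∑ b ∈ s, rr c N x b ^ 2 : ℕ) : ℝ) +
        ∑ x ∈ XX c N, ∑ x' ∈ (XX c N).erase x, ((∑ b ∈ s, rr c N x b * rr c N x' b : ℕ) : ℝ) := by
      rw [← Finset.sum_add_distrib]
      have : ∀ x ∈ XX c N, ((∑ b ∈ s, rr c N x b ^ 2 : ℕ) : ℝ) +
          ∑ x' ∈ (XX c N).erase x, ((∑ b ∈ s, rr c N x b * rr c N x' b : ℕ) : ℝ) =
          ∑ x' ∈ XX c N, ((∑ b ∈ s, rr c N x b * rr c N x' b : ℕ) : ℝ) := by
        intro x hx
        rw [← Finset.add_sum_erase _ _ hx]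
        congr 2
        refine Finset.sum_congr rfl fun b _ => ?_
        ring
      rw [Finset.sum_congr rfl this]
      unfold RR
      push_cast
      have e3 : ∀ b ∈ s, (∑ x ∈ XX c N, (rr c N x b : ℝ)) ^ 2 =
          ∑ x ∈ XX c N, ∑ x' ∈ XX c N, (rr c N x b : ℝ) * rr c N x' b := by
        intro b _
        rw [sq, Finset.sum_mul_sum]
      rw [Finset.sum_congr rfl e3, Finset.sum_comm]
      refine Finset.sum_congr rfl fun x _ => ?_
      rw [Finset.sum_comm]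
    rw [e1]
    have e2 : ∑ x ∈ XX c N, ((∑ b ∈ s, rr c N x b ^ 2 : ℕ) : ℝ) ≤ 11 * N * SX c N := by
      refine (Finset.sum_le_sum fun x hx => h3 x hx).trans (le_of_eq ?_)
      unfold SX
      rw [Finset.mul_sum]
      refine Finset.sum_congr rfl fun x _ => ?_
      ring
    have e3 : ∑ x ∈ XX c N, ∑ x' ∈ (XX c N).erase x,
        ((∑ b ∈ s, rr c N x b * rr c N x' b : ℕ) : ℝ) ≤
        (1 + η) * K2 c * N * ((1 + η) * SX c N ^ 2) := by
      refine le_trans ?_ (mul_le_mul_of_nonneg_left h1 (by positivity))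
      rw [Finset.mul_sum]
      refine Finset.sum_le_sum fun x hx => ?_
      rw [Finset.mul_sum]
      refine Finset.sum_le_sum fun x' hx' => ?_
      have hne : x ≠ x' := fun h => (Finset.mem_erase.1 hx').1 h.symm
      exact h2 x hx x' (Finset.mem_erase.1 hx').2 hne
    have e4 : 11 * N * SX c N ≤ η * K2 c * N * SX c N ^ 2 := by
      have : 11 * (N * SX c N) ≤ η * K2 c * SX c N * (N * SX c N) :=
        mul_le_mul_of_nonneg_right hSX (by positivity)
      calc 11 * N * SX c N = 11 * (N * SX c N) := by ring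
        _ ≤ η * K2 c * SX c N * (N * SX c N) := this
        _ = _ := by ring
    have e5 : (1 + η) ^ 2 + η ≤ (1 + η) ^ 3 := by nlinarith [pow_pos hη 2, pow_pos hη 3]
    have e6 : 0 ≤ K2 c * N * SX c N ^ 2 := by positivity
    nlinarith [mul_le_mul_of_nonneg_right e5 e6]
  -- the represented b
  set S := s.filter (fun b => RR c N b ≠ 0) with hS
  have hCS : (∑ b ∈ s, (RR c N b : ℝ)) ^ 2 ≤ S.card * ∑ b ∈ s, (RR c N b : ℝ) ^ 2 := by
    have e1 : ∑ b ∈ s, (RR c N b : ℝ) = ∑ b ∈ S, (RR c N b : ℝ) := by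
      rw [hS, Finset.sum_filter_of_ne]
      intro b _ hb h0
      exact hb (by rw [h0]; simp)
    have e2 : ∑ b ∈ S, (RR c N b : ℝ) ^ 2 ≤ ∑ b ∈ s, (RR c N b : ℝ) ^ 2 :=
      Finset.sum_le_sum_of_subset_of_nonneg (Finset.filter_subset _ _) fun b _ _ => by positivity
    rw [e1]
    exact (sq_sum_le_card_mul_sum_sq).trans (mul_le_mul_of_nonneg_left e2 (by positivity))
  have hK1 : 0 < K1 c := by
    unfold K1
    have a1 : (0 : ℝ) < c.q := by
      unfold Cls.q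
      have := c.g_pos
      have := c.h_pos
      positivity
    have a3 : (0 : ℝ) < c.a := by exact_mod_cast c.a_pos
    have a4 : 0 < Real.log 2 := Real.log_pos (by norm_num)
    positivity
  have hlow : (1 - ε / 2) * (2 * N / c.B) ≤ S.card := by
    have e1 : ((1 - η) * K1 c * N * SX c N) ^ 2 ≤
        S.card * ((1 + η) ^ 3 * K2 c * N * SX c N ^ 2) := by
      refine le_trans ?_ (hCS.trans (mul_le_mul_of_nonneg_left hM2 (by positivity)))
      refine pow_le_pow_left₀ ?_ hM1 2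
      have : 0 ≤ 1 - η := by linarith
      positivity
    have e2 : ((1 - η) * K1 c * N * SX c N) ^ 2 =
        ((1 - η) ^ 2 * (2 * N / c.B)) * (K2 c * N * SX c N ^ 2) := by
      have : ((1 - η) * K1 c * N * SX c N) ^ 2 = (1 - η) ^ 2 * K1 c ^ 2 * N ^ 2 * SX c N ^ 2 := by
        ring
      rw [this, K_rel]
      ring
    have e3 : S.card * ((1 + η) ^ 3 * K2 c * N * SX c N ^ 2) =
        (S.card * (1 + η) ^ 3) * (K2 c * N * SX c N ^ 2) := by ring
    rw [e2, e3] at e1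
    have e4 : (1 - η) ^ 2 * (2 * N / c.B) ≤ S.card * (1 + η) ^ 3 :=
      le_of_mul_le_mul_right e1 (by positivity)
    have e5 : (1 - ε / 2) * (1 + η) ^ 3 ≤ (1 - η) ^ 2 := by
      have a1 : 1 - ε / 2 ≤ 1 - 9 * η := by linarith
      have a2 : (1 + η) ^ 3 ≤ 1 + 7 * η := by nlinarith [pow_pos hη 2, pow_pos hη 3]
      have a3 : 0 ≤ 1 - 9 * η := by linarith
      calc (1 - ε / 2) * (1 + η) ^ 3 ≤ (1 - 9 * η) * (1 + η) ^ 3 :=
            mul_le_mul_of_nonneg_right a1 (by positivity)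
        _ ≤ (1 - 9 * η) * (1 + 7 * η) := mul_le_mul_of_nonneg_left a2 a3
        _ ≤ (1 - η) ^ 2 := by nlinarith [sq_nonneg η]
    have e6 : (1 - ε / 2) * (1 + η) ^ 3 * (2 * N / c.B) ≤ (1 - η) ^ 2 * (2 * N / c.B) :=
      mul_le_mul_of_nonneg_right e5 (by positivity)
    have e7 : ((1 - ε / 2) * (2 * N / c.B)) * (1 + η) ^ 3 ≤ S.card * (1 + η) ^ 3 := by
      calc _ = (1 - ε / 2) * (1 + η) ^ 3 * (2 * N / c.B) := by ring
        _ ≤ _ := e6.trans e4
    exact le_of_mul_le_mul_right e7 (by positivity)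
  -- the class
  set T := s.filter (fun b => (c.B : ℤ) ∣ b - c.beta) with hT
  set U := s.filter (fun b => (c.B : ℤ) ∣ b - c.beta ∧
      ¬ ∃ x y z : ℤ, x ^ 2 + y ^ 2 + z ^ 2 + (c.a : ℤ) * x * y * z = b) with hU
  have hTc : (T.card : ℝ) ≤ 2 * N / c.B + 1 := by
    apply class_card_int c.B (B_pos c) N T
    · intro b hb
      exact Finset.mem_Icc.1 (Finset.mem_filter.1 hb).1
    · intro b hb b' hb'
      have e1 := (Finset.mem_filter.1 hb).2
      have e2 := (Finset.mem_filter.1 hb').2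
      have : b - b' = (b - c.beta) - (b' - c.beta) := by ring
      rw [this]
      exact dvd_sub e1 e2
  have hUS : Disjoint U S := by
    rw [Finset.disjoint_left]
    intro b hb hb'
    exact (Finset.mem_filter.1 hb).2.2 (sol_of_RR c N b (Finset.mem_filter.1 hb').2).1
  have hsub : U ∪ S ⊆ T := by
    intro b hb
    rcases Finset.mem_union.1 hb with h | h
    · exact Finset.mem_filter.2 ⟨(Finset.mem_filter.1 h).1, (Finset.mem_filter.1 h).2.1⟩
    · exact Finset.mem_filter.2 ⟨(Finset.mem_filter.1 h).1,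
        (sol_of_RR c N b (Finset.mem_filter.1 h).2).2⟩
  have hcard : (U.card : ℝ) + S.card ≤ T.card := by
    have := Finset.card_le_card hsub
    rw [Finset.card_union_of_disjoint hUS] at this
    exact_mod_cast this
  have hfin : 1 ≤ ε / 2 * (2 * N / c.B) := by
    have e1 : c.B / ε ≤ (N : ℝ) := by linarith
    rw [div_le_iff₀ hε] at e1
    have : ε / 2 * (2 * N / c.B) = (N * ε) / c.B := by ring
    rw [this, le_div_iff₀ hBp]
    linarith
  have : (U.card : ℝ) ≤ 2 * N / c.B + 1 - (1 - ε / 2) * (2 * N / c.B) := by linarith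
  linarith

end Pool.Agent.MK47
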