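import Pool.Agent.MK47.CntTriv
import Pool.Agent.MK47.BoxConic

/-!
# The bound for `cnt` when `n = n1 p`

`p` is an odd prime not dividing `n1 Q A B C`, `n1` coprime to `Q`, and `L + n1 Q ≤ p n1 Q`. Then
`cnt A B C Q y0 (n1 p) s s' L ≤ rho n1 ((L/(n1 Q) + 1)²/p + 4 p^(3/4) (2 + log p)²)`.

Proof. Split `cnt` by the residues `(r, r') ∈ range n1 ×ˢ range n1` of `(y, y')` modulo `n1`: `n1 p ∣ F` iff
`n1 ∣ F` and `p ∣ F` (coprime), and `n1 ∣ F(y,y')` iff `n1 ∣ F(r, r')`; so `rho A B C n1` pairs `(r, r')`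
occur. For each of them, by `class_count` (with `n1`), `y = t + n1 Q v` with `v < m`, `y' = t' + n1 Q v'`
with `v' < m'`, where `m, m' ≤ (L-1)/(n1 Q) + 1 ≤ p` (as `L + n1 Q ≤ p n1 Q` gives `(L - 1)/(n1 Q) < p - 1`... in `ℕ`:
`(L-1)/(n1 Q) + 1 ≤ (L - 1 + n1 Q)/(n1 Q) ≤ p`; for `L = 0` the count is `0`) and `m, m' ≤ L/(n1 Q) + 1`. The number of
`(v, v')` with `p ∣ A (t + n1 Q v)² - B (t' + n1 Q v')² + C` is bounded by `box_conic` in `ZMod p` (with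
`m := n1 Q ≠ 0`, `s = s' = 0`, `n := m`, `n' := m'`), at most
`m m'/p + 4 p^(3/4) (2 + log p)²`.
-/

namespace Pool.Agent.MK47

open Finset

theorem cnt_good (A B C : ℤ) (Q n1 p : ℕ) (hp : p.Prime) (h2 : p ≠ 2) (hQ : 0 < Q) (hn : 0 < n1)
    (hc : n1.Coprime Q) (hpn : ¬ p ∣ n1) (hpQ : ¬ p ∣ Q) (hA : ¬ (p : ℤ) ∣ A) (hB : ¬ (p : ℤ) ∣ B)
    (hC : ¬ (p : ℤ) ∣ C) (y0 : ℤ) (s s' L : ℕ) (hL : L + n1 * Q ≤ p * (n1 * Q)) :
    (cnt A B C Q y0 (n1 * p) s s' L : ℝ) ≤ rho A B C n1 *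
      (((L : ℝ) / (n1 * Q) + 1) ^ 2 / p + 4 * (p : ℝ) ^ ((3 : ℝ) / 4) * (2 + Real.log p) ^ 2) := by
  classical
  have : Fact p.Prime := ⟨hp⟩
  have hnQ : 0 < n1 * Q := Nat.mul_pos hn hQ
  have hp0 : (0 : ℝ) < p := by exact_mod_cast hp.pos
  have hmp : (L - 1) / (n1 * Q) + 1 ≤ p := by
    have h1 : (L - 1) / (n1 * Q) < p := by
      rw [Nat.div_lt_iff_lt_mul hnQ]
      omega
    omega
  apply cnt_split A B C Q n1 (n1 * p) hn y0 s s' L _ (dvd_mul_right _ _)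
  intro r _ r' _ _
  obtain ⟨t, t', m, m', h1, h2', h3, h4, h5⟩ := box_param Q n1 hQ hn hc y0 r r' s s' L
    (fun v => ((n1 * p : ℕ) : ℤ) ∣ A * (v.1 : ℤ) ^ 2 - B * (v.2 : ℤ) ^ 2 + C)
  have hA' : (A : ZMod p) ≠ 0 := fun h => hA ((ZMod.intCast_zmod_eq_zero_iff_dvd A p).1 h)
  have hB' : (B : ZMod p) ≠ 0 := fun h => hB ((ZMod.intCast_zmod_eq_zero_iff_dvd B p).1 h)
  have hC' : (C : ZMod p) ≠ 0 := fun h => hC ((ZMod.intCast_zmod_eq_zero_iff_dvd C p).1 h)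
  have hm' : ((n1 * Q : ℕ) : ZMod p) ≠ 0 := by
    intro h
    rw [ZMod.natCast_eq_zero_iff] at h
    rcases (hp.dvd_mul).1 h with h | h
    · exact hpn h
    · exact hpQ h
  have h6 := box_conic p h2 (A : ZMod p) (B : ZMod p) (C : ZMod p) ((n1 * Q : ℕ) : ZMod p)
    (t : ZMod p) (t' : ZMod p) hA' hB' hC' hm' 0 m 0 m' (h3.trans hmp) (h4.trans hmp)
  have h7 : ((range m ×ˢ range m').filter fun q : ℕ × ℕ => ((n1 * p : ℕ) : ℤ) ∣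
      A * ((t + n1 * Q * q.1 : ℕ) : ℤ) ^ 2 - B * ((t' + n1 * Q * q.2 : ℕ) : ℤ) ^ 2 + C).card ≤
      ((Ico 0 (0 + m) ×ˢ Ico 0 (0 + m')).filter fun v : ℕ × ℕ =>
      (A : ZMod p) * ((t : ZMod p) + ((n1 * Q : ℕ) : ZMod p) * (v.1 : ZMod p)) ^ 2 -
      (B : ZMod p) * ((t' : ZMod p) + ((n1 * Q : ℕ) : ZMod p) * (v.2 : ZMod p)) ^ 2 +
      (C : ZMod p) = 0).card := by
    apply card_le_card
    intro q hq
    rw [mem_filter, mem_product, mem_range, mem_range] at hq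
    rw [mem_filter, mem_product, mem_Ico, mem_Ico]
    refine ⟨⟨⟨Nat.zero_le _, by omega⟩, ⟨Nat.zero_le _, by omega⟩⟩, ?_⟩
    have h8 : (p : ℤ) ∣
      A * ((t + n1 * Q * q.1 : ℕ) : ℤ) ^ 2 - B * ((t' + n1 * Q * q.2 : ℕ) : ℤ) ^ 2 + C :=
      dvd_trans ⟨(n1 : ℤ), by push_cast; ring⟩ hq.2
    rw [← ZMod.intCast_zmod_eq_zero_iff_dvd] at h8
    push_cast at h8 ⊢
    exact h8
  have h9 := h5.trans h7
  refine le_trans (by exact_mod_cast h9) (h6.trans ?_)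
  gcongr
  rw [sq]
  apply mul_le_mul h1 h2' (Nat.cast_nonneg _) (by positivity)

end Pool.Agent.MK47
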