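import Pool.Agent.MK47.NRange
import Pool.Agent.MK47.CntGood
import Pool.Agent.MK47.Rho

/-!
# The bound for `cnt` at a good `n`

`A = DD a x`, `B = DD a x'`, `C = CC x x'`, `x ≠ x'` in `XX c N`; `n ∈ nset`, `n` not `Bad` for `z = exp (ℓ³)`:
there is a prime `p > z` with `p ∣ n`, `p² ∤ n`; write `n = n1 p`, `p ∤ n1`.

Facts for large `N`: `√N ≤ n` (`n_range`, `n ≥ nlo`), `n ≤ √N exp ℓ`; `n` is coprime to `Q` and to `h`
(`cop_nQ`), so (`c.two_h`, `c.a_h`) no prime divisor of `n` is `2` or divides `a`. `A, B, C ≠ 0` and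
`|A|, |B|, |C| ≤ 4 a² exp (2ℓ) < z < p`, so `p ∤ A, B, C`; `p ∤ Q`. With `L = LL N ≤ √N exp (-3ℓ) ≤ n Q / 2`:
`L + n1 Q ≤ p n1 Q` (as `n1 Q ≤ p n1 Q / 2` and `L ≤ n Q/2 = p n1 Q/2`). So `cnt_good` applies:
`cnt ≤ rho n1 ((L/(n1 Q)+1)²/p + 4 p^(3/4) (2+log p)²)`, and `rho n1 ≤ n1 WW n1 ≤ n1 WW n` (`rho_WW` with `rel_DD`,
`WW_mono`). Now `n1 (L/(n1Q)+1)²/p = (L²/Q²)(1/n)(1 + n1 Q/L)²` and
`n1 Q / L = n Q/(p L) ≤ 2 Q exp (4ℓ) exp (-ℓ³)` (`size_LL`), which tends to `0`; and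
`n1 4 p^(3/4) (2+log p)² = (L²/Q²)(1/n) * 4 (n Q/L)² p^(-1/4) (2 + log p)²` with
`(n Q/L)² ≤ 4 Q² exp (8ℓ)` and `p^(-1/4) (2 + log p)² ≤ K p^(-1/8) ≤ K exp (-ℓ³/8)` for an absolute
constant `K` (`log p ≤ 100 p^(1/16)`, e.g. `Real.log_le_rpow_div`), so this is at most
`(ε/2)(L²/Q²)(1/n)`. Total `≤ (1+ε) (L²/Q²) WW n / n`.
-/

namespace Pool.Agent.MK47

open Finset Filter

private theorem log_sq (t : ℝ) (ht : 0 ≤ t) : (2 + t) ^ 2 ≤ 256 * Real.exp (t / 8) := by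
  have h1 : 1 + t / 16 ≤ Real.exp (t / 16) := by
    have := Real.add_one_le_exp (t / 16); linarith
  have h2 : Real.exp (t / 8) = Real.exp (t / 16) ^ 2 := by
    rw [← Real.exp_nat_mul]; congr 1; push_cast; ring
  rw [h2]
  have h3 : (2 + t) ≤ 16 * Real.exp (t / 16) := by linarith
  have h4 : (2 + t) ^ 2 ≤ (16 * Real.exp (t / 16)) ^ 2 :=
    pow_le_pow_left₀ (by linarith) h3 2
  calc (2 + t) ^ 2 ≤ (16 * Real.exp (t / 16)) ^ 2 := h4
    _ = _ := by ring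

private theorem p_part (p E : ℝ) (hp : Real.exp E ≤ p) (hE : 0 ≤ E) :
    4 * p ^ ((3 : ℝ) / 4) * (2 + Real.log p) ^ 2 ≤ 1024 * (p * Real.exp (-(E / 8))) := by
  have hp0 : 0 < p := lt_of_lt_of_le (Real.exp_pos _) hp
  have ht : E ≤ Real.log p := by rwa [Real.le_log_iff_exp_le hp0]
  have h1 := log_sq (Real.log p) (by linarith)
  have h2 : p ^ ((3 : ℝ) / 4) = Real.exp (3 / 4 * Real.log p) := by
    rw [Real.rpow_def_of_pos hp0]; congr 1; ring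
  have h3 : p = Real.exp (Real.log p) := (Real.exp_log hp0).symm
  calc 4 * p ^ ((3 : ℝ) / 4) * (2 + Real.log p) ^ 2
      ≤ 4 * p ^ ((3 : ℝ) / 4) * (256 * Real.exp (Real.log p / 8)) :=
        mul_le_mul_of_nonneg_left h1 (by positivity)
    _ = 1024 * (Real.exp (3 / 4 * Real.log p) * Real.exp (Real.log p / 8)) := by rw [h2]; ring
    _ = 1024 * (Real.exp (Real.log p) * Real.exp (-(Real.log p / 8))) := by
        rw [← Real.exp_add, ← Real.exp_add]; congr 2; ring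
    _ = 1024 * (p * Real.exp (-(Real.log p / 8))) := by rw [← h3]
    _ ≤ 1024 * (p * Real.exp (-(E / 8))) := by
        apply mul_le_mul_of_nonneg_left _ (by norm_num)
        apply mul_le_mul_of_nonneg_left _ hp0.le
        exact Real.exp_le_exp.mpr (by linarith)

/-- The final inequality between real numbers. -/
private theorem final_ineq (L Q n1 p W l ε : ℝ) (hL : 0 < L) (hQ : 0 < Q) (hn1 : 0 < n1)
    (hW : 0 ≤ W) (hl : 9 ≤ l) (hp : Real.exp (l ^ 3) ≤ p)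
    (hn : n1 * p ≤ 2 * Real.exp (4 * l) * L)
    (h1 : 2 * Q * Real.exp (-l) ≤ 1) (h2 : 2 * Q * Real.exp (-l) ≤ ε / 6)
    (h3 : 4096 * Q ^ 2 * Real.exp (-l) ≤ ε / 2) :
    n1 * W * ((L / (n1 * Q) + 1) ^ 2 / p + 4 * p ^ ((3 : ℝ) / 4) * (2 + Real.log p) ^ 2) ≤
      (1 + ε) * (L ^ 2 / Q ^ 2) * (W / (n1 * p)) := by
  have hp0 : 0 < p := lt_of_lt_of_le (Real.exp_pos _) hp
  have hl2 : (0 : ℝ) ≤ l ^ 2 - 81 := by nlinarith
  have hl3 : 9 * l ≤ l ^ 3 / 8 := by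
    nlinarith [mul_nonneg (by linarith : (0 : ℝ) ≤ l) hl2]
  have hε : 0 < ε := by
    have : 0 < 2 * Q * Real.exp (-l) := by positivity
    linarith
  set δ := 2 * Q * Real.exp (-l) with hδ
  have hδ0 : 0 < δ := by positivity
  -- first part
  have h4 : n1 * Q ≤ δ * L := by
    have h5 : n1 * Real.exp (l ^ 3) ≤ 2 * Real.exp (4 * l) * L :=
      le_trans (mul_le_mul_of_nonneg_left hp hn1.le) hn
    have h6 : n1 ≤ 2 * Real.exp (-l) * L := by
      have h7 : Real.exp (4 * l) ≤ Real.exp (-l) * Real.exp (l ^ 3) := by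
        rw [← Real.exp_add]; exact Real.exp_le_exp.mpr (by linarith)
      have h8 : 2 * Real.exp (4 * l) * L ≤ 2 * (Real.exp (-l) * Real.exp (l ^ 3)) * L := by
        apply mul_le_mul_of_nonneg_right _ hL.le
        exact mul_le_mul_of_nonneg_left h7 (by norm_num)
      have h9 : n1 * Real.exp (l ^ 3) ≤ (2 * Real.exp (-l) * L) * Real.exp (l ^ 3) := by
        calc _ ≤ _ := h5
          _ ≤ _ := h8
          _ = _ := by ring
      exact le_of_mul_le_mul_right h9 (Real.exp_pos _)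
    calc n1 * Q ≤ (2 * Real.exp (-l) * L) * Q := mul_le_mul_of_nonneg_right h6 hQ.le
      _ = δ * L := by rw [hδ]; ring
  have hA : n1 * ((L / (n1 * Q) + 1) ^ 2 / p) = (L + n1 * Q) ^ 2 / (Q ^ 2 * (n1 * p)) := by
    field_simp
  have hA2 : (L + n1 * Q) ^ 2 ≤ (1 + ε / 2) * L ^ 2 := by
    have h5 : L + n1 * Q ≤ (1 + δ) * L := by linarith
    have h6 : (L + n1 * Q) ^ 2 ≤ ((1 + δ) * L) ^ 2 := pow_le_pow_left₀ (by positivity) h5 2
    have h7 : (1 + δ) ^ 2 ≤ 1 + ε / 2 := by nlinarith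
    calc _ ≤ _ := h6
      _ = (1 + δ) ^ 2 * L ^ 2 := by ring
      _ ≤ _ := mul_le_mul_of_nonneg_right h7 (by positivity)
  have hB : n1 * (4 * p ^ ((3 : ℝ) / 4) * (2 + Real.log p) ^ 2) ≤
      (ε / 2 * L ^ 2) / (Q ^ 2 * (n1 * p)) := by
    have h5 := p_part p (l ^ 3) hp (by positivity)
    rw [le_div_iff₀ (by positivity)]
    have h6 : (n1 * p) ^ 2 ≤ (2 * Real.exp (4 * l) * L) ^ 2 := pow_le_pow_left₀ (by positivity) hn 2
    calc n1 * (4 * p ^ ((3 : ℝ) / 4) * (2 + Real.log p) ^ 2) * (Q ^ 2 * (n1 * p))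
        ≤ n1 * (1024 * (p * Real.exp (-(l ^ 3 / 8)))) * (Q ^ 2 * (n1 * p)) := by
          apply mul_le_mul_of_nonneg_right _ (by positivity)
          exact mul_le_mul_of_nonneg_left h5 hn1.le
      _ = 1024 * Q ^ 2 * Real.exp (-(l ^ 3 / 8)) * (n1 * p) ^ 2 := by ring
      _ ≤ 1024 * Q ^ 2 * Real.exp (-(l ^ 3 / 8)) * (2 * Real.exp (4 * l) * L) ^ 2 :=
          mul_le_mul_of_nonneg_left h6 (by positivity)
      _ = 4096 * Q ^ 2 * (Real.exp (-(l ^ 3 / 8)) * (Real.exp (4 * l)) ^ 2) * L ^ 2 := by ring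
      _ ≤ 4096 * Q ^ 2 * Real.exp (-l) * L ^ 2 := by
          apply mul_le_mul_of_nonneg_right _ (by positivity)
          apply mul_le_mul_of_nonneg_left _ (by positivity)
          rw [← Real.exp_nat_mul, ← Real.exp_add]
          apply Real.exp_le_exp.mpr
          push_cast
          linarith
      _ ≤ ε / 2 * L ^ 2 := mul_le_mul_of_nonneg_right h3 (by positivity)
  have hAB : n1 * ((L / (n1 * Q) + 1) ^ 2 / p + 4 * p ^ ((3 : ℝ) / 4) * (2 + Real.log p) ^ 2) ≤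
      ((1 + ε) * L ^ 2) / (Q ^ 2 * (n1 * p)) := by
    rw [mul_add, hA]
    have h5 : (L + n1 * Q) ^ 2 / (Q ^ 2 * (n1 * p)) ≤
        ((1 + ε / 2) * L ^ 2) / (Q ^ 2 * (n1 * p)) :=
      div_le_div_of_nonneg_right hA2 (by positivity)
    calc _ ≤ ((1 + ε / 2) * L ^ 2) / (Q ^ 2 * (n1 * p)) +
          (ε / 2 * L ^ 2) / (Q ^ 2 * (n1 * p)) := add_le_add h5 hB
      _ = _ := by ring
  calc n1 * W * ((L / (n1 * Q) + 1) ^ 2 / p + 4 * p ^ ((3 : ℝ) / 4) * (2 + Real.log p) ^ 2)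
      = W * (n1 * ((L / (n1 * Q) + 1) ^ 2 / p +
          4 * p ^ ((3 : ℝ) / 4) * (2 + Real.log p) ^ 2)) := by ring
    _ ≤ W * (((1 + ε) * L ^ 2) / (Q ^ 2 * (n1 * p))) := mul_le_mul_of_nonneg_left hAB hW
    _ = _ := by field_simp

theorem cnt_w (c : Cls) (ε : ℝ) (hε : 0 < ε) : ∀ᶠ N : ℕ in atTop, ∀ x ∈ XX c N, ∀ x' ∈ XX c N,
    x ≠ x' → ∀ s s' : ℕ, YY c.a N x ≤ s → s ≤ 2 * YY c.a N x → YY c.a N x' ≤ s' →
    s' ≤ 2 * YY c.a N x' → ∀ n ∈ nset c N x x' s s' (LL N), ¬ Bad (Real.exp (ell N ^ 3)) n →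
    (cnt (DD c.a x) (DD c.a x') (CC x x') c.Q c.y0 n s s' (LL N) : ℝ) ≤
      (1 + ε) * ((LL N : ℝ) ^ 2 / (c.Q : ℝ) ^ 2) * (WW (DD c.a x) (DD c.a x') (CC x x') n / n) := by
  have hQ : 0 < c.Q := by
    have h1 := c.g_pos
    have h2 := c.h_pos
    unfold Cls.Q
    positivity
  have hQ' : (0 : ℝ) < c.Q := by exact_mod_cast hQ
  have ha := c.a_pos
  have ha' : (1 : ℝ) ≤ c.a := by exact_mod_cast ha
  have hexp : Tendsto (fun N : ℕ => Real.exp (-ell N)) atTop (nhds 0) :=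
    Real.tendsto_exp_neg_atTop_nhds_zero.comp ell_tendsto
  have hev : ∀ K η : ℝ, 0 < η → ∀ᶠ N : ℕ in atTop, K * Real.exp (-ell N) ≤ η := by
    intro K η hη
    have h1 : Tendsto (fun N : ℕ => K * Real.exp (-ell N)) atTop (nhds (K * 0)) :=
      hexp.const_mul K
    rw [mul_zero] at h1
    exact (h1.eventually_lt_const hη).mono fun N hN => hN.le
  have hbig : ∀ᶠ N : ℕ in atTop, 4 * (c.a : ℝ) ^ 2 < Real.exp (ell N) :=
    (Real.tendsto_exp_atTop.comp ell_tendsto).eventually_gt_atTop _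
  filter_upwards [n_range c 1 one_pos, size_LL, x_large 3, ell_tendsto.eventually_ge_atTop 9,
    hbig, hev (2 * c.Q) 1 one_pos, hev (2 * c.Q) (ε / 6) (by positivity),
    hev (4096 * (c.Q : ℝ) ^ 2) (ε / 2) (by positivity)] with N hnr hLL hx3 hl hbg he1 he2 he3
  intro x hx x' hx' hne s s' hs1 hs2 hs1' hs2' n hn hbad
  obtain ⟨hr1, hr2, -, -, -, -⟩ := hnr x hx x' hx' s s' hs1 hs2 hs1' hs2'
  obtain ⟨hL1, hL2, hL3⟩ := hLL
  have hxm := mem_XX hx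
  have hxm' := mem_XX hx'
  have hx3a := hx3 x hxm.1
  have hx3b := hx3 x' hxm'.1
  have hl0 : 0 ≤ ell N := ell_nonneg N
  -- membership of n
  unfold nset at hn
  rw [Finset.mem_filter, Finset.mem_Icc] at hn
  obtain ⟨⟨hn1, hn2⟩, hn3⟩ := hn
  obtain ⟨hnQ, hnh, hnpos⟩ := cop_nQ c n hn3
  have hnlo : Real.sqrt N ≤ n := le_trans hr1 (by exact_mod_cast hn1)
  have hnhi : (n : ℝ) ≤ Real.sqrt N * Real.exp (ell N) := le_trans (by exact_mod_cast hn2) hr2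
  -- the prime
  have hb : ∃ p : ℕ, p.Prime ∧ Real.exp (ell N ^ 3) < p ∧ p ∣ n ∧ ¬ p ^ 2 ∣ n := by
    unfold Bad at hbad
    push Not at hbad
    exact hbad
  obtain ⟨p, hp, hpz, hpn, hpn2⟩ := hb
  obtain ⟨n1, rfl⟩ := hpn
  have hpn1 : ¬ p ∣ n1 := by
    intro h
    apply hpn2
    rw [pow_two]
    exact mul_dvd_mul_left p h
  have hn1pos : 0 < n1 := Nat.pos_of_mul_pos_left hnpos
  have hpr : ∀ r : ℕ, r.Prime → r ∣ p * n1 → r ≠ 2 ∧ ¬ r ∣ c.a := by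
    intro r hr hrn
    have hrh : ¬ r ∣ c.h := by
      intro h
      exact (Nat.Prime.not_coprime_iff_dvd.mpr ⟨r, hr, hrn, h⟩) hnh
    exact ⟨fun h => hrh (h ▸ c.two_h), fun h => hrh (c.a_h r hr h)⟩
  have hz : 4 * (c.a : ℝ) ^ 2 * Real.exp (2 * ell N) < Real.exp (ell N ^ 3) := by
    have h1 : Real.exp (ell N) * Real.exp (2 * ell N) ≤ Real.exp (ell N ^ 3) := by
      rw [← Real.exp_add]
      apply Real.exp_le_exp.mpr
      nlinarith [mul_nonneg hl0 (by nlinarith : (0 : ℝ) ≤ ell N ^ 2 - 81)]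
    refine lt_of_lt_of_le ?_ h1
    exact mul_lt_mul_of_pos_right hbg (Real.exp_pos _)
  have hsq : ∀ y : ℕ, (y : ℝ) ≤ Real.exp (ell N) → (y : ℝ) ^ 2 ≤ Real.exp (2 * ell N) := by
    intro y hy
    have h1 : Real.exp (2 * ell N) = Real.exp (ell N) ^ 2 := by
      rw [← Real.exp_nat_mul]; push_cast; rfl
    rw [h1]
    exact pow_le_pow_left₀ (Nat.cast_nonneg _) hy 2
  have hndvd : ∀ z : ℤ, z ≠ 0 → |(z : ℝ)| < (p : ℝ) → ¬ (p : ℤ) ∣ z := by
    intro z hz0 hz1 hdvd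
    have h1 := Int.le_of_dvd (abs_pos.mpr hz0) ((dvd_abs _ _).mpr hdvd)
    have h2 : (p : ℝ) ≤ |(z : ℝ)| := by exact_mod_cast h1
    linarith
  have hDD : ∀ y : ℕ, (3 : ℝ) ≤ y → (y : ℝ) ≤ Real.exp (ell N) →
      0 < DD c.a y ∧ ¬ (p : ℤ) ∣ DD c.a y := by
    intro y hy1 hy2
    have hy3 : 3 ≤ y := by exact_mod_cast hy1
    have hpos : 0 < DD c.a y := DD_pos c.a y (le_trans hy3 (Nat.le_mul_of_pos_left y ha))
    refine ⟨hpos, hndvd _ hpos.ne' ?_⟩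
    have h1 : (0 : ℝ) < ((DD c.a y : ℤ) : ℝ) := by exact_mod_cast hpos
    rw [abs_of_pos h1]
    have h2 : ((DD c.a y : ℤ) : ℝ) ≤ (c.a : ℝ) ^ 2 * Real.exp (2 * ell N) := by
      have h3 := hsq y hy2
      have h4 : (c.a : ℝ) ^ 2 * (y : ℝ) ^ 2 ≤ (c.a : ℝ) ^ 2 * Real.exp (2 * ell N) :=
        mul_le_mul_of_nonneg_left h3 (by positivity)
      unfold DD
      push_cast
      linarith
    have h3 : (c.a : ℝ) ^ 2 * Real.exp (2 * ell N) ≤ 4 * (c.a : ℝ) ^ 2 * Real.exp (2 * ell N) := by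
      have : 0 ≤ (c.a : ℝ) ^ 2 * Real.exp (2 * ell N) := by positivity
      linarith
    linarith
  obtain ⟨hApos, hpA⟩ := hDD x hx3a hxm.2.1
  obtain ⟨hBpos, hpB⟩ := hDD x' hx3b hxm'.2.1
  have hC0 : CC x x' ≠ 0 := by
    unfold CC
    intro h
    have h1 : (x' : ℤ) ^ 2 = (x : ℤ) ^ 2 := by linarith
    have h2 : (x' : ℤ) = x := (pow_left_inj₀ (by positivity) (by positivity) two_ne_zero).mp h1
    exact hne (by exact_mod_cast h2.symm)
  have hpC : ¬ (p : ℤ) ∣ CC x x' := by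
    apply hndvd _ hC0
    have h1 := hsq x hxm.2.1
    have h2 := hsq x' hxm'.2.1
    have h3 : |((CC x x' : ℤ) : ℝ)| ≤ 4 * Real.exp (2 * ell N) := by
      unfold CC
      push_cast
      rw [abs_le]
      have h4 : (0 : ℝ) ≤ (x : ℝ) ^ 2 := by positivity
      have h5 : (0 : ℝ) ≤ (x' : ℝ) ^ 2 := by positivity
      constructor <;> linarith
    have h6 : 4 * Real.exp (2 * ell N) ≤ 4 * (c.a : ℝ) ^ 2 * Real.exp (2 * ell N) := by
      apply mul_le_mul_of_nonneg_right _ (Real.exp_pos _).le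
      nlinarith
    linarith
  have hpQ : ¬ p ∣ c.Q := by
    intro h
    exact (Nat.Prime.not_coprime_iff_dvd.mpr ⟨p, hp, dvd_mul_right p n1, h⟩) hnQ
  have hn1Q : n1.Coprime c.Q := Nat.Coprime.coprime_dvd_left (dvd_mul_left n1 p) hnQ
  have hp2 : p ≠ 2 := (hpr p hp (dvd_mul_right p n1)).1
  have hp0 : (0 : ℝ) < p := by exact_mod_cast hp.pos
  have hn1R : (0 : ℝ) < n1 := by exact_mod_cast hn1pos
  have hnR : ((p * n1 : ℕ) : ℝ) = p * n1 := by push_cast; ring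
  have hLR : (0 : ℝ) < (LL N : ℝ) := by exact_mod_cast hL1
  have hQ1 : (1 : ℝ) ≤ c.Q := by exact_mod_cast hQ
  have hLn : (LL N : ℝ) ≤ ((p * n1 : ℕ) : ℝ) / 2 := by
    have h1 : Real.exp (-3 * ell N) ≤ 1 / 2 := by
      have h2 : Real.exp (-3 * ell N) = 1 / Real.exp (3 * ell N) := by
        rw [one_div, ← Real.exp_neg]; congr 1; ring
      rw [h2]
      apply one_div_le_one_div_of_le (by norm_num)
      have := Real.add_one_le_exp (3 * ell N)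
      linarith
    have h3 : Real.sqrt N * Real.exp (-3 * ell N) ≤ Real.sqrt N * (1 / 2) :=
      mul_le_mul_of_nonneg_left h1 (Real.sqrt_nonneg _)
    linarith
  have hcond : LL N + n1 * c.Q ≤ p * (n1 * c.Q) := by
    have h1 : (LL N : ℝ) + n1 * c.Q ≤ p * (n1 * c.Q) := by
      rw [hnR] at hLn
      have hp2' : (2 : ℝ) ≤ p := by exact_mod_cast hp.two_le
      have h2 : (p : ℝ) * n1 / 2 ≤ p * (n1 * c.Q) / 2 := by
        have : (p : ℝ) * n1 ≤ p * (n1 * c.Q) := by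
          apply mul_le_mul_of_nonneg_left _ hp0.le
          exact le_mul_of_one_le_right hn1R.le hQ1
        linarith
      have h3 : (n1 : ℝ) * c.Q ≤ p * (n1 * c.Q) / 2 := by
        have : 2 * ((n1 : ℝ) * c.Q) ≤ p * (n1 * c.Q) :=
          mul_le_mul_of_nonneg_right hp2' (by positivity)
        linarith
      linarith
    exact_mod_cast h1
  have hgood := cnt_good (DD c.a x) (DD c.a x') (CC x x') c.Q n1 p hp hp2 hQ hn1pos hn1Q hpn1 hpQ
    hpA hpB hpC c.y0 s s' (LL N) hcond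
  have hrho := rho_WW c.a (DD c.a x) (DD c.a x') (CC x x') hApos.ne' (rel_DD c.a x x') n1
    (fun r hr hrn => hpr r hr (dvd_mul_of_dvd_right hrn p))
  have hmono := WW_mono (DD c.a x) (DD c.a x') (CC x x') n1 (p * n1) (dvd_mul_left n1 p) hnpos.ne'
  have hW1 := WW_one_le (DD c.a x) (DD c.a x') (CC x x') (p * n1) hnpos.ne'
  have hX : (0 : ℝ) ≤ ((LL N : ℝ) / (n1 * c.Q) + 1) ^ 2 / p +
      4 * (p : ℝ) ^ ((3 : ℝ) / 4) * (2 + Real.log p) ^ 2 := by positivity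
  have hnb : (n1 : ℝ) * p ≤ 2 * Real.exp (4 * ell N) * (LL N : ℝ) := by
    have h1 : Real.sqrt N * Real.exp (ell N) =
        2 * Real.exp (4 * ell N) * (Real.sqrt N * Real.exp (-3 * ell N) / 2) := by
      have h2 : Real.exp (ell N) = Real.exp (4 * ell N) * Real.exp (-3 * ell N) := by
        rw [← Real.exp_add]; congr 1; ring
      rw [h2]; ring
    rw [hnR] at hnhi
    have h3 : 2 * Real.exp (4 * ell N) * (Real.sqrt N * Real.exp (-3 * ell N) / 2) ≤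
        2 * Real.exp (4 * ell N) * (LL N : ℝ) := mul_le_mul_of_nonneg_left hL2 (by positivity)
    linarith
  have hfin := final_ineq (LL N) c.Q n1 p (WW (DD c.a x) (DD c.a x') (CC x x') (p * n1)) (ell N) ε
    hLR hQ' hn1R (by linarith) hl hpz.le hnb he1 he2 he3
  rw [mul_comm n1 p] at hgood
  calc (cnt (DD c.a x) (DD c.a x') (CC x x') c.Q c.y0 (p * n1) s s' (LL N) : ℝ)
      ≤ _ := hgood
    _ ≤ (n1 * WW (DD c.a x) (DD c.a x') (CC x x') (p * n1)) * (((LL N : ℝ) / (n1 * c.Q) + 1) ^ 2 / p +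
      4 * (p : ℝ) ^ ((3 : ℝ) / 4) * (2 + Real.log p) ^ 2) := by
        apply mul_le_mul_of_nonneg_right _ hX
        exact le_trans hrho (mul_le_mul_of_nonneg_left hmono hn1R.le)
    _ ≤ _ := hfin
    _ = _ := by rw [hnR, mul_comm (n1 : ℝ) p]

end Pool.Agent.MK47
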