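import Mathlib

/-!
# Quadratic exponential sums

`p` is an odd prime, `ψ = ZMod.stdAddChar`, `χ` the quadratic character with values in `ℂ`,
`G = ∑_y χ(y) ψ(y)` the Gauss sum.

* `quad_sum`: for `α ≠ 0`: `∑_y ψ(α y² + h y) = χ(α) G ψ(-h² / (4 α))`. Complete the square:
  `α y² + h y = α (y + h/(2α))² - h²/(4α)`; so the sum is `ψ(-h²/(4α)) ∑_y ψ(α y²)`, and
  `∑_y ψ(α y²) = ∑_z (1 + χ(z)) ψ(α z)` since `1 + χ(z)` is the number of `y` with `y² = z`
  (`quadraticChar_card_sqrts`); `∑_z ψ(α z) = 0` and `∑_z χ(z) ψ(α z) = χ(α) G`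
  (`gaussSum_mulShift`, `χ(α)² = 1`).
* `gauss_sq`: `G² = χ(-1) p` (`quadraticChar` version in Mathlib: `gaussSum_sq`, for a nontrivial
  quadratic character and a primitive additive character).
* `chi_sq`: `χ(α)² = 1`.
-/

namespace Pool.Agent.MK47

open Finset

variable (p : ℕ) [hp : Fact p.Prime]

/-- The quadratic character with complex values. -/
noncomputable def chi (x : ZMod p) : ℂ := ((quadraticChar (ZMod p) x : ℤ) : ℂ)

/-- The quadratic Gauss sum. -/
noncomputable def GG : ℂ := ∑ y : ZMod p, chi p y * ZMod.stdAddChar y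

theorem chi_mul (x y : ZMod p) : chi p (x * y) = chi p x * chi p y := by
  unfold chi
  rw [map_mul]
  push_cast
  rfl

theorem chi_sq (x : ZMod p) (hx : x ≠ 0) : chi p x ^ 2 = 1 := by
  unfold chi
  have h1 := quadraticChar_sq_one hx
  exact_mod_cast h1

theorem chi_norm (x : ZMod p) (hx : x ≠ 0) : ‖chi p x‖ = 1 := by
  have h1 := chi_sq p x hx
  have h2 : ‖chi p x‖ ^ 2 = 1 := by
    rw [← norm_pow, h1, norm_one]
  have h3 := norm_nonneg (chi p x)
  nlinarith

theorem gauss_sq (h2 : p ≠ 2) : GG p ^ 2 = chi p (-1) * p := by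
  have hF : ringChar (ZMod p) ≠ 2 := by
    rw [ZMod.ringChar_zmod_n]
    exact h2
  have h1 : ((quadraticChar (ZMod p)).ringHomComp (Int.castRingHom ℂ)) ≠ 1 := by
    rw [MulChar.ringHomComp_ne_one_iff (RingHom.injective_int (Int.castRingHom ℂ))]
    exact quadraticChar_ne_one hF
  have h3 := gaussSum_sq (R := ZMod p) (R' := ℂ) h1
    ((quadraticChar_isQuadratic (ZMod p)).comp (Int.castRingHom ℂ))
    (ZMod.isPrimitive_stdAddChar p)
  rw [ZMod.card] at h3
  exact h3

theorem quad_sum (h2 : p ≠ 2) (α h : ZMod p) (hα : α ≠ 0) :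
    ∑ y : ZMod p, ZMod.stdAddChar (α * y ^ 2 + h * y) =
      chi p α * GG p * ZMod.stdAddChar (-(h ^ 2) / (4 * α)) := by
  classical
  have hF : ringChar (ZMod p) ≠ 2 := by
    rw [ZMod.ringChar_zmod_n]
    exact h2
  have two_ne : (2 : ZMod p) ≠ 0 := Ring.two_ne_zero hF
  have four_ne : (4 : ZMod p) ≠ 0 := by
    have : (4 : ZMod p) = 2 * 2 := by norm_num
    rw [this]
    exact mul_ne_zero two_ne two_ne
  -- complete the square
  have e1 : ∑ y : ZMod p, (ZMod.stdAddChar (α * y ^ 2 + h * y) : ℂ) =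
      ∑ z : ZMod p, ZMod.stdAddChar (-(h ^ 2) / (4 * α)) * ZMod.stdAddChar (α * z ^ 2) := by
    refine (Fintype.sum_equiv (Equiv.subRight (h / (2 * α))) _ _ fun z => ?_).symm
    rw [← AddChar.map_add_eq_mul]
    congr 1
    simp only [Equiv.subRight_apply]
    field_simp
    ring
  rw [e1, ← Finset.mul_sum]
  have e2 : ∑ z : ZMod p, (ZMod.stdAddChar (α * z ^ 2) : ℂ) =
      ∑ w : ZMod p, (chi p w + 1) * ZMod.stdAddChar (α * w) := by
    rw [← Finset.sum_fiberwise' univ (fun z : ZMod p => z ^ 2)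
      (fun w => (ZMod.stdAddChar (α * w) : ℂ))]
    refine Finset.sum_congr rfl fun w _ => ?_
    rw [Finset.sum_const, nsmul_eq_mul]
    congr 1
    have h3 := quadraticChar_card_sqrts hF w
    have h4 : (univ.filter fun z : ZMod p => z ^ 2 = w) = {x : ZMod p | x ^ 2 = w}.toFinset := by
      ext z
      simp
    rw [h4]
    unfold chi
    have h5 : (({x : ZMod p | x ^ 2 = w}.toFinset.card : ℤ) : ℂ) =
        ((quadraticChar (ZMod p) w + 1 : ℤ) : ℂ) := by rw [h3]
    push_cast at h5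
    exact h5
  have e3 : ∑ w : ZMod p, (ZMod.stdAddChar (α * w) : ℂ) = 0 := by
    have h3 := AddChar.sum_mulShift α (ZMod.isPrimitive_stdAddChar p)
    rw [if_neg hα, Nat.cast_zero] at h3
    rw [← h3]
    exact Finset.sum_congr rfl fun w _ => by rw [mul_comm]
  have e4 : chi p α * ∑ w : ZMod p, chi p w * ZMod.stdAddChar (α * w) = GG p := by
    unfold GG
    rw [Finset.mul_sum]
    refine Fintype.sum_equiv (Equiv.mulLeft₀ α hα) _ _ fun w => ?_
    rw [Equiv.mulLeft₀_apply, chi_mul]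
    ring
  have e5 : ∑ z : ZMod p, (ZMod.stdAddChar (α * z ^ 2) : ℂ) = chi p α * GG p := by
    rw [e2]
    simp only [add_mul, one_mul]
    rw [Finset.sum_add_distrib, e3, add_zero, ← e4, ← mul_assoc, ← pow_two, chi_sq p α hα, one_mul]
  rw [e5]
  ring

end Pool.Agent.MK47
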