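import Pool.Agent.MK47.Kloos
import Pool.Agent.MK47.Quad

/-!
# Exponential sums over a conic

`p` is an odd prime, `A, B, C ≠ 0` in `ZMod p`; the conic is `A v² - B w² + C = 0`,
`S(h, k) = ∑_{(v,w) on the conic} ψ(h v + k w)`.

By orthogonality `p S(h, k) = ∑_t ∑_{v, w} ψ(t (A v² - B w² + C) + h v + k w)`. The term `t = 0` is
`p²` if `h = k = 0` and `0` otherwise. For `t ≠ 0` the inner sum is
`ψ(t C) * χ(t A) G ψ(-h²/(4 t A)) * χ(- t B) G ψ(k²/(4 t B))` (`quad_sum` twice, with `α = t A` and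
`α = - t B`), and `χ(t A) χ(-t B) G² = χ(-A B) χ(t)² χ(-1) p = χ(A B) p` (`gauss_sq`, `chi_mul`, `chi_sq`).
So with `κ = (k²/B - h²/A) / 4`:
`S(h, k) = (p if h = k = 0 else 0) + χ(A B) kl C κ` (`con_eq`).
* `con_card`: for `h = k = 0`: `S = #conic`, `κ = 0`, `kl C 0 = -1`, so `|#conic - p| = 1`.
* `con_sum`: `‖S‖ = ‖kl C κ‖`, use `kl_bound` (`C ≠ 0`).
-/

namespace Pool.Agent.MK47

open Finset

variable (p : ℕ) [hp : Fact p.Prime]

/-- The conic `A v² - B w² + C = 0`. -/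
def conic (A B C : ZMod p) : Finset (ZMod p × ZMod p) :=
  univ.filter fun v => A * v.1 ^ 2 - B * v.2 ^ 2 + C = 0

private theorem con_double (A B C h k : ZMod p) :
    (p : ℂ) * ∑ v ∈ conic p A B C, (ZMod.stdAddChar (h * v.1 + k * v.2) : ℂ) =
      ∑ t : ZMod p, ∑ v : ZMod p × ZMod p,
        (ZMod.stdAddChar (t * (A * v.1 ^ 2 - B * v.2 ^ 2 + C) + (h * v.1 + k * v.2)) : ℂ) := by
  classical
  rw [sum_comm]
  unfold conic
  rw [Finset.sum_filter, Finset.mul_sum]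
  apply sum_congr rfl
  intro v _
  have h1 : ∀ t : ZMod p, (ZMod.stdAddChar (t * (A * v.1 ^ 2 - B * v.2 ^ 2 + C) +
      (h * v.1 + k * v.2)) : ℂ) = ZMod.stdAddChar (t * (A * v.1 ^ 2 - B * v.2 ^ 2 + C)) *
      ZMod.stdAddChar (h * v.1 + k * v.2) := fun t => AddChar.map_add_eq_mul _ _ _
  simp_rw [h1]
  rw [← Finset.sum_mul, AddChar.sum_mulShift _ (ZMod.isPrimitive_stdAddChar p), ZMod.card]
  by_cases h2 : A * v.1 ^ 2 - B * v.2 ^ 2 + C = 0
  · rw [if_pos h2, if_pos h2]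
  · rw [if_neg h2, if_neg h2]
    simp

private theorem con_zero (h k : ZMod p) :
    ∑ v : ZMod p × ZMod p, (ZMod.stdAddChar (h * v.1 + k * v.2) : ℂ) =
      if h = 0 ∧ k = 0 then (p : ℂ) ^ 2 else 0 := by
  classical
  rw [Fintype.sum_prod_type]
  have h1 : ∀ x y : ZMod p, (ZMod.stdAddChar (h * (x, y).1 + k * (x, y).2) : ℂ) =
      ZMod.stdAddChar (x * h) * ZMod.stdAddChar (y * k) := by
    intro x y
    rw [← AddChar.map_add_eq_mul, mul_comm x h, mul_comm y k]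
  simp_rw [h1]
  rw [← Finset.sum_mul_sum, AddChar.sum_mulShift _ (ZMod.isPrimitive_stdAddChar p),
    AddChar.sum_mulShift _ (ZMod.isPrimitive_stdAddChar p), ZMod.card]
  by_cases hh : h = 0
  · by_cases hk : k = 0
    · rw [if_pos hh, if_pos hk, if_pos ⟨hh, hk⟩]
      ring
    · have hn : ¬ (h = 0 ∧ k = 0) := fun h' => hk h'.2
      rw [if_neg hk, if_neg hn]
      simp
  · have hn : ¬ (h = 0 ∧ k = 0) := fun h' => hh h'.1
    rw [if_neg hh, if_neg hn]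
    simp

private theorem con_term (h2 : p ≠ 2) (A B C h k t : ZMod p) (hA : A ≠ 0) (hB : B ≠ 0)
    (ht : t ≠ 0) :
    ∑ v : ZMod p × ZMod p,
        (ZMod.stdAddChar (t * (A * v.1 ^ 2 - B * v.2 ^ 2 + C) + (h * v.1 + k * v.2)) : ℂ) =
      chi p (A * B) * (p : ℂ) *
        ZMod.stdAddChar (C * t + ((k ^ 2 / B - h ^ 2 / A) / 4) * t⁻¹) := by
  classical
  rw [Fintype.sum_prod_type]
  have h1 : ∀ x y : ZMod p, (ZMod.stdAddChar (t * (A * (x, y).1 ^ 2 - B * (x, y).2 ^ 2 + C) +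
      (h * (x, y).1 + k * (x, y).2)) : ℂ) =
      ZMod.stdAddChar (C * t) * (ZMod.stdAddChar ((t * A) * x ^ 2 + h * x) *
        ZMod.stdAddChar ((-(t * B)) * y ^ 2 + k * y)) := by
    intro x y
    rw [← AddChar.map_add_eq_mul, ← AddChar.map_add_eq_mul]
    congr 1
    ring
  simp_rw [h1]
  simp_rw [← Finset.mul_sum]
  rw [← Finset.sum_mul, quad_sum p h2 (t * A) h (mul_ne_zero ht hA),
    quad_sum p h2 (-(t * B)) k (neg_ne_zero.2 (mul_ne_zero ht hB))]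
  have h3 : chi p (t * A) * chi p (-(t * B)) * GG p ^ 2 = chi p (A * B) * p := by
    have e1 : -(t * B) = (-1) * (t * B) := by ring
    rw [e1, chi_mul, chi_mul, chi_mul, chi_mul, gauss_sq p h2]
    have e2 := chi_sq p t ht
    have e3 := chi_sq p (-1) (neg_ne_zero.2 one_ne_zero)
    calc chi p t * chi p A * (chi p (-1) * (chi p t * chi p B)) * (chi p (-1) * (p : ℂ))
        = (chi p t ^ 2) * (chi p (-1) ^ 2) * (chi p A * chi p B * (p : ℂ)) := by ring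
      _ = chi p A * chi p B * (p : ℂ) := by rw [e2, e3]; ring
  have h4 : (ZMod.stdAddChar (C * t + ((k ^ 2 / B - h ^ 2 / A) / 4) * t⁻¹) : ℂ) =
      ZMod.stdAddChar (C * t) * (ZMod.stdAddChar (-(h ^ 2) / (4 * (t * A))) *
        ZMod.stdAddChar (-(k ^ 2) / (4 * (-(t * B))))) := by
    rw [← AddChar.map_add_eq_mul, ← AddChar.map_add_eq_mul]
    congr 1
    have h5 : (4 : ZMod p) ≠ 0 := by
      intro h0
      have h6 : ((4 : ℕ) : ZMod p) = 0 := by exact_mod_cast h0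
      rw [ZMod.natCast_eq_zero_iff] at h6
      have h7 : p ∣ 2 ^ 2 := by
        norm_num
        exact h6
      have h8 := (Nat.prime_dvd_prime_iff_eq hp.out Nat.prime_two).1 (hp.out.dvd_of_dvd_pow h7)
      exact h2 h8
    have h9 : -(t * B) ≠ 0 := neg_ne_zero.2 (mul_ne_zero ht hB)
    field_simp
    ring
  rw [h4, ← h3]
  ring

theorem con_eq (h2 : p ≠ 2) (A B C h k : ZMod p) (hA : A ≠ 0) (hB : B ≠ 0) (hC : C ≠ 0) :
    ∑ v ∈ conic p A B C, (ZMod.stdAddChar (h * v.1 + k * v.2) : ℂ) =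
      (if h = 0 ∧ k = 0 then (p : ℂ) else 0) +
        chi p (A * B) * kl p C ((k ^ 2 / B - h ^ 2 / A) / 4) := by
  classical
  have hp0 : (p : ℂ) ≠ 0 := by exact_mod_cast hp.out.ne_zero
  have h1 := con_double p A B C h k
  have h3 := Finset.sum_filter_add_sum_filter_not (univ : Finset (ZMod p)) (fun t => t ≠ 0)
    (fun t => ∑ v : ZMod p × ZMod p,
        (ZMod.stdAddChar (t * (A * v.1 ^ 2 - B * v.2 ^ 2 + C) + (h * v.1 + k * v.2)) : ℂ))
  have h4 : (univ : Finset (ZMod p)).filter (fun t => ¬ (t ≠ 0)) = {0} := by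
    ext t; simp
  rw [h4, sum_singleton] at h3
  simp only [zero_mul, zero_add] at h3
  rw [con_zero] at h3
  have h5 : ∑ t ∈ (univ : Finset (ZMod p)).filter (fun t => t ≠ 0),
      ∑ v : ZMod p × ZMod p,
        (ZMod.stdAddChar (t * (A * v.1 ^ 2 - B * v.2 ^ 2 + C) + (h * v.1 + k * v.2)) : ℂ) =
      chi p (A * B) * (p : ℂ) * kl p C ((k ^ 2 / B - h ^ 2 / A) / 4) := by
    unfold kl
    rw [Finset.mul_sum]
    apply sum_congr rfl
    intro t ht
    rw [mem_filter] at ht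
    exact con_term p h2 A B C h k t hA hB ht.2
  rw [h5] at h3
  rw [← h3] at h1
  apply mul_left_cancel₀ hp0
  rw [h1]
  by_cases hhk : h = 0 ∧ k = 0
  · rw [if_pos hhk, if_pos hhk]
    ring
  · rw [if_neg hhk, if_neg hhk]
    ring

theorem con_card (h2 : p ≠ 2) (A B C : ZMod p) (hA : A ≠ 0) (hB : B ≠ 0) (hC : C ≠ 0) :
    |((conic p A B C).card : ℝ) - p| ≤ 1 := by
  classical
  have h1 := con_eq p h2 A B C 0 0 hA hB hC
  rw [if_pos ⟨rfl, rfl⟩] at h1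
  have h3 : ((0 : ZMod p) ^ 2 / B - 0 ^ 2 / A) / 4 = 0 := by simp
  rw [h3, kl_zero p C hC] at h1
  simp only [zero_mul, add_zero, AddChar.map_zero_eq_one, sum_const, nsmul_eq_mul, mul_one] at h1
  have h4 : ((((conic p A B C).card : ℝ) - p : ℝ) : ℂ) = - chi p (A * B) := by
    push_cast
    rw [h1]
    ring
  have h5 : |((conic p A B C).card : ℝ) - p| = ‖((((conic p A B C).card : ℝ) - p : ℝ) : ℂ)‖ := by
    rw [Complex.norm_real, Real.norm_eq_abs]
  rw [h5, h4, norm_neg, chi_norm p _ (mul_ne_zero hA hB)]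

theorem con_sum (h2 : p ≠ 2) (A B C h k : ZMod p) (hA : A ≠ 0) (hB : B ≠ 0) (hC : C ≠ 0)
    (hhk : h ≠ 0 ∨ k ≠ 0) :
    ‖∑ v ∈ conic p A B C, (ZMod.stdAddChar (h * v.1 + k * v.2) : ℂ)‖ ^ 4 ≤ 3 * (p : ℝ) ^ 3 := by
  classical
  have h1 : ¬ (h = 0 ∧ k = 0) := by
    rintro ⟨h3, h4⟩
    rcases hhk with h5 | h5
    · exact h5 h3
    · exact h5 h4
  rw [con_eq p h2 A B C h k hA hB hC, if_neg h1, zero_add, norm_mul,
    chi_norm p _ (mul_ne_zero hA hB), one_mul]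
  exact kl_bound p C _ hC

end Pool.Agent.MK47
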