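import Mathlib

/-!
# Markoff type equations `x² + y² + z² + a x y z = b` for almost all `b`: definitions

Fix `a ≥ 1`.  For fixed `x` put `D = a² x² - 4`; with `u = 2 z + a x y` the equation is
`u² = D y² + 4 b - 4 x²`.  All representations used in the proof lie in one residue class
(`Cls`): `x ≡ x0`, `y ≡ y0 (mod Q)`, `u ≡ u0 (mod q)`, where `q = g h`, `Q = 2 q g`,
`g = ∏_{p | h} p ^ v_p(2 u0)`.  Then `b ≡ β (mod B)` with `4 B = q g`.
The parameters: `ℓ = (log N)^(1/10)`, `exp (2 ℓ / 3) ≤ x ≤ exp ℓ`, `Y ≤ y < 2 Y` with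
`Y = √N / (a x)^(3/4)`, `|b| ≤ N`.
-/

namespace Pool.Agent.MK47

open Finset

/-- The discriminant of the quadratic form `y² + a x y z + z²` in `y, z`. -/
def DD (a x : ℕ) : ℤ := (a : ℤ) ^ 2 * (x : ℤ) ^ 2 - 4

/-- A residue class of solutions in which the derivative `2 z + a x y` is controlled. -/
structure Cls where
  a : ℕ
  g : ℕ
  h : ℕ
  x0 : ℤ
  y0 : ℤ
  z0 : ℤ
  w : ℤ
  a_pos : 0 < a
  g_pos : 0 < g
  h_pos : 0 < h
  two_u : 2 * (2 * z0 + a * x0 * y0) = g * w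
  cop : ∀ p : ℕ, p.Prime → p ∣ h → ¬ (p : ℤ) ∣ w
  rad : ∀ p : ℕ, p.Prime → p ∣ g → p ∣ h
  two_h : 2 ∣ h
  a_h : ∀ p : ℕ, p.Prime → p ∣ a → p ∣ h

namespace Cls

variable (c : Cls)

/-- The derivative of the form with respect to `z` at the base point. -/
def u0 : ℤ := 2 * c.z0 + c.a * c.x0 * c.y0

/-- The modulus of the class of `u`. -/
def q : ℕ := c.g * c.h

/-- The modulus of the classes of `x` and `y`. -/
def Q : ℕ := 2 * (c.g * c.g * c.h)

/-- The modulus of the class of `b`. -/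
def B : ℕ := c.g * c.g * c.h / 4

/-- The value of the form at the base point. -/
def beta : ℤ := c.x0 ^ 2 + c.y0 ^ 2 + c.z0 ^ 2 + c.a * c.x0 * c.y0 * c.z0

end Cls

/-- The basic parameter `(log N)^(1/10)`. -/
noncomputable def ell (N : ℕ) : ℝ := (Real.log N) ^ ((1 : ℝ) / 10)

/-- The range of `y` is `Y ≤ y < 2 Y`. -/
noncomputable def YY (a N x : ℕ) : ℕ := ⌊Real.sqrt N / ((a : ℝ) * x) ^ ((3 : ℝ) / 4)⌋₊

/-- The range of `x`. -/
noncomputable def XX (c : Cls) (N : ℕ) : Finset ℕ :=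
  (Icc ⌈Real.exp (2 / 3 * ell N)⌉₊ ⌊Real.exp (ell N)⌋₊).filter fun x => (c.Q : ℤ) ∣ (x : ℤ) - c.x0

open Classical in
/-- The number of representations of `b` with given `x`, in the class `c`. -/
noncomputable def rr (c : Cls) (N x : ℕ) (b : ℤ) : ℕ :=
  ((Ico (YY c.a N x) (2 * YY c.a N x)).filter fun y => (c.Q : ℤ) ∣ (y : ℤ) - c.y0 ∧
    ∃ u : ℕ, (c.q : ℤ) ∣ (u : ℤ) - c.u0 ∧
      (u : ℤ) ^ 2 = DD c.a x * (y : ℤ) ^ 2 + 4 * b - 4 * (x : ℤ) ^ 2).card

/-- The number of representations of `b` in the class `c`. -/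
noncomputable def RR (c : Cls) (N : ℕ) (b : ℤ) : ℕ := ∑ x ∈ XX c N, rr c N x b

/-- The value of `u` for real `y` and `b = t`. -/
noncomputable def uu (a x : ℕ) (y t : ℝ) : ℝ :=
  Real.sqrt (((a : ℝ) ^ 2 * (x : ℝ) ^ 2 - 4) * y ^ 2 + 4 * t - 4 * (x : ℝ) ^ 2)

/-- The side of the small boxes in the `(y, y')`-plane. -/
noncomputable def LL (N : ℕ) : ℕ := ⌊Real.sqrt N * Real.exp (-3 * ell N)⌋₊

/-- Lower end of the range of `n = (u + u') / g`. -/
noncomputable def nlo (c : Cls) (N x x' s s' : ℕ) : ℕ :=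
  ⌈(uu c.a x s (-N) + uu c.a x' s' (-N)) / c.g⌉₊

/-- Upper end of the range of `n = (u + u') / g`. -/
noncomputable def nhi (c : Cls) (N x x' s s' L : ℕ) : ℕ :=
  ⌊(uu c.a x (s + L) N + uu c.a x' (s' + L) N) / c.g⌋₊

/-- The range of `n = (u + u') / g` for `y` in `[s, s + L)` and `y'` in `[s', s' + L)`. -/
noncomputable def nset (c : Cls) (N x x' s s' L : ℕ) : Finset ℕ :=
  (Icc (nlo c N x x' s s') (nhi c N x x' s s' L)).filter fun n =>
    ((2 * c.h : ℕ) : ℤ) ∣ (n : ℤ) - c.w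

/-- The number of intervals of length `L` needed to cover an interval of length `Y`. -/
def mm (Y L : ℕ) : ℕ := (Y + L - 1) / L

/-- The number of points `(y, y')` of a box, in the class of `y0` modulo `Q`, for which `n` divides
`A y² - B y'² + C`. -/
def cnt (A B C : ℤ) (Q : ℕ) (y0 : ℤ) (n s s' L : ℕ) : ℕ :=
  ((Ico s (s + L) ×ˢ Ico s' (s' + L)).filter fun v => (Q : ℤ) ∣ (v.1 : ℤ) - y0 ∧
    (Q : ℤ) ∣ (v.2 : ℤ) - y0 ∧ (n : ℤ) ∣ A * (v.1 : ℤ) ^ 2 - B * (v.2 : ℤ) ^ 2 + C).card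

/-- The number of solutions of `A y² - B y'² + C = 0` modulo `n`. -/
def rho (A B C : ℤ) (n : ℕ) : ℕ :=
  ((range n ×ˢ range n).filter fun v =>
    (n : ℤ) ∣ A * (v.1 : ℤ) ^ 2 - B * (v.2 : ℤ) ^ 2 + C).card

/-- The exponent of `p` in the greatest common divisor of `A` and `B`. -/
def del (A B : ℤ) (p : ℕ) : ℕ := (Int.gcd A B).factorization p

open Classical in
/-- The local factors of the majorant. -/
noncomputable def gp (A B C : ℤ) (p k : ℕ) : ℝ :=
  if (p : ℤ) ∣ A * B * C then 8 * (p : ℝ) ^ min k (del A B p)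
  else if k = 1 then 1 / (p : ℝ) else if k = 2 then 2 else 0

/-- A multiplicative function with `ρ(n) ≤ n ∑_{d | n} g(d)`. -/
noncomputable def gf (A B C : ℤ) (n : ℕ) : ℝ := n.factorization.prod fun p k => gp A B C p k

/-- The majorant of `ρ(n) / n`. -/
noncomputable def WW (A B C : ℤ) (n : ℕ) : ℝ := ∑ d ∈ n.divisors, gf A B C d

/-- All prime factors of `n` are larger than `P0`. -/
def Rough (P0 n : ℕ) : Prop := ∀ p : ℕ, p.Prime → p ∣ n → P0 < p

/-- A bound for `∑ g(d) / d` over the rough `d`. -/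
noncomputable def HH (P0 : ℕ) (A B C : ℤ) : ℝ :=
  Real.exp (3 / P0) * ∏ p ∈ (A * B * C).natAbs.primeFactors.filter (fun p => P0 < p),
    (1 + 8 * (del A B p : ℝ) + 8 / ((p : ℝ) - 1))

/-- `n` has no prime factor `p > z` with `p² ∤ n`. -/
def Bad (z : ℝ) (n : ℕ) : Prop := ∀ p : ℕ, p.Prime → z < p → p ∣ n → p ^ 2 ∣ n

/-- A sum over the rough divisors of `n`. -/
noncomputable def S1 (P0 n : ℕ) : ℝ := by
  classical exact ∑ d ∈ n.divisors.filter (Rough P0), 1 / Real.sqrt d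

/-- A sum over the rough divisors of `n`. -/
noncomputable def S3 (P0 n : ℕ) : ℝ := by
  classical exact ∑ d ∈ n.divisors.filter (Rough P0), (d.divisors.card : ℝ) ^ 20

/-- The sum of `1 / x` over the range of `x`. -/
noncomputable def SX (c : Cls) (N : ℕ) : ℝ := ∑ x ∈ XX c N, 1 / (x : ℝ)

/-- The constant term of the form in `y, y'`. -/
def CC (x x' : ℕ) : ℤ := 4 * ((x' : ℤ) ^ 2 - (x : ℤ) ^ 2)

/-- The constant of the first moment. -/
noncomputable def K1 (c : Cls) : ℝ := 4 * Real.log 2 / ((c.q : ℝ) * c.Q * c.a)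

/-- The constant of the second moment. -/
noncomputable def K2 (c : Cls) : ℝ := 2 * Real.log 2 ^ 2 / ((c.h : ℝ) * c.Q ^ 2 * c.a ^ 2)

/-- The primes dividing `h` are exactly the primes up to `P0`. -/
def Cls.Full (c : Cls) (P0 : ℕ) : Prop := ∀ p : ℕ, p.Prime → (p ∣ c.h ↔ p ≤ P0)

end Pool.Agent.MK47
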