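import Pool.Agent.MK47.Defs

/-!
# Local data

* `loc_deriv`: let `m` divide `f - b` and the three partial derivatives of `f = x² + y² + z² + a x y z`. Modulo `m`: `2x² ≡ 2y² ≡ 2z² ≡ -axyz` and
  `2b = 2f ≡ -3axyz + 2axyz = -axyz`. So `(2b)³ ≡ 8x²y²z²` and `a² (2b)³ ≡ 8 a²x²y²z² ≡ 8 (2b)²`, i.e. `8 b² (a² b - 4) ≡ 0`.
* `loc_data`: `P = primorial P0 = ∏_{p ≤ P0} p`. Take a solution `(x, y, z)` modulo `P^(2V+1)`. For each prime `p ≤ P0`, by `loc_deriv` with `m = p^V` (which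
  divides `P^(2V+1)`), `p^V` does not divide all three of `2x + ayz`, `2y + axz`, `2z + axy`. So, permuting the coordinates (`f` is symmetric), there is a triple
  `(x_p, y_p, z_p)` with `p^(2V+1) ∣ f - b` and `p^V ∤ 2 z_p + a x_p y_p`. By the Chinese remainder theorem for the pairwise coprime `p^(2V+1)`, choose
  integers `x, y, z` congruent to `x_p, y_p, z_p` modulo `p^(2V+1)` for all `p ≤ P0` (e.g. induction on the set of primes, or
  `Ideal`/`Nat.chineseRemainderOfFinset`). Then `p^(2V+1) ∣ f - b` for all `p`, hence their product `P^(2V+1)` divides `f - b`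
  (`Finset.prod_dvd_of_coprime`), and `p^V ∤ 2z + axy`, as `V ≤ 2V+1`.
* `mk_cls`: `u0 = 2z + axy`, `g = gcd (2 u0, P^V)`, `h = 4 P * (P^(2V) / g²)` (`g² ∣ P^(2V)`), `w = 2 u0/g`, `x0 = x`, etc. Every prime dividing `h` divides `4 P^(2V+1)`, so
  is `≤ P0` (`P0 ≥ 2`); conversely every prime `p ≤ P0` divides `P`, so `h`. Primes dividing `g` divide `P` (if `V ≥ 1`). `2 ∣ h`. Primes dividing `a` are `≤ a ≤ P0`. `cop`: let `p ≤ P0`, `p ∣ w`.
  `v_p(g) = min (v_p(2 u0), V)` (`v_p(P) = 1`), so `v_p(2 u0) > v_p(g)` forces `v_p(2 u0) > V`, i.e. `p^(V+1) ∣ 2 u0`, so `p^V ∣ u0` (for `p = 2` cancel the `2`; for odd `p` it is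
  coprime to `2`), a contradiction. (In words without valuations: if `p ∣ w` then `p g ∣ 2 u0`; if also `p g ∣ P^V` then `p g ∣ g`, absurd;
  so `v_p(g) = V`, as `v_p(P^V) = V`, and `p^(V+1) ∣ 2 u0`.) `u0 ≠ 0` because `p^V ∤ u0` for `p = 2`. `g² h/4 = P^(2V+1)`.
-/

namespace Pool.Agent.MK47

open Finset

theorem loc_deriv (a b x y z m : ℤ) (h : m ∣ x ^ 2 + y ^ 2 + z ^ 2 + a * x * y * z - b)
    (hx : m ∣ 2 * x + a * y * z) (hy : m ∣ 2 * y + a * x * z) (hz : m ∣ 2 * z + a * x * y) :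
    m ∣ 8 * b ^ 2 * (a ^ 2 * b - 4) := by
  obtain ⟨k, hk⟩ := h
  obtain ⟨k1, hk1⟩ := hx
  obtain ⟨k2, hk2⟩ := hy
  obtain ⟨k3, hk3⟩ := hz
  set t := a * x * y * z with ht
  have e1 : 2 * x ^ 2 ≡ -t [ZMOD m] := by
    apply Int.ModEq.symm
    rw [Int.modEq_iff_dvd]
    exact ⟨x * k1, by rw [ht]; linear_combination x * hk1⟩
  have e2 : 2 * y ^ 2 ≡ -t [ZMOD m] := by
    apply Int.ModEq.symm
    rw [Int.modEq_iff_dvd]
    exact ⟨y * k2, by rw [ht]; linear_combination y * hk2⟩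
  have e3 : 2 * z ^ 2 ≡ -t [ZMOD m] := by
    apply Int.ModEq.symm
    rw [Int.modEq_iff_dvd]
    exact ⟨z * k3, by rw [ht]; linear_combination z * hk3⟩
  have e0 : 2 * b ≡ -t [ZMOD m] := by
    apply Int.ModEq.symm
    rw [Int.modEq_iff_dvd]
    refine ⟨x * k1 + y * k2 + z * k3 - 2 * k, ?_⟩
    rw [ht]
    linear_combination x * hk1 + y * hk2 + z * hk3 - 2 * hk
  have e4 : a ^ 2 * ((2 * x ^ 2) * (2 * y ^ 2) * (2 * z ^ 2)) ≡
      a ^ 2 * ((-t) * (-t) * (-t)) [ZMOD m] := ((e1.mul e2).mul e3).mul_left _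
  have e5 : a ^ 2 * ((2 * x ^ 2) * (2 * y ^ 2) * (2 * z ^ 2)) = 8 * ((-t) * (-t)) := by
    rw [ht]; ring
  rw [e5] at e4
  have e6 : 8 * ((2 * b) * (2 * b)) ≡ 8 * ((-t) * (-t)) [ZMOD m] := (e0.mul e0).mul_left _
  have e7 : a ^ 2 * ((2 * b) * (2 * b) * (2 * b)) ≡ a ^ 2 * ((-t) * (-t) * (-t)) [ZMOD m] :=
    ((e0.mul e0).mul e0).mul_left _
  have e8 : 8 * ((2 * b) * (2 * b)) ≡ a ^ 2 * ((2 * b) * (2 * b) * (2 * b)) [ZMOD m] :=
    (e6.trans e4).trans e7.symm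
  rw [Int.modEq_iff_dvd] at e8
  have : 8 * b ^ 2 * (a ^ 2 * b - 4) =
      a ^ 2 * ((2 * b) * (2 * b) * (2 * b)) - 8 * ((2 * b) * (2 * b)) := by ring
  rw [this]
  exact e8

theorem crt_fin (S : Finset ℕ) (m : ℕ → ℤ)
    (hm : ∀ p ∈ S, ∀ q ∈ S, p ≠ q → IsCoprime (m p) (m q)) (r : ℕ → ℤ) :
    ∃ X : ℤ, ∀ p ∈ S, m p ∣ X - r p := by
  classical
  induction S using Finset.induction_on with
  | empty => exact ⟨0, by simp⟩
  | insert p S hp ih =>
    obtain ⟨X, hX⟩ := ih fun q hq q' hq' h => hm q (Finset.mem_insert_of_mem hq) q'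
      (Finset.mem_insert_of_mem hq') h
    have hc : IsCoprime (m p) (∏ q ∈ S, m q) := by
      apply IsCoprime.prod_right
      intro q hq
      exact hm p (Finset.mem_insert_self _ _) q (Finset.mem_insert_of_mem hq)
        (fun h => hp (h ▸ hq))
    obtain ⟨u, v, huv⟩ := hc
    refine ⟨X * (u * m p) + r p * (v * ∏ q ∈ S, m q), ?_⟩
    intro q hq
    rcases Finset.mem_insert.1 hq with h | h
    · subst h
      have : X * (u * m q) + r q * (v * ∏ q ∈ S, m q) - r q = m q * (X * u - r q * u) := by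
        linear_combination r q * huv
      rw [this]
      exact dvd_mul_right _ _
    · have h1 : m q ∣ ∏ q ∈ S, m q := Finset.dvd_prod_of_mem _ h
      have : X * (u * m p) + r p * (v * ∏ q ∈ S, m q) - r q =
          (X - r q) + (r p * v - X * v) * ∏ q ∈ S, m q := by
        linear_combination X * huv
      rw [this]
      exact dvd_add (hX q h) (h1.mul_left _)

theorem form_congr (a x y z x' y' z' m : ℤ) (hx : m ∣ x - x') (hy : m ∣ y - y') (hz : m ∣ z - z') :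
    m ∣ (x ^ 2 + y ^ 2 + z ^ 2 + a * x * y * z) - (x' ^ 2 + y' ^ 2 + z' ^ 2 + a * x' * y' * z') ∧
    m ∣ (2 * z + a * x * y) - (2 * z' + a * x' * y') := by
  obtain ⟨k1, h1⟩ := hx
  obtain ⟨k2, h2⟩ := hy
  obtain ⟨k3, h3⟩ := hz
  have e1 : x = x' + m * k1 := by linarith
  have e2 : y = y' + m * k2 := by linarith
  have e3 : z = z' + m * k3 := by linarith
  subst e1 e2 e3
  constructor
  · refine ⟨k1 * (2 * x' + m * k1) + k2 * (2 * y' + m * k2) + k3 * (2 * z' + m * k3) +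
      a * (k1 * (y' + m * k2) * (z' + m * k3) + x' * k2 * (z' + m * k3) + x' * y' * k3), ?_⟩
    ring
  · refine ⟨2 * k3 + a * (k1 * (y' + m * k2) + x' * k2), ?_⟩
    ring

theorem loc_data (a : ℕ) (b : ℤ) (P0 V : ℕ)
    (hloc : ∀ m : ℕ, 0 < m → ∃ x y z : ℤ, (m : ℤ) ∣ x ^ 2 + y ^ 2 + z ^ 2 + (a : ℤ) * x * y * z - b)
    (hb : ∀ p : ℕ, p.Prime → p ≤ P0 → ¬ ((p ^ V : ℕ) : ℤ) ∣ 8 * b ^ 2 * ((a : ℤ) ^ 2 * b - 4)) :
    ∃ x y z : ℤ, ((primorial P0 ^ (2 * V + 1) : ℕ) : ℤ) ∣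
      x ^ 2 + y ^ 2 + z ^ 2 + (a : ℤ) * x * y * z - b ∧
      ∀ p : ℕ, p.Prime → p ≤ P0 → ¬ ((p ^ V : ℕ) : ℤ) ∣ 2 * z + (a : ℤ) * x * y := by
  classical
  set M := 2 * V + 1 with hM
  set S := (range (P0 + 1)).filter Nat.Prime with hS
  have hmem : ∀ p, p ∈ S ↔ p.Prime ∧ p ≤ P0 := by
    intro p
    rw [hS, Finset.mem_filter, Finset.mem_range]
    constructor
    · rintro ⟨h1, h2⟩; exact ⟨h2, by omega⟩
    · rintro ⟨h1, h2⟩; exact ⟨by omega, h1⟩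
  have hloc1 : ∀ p : ℕ, ∃ t : ℤ × ℤ × ℤ, p ∈ S →
      ((p ^ M : ℕ) : ℤ) ∣ t.1 ^ 2 + t.2.1 ^ 2 + t.2.2 ^ 2 + (a : ℤ) * t.1 * t.2.1 * t.2.2 - b ∧
      ¬ ((p ^ V : ℕ) : ℤ) ∣ 2 * t.2.2 + (a : ℤ) * t.1 * t.2.1 := by
    intro p
    by_cases hp : p ∈ S
    · obtain ⟨hp1, hp2⟩ := (hmem p).1 hp
      obtain ⟨x, y, z, h⟩ := hloc (p ^ M) (pow_pos hp1.pos _)
      have hVM : ((p ^ V : ℕ) : ℤ) ∣ ((p ^ M : ℕ) : ℤ) := by
        exact_mod_cast pow_dvd_pow p (by omega : V ≤ M)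
      have hnot : ¬ (((p ^ V : ℕ) : ℤ) ∣ 2 * x + (a : ℤ) * y * z ∧
          ((p ^ V : ℕ) : ℤ) ∣ 2 * y + (a : ℤ) * x * z ∧
          ((p ^ V : ℕ) : ℤ) ∣ 2 * z + (a : ℤ) * x * y) := by
        rintro ⟨h1, h2, h3⟩
        exact hb p hp1 hp2 (loc_deriv a b x y z _ (hVM.trans h) h1 h2 h3)
      by_cases h3 : ((p ^ V : ℕ) : ℤ) ∣ 2 * z + (a : ℤ) * x * y
      · by_cases h2 : ((p ^ V : ℕ) : ℤ) ∣ 2 * y + (a : ℤ) * x * z
        · have h1 : ¬ ((p ^ V : ℕ) : ℤ) ∣ 2 * x + (a : ℤ) * y * z := fun h1 => hnot ⟨h1, h2, h3⟩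
          refine ⟨(y, z, x), fun _ => ⟨?_, ?_⟩⟩
          · have : y ^ 2 + z ^ 2 + x ^ 2 + (a : ℤ) * y * z * x - b =
              x ^ 2 + y ^ 2 + z ^ 2 + (a : ℤ) * x * y * z - b := by ring
            simpa [this] using h
          · simpa using h1
        · refine ⟨(x, z, y), fun _ => ⟨?_, ?_⟩⟩
          · have : x ^ 2 + z ^ 2 + y ^ 2 + (a : ℤ) * x * z * y - b =
              x ^ 2 + y ^ 2 + z ^ 2 + (a : ℤ) * x * y * z - b := by ring
            simpa [this] using h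
          · simpa using h2
      · exact ⟨(x, y, z), fun _ => ⟨h, h3⟩⟩
    · exact ⟨(0, 0, 0), fun h => absurd h hp⟩
  choose t ht using hloc1
  have hcop : ∀ p ∈ S, ∀ q ∈ S, p ≠ q →
      IsCoprime (((p ^ M : ℕ) : ℤ)) (((q ^ M : ℕ) : ℤ)) := by
    intro p hp q hq hpq
    rw [Nat.isCoprime_iff_coprime]
    exact Nat.Coprime.pow _ _ ((Nat.coprime_primes ((hmem p).1 hp).1 ((hmem q).1 hq).1).2 hpq)
  obtain ⟨x, hx⟩ := crt_fin S (fun p => ((p ^ M : ℕ) : ℤ)) hcop (fun p => (t p).1)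
  obtain ⟨y, hy⟩ := crt_fin S (fun p => ((p ^ M : ℕ) : ℤ)) hcop (fun p => (t p).2.1)
  obtain ⟨z, hz⟩ := crt_fin S (fun p => ((p ^ M : ℕ) : ℤ)) hcop (fun p => (t p).2.2)
  refine ⟨x, y, z, ?_, ?_⟩
  · have hprod : ((primorial P0 ^ M : ℕ) : ℤ) = ∏ p ∈ S, ((p ^ M : ℕ) : ℤ) := by
      unfold primorial
      rw [← Finset.prod_pow]
      push_cast
      rfl
    rw [hprod]
    apply Finset.prod_dvd_of_coprime
    · intro p hp q hq hpq
      exact hcop p hp q hq hpq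
    · intro p hp
      have h1 := (form_congr a x y z _ _ _ _ (hx p hp) (hy p hp) (hz p hp)).1
      have h2 := (ht p hp).1
      have := dvd_add h1 h2
      have e : (x ^ 2 + y ^ 2 + z ^ 2 + (a : ℤ) * x * y * z) -
          ((t p).1 ^ 2 + (t p).2.1 ^ 2 + (t p).2.2 ^ 2 + (a : ℤ) * (t p).1 * (t p).2.1 * (t p).2.2) +
          ((t p).1 ^ 2 + (t p).2.1 ^ 2 + (t p).2.2 ^ 2 +
            (a : ℤ) * (t p).1 * (t p).2.1 * (t p).2.2 - b) =
          x ^ 2 + y ^ 2 + z ^ 2 + (a : ℤ) * x * y * z - b := by ring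
      rwa [e] at this
  · intro p hp1 hp2 hdiv
    have hp : p ∈ S := (hmem p).2 ⟨hp1, hp2⟩
    have h1 := (form_congr a x y z _ _ _ _ (hx p hp) (hy p hp) (hz p hp)).2
    have hVM : ((p ^ V : ℕ) : ℤ) ∣ ((p ^ M : ℕ) : ℤ) := by
      exact_mod_cast pow_dvd_pow p (by omega : V ≤ M)
    apply (ht p hp).2
    have h2 := dvd_sub hdiv (hVM.trans h1)
    simpa using h2

theorem mk_cls (a : ℕ) (ha : 0 < a) (P0 V : ℕ) (hP0 : 2 ≤ P0) (haP : a ≤ P0) (hV : 1 ≤ V)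
    (x y z : ℤ)
    (h : ∀ p : ℕ, p.Prime → p ≤ P0 → ¬ ((p ^ V : ℕ) : ℤ) ∣ 2 * z + (a : ℤ) * x * y) :
    ∃ c : Cls, c.a = a ∧ c.x0 = x ∧ c.y0 = y ∧ c.z0 = z ∧ c.B = primorial P0 ^ (2 * V + 1) ∧
      c.Full P0 := by
  set P := primorial P0 with hP
  have hPpos : 0 < P := primorial_pos P0
  have hPp : ∀ p : ℕ, p.Prime → (p ∣ P ↔ p ≤ P0) := fun p hp => hp.dvd_primorial_iff
  set u := 2 * z + (a : ℤ) * x * y with hu
  set g := Nat.gcd (2 * u).natAbs (P ^ V) with hg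
  have hgP : g ∣ P ^ V := Nat.gcd_dvd_right _ _
  have hgu : (g : ℤ) ∣ 2 * u := by
    rw [Int.natCast_dvd]
    exact Nat.gcd_dvd_left _ _
  have hgpos : 0 < g := Nat.pos_of_dvd_of_pos hgP (pow_pos hPpos _)
  have hg2 : g * g ∣ P ^ (2 * V) := by
    have : P ^ (2 * V) = P ^ V * P ^ V := by rw [two_mul, pow_add]
    rw [this]
    exact mul_dvd_mul hgP hgP
  obtain ⟨k, hk⟩ := hg2
  have hkpos : 0 < k := by
    rcases Nat.eq_zero_or_pos k with h0 | h0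
    · rw [h0, mul_zero] at hk
      exact absurd hk (pow_pos hPpos _).ne'
    · exact h0
  set H := 4 * P * k with hH
  have hHpos : 0 < H := by positivity
  have hHdvd : H ∣ 4 * P ^ (2 * V + 1) := ⟨g * g, by rw [pow_succ, hk]; ring⟩
  have hfull : ∀ p : ℕ, p.Prime → (p ∣ H ↔ p ≤ P0) := by
    intro p hp
    constructor
    · intro h1
      have h2 := h1.trans hHdvd
      rcases (Nat.Prime.dvd_mul hp).1 h2 with h3 | h3
      · have : p ∣ 2 := hp.dvd_of_dvd_pow (show p ∣ 2 ^ 2 by norm_num; exact h3)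
        exact (Nat.le_of_dvd (by norm_num) this).trans hP0
      · exact (hPp p hp).1 (hp.dvd_of_dvd_pow h3)
    · intro h1
      have h2 := (hPp p hp).2 h1
      exact Dvd.dvd.mul_right (Dvd.dvd.mul_left h2 4) k
  obtain ⟨w, hw⟩ := hgu
  have hcop : ∀ p : ℕ, p.Prime → p ∣ H → ¬ (p : ℤ) ∣ w := by
    intro p hp hpH hpw
    have hp0 := (hfull p hp).1 hpH
    have h1 : ((g * p : ℕ) : ℤ) ∣ 2 * u := by
      rw [hw]
      push_cast
      exact mul_dvd_mul_left _ hpw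
    by_cases h2 : p ^ V ∣ g
    · have h3 : ((p ^ V * p : ℕ) : ℤ) ∣ 2 * u := by
        refine dvd_trans ?_ h1
        exact_mod_cast Nat.mul_dvd_mul_right h2 p
      apply h p hp hp0
      by_cases hp2 : p = 2
      · subst hp2
        push_cast at h3 ⊢
        have : (2 : ℤ) * 2 ^ V ∣ 2 * u := by
          rw [mul_comm]; exact h3
        exact (mul_dvd_mul_iff_left (by norm_num)).1 this
      · have hc : IsCoprime (((p ^ V : ℕ) : ℤ)) 2 := by
          have : IsCoprime (((p ^ V : ℕ) : ℤ)) ((2 : ℕ) : ℤ) := by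
            rw [Nat.isCoprime_iff_coprime]
            exact Nat.Coprime.pow_left _ ((Nat.coprime_primes hp Nat.prime_two).2 hp2)
          exact_mod_cast this
        have h4 : ((p ^ V : ℕ) : ℤ) ∣ 2 * u := by
          refine dvd_trans ?_ h3
          exact_mod_cast Nat.dvd_mul_right (p ^ V) p
        exact hc.dvd_of_dvd_mul_left h4
    · obtain ⟨k', hk'⟩ := hgP
      have h3 : p ∣ k' := by
        by_contra hcon
        apply h2
        have h4 : p ^ V ∣ g * k' := by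
          rw [← hk']
          exact pow_dvd_pow_of_dvd ((hPp p hp).2 hp0) V
        exact Nat.Coprime.dvd_of_dvd_mul_right
          (Nat.Coprime.pow_left _ ((Nat.Prime.coprime_iff_not_dvd hp).2 hcon)) h4
      have h5 : g * p ∣ P ^ V := by
        rw [hk']
        exact Nat.mul_dvd_mul_left g h3
      have h6 : g * p ∣ g := by
        have h7 : g * p ∣ (2 * u).natAbs := by
          rw [← Int.natCast_dvd]
          exact h1
        exact Nat.dvd_gcd h7 h5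
      have h8 := Nat.le_of_dvd hgpos h6
      have h9 := hp.two_le
      nlinarith
  refine ⟨{ a := a, g := g, h := H, x0 := x, y0 := y, z0 := z, w := w, a_pos := ha, g_pos := hgpos,
            h_pos := hHpos, two_u := hw, cop := hcop, rad := ?_, two_h := ?_, a_h := ?_ },
    rfl, rfl, rfl, rfl, ?_, hfull⟩
  · intro p hp hpg
    exact (hfull p hp).2 ((hPp p hp).1 (hp.dvd_of_dvd_pow (hpg.trans hgP)))
  · exact ⟨2 * P * k, by rw [hH]; ring⟩
  · intro p hp hpa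
    exact (hfull p hp).2 ((Nat.le_of_dvd ha hpa).trans haP)
  · change g * g * H / 4 = P ^ (2 * V + 1)
    have : g * g * H = 4 * P ^ (2 * V + 1) := by
      rw [pow_succ, hk, hH]
      ring
    rw [this]
    exact Nat.mul_div_cancel_left _ (by norm_num)

end Pool.Agent.MK47
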