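import Pool.Agent.MK47.Cheb
import Pool.Agent.MK47.LocData
import Pool.Agent.MK47.Exc
import Pool.Agent.H8.MarkoffLocal2

/-!
# Almost all locally represented `b` are represented

* `final_nat`: let `a ≥ 1`, `ε > 0`. Take `P1` from `cheb` with `ε/8`, `P0 = max (P1, a, 2)`, `V1 ≥ 1` with
  `(P0 + 1) 2 (1 + a²)/2^V1 ≤ ε/4`, `V = 3 V1 + 3`, `P = primorial P0`, `B = P^(2V+1)`. Let `b ∈ [-N, N]` be locally represented but not
  represented. Either some prime `p ≤ P0` has `p^V ∣ 8b²(a²b-4)`: by `exc_card` at most `(P0+1) (2N (1+a²)/2^V1 + 2) ≤ (ε/4) N + 2 (P0+1)` such `b`. Or, by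
  `loc_data`, `mk_cls`, there is a class `c`, `c.a = a`, `c.B = B`, `c.Full P0`, with `B ∣ b - c.beta` (unfold `Cls.beta`).
  For every residue `r < B` choose (if it exists) one class `c_r` with `c_r.a = a`, `c_r.B = B`, `c_r.Full P0`, `B ∣ r - c_r.beta`; for large `N` (finitely many `r`:
  `Filter.eventually_all_finset`) `cheb` bounds the number of `b` with `B ∣ b - r` that are not represented by `(ε/8)(2N/B)`; sum over
  `r < B`: `(ε/4) N`. Total `≤ (ε/2) N + 2 (P0+1) ≤ ε N` for large `N`.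
* `almost_all`: `a : ℤ` nonzero. Replace `(a, z)` by `(|a|, ± z)`: `x² + y² + z² - a x y z = b` is solvable (resp. solvable modulo `m`) iff
  `x² + y² + z² + |a| x y z = b` is. By `Pool.Agent.H8.MarkoffLocal.loc_iff`, `LocCond a b` is equivalent to solubility modulo every
  `m > 0`, which is implied by solubility. So the set in question is the set of `final_nat` for `|a|`. Tends to zero: `Metric.tendsto_atTop`/squeeze
  from `∀ ε > 0, ∀ᶠ N, card ≤ ε N`.
-/

namespace Pool.Agent.MK47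

open Finset Filter

open Classical in
theorem final_nat (a : ℕ) (ha : 0 < a) (ε : ℝ) (hε : 0 < ε) : ∀ᶠ N : ℕ in atTop,
    (((Icc (-(N : ℤ)) N).filter fun b : ℤ =>
      (∀ m : ℕ, 0 < m → ∃ x y z : ℤ, (m : ℤ) ∣ x ^ 2 + y ^ 2 + z ^ 2 + (a : ℤ) * x * y * z - b) ∧
      ¬ ∃ x y z : ℤ, x ^ 2 + y ^ 2 + z ^ 2 + (a : ℤ) * x * y * z = b).card : ℝ) ≤ ε * N := by
  obtain ⟨P1, hP1⟩ := cheb (ε / 8) (by positivity)
  set P0 := max P1 (max a 2) with hP0
  have hP01 : P1 ≤ P0 := le_max_left _ _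
  have hP0a : a ≤ P0 := le_trans (le_max_left _ _) (le_max_right _ _)
  have hP02 : 2 ≤ P0 := le_trans (le_max_right _ _) (le_max_right _ _)
  obtain ⟨V1, hV1⟩ : ∃ V1 : ℕ, ((P0 : ℝ) + 1) * (2 * (1 + (a : ℝ) ^ 2)) * (1 / 2) ^ V1 ≤ ε / 4 := by
    have h1 : Tendsto (fun n : ℕ => ((P0 : ℝ) + 1) * (2 * (1 + (a : ℝ) ^ 2)) * (1 / 2) ^ n) atTop
        (nhds (((P0 : ℝ) + 1) * (2 * (1 + (a : ℝ) ^ 2)) * 0)) :=
      (tendsto_pow_atTop_nhds_zero_of_lt_one (by norm_num) (by norm_num)).const_mul _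
    rw [mul_zero] at h1
    obtain ⟨n, hn⟩ := (h1.eventually_lt_const (by positivity : (0 : ℝ) < ε / 4)).exists
    exact ⟨n, hn.le⟩
  set V := 3 * V1 + 3 with hV
  set B := primorial P0 ^ (2 * V + 1) with hB
  have hBpos : 0 < B := pow_pos (primorial_pos P0) _
  have hBR : (0 : ℝ) < B := by exact_mod_cast hBpos
  let HC : ℕ → Prop := fun r => ∃ c : Cls, c.a = a ∧ c.B = B ∧ c.Full P0 ∧ (B : ℤ) ∣ (r : ℤ) - c.beta
  have hev : ∀ᶠ N : ℕ in atTop, ∀ r ∈ (range B).filter HC,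
      (((Icc (-(N : ℤ)) N).filter fun b => (B : ℤ) ∣ b - r ∧
      ¬ ∃ x y z : ℤ, x ^ 2 + y ^ 2 + z ^ 2 + (a : ℤ) * x * y * z = b).card : ℝ) ≤
      ε / 8 * (2 * N / B) := by
    rw [Filter.eventually_all_finset]
    intro r hr
    obtain ⟨c, hca, hcB, hcF, hcr⟩ := (Finset.mem_filter.1 hr).2
    filter_upwards [hP1 P0 hP01 c hcF] with N hN
    rw [hcB, hca] at hN
    refine le_trans ?_ hN
    exact_mod_cast Finset.card_le_card (by
      intro b hb
      obtain ⟨h1, h2, h3⟩ := Finset.mem_filter.1 hb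
      refine Finset.mem_filter.2 ⟨h1, ?_, h3⟩
      have : b - c.beta = (b - r) + (r - c.beta) := by ring
      rw [this]
      exact dvd_add h2 hcr)
  have hNl : ∀ᶠ N : ℕ in atTop, 4 * ((P0 : ℝ) + 1) / ε ≤ (N : ℝ) :=
    (tendsto_natCast_atTop_atTop (R := ℝ)).eventually_ge_atTop _
  filter_upwards [hev, hNl] with N hN hNl
  set s := Icc (-(N : ℤ)) N with hs
  let Ep : ℕ → Finset ℤ := fun p => s.filter fun b : ℤ =>
      ((p ^ V : ℕ) : ℤ) ∣ 8 * b ^ 2 * ((a : ℤ) ^ 2 * b - 4)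
  let Fr : ℕ → Finset ℤ := fun r => s.filter fun b => (B : ℤ) ∣ b - r ∧
      ¬ ∃ x y z : ℤ, x ^ 2 + y ^ 2 + z ^ 2 + (a : ℤ) * x * y * z = b
  have hsub : (s.filter fun b : ℤ =>
      (∀ m : ℕ, 0 < m → ∃ x y z : ℤ, (m : ℤ) ∣ x ^ 2 + y ^ 2 + z ^ 2 + (a : ℤ) * x * y * z - b) ∧
      ¬ ∃ x y z : ℤ, x ^ 2 + y ^ 2 + z ^ 2 + (a : ℤ) * x * y * z = b) ⊆
      (((range (P0 + 1)).filter Nat.Prime).biUnion Ep) ∪ (((range B).filter HC).biUnion Fr) := by
    intro b hb
    obtain ⟨h1, h2, h3⟩ := Finset.mem_filter.1 hb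
    by_cases hp : ∃ p : ℕ, p.Prime ∧ p ≤ P0 ∧ ((p ^ V : ℕ) : ℤ) ∣ 8 * b ^ 2 * ((a : ℤ) ^ 2 * b - 4)
    · obtain ⟨p, hp1, hp2, hp3⟩ := hp
      refine Finset.mem_union_left _ (Finset.mem_biUnion.2 ⟨p, ?_, ?_⟩)
      · exact Finset.mem_filter.2 ⟨Finset.mem_range.2 (by omega), hp1⟩
      · exact Finset.mem_filter.2 ⟨h1, hp3⟩
    · push Not at hp
      obtain ⟨x, y, z, hxyz, hu⟩ := loc_data a b P0 V h2 hp
      obtain ⟨c, hca, hcx, hcy, hcz, hcB, hcF⟩ := mk_cls a ha P0 V hP02 hP0a (by omega) x y z hu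
      refine Finset.mem_union_right _ (Finset.mem_biUnion.2 ⟨(b % B).toNat, ?_, ?_⟩)
      · have hm0 : 0 ≤ b % B := Int.emod_nonneg _ (by exact_mod_cast hBpos.ne')
        have hm1 : b % B < B := Int.emod_lt_of_pos _ (by exact_mod_cast hBpos)
        refine Finset.mem_filter.2 ⟨Finset.mem_range.2 ?_, c, hca, hcB, hcF, ?_⟩
        · have : ((b % B).toNat : ℤ) < (B : ℤ) := by rw [Int.toNat_of_nonneg hm0]; exact hm1
          exact_mod_cast this
        · rw [Int.toNat_of_nonneg hm0]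
          have e1 : (B : ℤ) ∣ b - b % B := Int.dvd_self_sub_emod
          have e2 : (B : ℤ) ∣ c.beta - b := by
            unfold Cls.beta
            rw [hca, hcx, hcy, hcz]
            exact hxyz
          have : b % B - c.beta = -((b - b % B) + (c.beta - b)) := by ring
          rw [this, dvd_neg]
          exact dvd_add e1 e2
      · have hm0 : 0 ≤ b % B := Int.emod_nonneg _ (by exact_mod_cast hBpos.ne')
        refine Finset.mem_filter.2 ⟨h1, ?_, h3⟩
        rw [Int.toNat_of_nonneg hm0]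
        exact Int.dvd_self_sub_emod
  have hcard := Finset.card_le_card hsub
  have hcard2 : ((s.filter fun b : ℤ =>
      (∀ m : ℕ, 0 < m → ∃ x y z : ℤ, (m : ℤ) ∣ x ^ 2 + y ^ 2 + z ^ 2 + (a : ℤ) * x * y * z - b) ∧
      ¬ ∃ x y z : ℤ, x ^ 2 + y ^ 2 + z ^ 2 + (a : ℤ) * x * y * z = b).card : ℝ) ≤
      ∑ p ∈ (range (P0 + 1)).filter Nat.Prime, ((Ep p).card : ℝ) +
      ∑ r ∈ (range B).filter HC, ((Fr r).card : ℝ) := by
    have e1 := (hcard.trans (Finset.card_union_le _ _)).trans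
      (add_le_add Finset.card_biUnion_le Finset.card_biUnion_le)
    exact_mod_cast e1
  refine hcard2.trans ?_
  have hE : ∑ p ∈ (range (P0 + 1)).filter Nat.Prime, ((Ep p).card : ℝ) ≤
      ((P0 : ℝ) + 1) * (2 * N * (1 + (a : ℝ) ^ 2) * (1 / 2) ^ V1 + 2) := by
    have e1 : ∀ p ∈ (range (P0 + 1)).filter Nat.Prime, ((Ep p).card : ℝ) ≤
        2 * N * (1 + (a : ℝ) ^ 2) * (1 / 2) ^ V1 + 2 := by
      intro p hp
      have hp' := (Finset.mem_filter.1 hp).2
      refine (exc_card a p V1 N ha hp').trans ?_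
      have h2 : (2 : ℝ) ≤ p := by exact_mod_cast hp'.two_le
      have h3 : (2 : ℝ) ^ V1 ≤ (p : ℝ) ^ V1 := pow_le_pow_left₀ (by norm_num) h2 V1
      have h4 : 2 * N * (1 + (a : ℝ) ^ 2) / (p : ℝ) ^ V1 ≤
          2 * N * (1 + (a : ℝ) ^ 2) / (2 : ℝ) ^ V1 :=
        div_le_div_of_nonneg_left (by positivity) (by positivity) h3
      have h5 : 2 * N * (1 + (a : ℝ) ^ 2) / (2 : ℝ) ^ V1 =
          2 * N * (1 + (a : ℝ) ^ 2) * (1 / 2) ^ V1 := by
        rw [one_div, inv_pow]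
        ring
      linarith
    refine (Finset.sum_le_card_nsmul _ _ _ e1).trans ?_
    rw [nsmul_eq_mul]
    refine mul_le_mul_of_nonneg_right ?_ (by positivity)
    have := Finset.card_filter_le (range (P0 + 1)) Nat.Prime
    rw [Finset.card_range] at this
    exact_mod_cast this
  have hF : ∑ r ∈ (range B).filter HC, ((Fr r).card : ℝ) ≤ ε / 4 * N := by
    refine (Finset.sum_le_sum fun r hr => hN r hr).trans ?_
    rw [Finset.sum_const, nsmul_eq_mul]
    have e1 : (((range B).filter HC).card : ℝ) ≤ B := by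
      have := Finset.card_filter_le (range B) HC
      rw [Finset.card_range] at this
      exact_mod_cast this
    refine (mul_le_mul_of_nonneg_right e1 (by positivity)).trans (le_of_eq ?_)
    field_simp
    ring
  have h1 : ((P0 : ℝ) + 1) * (2 * N * (1 + (a : ℝ) ^ 2) * (1 / 2) ^ V1 + 2) =
      (((P0 : ℝ) + 1) * (2 * (1 + (a : ℝ) ^ 2)) * (1 / 2) ^ V1) * N + 2 * ((P0 : ℝ) + 1) := by ring
  have h2 : (((P0 : ℝ) + 1) * (2 * (1 + (a : ℝ) ^ 2)) * (1 / 2) ^ V1) * N ≤ ε / 4 * N :=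
    mul_le_mul_of_nonneg_right hV1 (by positivity)
  have h3 : 2 * ((P0 : ℝ) + 1) ≤ ε / 2 * N := by
    rw [div_le_iff₀ hε] at hNl
    linarith
  linarith

theorem flip (a : ℤ) (P : ℤ → Prop) : (∃ x y z : ℤ, P (x ^ 2 + y ^ 2 + z ^ 2 - a * x * y * z)) ↔
    ∃ x y z : ℤ, P (x ^ 2 + y ^ 2 + z ^ 2 + (a.natAbs : ℤ) * x * y * z) := by
  rcases Int.natAbs_eq a with h | h
  · constructor
    · rintro ⟨x, y, z, hP⟩
      refine ⟨x, y, -z, ?_⟩
      rw [← h]
      convert hP using 1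
      ring
    · rintro ⟨x, y, z, hP⟩
      refine ⟨x, y, -z, ?_⟩
      rw [← h] at hP
      convert hP using 1
      ring
  · have h' : (a.natAbs : ℤ) = -a := by omega
    constructor
    · rintro ⟨x, y, z, hP⟩
      refine ⟨x, y, z, ?_⟩
      rw [h']
      convert hP using 1
      ring
    · rintro ⟨x, y, z, hP⟩
      refine ⟨x, y, z, ?_⟩
      rw [h'] at hP
      convert hP using 1
      ring

open Classical in
theorem almost_all (a : ℤ) (ha : a ≠ 0) : Tendsto (fun N : ℕ =>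
    (((Icc (-(N : ℤ)) N).filter fun b : ℤ =>
      ¬ ((∃ x y z : ℤ, x ^ 2 + y ^ 2 + z ^ 2 - a * x * y * z = b) ↔
        Pool.Agent.H8.MarkoffLocal.LocCond a b)).card : ℝ) / N) atTop (nhds 0) := by
  have hn : 0 < a.natAbs := Int.natAbs_pos.2 ha
  rw [Metric.tendsto_atTop]
  intro ε hε
  obtain ⟨M, hM⟩ := eventually_atTop.1 (final_nat a.natAbs hn (ε / 2) (by positivity))
  refine ⟨max M 1, fun N hN => ?_⟩
  have hN1 : M ≤ N := le_trans (le_max_left _ _) hN
  have hN2 : 1 ≤ N := le_trans (le_max_right _ _) hN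
  have hNR : (0 : ℝ) < N := by exact_mod_cast hN2
  have hle : (((Icc (-(N : ℤ)) N).filter fun b : ℤ =>
      ¬ ((∃ x y z : ℤ, x ^ 2 + y ^ 2 + z ^ 2 - a * x * y * z = b) ↔
        Pool.Agent.H8.MarkoffLocal.LocCond a b)).card : ℝ) ≤ ε / 2 * N := by
    refine le_trans ?_ (hM N hN1)
    exact_mod_cast Finset.card_le_card (by
      intro b hb
      obtain ⟨h1, h2⟩ := Finset.mem_filter.1 hb
      have hSol : (∃ x y z : ℤ, x ^ 2 + y ^ 2 + z ^ 2 - a * x * y * z = b) →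
          Pool.Agent.H8.MarkoffLocal.LocCond a b := by
        rintro ⟨x, y, z, h⟩
        rw [← Pool.Agent.H8.MarkoffLocal.loc_iff]
        intro m _
        exact ⟨x, y, z, by rw [h]; simp⟩
      have h3 : ¬ ∃ x y z : ℤ, x ^ 2 + y ^ 2 + z ^ 2 - a * x * y * z = b := by
        intro h
        exact h2 ⟨fun _ => hSol h, fun _ => h⟩
      have h4 : Pool.Agent.H8.MarkoffLocal.LocCond a b := by
        by_contra h
        exact h2 ⟨fun h' => absurd h' h3, fun h' => absurd h' h⟩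
      refine Finset.mem_filter.2 ⟨h1, ?_, ?_⟩
      · intro m hm
        have h5 := (Pool.Agent.H8.MarkoffLocal.loc_iff a b).2 h4 m hm
        have h6 := (flip a (fun t => (m : ℤ) ∣ t - b)).1 h5
        simpa using h6
      · intro h
        apply h3
        apply (flip a (fun t => t = b)).2
        simpa using h)
  rw [Real.dist_eq, sub_zero, abs_of_nonneg (by positivity), div_lt_iff₀ hNR]
  nlinarith

end Pool.Agent.MK47
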