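import Pool.Agent.MK47.Size
import Pool.Agent.MK47.Second
import Pool.Agent.MK47.ApGen

/-!
# The first moment

`Y = YY c.a N x`, `D = DD c.a x`, `x ∈ XX c N`, `N` large.
* `rr_sum`: `∑_{|b| ≤ N} rr c N x b` is the number of pairs `(y, u)`, `y ∈ [Y, 2Y)`, `Q ∣ y - y0`, `u : ℕ`, `q ∣ u - u0`, with
  `D y² - 4 x² - 4 N ≤ u² ≤ D y² - 4 x² + 4 N`: for such a pair `4 ∣ u² - D y² + 4 x²`
  by `form_mod` (it is congruent to `4 β` modulo `4 B`), and `b = (u² - D y² + 4x²)/4` satisfies `|b| ≤ N`; conversely `(y, b)`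
  determines `u ≥ 0`. So the sum equals `∑_y U(y)`, `U(y) = #{u : q ∣ u - u0, uu a x y (-N) ≤ u ≤ uu a x y N}` provided the radicand of
  `uu a x y (-N)` is `≥ 0` (true as `uu a x y (-N) > 0` by `size_u`).
* For real `0 ≤ α ≤ β` the number of `u : ℕ` in `[α, β]` in a class modulo `q` is between `(β - α)/q - 1` and `(β - α)/q + 1`.
* `β - α` for `α = uu a x y (-N)`, `β = uu a x y N`: `(β - α)(β + α) = 8 N` (`β² - α² = 8N`), and `(2 - 2η) a x y ≤ β + α ≤ (2 + 2η) a x y` (`size_u`), so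
  `4N/((1+η) a x y) ≤ β - α ≤ 4N/((1-η) a x y)`.
* `first_low`: `∑_y U(y) ≥ ∑_{y ≡ y0 (Q)} (4N/((1+η) q a x y) - 1)`, and `1 ≤ η 4N/(q a x y)` since `a x y ≤ 2 a x Y ≤ √N exp (ℓ/2)` is
  `o(N)`... (`N/(√N exp (ℓ/2)) → ∞`). And `∑_{y ∈ [Y, 2Y), y ≡ y0 (Q)} 1/y ≥ log ((2Y-1)/(Y+Q))/Q ≥ (1-η) log 2/Q` by `ap_low_gen` (with `α = Y`,
  `β = 2Y - 1`; `Ico Y (2Y) = Icc Y (2Y-1)`), as `Y ≥ √N exp (-ℓ) → ∞` uniformly. With `K1 = 4 log 2/(q Q a)` this gives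
  `≥ (1 - ε) K1 N/x`.
* `first_up`: there are at most `Y` values of `y ≥ Y`, and `U(y) ≤ 4N/((1-η) q a x y) + 1 ≤ 6N/(a x Y)`; total `≤ 6 N/(a x) ≤ 10 N/x`.
-/

namespace Pool.Agent.MK47

open Finset Filter

private theorem fc_count (q : ℕ) (hq : 0 < q) (v : ℤ) (α β : ℝ) (hα : 0 ≤ α) (hαβ : α ≤ β) :
    (β - α) / q - 1 ≤
      (((Icc ⌈α⌉₊ ⌊β⌋₊).filter fun u : ℕ => (q : ℤ) ∣ (u : ℤ) - v).card : ℝ) ∧
    (((Icc ⌈α⌉₊ ⌊β⌋₊).filter fun u : ℕ => (q : ℤ) ∣ (u : ℤ) - v).card : ℝ) ≤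
      (β - α) / q + 1 := by
  have hβ : 0 ≤ β := hα.trans hαβ
  have h1 : ((Icc ⌈α⌉₊ ⌊β⌋₊).filter fun u : ℕ => (q : ℤ) ∣ (u : ℤ) - v).card =
      ((Ioc (⌈α⌉ - 1) ⌊β⌋).filter fun z : ℤ => z ≡ v [ZMOD q]).card := by
    apply Finset.card_bij (fun (u : ℕ) _ => (u : ℤ))
    · intro u hu
      rw [mem_filter, mem_Icc] at hu
      rw [mem_filter, mem_Ioc]
      obtain ⟨⟨h1, h2⟩, h3⟩ := hu
      have h4 : α ≤ u := Nat.ceil_le.1 h1
      have h5 : (u : ℝ) ≤ β := (Nat.le_floor_iff hβ).1 h2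
      refine ⟨⟨?_, ?_⟩, (Int.modEq_iff_dvd.2 h3).symm⟩
      · have : ⌈α⌉ ≤ (u : ℤ) := Int.ceil_le.2 (by exact_mod_cast h4)
        omega
      · exact Int.le_floor.2 (by exact_mod_cast h5)
    · intro u _ v _ h
      exact_mod_cast h
    · intro z hz
      rw [mem_filter, mem_Ioc] at hz
      obtain ⟨⟨h1, h2⟩, h3⟩ := hz
      have h4 : ⌈α⌉ ≤ z := by omega
      have h5 : α ≤ z := Int.ceil_le.1 h4
      have h6 : (z : ℝ) ≤ β := Int.le_floor.1 h2
      have h7 : 0 ≤ z := by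
        have : (0 : ℝ) ≤ z := hα.trans h5
        exact_mod_cast this
      have h8 : ((z.toNat : ℕ) : ℤ) = z := Int.toNat_of_nonneg h7
      have h9 : ((z.toNat : ℕ) : ℝ) = (z : ℝ) := by exact_mod_cast congrArg (Int.cast (R := ℝ)) h8
      refine ⟨z.toNat, ?_, h8⟩
      rw [mem_filter, mem_Icc]
      refine ⟨⟨Nat.ceil_le.2 (by rw [h9]; exact h5), (Nat.le_floor_iff hβ).2 (by rw [h9]; exact h6)⟩,
        ?_⟩
      rw [h8]
      exact Int.modEq_iff_dvd.1 h3.symm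
  have h2 := Int.Ioc_filter_modEq_card (⌈α⌉ - 1) ⌊β⌋ (r := (q : ℤ)) (by exact_mod_cast hq) v
  rw [← h1] at h2
  set n : ℕ := ((Icc ⌈α⌉₊ ⌊β⌋₊).filter fun u : ℕ => (q : ℤ) ∣ (u : ℤ) - v).card with hn
  have hqq : (0 : ℚ) < ((q : ℤ) : ℚ) := by exact_mod_cast hq
  have hqr : (0 : ℝ) < q := by exact_mod_cast hq
  have f : ∀ m : ℤ, (q : ℤ) * ⌊((m : ℚ) - (v : ℚ)) / ((q : ℤ) : ℚ)⌋ ≤ m - v ∧
      m - v + 1 ≤ q * (⌊((m : ℚ) - (v : ℚ)) / ((q : ℤ) : ℚ)⌋ + 1) := by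
    intro m
    set k := ⌊((m : ℚ) - (v : ℚ)) / ((q : ℤ) : ℚ)⌋ with hk
    have g1 : (k : ℚ) ≤ ((m : ℚ) - (v : ℚ)) / ((q : ℤ) : ℚ) := Int.floor_le _
    have g2 : ((m : ℚ) - (v : ℚ)) / ((q : ℤ) : ℚ) < k + 1 := Int.lt_floor_add_one _
    rw [le_div_iff₀ hqq] at g1
    rw [div_lt_iff₀ hqq] at g2
    have g3 : k * (q : ℤ) ≤ m - v := by exact_mod_cast g1
    have g4 : m - v < (k + 1) * (q : ℤ) := by exact_mod_cast g2
    constructor <;> linarith
  obtain ⟨a1, a2⟩ := f ⌊β⌋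
  obtain ⟨b1, b2⟩ := f (⌈α⌉ - 1)
  set k1 := ⌊((⌊β⌋ : ℚ) - (v : ℚ)) / ((q : ℤ) : ℚ)⌋ with hk1
  set k2 := ⌊(((⌈α⌉ - 1 : ℤ) : ℚ) - (v : ℚ)) / ((q : ℤ) : ℚ)⌋ with hk2
  have c1 : (⌊β⌋ : ℝ) ≤ β := Int.floor_le _
  have c2 : β < ⌊β⌋ + 1 := Int.lt_floor_add_one _
  have c3 : α ≤ ⌈α⌉ := Int.le_ceil _
  have c4 : (⌈α⌉ : ℝ) < α + 1 := Int.ceil_lt_add_one _
  have a1' : (q : ℝ) * k1 ≤ ⌊β⌋ - v := by exact_mod_cast a1
  have a2' : (⌊β⌋ : ℝ) - v + 1 ≤ q * (k1 + 1) := by exact_mod_cast a2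
  have b1' : (q : ℝ) * k2 ≤ (⌈α⌉ : ℝ) - 1 - v := by exact_mod_cast b1
  have b2' : (⌈α⌉ : ℝ) - 1 - v + 1 ≤ q * (k2 + 1) := by exact_mod_cast b2
  have hn1 : (k1 : ℝ) - k2 ≤ n := by
    have : k1 - k2 ≤ (n : ℤ) := by
      rw [h2]
      exact le_max_left _ _
    exact_mod_cast this
  constructor
  · rw [sub_le_iff_le_add, div_le_iff₀ hqr]
    nlinarith
  · have hd : 0 ≤ (β - α) / q + 1 := by
      have : 0 ≤ (β - α) / q := div_nonneg (by linarith) hqr.le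
      linarith
    rcases le_total (k1 - k2) 0 with h | h
    · have : (n : ℤ) = 0 := by
        rw [h2]
        exact max_eq_right h
      have h0 : (n : ℝ) = 0 := by exact_mod_cast this
      rw [h0]
      exact hd
    · have : (n : ℤ) = k1 - k2 := by
        rw [h2]
        exact max_eq_left h
      have h0 : (n : ℝ) = k1 - k2 := by exact_mod_cast this
      rw [h0, ← sub_le_iff_le_add, le_div_iff₀ hqr]
      nlinarith

/-- The values of `y` in the class. -/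
private noncomputable def fcY (c : Cls) (N x : ℕ) : Finset ℕ :=
  (Ico (YY c.a N x) (2 * YY c.a N x)).filter fun y => (c.Q : ℤ) ∣ (y : ℤ) - c.y0

/-- The values of `u` in the class, in the range of `u`. -/
private noncomputable def fcU (c : Cls) (N x y : ℕ) : Finset ℕ :=
  (Icc ⌈uu c.a x y (-N)⌉₊ ⌊uu c.a x y N⌋₊).filter fun u => (c.q : ℤ) ∣ (u : ℤ) - c.u0

open Classical in
/-- The values of `b` for which `u` exists. -/
private noncomputable def fcB (c : Cls) (N x y : ℕ) : Finset ℤ :=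
  (Icc (-(N : ℤ)) N).filter fun b => ∃ u : ℕ, (c.q : ℤ) ∣ (u : ℤ) - c.u0 ∧
      (u : ℤ) ^ 2 = DD c.a x * (y : ℤ) ^ 2 + 4 * b - 4 * (x : ℤ) ^ 2

open Classical in
private theorem fc_rr (c : Cls) (N x : ℕ) (b : ℤ) : rr c N x b =
    ((Ico (YY c.a N x) (2 * YY c.a N x)).filter fun y : ℕ => (c.Q : ℤ) ∣ (y : ℤ) - c.y0 ∧
      ∃ u : ℕ, (c.q : ℤ) ∣ (u : ℤ) - c.u0 ∧
      (u : ℤ) ^ 2 = DD c.a x * (y : ℤ) ^ 2 + 4 * b - 4 * (x : ℤ) ^ 2).card := by
  unfold rr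
  rw [← card_map ⟨(fun y : ℕ => (y : ℤ)), Nat.cast_injective⟩]
  congr 1
  ext z
  simp only [mem_filter, Finset.mem_map, Function.Embedding.coeFn_mk, Finset.bind_def, Finset.pure_def,
    Finset.mem_sup, Finset.mem_singleton]
  constructor
  · rintro ⟨⟨y, hy, rfl⟩, h⟩
    exact ⟨y, ⟨hy, h⟩, rfl⟩
  · rintro ⟨y, ⟨hy, h⟩, rfl⟩
    exact ⟨⟨y, hy, rfl⟩, h⟩

private theorem fc_swap (c : Cls) (N x : ℕ) :
    ∑ b ∈ Icc (-(N : ℤ)) N, rr c N x b = ∑ y ∈ fcY c N x, (fcB c N x y).card := by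
  classical
  simp_rw [fc_rr]
  unfold fcY fcB
  simp_rw [card_eq_sum_ones, sum_filter]
  rw [sum_comm]
  apply sum_congr rfl
  intro y _
  by_cases hy : (c.Q : ℤ) ∣ (y : ℤ) - c.y0
  · rw [if_pos hy]
    apply sum_congr rfl
    intro b _
    by_cases hb : ∃ u : ℕ, (c.q : ℤ) ∣ (u : ℤ) - c.u0 ∧
      (u : ℤ) ^ 2 = DD c.a x * (y : ℤ) ^ 2 + 4 * b - 4 * (x : ℤ) ^ 2
    · rw [if_pos ⟨hy, hb⟩, if_pos hb]
    · rw [if_neg (fun h => hb h.2), if_neg hb]
  · rw [if_neg hy]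
    apply sum_eq_zero
    intro b _
    rw [if_neg (fun h => hy h.1)]

private theorem fc_uu (a x y : ℕ) (t : ℝ) (h : 0 < uu a x y t) :
    (uu a x y t) ^ 2 = ((a : ℝ) ^ 2 * (x : ℝ) ^ 2 - 4) * (y : ℝ) ^ 2 + 4 * t - 4 * (x : ℝ) ^ 2 := by
  unfold uu at h ⊢
  exact Real.sq_sqrt (Real.sqrt_pos.1 h).le

private theorem fc_card (c : Cls) (N x y : ℕ) (hx : (c.Q : ℤ) ∣ (x : ℤ) - c.x0)
    (hy : (c.Q : ℤ) ∣ (y : ℤ) - c.y0) (h1 : 0 < uu c.a x y (-N)) (h2 : 0 < uu c.a x y N) :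
    (fcB c N x y).card = (fcU c N x y).card := by
  classical
  have e1 := fc_uu c.a x y (-N) h1
  have e2 := fc_uu c.a x y N h2
  apply le_antisymm
  · -- from `b` to `u`
    have hex : ∀ b ∈ fcB c N x y, ∃ u : ℕ, u ∈ fcU c N x y ∧
        (u : ℤ) ^ 2 = DD c.a x * (y : ℤ) ^ 2 + 4 * b - 4 * (x : ℤ) ^ 2 := by
      intro b hb
      unfold fcB at hb
      rw [mem_filter, mem_Icc] at hb
      obtain ⟨⟨hb1, hb2⟩, u, hu1, hu2⟩ := hb
      refine ⟨u, ?_, hu2⟩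
      unfold fcU
      have hu3 : (u : ℝ) ^ 2 = ((c.a : ℝ) ^ 2 * (x : ℝ) ^ 2 - 4) * (y : ℝ) ^ 2 + 4 * b -
          4 * (x : ℝ) ^ 2 := by
        unfold DD at hu2
        exact_mod_cast hu2
      have hb1' : -(N : ℝ) ≤ b := by exact_mod_cast hb1
      have hb2' : (b : ℝ) ≤ N := by exact_mod_cast hb2
      rw [mem_filter, mem_Icc]
      refine ⟨⟨Nat.ceil_le.2 ?_, Nat.le_floor ?_⟩, hu1⟩
      · apply (pow_le_pow_iff_left₀ h1.le (Nat.cast_nonneg _) two_ne_zero).1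
        rw [e1, hu3]
        linarith
      · apply (pow_le_pow_iff_left₀ (Nat.cast_nonneg _) h2.le two_ne_zero).1
        rw [e2, hu3]
        linarith
    choose! F hF using hex
    apply Finset.card_le_card_of_injOn F
    · intro b hb
      exact (hF b hb).1
    · intro b hb b' hb' h
      have g1 := (hF b hb).2
      have g2 := (hF b' hb').2
      have h' : F b = F b' := h
      rw [h'] at g1
      rw [g1] at g2
      linarith
  · -- from `u` to `b`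
    have hex : ∀ u ∈ fcU c N x y, ∃ b : ℤ, b ∈ fcB c N x y ∧
        (u : ℤ) ^ 2 = DD c.a x * (y : ℤ) ^ 2 + 4 * b - 4 * (x : ℤ) ^ 2 := by
      intro u hu
      unfold fcU at hu
      rw [mem_filter, mem_Icc] at hu
      obtain ⟨⟨hu1, hu2⟩, hu3⟩ := hu
      have hu1' : uu c.a x y (-N) ≤ (u : ℝ) := Nat.ceil_le.1 hu1
      have hu2' : (u : ℝ) ≤ uu c.a x y N := (Nat.le_floor_iff h2.le).1 hu2
      have s1 : (uu c.a x y (-N)) ^ 2 ≤ (u : ℝ) ^ 2 := pow_le_pow_left₀ h1.le hu1' 2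
      have s2 : (u : ℝ) ^ 2 ≤ (uu c.a x y N) ^ 2 := pow_le_pow_left₀ (Nat.cast_nonneg _) hu2' 2
      rw [e1] at s1
      rw [e2] at s2
      have hm := form_mod c x y u hx hy hu3
      have hm4 : (4 : ℤ) ∣ (u : ℤ) ^ 2 - ((c.a : ℤ) ^ 2 * (x : ℤ) ^ 2 - 4) * (y : ℤ) ^ 2 +
          4 * (x : ℤ) ^ 2 := by
        have g1 : (4 : ℤ) ∣ ((4 * c.B : ℕ) : ℤ) := by
          push_cast
          exact dvd_mul_right _ _
        have g2 := g1.trans hm
        have g3 : (4 : ℤ) ∣ 4 * c.beta := dvd_mul_right _ _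
        have g4 := dvd_add g2 g3
        rwa [sub_add_cancel] at g4
      obtain ⟨b, hb⟩ := hm4
      have hb' : (u : ℤ) ^ 2 = DD c.a x * (y : ℤ) ^ 2 + 4 * b - 4 * (x : ℤ) ^ 2 := by
        unfold DD
        linarith
      refine ⟨b, ?_, hb'⟩
      have hbr : (u : ℝ) ^ 2 = ((c.a : ℝ) ^ 2 * (x : ℝ) ^ 2 - 4) * (y : ℝ) ^ 2 + 4 * b -
          4 * (x : ℝ) ^ 2 := by
        have := hb'
        unfold DD at this
        exact_mod_cast this
      unfold fcB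
      rw [mem_filter, mem_Icc]
      refine ⟨⟨?_, ?_⟩, u, hu3, hb'⟩
      · have : -(N : ℝ) ≤ b := by linarith
        exact_mod_cast this
      · have : (b : ℝ) ≤ N := by linarith
        exact_mod_cast this
    choose! F hF using hex
    apply Finset.card_le_card_of_injOn F
    · intro b hb
      exact (hF b hb).1
    · intro u hu u' hu' h
      have g1 := (hF u hu).2
      have g2 := (hF u' hu').2
      have h' : F u = F u' := h
      rw [h', ← g2] at g1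
      have g3 : u ^ 2 = u' ^ 2 := by exact_mod_cast g1
      exact Nat.pow_left_injective two_ne_zero g3

/-- The bounds for `β - α`. -/
private theorem fc_diff (η T a b N : ℝ) (hη : 0 < η) (hη1 : η < 1) (hT : 0 < T) (hN : 0 < N)
    (ha : (1 - η) * T ≤ a) (hb : b ≤ (1 + η) * T) (hab : a ≤ b) (hd : b ^ 2 - a ^ 2 = 8 * N) :
    4 * N / ((1 + η) * T) ≤ b - a ∧ b - a ≤ 4 * N / ((1 - η) * T) := by
  have ha0 : 0 < a := lt_of_lt_of_le (by nlinarith) ha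
  have hd' : (b - a) * (b + a) = 8 * N := by linarith
  constructor
  · rw [div_le_iff₀ (by positivity)]
    nlinarith
  · rw [le_div_iff₀ (by nlinarith)]
    nlinarith

private theorem fc_basic (c : Cls) (η : ℝ) (hη : 0 < η) (hη1 : η < 1) :
    ∀ᶠ N : ℕ in atTop, ∀ x ∈ XX c N, 0 < x ∧ 0 < YY c.a N x ∧
    ((∑ b ∈ Icc (-(N : ℤ)) N, rr c N x b : ℕ) : ℝ) = ∑ y ∈ fcY c N x, ((fcU c N x y).card : ℝ) ∧
    ∀ y ∈ fcY c N x,
      4 * N / ((1 + η) * ((c.a : ℝ) * x * y)) / c.q - 1 ≤ ((fcU c N x y).card : ℝ) ∧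
      ((fcU c N x y).card : ℝ) ≤ 4 * N / ((1 - η) * ((c.a : ℝ) * x * y)) / c.q + 1 := by
  filter_upwards [size_u c.a c.a_pos η hη, size_Y c.a c.a_pos, x_large 3,
    eventually_ge_atTop 1] with N hu hY hx3 hN1 x hx
  obtain ⟨hxa, hxb, hxc⟩ := mem_XX hx
  have hNr : (0 : ℝ) < N := by exact_mod_cast hN1
  have hS0 : 0 < Real.sqrt N := Real.sqrt_pos.2 hNr
  have hx0 : (0 : ℝ) < x := by
    have := hx3 x hxa
    linarith
  have hx0' : 0 < x := by exact_mod_cast hx0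
  have ha0 : (0 : ℝ) < c.a := by exact_mod_cast c.a_pos
  have hY0 : (0 : ℝ) < YY c.a N x :=
    lt_of_lt_of_le (mul_pos hS0 (Real.exp_pos _)) (hY x hxa hxb).2.2.1
  have hY0' : 0 < YY c.a N x := by exact_mod_cast hY0
  have hq0 : 0 < c.q := by
    unfold Cls.q
    exact Nat.mul_pos c.g_pos c.h_pos
  have hqr : (0 : ℝ) < c.q := by exact_mod_cast hq0
  have hax : 2 ≤ c.a * x := by
    have h1 : 3 ≤ x := by exact_mod_cast hx3 x hxa
    have h2 : 1 ≤ c.a := c.a_pos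
    nlinarith
  have key : ∀ y ∈ fcY c N x, (c.Q : ℤ) ∣ (y : ℤ) - c.y0 ∧ 0 < uu c.a x y (-N) ∧
      0 < uu c.a x y N ∧ 4 * N / ((1 + η) * ((c.a : ℝ) * x * y)) ≤ uu c.a x y N - uu c.a x y (-N) ∧
      uu c.a x y N - uu c.a x y (-N) ≤ 4 * N / ((1 - η) * ((c.a : ℝ) * x * y)) ∧
      uu c.a x y (-N) ≤ uu c.a x y N := by
    intro y hy
    unfold fcY at hy
    rw [mem_filter, mem_Ico] at hy
    obtain ⟨⟨hy1, hy2⟩, hy3⟩ := hy
    have hy1' : (YY c.a N x : ℝ) ≤ y := by exact_mod_cast hy1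
    have hy2' : (y : ℝ) ≤ 3 * YY c.a N x := by
      have : y ≤ 3 * YY c.a N x := by omega
      exact_mod_cast this
    have hy0 : (0 : ℝ) < y := lt_of_lt_of_le hY0 hy1'
    obtain ⟨u1, u2⟩ := hu x hxa hxb y hy1' hy2'
    have hT : 0 < (c.a : ℝ) * x * y := by positivity
    have hp1 : 0 < uu c.a x y (-N) := lt_of_lt_of_le (mul_pos (by linarith) hT) u1
    have hmono : uu c.a x y (-N) ≤ uu c.a x y N :=
      uu_mono c.a x hax y y (-N) N hy0.le le_rfl (by linarith)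
    have hp2 : 0 < uu c.a x y N := lt_of_lt_of_le hp1 hmono
    have e1 := fc_uu c.a x y (-N) hp1
    have e2 := fc_uu c.a x y N hp2
    obtain ⟨d1, d2⟩ := fc_diff η _ _ _ N hη hη1 hT hNr u1 u2 hmono (by rw [e1, e2]; ring)
    exact ⟨hy3, hp1, hp2, d1, d2, hmono⟩
  refine ⟨hx0', hY0', ?_, ?_⟩
  · rw [fc_swap]
    push_cast
    apply sum_congr rfl
    intro y hy
    obtain ⟨k1, k2, k3, -⟩ := key y hy
    rw [fc_card c N x y hxc k1 k2 k3]
  · intro y hy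
    obtain ⟨k1, k2, k3, k4, k5, k6⟩ := key y hy
    obtain ⟨f1, f2⟩ := fc_count c.q hq0 c.u0 _ _ k2.le k6
    constructor
    · refine le_trans ?_ f1
      have := div_le_div_of_nonneg_right k4 hqr.le
      linarith
    · refine f2.trans ?_
      have := div_le_div_of_nonneg_right k5 hqr.le
      linarith

private theorem fc_evt (M : ℝ) : ∀ᶠ N : ℕ in atTop, 1 ≤ N ∧
    M ≤ Real.sqrt N * Real.exp (-ell N) := by
  have h : ∀ᶠ l : ℝ in atTop, M ≤ Real.exp (l ^ 10 / 2 - l) := by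
    filter_upwards [eventually_ge_atTop (4 : ℝ), eventually_ge_atTop M] with l h1 h2
    have h3 : l ^ 10 / 2 - l ≥ l := by
      have h4 : (4 : ℝ) ≤ l ^ 9 := by
        calc (4 : ℝ) ≤ 4 ^ 9 := by norm_num
          _ ≤ l ^ 9 := pow_le_pow_left₀ (by norm_num) h1 9
      have h5 : l ^ 10 = l * l ^ 9 := by ring
      nlinarith
    have h6 := Real.add_one_le_exp (l ^ 10 / 2 - l)
    linarith
  filter_upwards [ell_tendsto.eventually h, eventually_ge_atTop 1] with N hN hN1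
  refine ⟨hN1, ?_⟩
  rw [sqrt_ell N hN1, ← Real.exp_add, ← sub_eq_add_neg]
  exact hN

private theorem fc_ylog (Q : ℕ) (η : ℝ) (hη : 0 < η) :
    ∃ Y0 : ℕ, 1 ≤ Y0 ∧ ∀ Y : ℕ, Y0 ≤ Y →
      (1 - η) * Real.log 2 ≤ Real.log ((2 * (Y : ℝ) - 1) / (Y + Q)) := by
  have h1 : Tendsto (fun Y : ℕ => (2 * (Y : ℝ) - 1) / (Y + Q)) atTop (nhds 2) := by
    have e : ∀ᶠ Y : ℕ in atTop, 2 - (2 * Q + 1) / ((Y : ℝ) + Q) = (2 * (Y : ℝ) - 1) / (Y + Q) := by
      filter_upwards [eventually_ge_atTop 1] with Y hY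
      have : (0 : ℝ) < Y + Q := by
        have : (1 : ℝ) ≤ Y := by exact_mod_cast hY
        positivity
      field_simp
      ring
    refine Tendsto.congr' e ?_
    have h2 : Tendsto (fun Y : ℕ => (2 * (Q : ℝ) + 1) / ((Y : ℝ) + Q)) atTop (nhds 0) := by
      apply Tendsto.div_atTop tendsto_const_nhds
      exact tendsto_atTop_add_const_right _ _ tendsto_natCast_atTop_atTop
    have h3 := (tendsto_const_nhds (x := (2 : ℝ))).sub h2
    rw [sub_zero] at h3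
    exact h3
  have h2 : Tendsto (fun Y : ℕ => Real.log ((2 * (Y : ℝ) - 1) / (Y + Q))) atTop
      (nhds (Real.log 2)) := (Real.continuousAt_log (by norm_num)).tendsto.comp h1
  have h3 : (1 - η) * Real.log 2 < Real.log 2 := by
    have : 0 < Real.log 2 := Real.log_pos (by norm_num)
    nlinarith
  obtain ⟨Y0, hY0⟩ := eventually_atTop.1 (h2.eventually_const_lt h3)
  exact ⟨max Y0 1, le_max_right _ _, fun Y hY => (hY0 Y ((le_max_left _ _).trans hY)).le⟩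

theorem first_low (c : Cls) (ε : ℝ) (hε : 0 < ε) : ∀ᶠ N : ℕ in atTop, ∀ x ∈ XX c N,
    (1 - ε) * K1 c * (N / x) ≤ ((∑ b ∈ Icc (-(N : ℤ)) N, rr c N x b : ℕ) : ℝ) := by
  obtain ⟨η, hη, hη1, hη2⟩ : ∃ η : ℝ, 0 < η ∧ η < 1 ∧ 3 * η ≤ ε := by
    refine ⟨min (1 / 2) (ε / 3), lt_min (by norm_num) (by linarith),
      lt_of_le_of_lt (min_le_left _ _) (by norm_num), ?_⟩
    have := min_le_right (1 / 2 : ℝ) (ε / 3)
    linarith
  have hq0 : 0 < c.q := by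
    unfold Cls.q
    exact Nat.mul_pos c.g_pos c.h_pos
  have hqr : (0 : ℝ) < c.q := by exact_mod_cast hq0
  have hQ0 : 0 < c.Q := by
    have h1 := c.g_pos
    have h2 := c.h_pos
    unfold Cls.Q
    positivity
  have hQr : (0 : ℝ) < c.Q := by exact_mod_cast hQ0
  have ha0 : (0 : ℝ) < c.a := by exact_mod_cast c.a_pos
  have hlog2 : 0 < Real.log 2 := Real.log_pos (by norm_num)
  obtain ⟨Y0, hY01, hY0⟩ := fc_ylog c.Q η hη
  filter_upwards [fc_basic c η hη hη1, size_Y c.a c.a_pos, fc_evt Y0,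
    fc_evt ((1 + η) * c.q / η)] with N hb hY hev hev2 x hx
  obtain ⟨hxa, hxb, hxc⟩ := mem_XX hx
  obtain ⟨hx0, hYp, hsum, hU⟩ := hb x hx
  obtain ⟨hN1, hev1⟩ := hev
  have hNr : (0 : ℝ) < N := by exact_mod_cast hN1
  have hx0r : (0 : ℝ) < x := by exact_mod_cast hx0
  have hYr : (Y0 : ℝ) ≤ YY c.a N x := hev1.trans (hY x hxa hxb).2.2.1
  have hYn : Y0 ≤ YY c.a N x := by exact_mod_cast hYr
  have hYr0 : (0 : ℝ) < YY c.a N x := by exact_mod_cast hYp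
  -- each term
  have hterm : ∀ y ∈ fcY c N x,
      (1 - η) * (4 * N / ((1 + η) * ((c.a : ℝ) * x)) / c.q) * (1 / (y : ℝ)) ≤
      ((fcU c N x y).card : ℝ) := by
    intro y hy
    refine le_trans ?_ (hU y hy).1
    unfold fcY at hy
    rw [mem_filter, mem_Ico] at hy
    obtain ⟨⟨hy1, hy2⟩, hy3⟩ := hy
    have hy0 : (0 : ℝ) < y := by
      have : 0 < y := by omega
      exact_mod_cast this
    have hy2' : (y : ℝ) ≤ 2 * YY c.a N x := by exact_mod_cast hy2.le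
    have e1 : 4 * N / ((1 + η) * ((c.a : ℝ) * x * y)) / c.q =
        4 * N / ((1 + η) * ((c.a : ℝ) * x)) / c.q * (1 / (y : ℝ)) := by
      field_simp
    rw [e1]
    have e2 : 1 ≤ η * (4 * N / ((1 + η) * ((c.a : ℝ) * x)) / c.q * (1 / (y : ℝ))) := by
      rw [← e1, div_div, mul_div_assoc', one_le_div (by positivity)]
      -- `(1 + η) a x y q ≤ η 4 N`
      have g1 : (c.a : ℝ) * x * y ≤ Real.sqrt N * Real.exp (ell N / 2) := by
        have g2 : (c.a : ℝ) * x * y ≤ (c.a : ℝ) * x * (2 * YY c.a N x) :=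
          mul_le_mul_of_nonneg_left hy2' (by positivity)
        have g3 := (hY x hxa hxb).2.1
        have g4 : 0 ≤ (c.a : ℝ) * x * YY c.a N x := by positivity
        linarith
      have g5 : (1 + η) * c.q ≤ η * (Real.sqrt N * Real.exp (-ell N)) := by
        have := hev2.2
        rw [div_le_iff₀ hη] at this
        linarith
      have g6 : Real.exp (-ell N) * Real.exp (ell N / 2) ≤ 1 := by
        rw [← Real.exp_add]
        apply Real.exp_le_one_iff.2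
        have := ell_nonneg N
        linarith
      have g7 : Real.sqrt N * Real.sqrt N = N := Real.mul_self_sqrt hNr.le
      have hS0 : 0 ≤ Real.sqrt N := Real.sqrt_nonneg _
      calc (1 + η) * ((c.a : ℝ) * x * y) * c.q = ((1 + η) * c.q) * ((c.a : ℝ) * x * y) := by ring
        _ ≤ (η * (Real.sqrt N * Real.exp (-ell N))) * (Real.sqrt N * Real.exp (ell N / 2)) := by
            apply mul_le_mul g5 g1 (by positivity) (by positivity)
        _ = η * (Real.sqrt N * Real.sqrt N) * (Real.exp (-ell N) * Real.exp (ell N / 2)) := by ring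
        _ ≤ η * (Real.sqrt N * Real.sqrt N) * 1 := by
            apply mul_le_mul_of_nonneg_left g6 (by positivity)
        _ = η * N := by rw [g7, mul_one]
        _ ≤ η * (4 * N) := by nlinarith
    linarith
  rw [hsum]
  refine le_trans ?_ (sum_le_sum hterm)
  rw [← mul_sum]
  -- the sum of `1/y`
  have hlow : (1 - η) * Real.log 2 / c.Q ≤ ∑ y ∈ fcY c N x, 1 / (y : ℝ) := by
    have h1 : (1 : ℝ) ≤ YY c.a N x := by exact_mod_cast hYp
    have h2 := ap_low_gen c.Q hQ0 c.y0 (YY c.a N x) (2 * YY c.a N x - 1) h1 (by linarith)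
    have h3 : (Icc ⌈(YY c.a N x : ℝ)⌉₊ ⌊2 * (YY c.a N x : ℝ) - 1⌋₊).filter
        (fun y : ℕ => (c.Q : ℤ) ∣ (y : ℤ) - c.y0) = fcY c N x := by
      unfold fcY
      congr 1
      rw [Nat.ceil_natCast]
      have h4 : ⌊2 * (YY c.a N x : ℝ) - 1⌋₊ = 2 * YY c.a N x - 1 := by
        have h5 : 2 * (YY c.a N x : ℝ) - 1 = ((2 * YY c.a N x - 1 : ℕ) : ℝ) := by
          rw [Nat.cast_sub (by omega)]
          push_cast
          ring
        rw [h5, Nat.floor_natCast]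
      rw [h4]
      ext y
      rw [mem_Icc, mem_Ico]
      omega
    rw [h3] at h2
    refine le_trans ?_ h2
    exact div_le_div_of_nonneg_right (hY0 _ hYn) hQr.le
  have hc0 : 0 ≤ (1 - η) * (4 * N / ((1 + η) * ((c.a : ℝ) * x)) / c.q) := by
    apply mul_nonneg (by linarith)
    positivity
  refine le_trans ?_ (mul_le_mul_of_nonneg_left hlow hc0)
  have hK : K1 c = 4 * Real.log 2 / ((c.q : ℝ) * c.Q * c.a) := rfl
  have e3 : (1 - η) * (4 * N / ((1 + η) * ((c.a : ℝ) * x)) / c.q) *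
      ((1 - η) * Real.log 2 / c.Q) = (1 - η) ^ 2 / (1 + η) * (K1 c * (N / x)) := by
    rw [hK]
    field_simp
  rw [e3, mul_assoc]
  apply mul_le_mul_of_nonneg_right
  · rw [le_div_iff₀ (by linarith)]
    nlinarith
  · rw [hK]
    positivity

theorem first_up (c : Cls) : ∀ᶠ N : ℕ in atTop, ∀ x ∈ XX c N,
    ((∑ b ∈ Icc (-(N : ℤ)) N, rr c N x b : ℕ) : ℝ) ≤ 10 * (N / x) := by
  have hq0 : 0 < c.q := by
    unfold Cls.q
    exact Nat.mul_pos c.g_pos c.h_pos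
  have hqr : (1 : ℝ) ≤ c.q := by exact_mod_cast hq0
  have ha0 : (0 : ℝ) < c.a := by exact_mod_cast c.a_pos
  have ha1 : (1 : ℝ) ≤ c.a := by exact_mod_cast c.a_pos
  filter_upwards [fc_basic c (1 / 10) (by norm_num) (by norm_num), size_Y c.a c.a_pos,
    fc_evt 1] with N hb hY hev x hx
  obtain ⟨hxa, hxb, hxc⟩ := mem_XX hx
  obtain ⟨hx0, hYp, hsum, hU⟩ := hb x hx
  obtain ⟨hN1, hev1⟩ := hev
  have hNr : (0 : ℝ) < N := by exact_mod_cast hN1
  have hx0r : (0 : ℝ) < x := by exact_mod_cast hx0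
  have hYr0 : (0 : ℝ) < YY c.a N x := by exact_mod_cast hYp
  have hT : 0 < (c.a : ℝ) * x * YY c.a N x := by positivity
  have hTN : (c.a : ℝ) * x * YY c.a N x ≤ N := by
    have g3 := (hY x hxa hxb).2.1
    have g6 : Real.exp (ell N / 2) * 1 ≤ Real.exp (ell N / 2) * (Real.sqrt N * Real.exp (-ell N)) :=
      mul_le_mul_of_nonneg_left hev1 (Real.exp_pos _).le
    have g8 : Real.exp (ell N / 2) * Real.exp (-ell N) ≤ 1 := by
      rw [← Real.exp_add]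
      apply Real.exp_le_one_iff.2
      have := ell_nonneg N
      linarith
    have g7 : Real.sqrt N * Real.sqrt N = N := Real.mul_self_sqrt hNr.le
    have hS0 : 0 ≤ Real.sqrt N := Real.sqrt_nonneg _
    have g9 : Real.exp (ell N / 2) ≤ Real.sqrt N := by
      nlinarith
    have g10 : Real.sqrt N * Real.exp (ell N / 2) ≤ Real.sqrt N * Real.sqrt N :=
      mul_le_mul_of_nonneg_left g9 hS0
    linarith
  have hterm : ∀ y ∈ fcY c N x, ((fcU c N x y).card : ℝ) ≤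
      6 * N / ((c.a : ℝ) * x * YY c.a N x) := by
    intro y hy
    refine (hU y hy).2.trans ?_
    unfold fcY at hy
    rw [mem_filter, mem_Ico] at hy
    obtain ⟨⟨hy1, hy2⟩, hy3⟩ := hy
    have hy1' : (YY c.a N x : ℝ) ≤ y := by exact_mod_cast hy1
    have hT2 : (c.a : ℝ) * x * YY c.a N x ≤ (c.a : ℝ) * x * y :=
      mul_le_mul_of_nonneg_left hy1' (by positivity)
    have e1 : 4 * N / ((1 - 1 / 10) * ((c.a : ℝ) * x * y)) / c.q ≤
        4 * N / ((1 - 1 / 10) * ((c.a : ℝ) * x * y)) := by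
      apply div_le_self _ hqr
      have : 0 < (c.a : ℝ) * x * y := lt_of_lt_of_le hT hT2
      positivity
    have e2 : 4 * N / ((1 - 1 / 10) * ((c.a : ℝ) * x * y)) ≤
        4 * N / ((1 - 1 / 10) * ((c.a : ℝ) * x * YY c.a N x)) := by
      apply div_le_div_of_nonneg_left (by positivity) (by positivity)
      linarith
    have e3 : (1 : ℝ) ≤ N / ((c.a : ℝ) * x * YY c.a N x) := by
      rw [one_le_div hT]
      exact hTN
    have e4 : 4 * (N : ℝ) / ((1 - 1 / 10) * ((c.a : ℝ) * x * YY c.a N x)) =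
        (40 / 9) * (N / ((c.a : ℝ) * x * YY c.a N x)) := by
      field_simp
      norm_num
    have e5 : 6 * (N : ℝ) / ((c.a : ℝ) * x * YY c.a N x) =
        6 * (N / ((c.a : ℝ) * x * YY c.a N x)) := by
      rw [mul_div_assoc]
    rw [e5]
    rw [e4] at e2
    linarith
  rw [hsum]
  refine (sum_le_sum hterm).trans ?_
  rw [sum_const, nsmul_eq_mul]
  have hcard : ((fcY c N x).card : ℝ) ≤ YY c.a N x := by
    have h1 : (fcY c N x).card ≤ (Ico (YY c.a N x) (2 * YY c.a N x)).card := card_filter_le _ _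
    rw [Nat.card_Ico] at h1
    have h2 : (fcY c N x).card ≤ YY c.a N x := by omega
    exact_mod_cast h2
  have h3 : (YY c.a N x : ℝ) * (6 * N / ((c.a : ℝ) * x * YY c.a N x)) = 6 * N / ((c.a : ℝ) * x) := by
    field_simp
  have h4 : ((fcY c N x).card : ℝ) * (6 * N / ((c.a : ℝ) * x * YY c.a N x)) ≤
      (YY c.a N x : ℝ) * (6 * N / ((c.a : ℝ) * x * YY c.a N x)) :=
    mul_le_mul_of_nonneg_right hcard (by positivity)
  rw [h3] at h4
  refine h4.trans ?_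
  rw [div_le_iff₀ (by positivity)]
  have h5 : 10 * ((N : ℝ) / x) * ((c.a : ℝ) * x) = 10 * N * c.a := by
    field_simp
  rw [h5]
  nlinarith

end Pool.Agent.MK47
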