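import Mathlib

/-!
# Geometric sums

`p` is an odd prime, `ψ = ZMod.stdAddChar`, `E k = ∑_{v ∈ [s, s+n)} ψ(k v)`.

* `geo_one`: for `k ≠ 0`, with `j` the integer with `|j| ≤ (p-1)/2` representing `k`
  (`ZMod.valMinAbs`): `‖E k‖ ≤ 2 / ‖ψ k - 1‖` (geometric series, numerator at most `2`), and
  `‖ψ k - 1‖ = 2 |sin (π j / p)| ≥ 4 |j| / p` (as `|sin θ| ≥ 2 |θ| / π` for `|θ| ≤ π / 2`,
  `Real.mul_abs_le_abs_sin` or `Real.mul_le_sin`); so `‖E k‖ ≤ p / (2 |j|)`. (`ψ k = exp (2 π i j / p)`: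
  `ZMod.stdAddChar_coe`; the norm `‖exp (i θ) - 1‖ = 2 |sin (θ/2)|`.)
* `geo_sum`: `∑_{k ≠ 0} ‖E k‖ ≤ 2 ∑_{j=1}^{(p-1)/2} p / (2 j) = p ∑_{j ≤ (p-1)/2} 1 / j ≤
  p (1 + log p)` (`harmonic_le_one_add_log`), and `‖E 0‖ = n ≤ p`. So the full sum is at most
  `p (2 + log p)`.
-/

namespace Pool.Agent.MK47

open Finset

variable (p : ℕ) [hp : Fact p.Prime]

theorem geo_one (s n : ℕ) (k : ZMod p) (hk : k ≠ 0) :
    ‖∑ v ∈ Ico s (s + n), (ZMod.stdAddChar (k * (v : ZMod p)) : ℂ)‖ ≤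
      p / (2 * |((k.valMinAbs : ℤ) : ℝ)|) := by
  have hp0 : (0 : ℝ) < p := by exact_mod_cast hp.out.pos
  set j : ℤ := k.valMinAbs with hj
  have hjk : ((j : ℤ) : ZMod p) = k := ZMod.coe_valMinAbs k
  have hj0 : j ≠ 0 := by
    intro h
    apply hk
    rw [← hjk, h]
    simp
  have hjpos : (0 : ℝ) < |(j : ℝ)| := by
    rw [abs_pos]
    exact_mod_cast hj0
  set z : ℂ := ZMod.stdAddChar k with hz
  have hterm : ∀ v : ℕ, (ZMod.stdAddChar (k * (v : ZMod p)) : ℂ) = z ^ v := by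
    intro v
    rw [hz, ← AddChar.map_nsmul_eq_pow]
    congr 1
    rw [nsmul_eq_mul, mul_comm]
  have hzn : ‖z‖ = 1 := by
    rw [hz, ZMod.stdAddChar_apply]
    exact Circle.norm_coe _
  have hz1 : z ≠ 1 := by
    intro h
    apply hk
    have h1 : (ZMod.stdAddChar k : ℂ) = ZMod.stdAddChar (0 : ZMod p) := by
      rw [AddChar.map_zero_eq_one]
      exact h
    exact ZMod.injective_stdAddChar h1
  have hnorm : 4 * |(j : ℝ)| / p ≤ ‖z - 1‖ := by
    have h1 : z = Complex.exp (Complex.I * ((2 * Real.pi * j / p : ℝ) : ℂ)) := by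
      rw [hz, ← hjk, ZMod.stdAddChar_coe]
      congr 1
      push_cast
      ring
    rw [h1, Complex.norm_exp_I_mul_ofReal_sub_one, norm_mul, Real.norm_eq_abs, Real.norm_eq_abs]
    have h2 : |Real.pi * j / p| ≤ Real.pi / 2 := by
      have h3 := ZMod.valMinAbs_mem_Ioc k
      rw [← hj] at h3
      have h4 : |(j : ℝ)| * 2 ≤ p := by
        have h5 : |j| * 2 ≤ (p : ℤ) := by
          rw [← abs_two, ← abs_mul]
          · rw [abs_le]
            exact ⟨le_of_lt h3.1, h3.2⟩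
        exact_mod_cast h5
      rw [abs_div, abs_mul, abs_of_pos Real.pi_pos, abs_of_pos hp0, div_le_div_iff₀ hp0 two_pos]
      nlinarith [Real.pi_pos]
    have h3 := Real.mul_abs_le_abs_sin h2
    have h4 : 2 * Real.pi * (j : ℝ) / p / 2 = Real.pi * j / p := by ring
    rw [h4, abs_two]
    have h5 : 2 / Real.pi * |Real.pi * (j : ℝ) / p| = 2 * |(j : ℝ)| / p := by
      rw [abs_div, abs_mul, abs_of_pos Real.pi_pos, abs_of_pos hp0]
      field_simp
    rw [h5] at h3
    have h6 : 4 * |(j : ℝ)| / p = 2 * (2 * |(j : ℝ)| / p) := by ring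
    rw [h6]
    exact mul_le_mul_of_nonneg_left h3 (by norm_num)
  have hpos : 0 < ‖z - 1‖ := norm_pos_iff.2 (sub_ne_zero.2 hz1)
  have hsum : ∑ v ∈ Ico s (s + n), (ZMod.stdAddChar (k * (v : ZMod p)) : ℂ) =
      (z ^ (s + n) - z ^ s) / (z - 1) := by
    rw [sum_congr rfl fun v _ => hterm v]
    exact geom_sum_Ico hz1 (Nat.le_add_right _ _)
  rw [hsum, norm_div]
  have hnum : ‖z ^ (s + n) - z ^ s‖ ≤ 2 := by
    refine (norm_sub_le _ _).trans ?_
    rw [norm_pow, norm_pow, hzn, one_pow, one_pow]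
    norm_num
  calc ‖z ^ (s + n) - z ^ s‖ / ‖z - 1‖ ≤ 2 / ‖z - 1‖ := by gcongr
    _ ≤ 2 / (4 * |(j : ℝ)| / p) := by
        apply div_le_div_of_nonneg_left (by norm_num) _ hnorm
        positivity
    _ = p / (2 * |(j : ℝ)|) := by
        field_simp
        norm_num

theorem geo_sum (h2 : p ≠ 2) (s n : ℕ) (hn : n ≤ p) :
    ∑ k : ZMod p, ‖∑ v ∈ Ico s (s + n), (ZMod.stdAddChar (k * (v : ZMod p)) : ℂ)‖ ≤
      p * (2 + Real.log p) := by
  have hp0 : (0 : ℝ) < p := by exact_mod_cast hp.out.pos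
  rw [← add_sum_erase univ _ (mem_univ (0 : ZMod p))]
  have h0 : ‖∑ v ∈ Ico s (s + n), (ZMod.stdAddChar ((0 : ZMod p) * (v : ZMod p)) : ℂ)‖ ≤ p := by
    have h1 : ∑ v ∈ Ico s (s + n), (ZMod.stdAddChar ((0 : ZMod p) * (v : ZMod p)) : ℂ) = n := by
      rw [sum_congr rfl fun v _ => by rw [zero_mul, AddChar.map_zero_eq_one]]
      rw [sum_const, Nat.card_Ico]
      simp
    rw [h1, Complex.norm_natCast]
    exact_mod_cast hn
  have h1 : ∑ k ∈ univ.erase (0 : ZMod p),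
      ‖∑ v ∈ Ico s (s + n), (ZMod.stdAddChar (k * (v : ZMod p)) : ℂ)‖ ≤ p * (1 + Real.log p) := by
    have h3 : ∑ k ∈ univ.erase (0 : ZMod p),
        ‖∑ v ∈ Ico s (s + n), (ZMod.stdAddChar (k * (v : ZMod p)) : ℂ)‖ ≤
        ∑ k ∈ univ.erase (0 : ZMod p), (p : ℝ) / (2 * ((k.valMinAbs.natAbs : ℕ) : ℝ)) := by
      refine sum_le_sum fun k hk => ?_
      refine (geo_one p s n k (ne_of_mem_erase hk)).trans (le_of_eq ?_)
      rw [Nat.cast_natAbs, Int.cast_abs]
    refine h3.trans ?_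
    have hmaps : ∀ k ∈ univ.erase (0 : ZMod p), k.valMinAbs.natAbs ∈ Icc 1 (p / 2) := by
      intro k hk
      rw [mem_Icc]
      constructor
      · rw [Nat.one_le_iff_ne_zero, Ne, Int.natAbs_eq_zero, ZMod.valMinAbs_eq_zero]
        exact ne_of_mem_erase hk
      · exact ZMod.natAbs_valMinAbs_le k
    rw [← sum_fiberwise_of_maps_to hmaps]
    have h4 : ∀ i ∈ Icc 1 (p / 2), ∑ k ∈ (univ.erase (0 : ZMod p)).filter
        (fun k => k.valMinAbs.natAbs = i), (p : ℝ) / (2 * ((k.valMinAbs.natAbs : ℕ) : ℝ)) ≤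
        p * (i : ℝ)⁻¹ := by
      intro i hi
      rw [mem_Icc] at hi
      have hi0 : (0 : ℝ) < i := by exact_mod_cast hi.1
      have hsub : (univ.erase (0 : ZMod p)).filter (fun k => k.valMinAbs.natAbs = i) ⊆
          {((i : ℤ) : ZMod p), ((-(i : ℤ) : ℤ) : ZMod p)} := by
        intro k hk
        rw [mem_filter] at hk
        rw [mem_insert, mem_singleton]
        have h5 : k.valMinAbs = i ∨ k.valMinAbs = -(i : ℤ) := by
          have := hk.2
          omega
        rcases h5 with h5 | h5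
        · left
          rw [← h5, ZMod.coe_valMinAbs]
        · right
          rw [← h5, ZMod.coe_valMinAbs]
      have hcard : ((univ.erase (0 : ZMod p)).filter
          (fun k => k.valMinAbs.natAbs = i)).card ≤ 2 := (card_le_card hsub).trans card_le_two
      rw [sum_congr rfl (g := fun _ => (p : ℝ) / (2 * (i : ℝ))) fun k hk => by
        rw [(mem_filter.1 hk).2]]
      rw [sum_const, nsmul_eq_mul]
      have hc : (((univ.erase (0 : ZMod p)).filter
          (fun k => k.valMinAbs.natAbs = i)).card : ℝ) ≤ 2 := by exact_mod_cast hcard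
      calc _ ≤ 2 * ((p : ℝ) / (2 * (i : ℝ))) := by
            apply mul_le_mul_of_nonneg_right hc
            positivity
        _ = p * (i : ℝ)⁻¹ := by field_simp
    refine (sum_le_sum h4).trans ?_
    rw [← mul_sum]
    apply mul_le_mul_of_nonneg_left _ hp0.le
    have h6 := harmonic_le_one_add_log (p / 2)
    rw [harmonic_eq_sum_Icc] at h6
    push_cast at h6
    refine h6.trans ?_
    have h7 : Real.log ((p / 2 : ℕ) : ℝ) ≤ Real.log p := by
      apply Real.log_le_log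
      · have : 0 < p / 2 := Nat.div_pos hp.out.two_le two_pos
        exact_mod_cast this
      · have : p / 2 ≤ p := Nat.div_le_self _ _
        exact_mod_cast this
    linarith
  calc _ ≤ (p : ℝ) + p * (1 + Real.log p) := add_le_add h0 h1
    _ = p * (2 + Real.log p) := by ring

end Pool.Agent.MK47
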