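import Pool.Agent.MK47.Defs

/-!
# A pointwise bound for `HH`

`A = DD a x`, `B = DD a x'`, `C = CC x x' = 4 (x'-x)(x'+x)`, `x ≠ x'`, `a x, a x' ≥ 3` (so `A, B > 0`, `C ≠ 0`). For a prime `p > P0` put
`κ_p = 1 + 8/(p-1)`, `δ_p = del A B p`. `1 + 8 δ + 8/(p-1) ≤ κ_p (1 + 8 δ_p)`. A prime `p > P0 ≥ 2` dividing `A B C` divides `A`, `B`,
`x - x'` or `x + x'`; so (all `κ_p ≥ 1`) `∏_{p ∣ ABC, p > P0} κ_p ≤ t1 t2 t3 t4` with
`t1 = ∏_{p ∣ A, p > P0} κ_p` etc. (for `A`, `B`, `|x - x'|`, `x + x'`), and `∏_{p ∣ ABC, p > P0} (1 + 8 δ_p) = t5`, where only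
the `p ∣ gcd (A, B)` count (`δ_p = 0` otherwise). AM-GM: `t1 t2 t3 t4 t5 ≤ (t1⁵ + … + t5⁵)/5`
(`Real.inner_le_nnorm_mul_nnorm`-free proof: `Real.geom_mean_le_arith_mean_weighted` or
`inner_le...`; e.g. `Real.geom_mean_le_arith_mean`).
* `t⁵ ≤ S1` for `t = ∏_{p ∣ m, p > P0} κ_p`, `m ≥ 1`: for `p ≥ P1`, `κ_p⁵ ≤ 1 + 1/√p` (for `p ≥ 10^6`: `8/(p-1) ≤ 9/p =: u ≤ 1/100`, `(1+u)^5 ≤ 1 + 6 u` and
  `54/p ≤ 1/√p`). So `t⁵ ≤ ∏ (1 + 1/√p) = ∑_{J ⊆ {p ∣ m, p > P0}} ∏_{p ∈ J} 1/√p`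
  (`Finset.prod_one_add` or `Finset.prod_add`) and `J ↦ ∏_{p ∈ J} p` is an injection into the rough divisors of `m`.
* `t5⁵ ≤ S3`: `1 + 8 δ ≤ (1 + δ)^4`, so `t5⁵ ≤ ∏_{p ∣ G, p > P0} (1 + δ_p)^20 = τ(d)^20` with `G = gcd (A, B)` and
  `d = ∏_{p ∣ G, p > P0} p^(δ_p)`, a rough divisor of `G`.
-/

namespace Pool.Agent.MK47

open Finset

/-- A product over a union is at most the product of the products, for factors `≥ 1`. -/
theorem prod_union_le (U V : Finset ℕ) (f : ℕ → ℝ) (hf : ∀ p ∈ U ∪ V, 1 ≤ f p) :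
    ∏ p ∈ U ∪ V, f p ≤ (∏ p ∈ U, f p) * ∏ p ∈ V, f p := by
  classical
  rw [← Finset.prod_union_inter]
  have h1 : 1 ≤ ∏ p ∈ U ∩ V, f p := by
    have : ∀ p ∈ U ∩ V, 1 ≤ f p := fun p hp =>
      hf p (Finset.mem_union_left _ (Finset.mem_inter.1 hp).1)
    calc (1 : ℝ) = ∏ p ∈ U ∩ V, 1 := by simp
      _ ≤ _ := Finset.prod_le_prod (fun _ _ => zero_le_one) this
  have h0 : 0 ≤ ∏ p ∈ U ∪ V, f p := Finset.prod_nonneg fun p hp => by linarith [hf p hp]
  nlinarith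

theorem prod_mono (U V : Finset ℕ) (f : ℕ → ℝ) (hUV : U ⊆ V) (hf : ∀ p ∈ V, 1 ≤ f p) :
    ∏ p ∈ U, f p ≤ ∏ p ∈ V, f p := by
  classical
  rw [← Finset.prod_sdiff hUV]
  have h1 : 1 ≤ ∏ p ∈ V \ U, f p := by
    calc (1 : ℝ) = ∏ p ∈ V \ U, 1 := by simp
      _ ≤ _ := Finset.prod_le_prod (fun _ _ => zero_le_one) fun p hp =>
        hf p (Finset.mem_sdiff.1 hp).1
  have h0 : 0 ≤ ∏ p ∈ U, f p := Finset.prod_nonneg fun p hp => by linarith [hf p (hUV hp)]
  nlinarith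

theorem amgm5 (t : Fin 5 → ℝ) (ht : ∀ i, 0 ≤ t i) : ∏ i, t i ≤ (∑ i, t i ^ 5) / 5 := by
  have h := Real.geom_mean_le_arith_mean_weighted (univ : Finset (Fin 5)) (fun _ => (1 : ℝ) / 5)
    (fun i => t i ^ 5) (fun _ _ => by norm_num) (by simp) (fun i _ => by positivity [ht i])
  have e1 : ∏ i, (t i ^ 5) ^ ((1 : ℝ) / 5) = ∏ i, t i := by
    refine Finset.prod_congr rfl fun i _ => ?_
    rw [← Real.rpow_natCast, ← Real.rpow_mul (ht i)]
    norm_num
  have e2 : ∑ i, (1 : ℝ) / 5 * t i ^ 5 = (∑ i, t i ^ 5) / 5 := by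
    rw [← Finset.mul_sum]
    ring
  rw [e1, e2] at h
  exact h

/-- The primes `> P0` dividing `m`. -/
def bp (P0 m : ℕ) : Finset ℕ := m.primeFactors.filter fun p => P0 < p

/-- The factor of a prime. -/
noncomputable def kap (p : ℕ) : ℝ := 1 + 8 / ((p : ℝ) - 1)

theorem kap_one_le (p : ℕ) (hp : 2 ≤ p) : 1 ≤ kap p := by
  unfold kap
  have : (2 : ℝ) ≤ p := by exact_mod_cast hp
  have : 0 ≤ 8 / ((p : ℝ) - 1) := div_nonneg (by norm_num) (by linarith)
  linarith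

theorem kap_pow (p : ℕ) (hp : 1000000 ≤ p) : kap p ^ 5 ≤ 1 + 1 / Real.sqrt p := by
  unfold kap
  have hp' : (1000000 : ℝ) ≤ p := by exact_mod_cast hp
  set u : ℝ := 8 / ((p : ℝ) - 1) with hu
  have hu0 : 0 ≤ u := div_nonneg (by norm_num) (by linarith)
  have hu1 : u ≤ 9 / p := by
    rw [hu, div_le_div_iff₀ (by linarith) (by linarith)]
    linarith
  have hu2 : u ≤ 1 / 1000 := by
    refine hu1.trans ?_
    rw [div_le_div_iff₀ (by linarith) (by norm_num)]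
    linarith
  have h1 : (1 + u) ^ 5 ≤ 1 + 6 * u := by
    have a2 : u ^ 2 ≤ u / 1000 := by nlinarith
    have a3 : u ^ 3 ≤ u / 1000 := by
      have : u ^ 3 = u ^ 2 * u := by ring
      nlinarith [sq_nonneg u]
    have a4 : u ^ 4 ≤ u / 1000 := by
      have : u ^ 4 = u ^ 3 * u := by ring
      nlinarith [pow_nonneg hu0 3]
    have a5 : u ^ 5 ≤ u / 1000 := by
      have : u ^ 5 = u ^ 4 * u := by ring
      nlinarith [pow_nonneg hu0 4]
    have e : (1 + u) ^ 5 = 1 + 5 * u + 10 * u ^ 2 + 10 * u ^ 3 + 5 * u ^ 4 + u ^ 5 := by ring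
    rw [e]
    linarith
  have hs : (1000 : ℝ) ≤ Real.sqrt p := by
    apply Real.le_sqrt_of_sq_le
    rw [show (1000 : ℝ) ^ 2 = 1000000 by norm_num]
    exact hp'
  have hs2 : Real.sqrt p * Real.sqrt p = p := Real.mul_self_sqrt (by linarith)
  have h2 : 6 * u ≤ 1 / Real.sqrt p := by
    have : 6 * u ≤ 54 / p := by
      have : 6 * (9 / (p : ℝ)) = 54 / p := by ring
      linarith
    refine this.trans ?_
    rw [div_le_div_iff₀ (by linarith) (by linarith)]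
    nlinarith
  linarith

theorem prod_kap (P0 m : ℕ) (hP0 : 1000000 ≤ P0) (hm : m ≠ 0) :
    (∏ p ∈ bp P0 m, kap p) ^ 5 ≤ S1 P0 m := by
  classical
  have hpr : ∀ p ∈ bp P0 m, p.Prime ∧ p ∣ m ∧ P0 < p := by
    intro p hp
    obtain ⟨h1, h2⟩ := Finset.mem_filter.1 hp
    exact ⟨Nat.prime_of_mem_primeFactors h1, Nat.dvd_of_mem_primeFactors h1, h2⟩
  have h1 : (∏ p ∈ bp P0 m, kap p) ^ 5 ≤ ∏ p ∈ bp P0 m, (1 + 1 / Real.sqrt p) := by
    rw [← Finset.prod_pow]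
    refine Finset.prod_le_prod (fun p hp => ?_) (fun p hp => ?_)
    · have := kap_one_le p (hpr p hp).1.two_le
      positivity
    · exact kap_pow p (by have := (hpr p hp).2.2; omega)
  refine h1.trans ?_
  rw [Finset.prod_one_add]
  have h2 : ∀ J ∈ (bp P0 m).powerset, ∏ p ∈ J, 1 / Real.sqrt (p : ℝ) =
      1 / Real.sqrt ((∏ p ∈ J, p : ℕ) : ℝ) := by
    intro J _
    rw [Finset.prod_div_distrib, Finset.prod_const_one]
    congr 1
    push_cast
    rw [Real.sqrt_eq_rpow, ← Real.finsetProd_rpow _ _ (fun p _ => Nat.cast_nonneg p)]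
    refine Finset.prod_congr rfl fun p _ => ?_
    rw [Real.sqrt_eq_rpow]
  rw [Finset.sum_congr rfl h2]
  have hinj : Set.InjOn (fun J : Finset ℕ => ∏ p ∈ J, p) (bp P0 m).powerset := by
    intro J hJ J' hJ' h
    have e1 : (∏ p ∈ J, p).primeFactors = J := Nat.primeFactors_prod fun p hp =>
      (hpr p (Finset.mem_powerset.1 hJ hp)).1
    have e2 : (∏ p ∈ J', p).primeFactors = J' := Nat.primeFactors_prod fun p hp =>
      (hpr p (Finset.mem_powerset.1 hJ' hp)).1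
    have h' : ∏ p ∈ J, p = ∏ p ∈ J', p := h
    rw [← e1, ← e2, h']
  have h3 : ∑ J ∈ (bp P0 m).powerset, 1 / Real.sqrt ((∏ p ∈ J, p : ℕ) : ℝ) =
      ∑ d ∈ (bp P0 m).powerset.image (fun J : Finset ℕ => ∏ p ∈ J, p), 1 / Real.sqrt (d : ℝ) := by
    rw [Finset.sum_image hinj]
  rw [h3]
  unfold S1
  refine Finset.sum_le_sum_of_subset_of_nonneg ?_ fun d _ _ => by positivity
  intro d hd
  obtain ⟨J, hJ, rfl⟩ := Finset.mem_image.1 hd
  have hJ' := Finset.mem_powerset.1 hJ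
  refine Finset.mem_filter.2 ⟨Nat.mem_divisors.2 ⟨?_, hm⟩, ?_⟩
  · refine Finset.prod_primes_dvd m (fun p hp => (hpr p (hJ' hp)).1.prime) fun p hp =>
      (hpr p (hJ' hp)).2.1
  · intro q hq hqd
    obtain ⟨p, hp, hqp⟩ := (Prime.dvd_finsetProd_iff hq.prime _).1 hqd
    have : q = p := (Nat.prime_dvd_prime_iff_eq hq (hpr p (hJ' hp)).1).1 hqp
    rw [this]
    exact (hpr p (hJ' hp)).2.2

theorem prod_del (P0 G : ℕ) (hG : G ≠ 0) :
    (∏ p ∈ bp P0 G, (1 + 8 * (G.factorization p : ℝ))) ^ 5 ≤ S3 P0 G := by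
  classical
  set f := G.factorization.filter (fun p => P0 < p) with hf
  have hfs : ∀ p ∈ f.support, Nat.Prime p := by
    intro p hp
    rw [hf, Finsupp.support_filter, Finset.mem_filter, Nat.support_factorization] at hp
    exact Nat.prime_of_mem_primeFactors hp.1
  set d := f.prod (fun p k => p ^ k) with hd
  have hdf : d.factorization = f := Nat.prod_pow_factorization_eq_self hfs
  have hd0 : d ≠ 0 := by
    rw [hd, Finsupp.prod, Finset.prod_ne_zero_iff]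
    intro p hp
    exact pow_ne_zero _ (hfs p hp).ne_zero
  have hdG : d ∣ G := by
    rw [← Nat.factorization_le_iff_dvd hd0 hG, hdf, hf]
    intro p
    by_cases h : P0 < p
    · rw [Finsupp.filter_apply_pos _ _ h]
    · rw [Finsupp.filter_apply_neg _ _ h]
      exact Nat.zero_le _
  have hdp : d.primeFactors = bp P0 G := by
    rw [← Nat.support_factorization, hdf, hf, Finsupp.support_filter, Nat.support_factorization]
    rfl
  have hrough : Rough P0 d := by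
    intro p hp hpd
    have : p ∈ d.primeFactors := Nat.mem_primeFactors.2 ⟨hp, hpd, hd0⟩
    rw [hdp] at this
    exact (Finset.mem_filter.1 this).2
  have hcard : (d.divisors.card : ℝ) = ∏ p ∈ bp P0 G, (1 + (G.factorization p : ℝ)) := by
    rw [Nat.card_divisors hd0, hdp]
    push_cast
    refine Finset.prod_congr rfl fun p hp => ?_
    rw [hdf, hf, Finsupp.filter_apply_pos _ _ (Finset.mem_filter.1 hp).2]
    ring
  have h1 : (∏ p ∈ bp P0 G, (1 + 8 * (G.factorization p : ℝ))) ^ 5 ≤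
      (d.divisors.card : ℝ) ^ 20 := by
    rw [hcard, ← Finset.prod_pow, ← Finset.prod_pow]
    refine Finset.prod_le_prod (fun p _ => by positivity) fun p hp => ?_
    set k : ℝ := (G.factorization p : ℝ) with hk
    have hk1 : 1 ≤ k := by
      have hp1 := (Finset.mem_filter.1 hp).1
      have : 0 < G.factorization p := by
        rw [← Nat.support_factorization] at hp1
        exact Nat.pos_of_ne_zero (Finsupp.mem_support_iff.1 hp1)
      rw [hk]
      exact_mod_cast this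
    have h2 : 1 + 8 * k ≤ (1 + k) ^ 4 := by nlinarith [sq_nonneg k, pow_nonneg (by linarith : (0:ℝ) ≤ k) 3, pow_nonneg (by linarith : (0:ℝ) ≤ k) 4]
    calc (1 + 8 * k) ^ 5 ≤ ((1 + k) ^ 4) ^ 5 := pow_le_pow_left₀ (by linarith) h2 5
      _ = (1 + k) ^ 20 := by ring
  refine h1.trans ?_
  unfold S3
  refine Finset.single_le_sum (f := fun d : ℕ => (d.divisors.card : ℝ) ^ 20)
    (fun d _ => by positivity) ?_
  exact Finset.mem_filter.2 ⟨Nat.mem_divisors.2 ⟨hdG, hG⟩, hrough⟩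

theorem h_pt : ∃ P1 : ℕ, ∀ P0 : ℕ, P1 ≤ P0 → ∀ a x x' : ℕ, 3 ≤ a * x → 3 ≤ a * x' → x ≠ x' →
    HH P0 (DD a x) (DD a x') (CC x x') ≤ Real.exp (3 / P0) / 5 *
      (S1 P0 (DD a x).natAbs + S1 P0 (DD a x').natAbs + S1 P0 ((x : ℤ) - (x' : ℤ)).natAbs +
        S1 P0 (x + x') + S3 P0 (Int.gcd (DD a x) (DD a x'))) := by
  classical
  refine ⟨1000000, fun P0 hP0 a x x' hx hx' hne => ?_⟩
  have hpos : ∀ y : ℕ, 3 ≤ a * y → 0 < DD a y := by
    intro y hy
    unfold DD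
    have h1 : (3 : ℤ) ≤ (a : ℤ) * y := by exact_mod_cast hy
    nlinarith
  set A := DD a x with hA
  set B := DD a x' with hB
  set C := CC x x' with hC
  have hA0 : 0 < A := hpos x hx
  have hB0 : 0 < B := hpos x' hx'
  have hxx : (x : ℤ) - x' ≠ 0 := by
    intro h
    apply hne
    have : (x : ℤ) = x' := by linarith
    exact_mod_cast this
  have hx0 : 0 < x := by
    rcases Nat.eq_zero_or_pos x with h | h
    · rw [h] at hx; simp at hx
    · exact h
  have hCe : C = -(4 * (((x : ℤ) - x') * ((x : ℤ) + x'))) := by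
    rw [hC]; unfold CC; ring
  set mA := A.natAbs with hmA
  set mB := B.natAbs with hmB
  set mD := ((x : ℤ) - (x' : ℤ)).natAbs with hmD
  set mE := x + x' with hmE
  set G := Int.gcd A B with hG
  have hmA0 : mA ≠ 0 := Int.natAbs_ne_zero.2 hA0.ne'
  have hmB0 : mB ≠ 0 := Int.natAbs_ne_zero.2 hB0.ne'
  have hmD0 : mD ≠ 0 := Int.natAbs_ne_zero.2 hxx
  have hmE0 : mE ≠ 0 := by omega
  have hG0 : G ≠ 0 := by
    rw [hG]
    intro h
    exact hA0.ne' (Int.gcd_eq_zero_iff.1 h).1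
  set S := (A * B * C).natAbs.primeFactors.filter (fun p => P0 < p) with hS
  have hSp : ∀ p ∈ S, p.Prime ∧ P0 < p := by
    intro p hp
    obtain ⟨h1, h2⟩ := Finset.mem_filter.1 hp
    exact ⟨Nat.prime_of_mem_primeFactors h1, h2⟩
  have hbp1 : ∀ m : ℕ, ∀ p ∈ bp P0 m, 1 ≤ kap p := by
    intro m p hp
    exact kap_one_le p (Nat.prime_of_mem_primeFactors (Finset.mem_filter.1 hp).1).two_le
  -- the covering of the primes
  have hcov : S ⊆ ((bp P0 mA ∪ bp P0 mB) ∪ bp P0 mD) ∪ bp P0 mE := by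
    intro p hp
    obtain ⟨hp1, hp2⟩ := hSp p hp
    have hp3 : (p : ℤ) ∣ A * B * C := by
      rw [Int.natCast_dvd]
      exact Nat.dvd_of_mem_primeFactors (Finset.mem_filter.1 hp).1
    have hpi : Prime (p : ℤ) := Nat.prime_iff_prime_int.1 hp1
    have hmem : ∀ m : ℕ, m ≠ 0 → p ∣ m → p ∈ bp P0 m := fun m hm h =>
      Finset.mem_filter.2 ⟨Nat.mem_primeFactors.2 ⟨hp1, h, hm⟩, hp2⟩
    simp only [Finset.mem_union]
    rcases hpi.dvd_or_dvd hp3 with h | h
    · rcases hpi.dvd_or_dvd h with h | h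
      · exact Or.inl (Or.inl (Or.inl (hmem _ hmA0 (Int.natCast_dvd.1 h))))
      · exact Or.inl (Or.inl (Or.inr (hmem _ hmB0 (Int.natCast_dvd.1 h))))
    · rw [hCe, dvd_neg] at h
      rcases hpi.dvd_or_dvd h with h | h
      · exfalso
        have h4 : p ∣ 4 := by exact_mod_cast h
        have := Nat.le_of_dvd (by norm_num) h4
        omega
      · rcases hpi.dvd_or_dvd h with h | h
        · exact Or.inl (Or.inr (hmem _ hmD0 (Int.natCast_dvd.1 h)))
        · refine Or.inr (hmem _ hmE0 ?_)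
          rw [hmE]
          exact_mod_cast h
  set t1 := ∏ p ∈ bp P0 mA, kap p with ht1
  set t2 := ∏ p ∈ bp P0 mB, kap p with ht2
  set t3 := ∏ p ∈ bp P0 mD, kap p with ht3
  set t4 := ∏ p ∈ bp P0 mE, kap p with ht4
  set t5 := ∏ p ∈ bp P0 G, (1 + 8 * (G.factorization p : ℝ)) with ht5
  have hk0 : ∀ m : ℕ, 0 ≤ ∏ p ∈ bp P0 m, kap p := fun m =>
    Finset.prod_nonneg fun p hp => by linarith [hbp1 m p hp]
  have hkS : ∏ p ∈ S, kap p ≤ t1 * t2 * t3 * t4 := by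
    have hall : ∀ p ∈ ((bp P0 mA ∪ bp P0 mB) ∪ bp P0 mD) ∪ bp P0 mE, 1 ≤ kap p := by
      intro p hp
      simp only [Finset.mem_union] at hp
      rcases hp with ((h | h) | h) | h <;> exact hbp1 _ p h
    refine (prod_mono _ _ kap hcov hall).trans ?_
    refine (prod_union_le _ _ kap hall).trans ?_
    refine mul_le_mul_of_nonneg_right ?_ (hk0 _)
    refine (prod_union_le _ _ kap fun p hp => hall p (Finset.mem_union_left _ hp)).trans ?_
    refine mul_le_mul_of_nonneg_right ?_ (hk0 _)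
    exact prod_union_le _ _ kap fun p hp =>
      hall p (Finset.mem_union_left _ (Finset.mem_union_left _ hp))
  have hdS : ∏ p ∈ S, (1 + 8 * (del A B p : ℝ)) ≤ t5 := by
    have e1 : ∏ p ∈ S, (1 + 8 * (del A B p : ℝ)) =
        ∏ p ∈ S.filter (fun p => p ∈ bp P0 G), (1 + 8 * (del A B p : ℝ)) := by
      refine (Finset.prod_filter_of_ne (s := S) (p := fun p => p ∈ bp P0 G)
        (f := fun p => (1 + 8 * (del A B p : ℝ))) ?_).symm
      intro p hp hne1
      obtain ⟨hp1, hp2⟩ := hSp p hp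
      have hne2 : del A B p ≠ 0 := by
        intro h
        apply hne1
        rw [h]
        simp
      refine Finset.mem_filter.2 ⟨?_, hp2⟩
      rw [← Nat.support_factorization]
      exact Finsupp.mem_support_iff.2 hne2
    rw [e1]
    refine prod_mono _ _ _ (fun p hp => (Finset.mem_filter.1 hp).2) fun p _ => ?_
    have : (0 : ℝ) ≤ del A B p := Nat.cast_nonneg _
    linarith
  have hd0 : 0 ≤ ∏ p ∈ S, (1 + 8 * (del A B p : ℝ)) := Finset.prod_nonneg fun p _ => by positivity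
  have ht0 : 0 ≤ t1 * t2 * t3 * t4 :=
    mul_nonneg (mul_nonneg (mul_nonneg (hk0 _) (hk0 _)) (hk0 _)) (hk0 _)
  have hprod : ∏ p ∈ S, (1 + 8 * (del A B p : ℝ) + 8 / ((p : ℝ) - 1)) ≤
      t1 * t2 * t3 * t4 * t5 := by
    have e1 : ∏ p ∈ S, (1 + 8 * (del A B p : ℝ) + 8 / ((p : ℝ) - 1)) ≤
        ∏ p ∈ S, (kap p * (1 + 8 * (del A B p : ℝ))) := by
      refine Finset.prod_le_prod (fun p hp => ?_) fun p hp => ?_
      · have h2 := (hSp p hp).1.two_le
        have : (2 : ℝ) ≤ p := by exact_mod_cast h2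
        have : 0 ≤ 8 / ((p : ℝ) - 1) := div_nonneg (by norm_num) (by linarith)
        positivity
      · have h2 := (hSp p hp).1.two_le
        have : (2 : ℝ) ≤ p := by exact_mod_cast h2
        have h3 : 0 ≤ 8 / ((p : ℝ) - 1) := div_nonneg (by norm_num) (by linarith)
        have h4 : (0 : ℝ) ≤ del A B p := Nat.cast_nonneg _
        unfold kap
        nlinarith [mul_nonneg h3 h4]
    refine e1.trans ?_
    rw [Finset.prod_mul_distrib]
    exact mul_le_mul hkS hdS hd0 ht0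
  have hS5 := prod_del P0 G hG0
  have hS1 := prod_kap P0 mA hP0 hmA0
  have hS2 := prod_kap P0 mB hP0 hmB0
  have hS3 := prod_kap P0 mD hP0 hmD0
  have hS4 := prod_kap P0 mE hP0 hmE0
  have ht5n : 0 ≤ t5 := Finset.prod_nonneg fun p _ => by positivity
  have hag := amgm5 ![t1, t2, t3, t4, t5] (by
    intro i
    fin_cases i
    · exact hk0 _
    · exact hk0 _
    · exact hk0 _
    · exact hk0 _
    · exact ht5n)
  have hag' : t1 * t2 * t3 * t4 * t5 ≤ (t1 ^ 5 + t2 ^ 5 + t3 ^ 5 + t4 ^ 5 + t5 ^ 5) / 5 := by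
    simpa [Fin.prod_univ_five, Fin.sum_univ_five] using hag
  have hE : 0 < Real.exp (3 / (P0 : ℝ)) := Real.exp_pos _
  unfold HH
  calc Real.exp (3 / (P0 : ℝ)) * ∏ p ∈ S, (1 + 8 * (del A B p : ℝ) + 8 / ((p : ℝ) - 1)) ≤
      Real.exp (3 / (P0 : ℝ)) * ((S1 P0 mA + S1 P0 mB + S1 P0 mD + S1 P0 mE + S3 P0 G) / 5) := by
        refine mul_le_mul_of_nonneg_left (hprod.trans (hag'.trans ?_)) hE.le
        refine div_le_div_of_nonneg_right ?_ (by norm_num)
        linarith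
    _ = _ := by ring

end Pool.Agent.MK47
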