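import Mathlib

/-!
# Kloosterman sums by the fourth moment

`p` is an odd prime, `ψ = ZMod.stdAddChar`, `kl a b = ∑_{t ≠ 0} ψ (a t + b t⁻¹)`.

* `kl_zero`: `kl a 0 = ∑_{t ≠ 0} ψ (a t) = -1` for `a ≠ 0`: the full sum is zero
  (`AddChar.sum_mulShift`, `ZMod.isPrimitive_stdAddChar`).
* `kl_scale`: substituting `t ↦ s t`: `kl (a s) (b s⁻¹) = kl a b` for `s ≠ 0`.
* `kl_moment`: expand `‖kl a b‖^4 = (kl a b)² * conj (kl a b)²` (note `conj (ψ x) = ψ (-x)`) and sum
  over all `a, b` in `ZMod p`: by orthogonality the sum is `p²` times the number of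
  `(t1, t2, t3, t4)` of nonzero elements with `t1 + t2 = t3 + t4` and
  `t1⁻¹ + t2⁻¹ = t3⁻¹ + t4⁻¹`. This number is at most `3 (p - 1)²`: given `(t1, t2)`: if
  `t1 + t2 = 0` then `t4 = - t3`: `p - 1` choices of `(t1,t2)` times `p - 1` choices of `t3`;
  if `t1 + t2 = s ≠ 0` then `s / (t1 t2) = s / (t3 t4)` so `t3 t4 = t1 t2`, and `t3` is a root
  of `X² - s X + t1 t2 = (X - t1) (X - t2)`, so `(t3, t4) = (t1, t2)` or `(t2, t1)`:
  at most `2 (p - 1)²`.
* `kl_bound`: if `a ≠ 0` and `b = 0` the value is `-1`. If `a, b ≠ 0`, then by `kl_scale` the `p - 1`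
  distinct pairs `(a s, b s⁻¹)` all give the same value, so
  `(p - 1) ‖kl a b‖^4 ≤ ∑_{a', b'} ‖kl a' b'‖^4 ≤ 3 p² (p - 1)²`, so
  `‖kl a b‖^4 ≤ 3 p² (p - 1) ≤ 3 p³`.
-/

namespace Pool.Agent.MK47

open Finset

variable (p : ℕ) [hp : Fact p.Prime]

/-- The Kloosterman sum. -/
noncomputable def kl (a b : ZMod p) : ℂ :=
  ∑ t ∈ (univ : Finset (ZMod p)).filter (fun t => t ≠ 0), ZMod.stdAddChar (a * t + b * t⁻¹)

theorem kl_zero (a : ZMod p) (ha : a ≠ 0) : kl p a 0 = -1 := by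
  classical
  unfold kl
  have h1 := AddChar.sum_mulShift (R' := ℂ) a (ZMod.isPrimitive_stdAddChar p)
  rw [if_neg ha] at h1
  have h2 := Finset.sum_filter_add_sum_filter_not (univ : Finset (ZMod p)) (fun t => t ≠ 0)
    (fun t => (ZMod.stdAddChar (t * a) : ℂ))
  have h3 : (univ : Finset (ZMod p)).filter (fun t => ¬ (t ≠ 0)) = {0} := by
    ext t; simp
  rw [h3, sum_singleton, zero_mul, AddChar.map_zero_eq_one] at h2
  have h4 : ∑ t ∈ (univ : Finset (ZMod p)).filter (fun t => t ≠ 0),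
      (ZMod.stdAddChar (a * t + 0 * t⁻¹) : ℂ) =
      ∑ t ∈ (univ : Finset (ZMod p)).filter (fun t => t ≠ 0), (ZMod.stdAddChar (t * a) : ℂ) := by
    apply sum_congr rfl
    intro t _
    congr 1
    ring
  rw [h4]
  rw [h1] at h2
  simp only [Nat.cast_zero] at h2
  linear_combination h2

theorem kl_scale (a b s : ZMod p) (hs : s ≠ 0) : kl p (a * s) (b * s⁻¹) = kl p a b := by
  classical
  unfold kl
  refine Finset.sum_nbij' (fun t => s * t) (fun t => s⁻¹ * t) ?_ ?_ ?_ ?_ ?_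
  · intro t ht
    rw [mem_filter] at ht ⊢
    exact ⟨mem_univ _, mul_ne_zero hs ht.2⟩
  · intro t ht
    rw [mem_filter] at ht ⊢
    exact ⟨mem_univ _, mul_ne_zero (inv_ne_zero hs) ht.2⟩
  · intro t _
    rw [← mul_assoc, inv_mul_cancel₀ hs, one_mul]
  · intro t _
    rw [← mul_assoc, mul_inv_cancel₀ hs, one_mul]
  · intro t _
    rw [mul_inv]
    congr 1
    ring

private theorem kl_orth (s : ZMod p × ZMod p) : ∑ a : ZMod p, ∑ b : ZMod p,
    (ZMod.stdAddChar (a * s.1 + b * s.2) : ℂ) = if s = 0 then (p : ℂ) ^ 2 else 0 := by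
  classical
  simp_rw [AddChar.map_add_eq_mul]
  simp_rw [← mul_sum]
  rw [← sum_mul, AddChar.sum_mulShift _ (ZMod.isPrimitive_stdAddChar p),
    AddChar.sum_mulShift _ (ZMod.isPrimitive_stdAddChar p), ZMod.card]
  by_cases h : s = 0
  · rw [if_pos h, h]
    simp [sq]
  · rw [if_neg h]
    by_cases h3 : s.1 = 0
    · have h4 : s.2 ≠ 0 := fun h5 => h (Prod.ext h3 h5)
      rw [if_neg h4]
      simp
    · rw [if_neg h3]
      simp

/-- The nonzero elements. -/
private noncomputable def kE : Finset (ZMod p) := (univ : Finset (ZMod p)).filter (fun t => t ≠ 0)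

private theorem kE_card : (kE p).card = p - 1 := by
  classical
  unfold kE
  rw [filter_ne', card_erase_of_mem (mem_univ _), card_univ, ZMod.card]

/-- The two sums of a pair. -/
private noncomputable def kS (v : ZMod p × ZMod p) : ZMod p × ZMod p :=
  (v.1 + v.2, v.1⁻¹ + v.2⁻¹)

private theorem kl_sq (a b : ZMod p) : kl p a b ^ 2 =
    ∑ v ∈ kE p ×ˢ kE p, (ZMod.stdAddChar (a * (kS p v).1 + b * (kS p v).2) : ℂ) := by
  classical
  rw [sq]
  unfold kl
  rw [Finset.sum_mul_sum, Finset.sum_product]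
  apply sum_congr rfl
  intro x _
  apply sum_congr rfl
  intro y _
  rw [← AddChar.map_add_eq_mul]
  unfold kS
  congr 1
  simp only
  ring

private theorem kl_sq_conj (a b : ZMod p) : (starRingEnd ℂ) (kl p a b ^ 2) =
    ∑ v ∈ kE p ×ˢ kE p, (ZMod.stdAddChar (-(a * (kS p v).1 + b * (kS p v).2)) : ℂ) := by
  classical
  rw [kl_sq, map_sum]
  apply sum_congr rfl
  intro v _
  rw [AddChar.map_neg_eq_conj]

private theorem kl_four (a b : ZMod p) : (((‖kl p a b‖ ^ 4 : ℝ)) : ℂ) =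
    ∑ v ∈ kE p ×ˢ kE p, ∑ w ∈ kE p ×ˢ kE p,
      (ZMod.stdAddChar (a * (kS p v - kS p w).1 + b * (kS p v - kS p w).2) : ℂ) := by
  classical
  have h1 : (((‖kl p a b‖ ^ 4 : ℝ)) : ℂ) = kl p a b ^ 2 * (starRingEnd ℂ) (kl p a b ^ 2) := by
    rw [Complex.mul_conj, Complex.normSq_eq_norm_sq, norm_pow]
    congr 1
    ring
  rw [h1, kl_sq_conj, kl_sq, Finset.sum_mul_sum]
  apply sum_congr rfl
  intro v _
  apply sum_congr rfl
  intro w _
  rw [← AddChar.map_add_eq_mul]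
  congr 1
  simp only [Prod.fst_sub, Prod.snd_sub]
  ring

open Classical in
private theorem kl_sum_four : (((∑ a : ZMod p, ∑ b : ZMod p, ‖kl p a b‖ ^ 4 : ℝ)) : ℂ) =
    (p : ℂ) ^ 2 * ∑ v ∈ kE p ×ˢ kE p,
      ((((kE p ×ˢ kE p).filter fun w => kS p v = kS p w).card : ℕ) : ℂ) := by
  push_cast
  have h1 : ∀ a b : ZMod p, ((‖kl p a b‖ : ℝ) : ℂ) ^ 4 =
    ∑ v ∈ kE p ×ˢ kE p, ∑ w ∈ kE p ×ˢ kE p,
      (ZMod.stdAddChar (a * (kS p v - kS p w).1 + b * (kS p v - kS p w).2) : ℂ) := by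
    intro a b
    rw [← kl_four]
    push_cast
    rfl
  simp_rw [h1]
  have h2 : ∀ a : ZMod p, ∑ b : ZMod p, ∑ v ∈ kE p ×ˢ kE p, ∑ w ∈ kE p ×ˢ kE p,
      (ZMod.stdAddChar (a * (kS p v - kS p w).1 + b * (kS p v - kS p w).2) : ℂ) =
      ∑ v ∈ kE p ×ˢ kE p, ∑ w ∈ kE p ×ˢ kE p, ∑ b : ZMod p,
      (ZMod.stdAddChar (a * (kS p v - kS p w).1 + b * (kS p v - kS p w).2) : ℂ) := by
    intro a
    rw [sum_comm]
    apply sum_congr rfl
    intro v _
    rw [sum_comm]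
  simp_rw [h2]
  rw [sum_comm, mul_sum]
  apply sum_congr rfl
  intro v _
  rw [sum_comm, Finset.card_filter]
  push_cast
  rw [mul_sum]
  apply sum_congr rfl
  intro w _
  rw [kl_orth]
  by_cases h : kS p v = kS p w
  · rw [if_pos h, if_pos (sub_eq_zero.mpr h), mul_one]
  · rw [if_neg h, if_neg (fun h' => h (sub_eq_zero.mp h')), mul_zero]

open Classical in
private theorem kl_fib (v : ZMod p × ZMod p) (hv : v ∈ kE p ×ˢ kE p) :
    ((kE p ×ˢ kE p).filter fun w => kS p v = kS p w).card ≤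
      2 + (if v.2 = -v.1 then p - 1 else 0) := by
  rw [mem_product] at hv
  obtain ⟨hv1, hv2⟩ := hv
  unfold kE at hv1 hv2
  rw [mem_filter] at hv1 hv2
  have hv1 := hv1.2
  have hv2 := hv2.2
  by_cases h : v.2 = -v.1
  · rw [if_pos h]
    have h1 : ((kE p ×ˢ kE p).filter fun w => kS p v = kS p w) ⊆
        (kE p).image (fun t => (t, -t)) := by
      intro w hw
      rw [mem_filter, mem_product] at hw
      rw [mem_image]
      refine ⟨w.1, hw.1.1, ?_⟩
      have h2 : v.1 + v.2 = w.1 + w.2 := congrArg Prod.fst hw.2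
      rw [h] at h2
      have h3 : w.2 = -w.1 := by linear_combination -h2
      exact Prod.ext rfl h3.symm
    have h2 := (card_le_card h1).trans card_image_le
    rw [kE_card] at h2
    omega
  · rw [if_neg h]
    have h1 : ((kE p ×ˢ kE p).filter fun w => kS p v = kS p w) ⊆ {v, v.swap} := by
      intro w hw
      rw [mem_filter, mem_product] at hw
      obtain ⟨⟨hw1, hw2⟩, hw3⟩ := hw
      unfold kE at hw1 hw2
      rw [mem_filter] at hw1 hw2
      have hw1 := hw1.2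
      have hw2 := hw2.2
      have h2 : v.1 + v.2 = w.1 + w.2 := congrArg Prod.fst hw3
      have h3 : v.1⁻¹ + v.2⁻¹ = w.1⁻¹ + w.2⁻¹ := congrArg Prod.snd hw3
      have h4 : (v.1 + v.2) * (w.1 * w.2) = (w.1 + w.2) * (v.1 * v.2) := by
        field_simp at h3
        linear_combination h3
      have h5 : v.1 + v.2 ≠ 0 := fun h5 => h (by linear_combination h5)
      have h6 : w.1 * w.2 = v.1 * v.2 := by
        apply mul_left_cancel₀ h5
        rw [h4, h2]
      have h7 : (w.1 - v.1) * (w.1 - v.2) = 0 := by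
        linear_combination -w.1 * h2 - h6
      rw [mem_insert, mem_singleton]
      rcases mul_eq_zero.mp h7 with h8 | h8
      · left
        have h9 : w.1 = v.1 := sub_eq_zero.mp h8
        refine Prod.ext h9 ?_
        linear_combination -h2 - h8
      · right
        have h9 : w.1 = v.2 := sub_eq_zero.mp h8
        refine Prod.ext h9 ?_
        simp only [Prod.snd_swap]
        linear_combination -h2 - h8
    have h2 := (card_le_card h1).trans (card_le_two)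
    omega

open Classical in
private theorem kl_count : ∑ v ∈ kE p ×ˢ kE p,
      ((kE p ×ˢ kE p).filter fun w => kS p v = kS p w).card ≤ 3 * (p - 1) ^ 2 := by
  have h1 := sum_le_sum (kl_fib p)
  have h2 : ∑ v ∈ kE p ×ˢ kE p, (2 + (if v.2 = -v.1 then p - 1 else 0)) ≤ 3 * (p - 1) ^ 2 := by
    rw [sum_add_distrib, sum_const, smul_eq_mul, card_product, kE_card, ← sum_filter, sum_const,
      smul_eq_mul]
    have h3 : ((kE p ×ˢ kE p).filter fun v => v.2 = -v.1).card ≤ p - 1 := by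
      have h4 : ((kE p ×ˢ kE p).filter fun v => v.2 = -v.1) ⊆
          (kE p).image (fun t => (t, -t)) := by
        intro w hw
        rw [mem_filter, mem_product] at hw
        rw [mem_image]
        exact ⟨w.1, hw.1.1, Prod.ext rfl hw.2.symm⟩
      have h5 := (card_le_card h4).trans card_image_le
      rwa [kE_card] at h5
    have h6 := Nat.mul_le_mul_right (p - 1) h3
    have h7 : (p - 1) * (p - 1) = (p - 1) ^ 2 := by ring
    rw [h7] at h6 ⊢
    omega
  exact h1.trans h2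

theorem kl_moment : ∑ a : ZMod p, ∑ b : ZMod p, ‖kl p a b‖ ^ 4 ≤ 3 * (p : ℝ) ^ 2 * ((p : ℝ) - 1) ^ 2 := by
  classical
  have h1 := kl_sum_four p
  have h2 : (∑ a : ZMod p, ∑ b : ZMod p, ‖kl p a b‖ ^ 4 : ℝ) =
    (p : ℝ) ^ 2 * ∑ v ∈ kE p ×ˢ kE p,
      ((((kE p ×ˢ kE p).filter fun w => kS p v = kS p w).card : ℕ) : ℝ) := by
    have h3 : (((∑ a : ZMod p, ∑ b : ZMod p, ‖kl p a b‖ ^ 4 : ℝ)) : ℂ) =
      (((p : ℝ) ^ 2 * ∑ v ∈ kE p ×ˢ kE p,
      ((((kE p ×ˢ kE p).filter fun w => kS p v = kS p w).card : ℕ) : ℝ) : ℝ) : ℂ) := by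
      rw [h1]
      push_cast
      rfl
    exact_mod_cast h3
  rw [h2]
  have h4 := kl_count p
  have h5 : ((∑ v ∈ kE p ×ˢ kE p,
      ((kE p ×ˢ kE p).filter fun w => kS p v = kS p w).card : ℕ) : ℝ) ≤
      ((3 * (p - 1) ^ 2 : ℕ) : ℝ) := by
    exact_mod_cast h4
  have hp1 : 1 ≤ p := hp.out.one_lt.le
  push_cast [Nat.cast_sub hp1] at h5
  have h6 : (0 : ℝ) ≤ (p : ℝ) ^ 2 := by positivity
  nlinarith [mul_le_mul_of_nonneg_left h5 h6]

theorem kl_bound (a b : ZMod p) (ha : a ≠ 0) : ‖kl p a b‖ ^ 4 ≤ 3 * (p : ℝ) ^ 3 := by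
  classical
  have hp2 : 2 ≤ p := hp.out.two_le
  have hp2' : (2 : ℝ) ≤ (p : ℝ) := by exact_mod_cast hp2
  by_cases hb : b = 0
  · rw [hb, kl_zero p a ha]
    simp only [norm_neg, norm_one, one_pow]
    have h1 : (1 : ℝ) ≤ (p : ℝ) ^ 3 := one_le_pow₀ (by linarith)
    linarith
  · have h1 : ∑ s ∈ kE p, ‖kl p (a * s) (b * s⁻¹)‖ ^ 4 = ((p : ℝ) - 1) * ‖kl p a b‖ ^ 4 := by
      have h2 : ∀ s ∈ kE p, ‖kl p (a * s) (b * s⁻¹)‖ ^ 4 = ‖kl p a b‖ ^ 4 := by
        intro s hs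
        unfold kE at hs
        rw [mem_filter] at hs
        rw [kl_scale p a b s hs.2]
      rw [sum_congr rfl h2, sum_const, kE_card, nsmul_eq_mul, Nat.cast_sub (by omega)]
      simp
    have h2 : ∑ s ∈ kE p, ‖kl p (a * s) (b * s⁻¹)‖ ^ 4 ≤
        ∑ v : ZMod p × ZMod p, ‖kl p v.1 v.2‖ ^ 4 := by
      have hinj : Set.InjOn (fun s : ZMod p => (a * s, b * s⁻¹)) (kE p : Set (ZMod p)) := by
        intro s _ t _ hst
        have h3 : a * s = a * t := congrArg Prod.fst hst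
        exact mul_left_cancel₀ ha h3
      have h4 : ∑ s ∈ kE p, ‖kl p (a * s) (b * s⁻¹)‖ ^ 4 =
          ∑ v ∈ (kE p).image (fun s : ZMod p => (a * s, b * s⁻¹)), ‖kl p v.1 v.2‖ ^ 4 := by
        rw [sum_image hinj]
      rw [h4]
      exact sum_le_sum_of_subset_of_nonneg (subset_univ _) (fun _ _ _ => by positivity)
    rw [h1, Fintype.sum_prod_type] at h2
    have h3 := h2.trans (kl_moment p)
    have h5 : ‖kl p a b‖ ^ 4 ≤ 3 * (p : ℝ) ^ 2 * ((p : ℝ) - 1) := by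
      have h6 : (0 : ℝ) < (p : ℝ) - 1 := by linarith
      nlinarith [mul_pos h6 h6]
    have h7 : 3 * (p : ℝ) ^ 2 * ((p : ℝ) - 1) ≤ 3 * (p : ℝ) ^ 3 := by
      nlinarith [sq_nonneg (p : ℝ)]
    exact h5.trans h7

end Pool.Agent.MK47
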