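import Mathlib

/-!
# Sums of multiplicative functions against finite Euler products

* `mul_bound`: `F ≥ 0`. Let `T` be a finite set of positive integers with all prime factors in the finite set
  `S` of primes and all exponents at most `K`. The map `n ↦ (p ↦ v_p(n))` (restricted to `S`) is injective
  from `T` into the functions `S → {0, …, K}`, and `n.factorization.prod F = ∏_{p ∈ S} F'(p, v_p(n))` with
  `F'(p, 0) = 1`, `F'(p, k) = F p k` for `k ≥ 1`. The sum over all the functions is
  `∏_{p ∈ S} (1 + ∑_{k=1}^K F p k)` (`Finset.prod_univ_sum` or `Finset.prod_sum`), all terms are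
  nonnegative. (Or induct on `S`: split `T` by the exponent of the new prime `q` and divide
  by `q^k`.)
-/

namespace Pool.Agent.MK47

open Finset

theorem mul_bound (F : ℕ → ℕ → ℝ) (hF : ∀ p k, 0 ≤ F p k) (S : Finset ℕ)
    (hS : ∀ p ∈ S, Nat.Prime p) (K : ℕ) (T : Finset ℕ)
    (hT : ∀ n ∈ T, n ≠ 0 ∧ n.primeFactors ⊆ S ∧ ∀ p, n.factorization p ≤ K) :
    ∑ n ∈ T, n.factorization.prod F ≤ ∏ p ∈ S, (1 + ∑ k ∈ Icc 1 K, F p k) := by
  classical
  set F' : ℕ → ℕ → ℝ := fun p k => if k = 0 then 1 else F p k with hF'
  have hF0 : ∀ p k, 0 ≤ F' p k := by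
    intro p k
    simp only [hF']
    split_ifs
    · norm_num
    · exact hF p k
  have h1 : ∀ p, 1 + ∑ k ∈ Icc 1 K, F p k = ∑ k ∈ range (K + 1), F' p k := by
    intro p
    rw [Finset.sum_range_succ', add_comm]
    have e0 : F' p 0 = 1 := by simp [hF']
    rw [e0]
    congr 1
    have e1 : Icc 1 K = Ico (0 + 1) (K + 1) := by
      ext j; simp only [mem_Icc, mem_Ico]; omega
    rw [e1, ← Finset.sum_Ico_add' (fun j => F p j) 0 K 1, Finset.range_eq_Ico]
    apply Finset.sum_congr rfl
    intro j _
    simp [hF']
  have h2 : ∀ n ∈ T, n.factorization.prod F = ∏ p ∈ S, F' p (n.factorization p) := by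
    intro n hn
    obtain ⟨_, hsub, _⟩ := hT n hn
    rw [Finsupp.prod, Nat.support_factorization]
    rw [← Finset.prod_subset hsub]
    · apply Finset.prod_congr rfl
      intro p hp
      have : n.factorization p ≠ 0 := by
        rw [← Finsupp.mem_support_iff, Nat.support_factorization]; exact hp
      simp [hF', this]
    · intro p _ hp
      have : n.factorization p = 0 := by
        rw [← Finsupp.notMem_support_iff, Nat.support_factorization]; exact hp
      simp [hF', this]
  set i : ℕ → ((p : ℕ) → p ∈ S → ℕ) := fun n p _ => n.factorization p with hi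
  have hinj : Set.InjOn i T := by
    intro n hn m hm hnm
    obtain ⟨hn0, hnS, _⟩ := hT n hn
    obtain ⟨hm0, hmS, _⟩ := hT m hm
    apply Nat.eq_of_factorization_eq hn0 hm0
    intro p
    by_cases hp : p ∈ S
    · exact congrFun (congrFun hnm p) hp
    · rw [← Nat.support_factorization] at hnS hmS
      rw [Finsupp.notMem_support_iff.1 (fun h => hp (hnS h)),
        Finsupp.notMem_support_iff.1 (fun h => hp (hmS h))]
  rw [Finset.prod_congr rfl (fun p _ => h1 p), Finset.prod_sum]
  calc ∑ n ∈ T, n.factorization.prod F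
      = ∑ n ∈ T, ∏ x ∈ S.attach, F' x.1 (i n x.1 x.2) := by
        apply Finset.sum_congr rfl
        intro n hn
        rw [h2 n hn, ← Finset.prod_attach]
    _ = ∑ e ∈ T.image i, ∏ x ∈ S.attach, F' x.1 (e x.1 x.2) := by
        rw [Finset.sum_image hinj]
    _ ≤ ∑ e ∈ S.pi (fun _ => range (K + 1)), ∏ x ∈ S.attach, F' x.1 (e x.1 x.2) := by
        apply Finset.sum_le_sum_of_subset_of_nonneg
        · intro e he
          obtain ⟨n, hn, rfl⟩ := Finset.mem_image.1 he
          rw [Finset.mem_pi]
          intro p _
          rw [Finset.mem_range]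
          have := (hT n hn).2.2 p
          simp only [hi]; omega
        · intro e _ _
          exact Finset.prod_nonneg fun x _ => hF0 _ _

end Pool.Agent.MK47
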