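import Pool.Agent.MK47.Size
import Pool.Agent.MK47.Second

/-!
# The range of `n = (u + u') / g`

Notation: `S = √N`, `ℓ = ell N`, `L = LL N`, `u₋ = uu a x s (-N)`, `u₊ = uu a x (s+L) N`, and `u'₋, u'₊` for
`x', s'`; `lo = nlo c N x x' s s' = ⌈(u₋ + u'₋)/g⌉₊`, `hi = nhi c N x x' s s' L = ⌊(u₊ + u'₊)/g⌋₊`.
Apply `size_u` with `min ε (1/4)` and note `s + L ≤ 3 Y` (`L ≤ S exp (-3ℓ) ≤ Y`, from `size_LL`, `size_Y`).
(1) `lo ≥ (u₋ + u'₋)/g ≥ (3/4) (a x s + a x' s')/g ≥ (3/2) S exp (ℓ/10)/g ≥ S`.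
(2) `hi ≤ (5/4) (3 a x Y + 3 a x' Y')/g ≤ (5/2) S exp (ℓ/2) ≤ S exp ℓ`.
(3) The radicand of `u₋` is positive (as `u₋ > 0`), so, with `D = (a x)² - 4`,
`u₊² - u₋² = D ((s+L)² - s²) + 8 N ≤ (a x)² * 3 s L + 8 N` (`L ≤ s`), and
`(a x)² s L ≤ (a exp ℓ) (2 a x Y) (S exp (-3ℓ)) ≤ a N exp (-3ℓ/2)`, which is `≤ ε N` for large `N`. So
`u₊ - u₋ ≤ (8 + 3 ε) N / (u₊ + u₋) ≤ (1 + ε) 4 N / u₋` (use `u₊ ≥ u₋`, `uu_mono`). Hence
`hi - lo ≤ (u₊ - u₋ + u'₊ - u'₋)/g ≤ (1+ε) (4N/g) (1/u₋ + 1/u'₋) = (1+ε) (4N/(u₋ u'₋)) (u₋+u'₋)/g ≤ (1+ε) (4N/(u₋u'₋)) lo`.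
(4) `u₋ ≤ (5/4) a x s ≤ (5/2) a x Y ≤ S exp (ℓ/2)`, so `4 N/(u₋ u'₋) ≥ 4 exp (-ℓ) ≥ exp (-2ℓ)`.
(5) `0 < u₋`, from `size_u`, `size_Y`.
-/

namespace Pool.Agent.MK47

open Finset Filter

private theorem ev_exp_le (C : ℝ) (k : ℝ) (hk : 0 < k) :
    ∀ᶠ N : ℕ in atTop, C ≤ Real.exp (k * ell N) := by
  have h : Tendsto (fun N : ℕ => Real.exp (k * ell N)) atTop atTop :=
    Real.tendsto_exp_atTop.comp (ell_tendsto.const_mul_atTop hk)
  exact h.eventually_ge_atTop C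

private theorem one_side (a : ℕ) (ha : 0 < a) (ε : ℝ) (hε : 0 < ε) : ∀ᶠ N : ℕ in atTop, ∀ x : ℕ,
    Real.exp (2 / 3 * ell N) ≤ x → (x : ℝ) ≤ Real.exp (ell N) → ∀ s : ℕ, YY a N x ≤ s →
    s ≤ 2 * YY a N x →
    3 / 4 * (Real.sqrt N * Real.exp (ell N / 10)) ≤ uu a x s (-N) ∧
    uu a x (s + LL N) N ≤ 5 / 4 * (Real.sqrt N * Real.exp (ell N / 2)) ∧
    uu a x (s + LL N) N - uu a x s (-N) ≤ (1 + ε) * (4 * N / uu a x s (-N)) ∧
    uu a x s (-N) ≤ Real.sqrt N * Real.exp (ell N / 2) := by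
  have hε' : 0 < min ε (1 / 4) := by positivity
  filter_upwards [size_LL, size_Y a ha, size_u a ha (min ε (1 / 4)) hε', x_large 2,
    eventually_ge_atTop 1, ev_exp_le (2 * a / (8 * ε)) (3 / 2) (by norm_num)] with N h1 h2 h3 h4 hN h5
  intro x hx1 hx2 s hs1 hs2
  obtain ⟨-, -, hL⟩ := h1
  obtain ⟨hY1, hY2, hY3, -, -⟩ := h2 x hx1 hx2
  have hu := h3 x hx1 hx2
  have hx : (2 : ℝ) ≤ x := h4 x hx1
  have ha1 : (1 : ℝ) ≤ a := by exact_mod_cast ha
  set l := ell N with hl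
  have hl0 : 0 ≤ l := ell_nonneg N
  set S := Real.sqrt N with hSdef
  have hNr : (1 : ℝ) ≤ N := by exact_mod_cast hN
  have hSS : S * S = N := Real.mul_self_sqrt (by linarith)
  have hS0 : 0 < S := Real.sqrt_pos.mpr (by linarith)
  set Y : ℝ := (YY a N x : ℝ) with hYdef
  set L : ℝ := (LL N : ℝ) with hLdef
  have hs1' : Y ≤ (s : ℝ) := by rw [hYdef]; exact_mod_cast hs1
  have hs2' : (s : ℝ) ≤ 2 * Y := by rw [hYdef]; exact_mod_cast hs2
  have hL0 : 0 ≤ L := by positivity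
  have hY0 : 0 ≤ Y := by positivity
  have hLY : L ≤ Y := by
    refine hL.trans (le_trans ?_ hY3)
    apply mul_le_mul_of_nonneg_left _ hS0.le
    apply Real.exp_le_exp.mpr
    linarith
  have hmin1 : min ε (1 / 4) ≤ 1 / 4 := min_le_right _ _
  have hax : 0 ≤ (a : ℝ) * x := by positivity
  have haxs : (a : ℝ) * x * Y ≤ a * x * s := mul_le_mul_of_nonneg_left hs1' hax
  have haxs0 : 0 ≤ (a : ℝ) * x * s := by positivity
  -- lower bound
  have hA : 3 / 4 * (S * Real.exp (l / 10)) ≤ uu a x s (-N) := by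
    have := (hu s hs1' (by linarith)).1
    have h6 : 3 / 4 * ((a : ℝ) * x * s) ≤ (1 - min ε (1 / 4)) * ((a : ℝ) * x * s) :=
      mul_le_mul_of_nonneg_right (by linarith) haxs0
    linarith
  have hum0 : 0 < uu a x s (-N) := lt_of_lt_of_le (by positivity) hA
  have hax2 : 2 ≤ a * x := by
    have h7 : 2 ≤ x := by exact_mod_cast hx
    calc 2 ≤ x := h7
      _ = 1 * x := (one_mul x).symm
      _ ≤ a * x := Nat.mul_le_mul_right x ha
  have hB : uu a x (s + L) N ≤ 5 / 4 * (S * Real.exp (l / 2)) := by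
    have := (hu (s + L) (by linarith) (by linarith)).2
    have h7 : (a : ℝ) * x * (s + L) ≤ a * x * (3 * Y) :=
      mul_le_mul_of_nonneg_left (by linarith) hax
    have h8 : 0 ≤ (a : ℝ) * x * (s + L) := by positivity
    have h9 : (1 + min ε (1 / 4)) * ((a : ℝ) * x * (s + L)) ≤ 5 / 4 * ((a : ℝ) * x * (s + L)) :=
      mul_le_mul_of_nonneg_right (by linarith) h8
    linarith
  have hD : uu a x s (-N) ≤ S * Real.exp (l / 2) := by
    have h6 : uu a x s (-N) ≤ uu a x s N :=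
      uu_mono a x hax2 s s (-N) N (by positivity) le_rfl (by linarith)
    have h7 := (hu s hs1' (by linarith)).2
    have h8 : (1 + min ε (1 / 4)) * ((a : ℝ) * x * s) ≤ 5 / 4 * ((a : ℝ) * x * s) :=
      mul_le_mul_of_nonneg_right (by linarith) haxs0
    have h9 : (a : ℝ) * x * s ≤ a * x * (2 * Y) := mul_le_mul_of_nonneg_left hs2' hax
    have h10 : 0 ≤ S * Real.exp (l / 2) := by positivity
    linarith
  refine ⟨hA, hB, ?_, hD⟩
  -- the difference
  set um := uu a x s (-N) with hum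
  set up := uu a x (s + L) N with hup
  have hmono : um ≤ up :=
    uu_mono a x hax2 s (s + L) (-N) N (by positivity) (by linarith) (by linarith)
  have hum2 : um ^ 2 = ((a : ℝ) ^ 2 * (x : ℝ) ^ 2 - 4) * (s : ℝ) ^ 2 + 4 * (-N) - 4 * (x : ℝ) ^ 2 := by
    rw [hum, uu, Real.sq_sqrt]
    rw [hum, uu, Real.sqrt_pos] at hum0
    exact hum0.le
  have hup2 : up ^ 2 = ((a : ℝ) ^ 2 * (x : ℝ) ^ 2 - 4) * (s + L) ^ 2 + 4 * N - 4 * (x : ℝ) ^ 2 := by
    have : 0 < up := lt_of_lt_of_le hum0 hmono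
    rw [hup, uu, Real.sq_sqrt]
    rw [hup, uu, Real.sqrt_pos] at this
    exact this.le
  have hkey : up ^ 2 - um ^ 2 ≤ 8 * (1 + ε) * N := by
    have e1 : up ^ 2 - um ^ 2 = ((a : ℝ) ^ 2 * (x : ℝ) ^ 2 - 4) * (2 * s * L + L ^ 2) + 8 * N := by
      rw [hup2, hum2]; ring
    have e2 : 0 ≤ 2 * (s : ℝ) * L + L ^ 2 := by positivity
    have e3 : ((a : ℝ) ^ 2 * (x : ℝ) ^ 2 - 4) * (2 * s * L + L ^ 2) ≤
        ((a : ℝ) * x) ^ 2 * (3 * (s * L)) := by
      have e4 : 2 * (s : ℝ) * L + L ^ 2 ≤ 3 * (s * L) := by nlinarith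
      calc ((a : ℝ) ^ 2 * (x : ℝ) ^ 2 - 4) * (2 * s * L + L ^ 2)
          ≤ ((a : ℝ) * x) ^ 2 * (2 * s * L + L ^ 2) := by
            apply mul_le_mul_of_nonneg_right _ e2; nlinarith
        _ ≤ ((a : ℝ) * x) ^ 2 * (3 * (s * L)) := by
            apply mul_le_mul_of_nonneg_left e4 (by positivity)
    have e5 : ((a : ℝ) * x) ^ 2 * (3 * (s * L)) ≤ 2 * a * Real.exp (-(3 / 2) * l) * N := by
      have f1 : (a : ℝ) * x ≤ a * Real.exp l := mul_le_mul_of_nonneg_left hx2 (by positivity)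
      have f2 : 3 * ((a : ℝ) * x * s) ≤ 2 * (S * Real.exp (l / 2)) := by
        have f3 : (a : ℝ) * x * s ≤ a * x * (2 * Y) := mul_le_mul_of_nonneg_left hs2' hax
        linarith
      calc ((a : ℝ) * x) ^ 2 * (3 * (s * L)) = (a * x) * (3 * ((a : ℝ) * x * s)) * L := by ring
        _ ≤ (a * Real.exp l) * (2 * (S * Real.exp (l / 2))) * (S * Real.exp (-3 * l)) := by
            gcongr
        _ = 2 * a * (Real.exp l * Real.exp (l / 2) * Real.exp (-3 * l)) * (S * S) := by ring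
        _ = 2 * a * Real.exp (-(3 / 2) * l) * N := by
            rw [hSS, ← Real.exp_add, ← Real.exp_add]
            congr 3
            ring
    have e6 : 2 * a * Real.exp (-(3 / 2) * l) ≤ 8 * ε := by
      have g1 : Real.exp (-(3 / 2) * l) = (Real.exp (3 / 2 * l))⁻¹ := by
        rw [← Real.exp_neg]; congr 1; ring
      rw [g1, ← div_eq_mul_inv, div_le_iff₀ (Real.exp_pos _)]
      rw [div_le_iff₀ (by positivity)] at h5
      linarith
    have e7 : 2 * a * Real.exp (-(3 / 2) * l) * N ≤ 8 * ε * N :=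
      mul_le_mul_of_nonneg_right e6 (by linarith)
    rw [e1]
    nlinarith
  have hfin : (up - um) * um ≤ (1 + ε) * (4 * N) := by
    have g1 : (up - um) * (2 * um) ≤ (up - um) * (up + um) :=
      mul_le_mul_of_nonneg_left (by linarith) (by linarith)
    nlinarith
  rw [← mul_div_assoc, le_div_iff₀ hum0]
  exact hfin

theorem n_range (c : Cls) (ε : ℝ) (hε : 0 < ε) : ∀ᶠ N : ℕ in atTop, ∀ x ∈ XX c N, ∀ x' ∈ XX c N,
    ∀ s s' : ℕ, YY c.a N x ≤ s → s ≤ 2 * YY c.a N x → YY c.a N x' ≤ s' → s' ≤ 2 * YY c.a N x' →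
    Real.sqrt N ≤ (nlo c N x x' s s' : ℝ) ∧
    (nhi c N x x' s s' (LL N) : ℝ) ≤ Real.sqrt N * Real.exp (ell N) ∧
    (nhi c N x x' s s' (LL N) : ℝ) - nlo c N x x' s s' ≤
      (1 + ε) * (4 * N / (uu c.a x s (-N) * uu c.a x' s' (-N))) * nlo c N x x' s s' ∧
    Real.exp (-2 * ell N) ≤ 4 * N / (uu c.a x s (-N) * uu c.a x' s' (-N)) ∧
    0 < uu c.a x s (-N) ∧ 0 < uu c.a x' s' (-N) := by
  filter_upwards [one_side c.a c.a_pos ε hε, eventually_ge_atTop 1,
    ev_exp_le (2 / 3 * c.g) (1 / 10) (by norm_num), ev_exp_le (5 / 2) (1 / 2) (by norm_num)]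
    with N h1 hN h2 h3
  intro x hx x' hx' s s' hs1 hs2 hs1' hs2'
  obtain ⟨hx1, hx2, -⟩ := mem_XX hx
  obtain ⟨hx1', hx2', -⟩ := mem_XX hx'
  obtain ⟨a1, a2, a3, a4⟩ := h1 x hx1 hx2 s hs1 hs2
  obtain ⟨b1, b2, b3, b4⟩ := h1 x' hx1' hx2' s' hs1' hs2'
  set l := ell N with hl
  have hl0 : 0 ≤ l := ell_nonneg N
  set S := Real.sqrt N with hSdef
  have hNr : (1 : ℝ) ≤ N := by exact_mod_cast hN
  have hSS : S * S = N := Real.mul_self_sqrt (by linarith)
  have hS0 : 0 < S := Real.sqrt_pos.mpr (by linarith)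
  set um := uu c.a x s (-N) with hum
  set um' := uu c.a x' s' (-N) with hum'
  set up := uu c.a x (s + LL N) N with hup
  set up' := uu c.a x' (s' + LL N) N with hup'
  have hum0 : 0 < um := lt_of_lt_of_le (by positivity) a1
  have hum0' : 0 < um' := lt_of_lt_of_le (by positivity) b1
  have hg1 : (1 : ℝ) ≤ c.g := by exact_mod_cast c.g_pos
  have hg0 : (0 : ℝ) < c.g := by linarith
  have hlo : (um + um') / c.g ≤ (nlo c N x x' s s' : ℝ) := by
    rw [nlo]; exact Nat.le_ceil _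
  have hupp : 0 ≤ up := Real.sqrt_nonneg _
  have hupp' : 0 ≤ up' := Real.sqrt_nonneg _
  have hhi : (nhi c N x x' s s' (LL N) : ℝ) ≤ (up + up') / c.g := by
    rw [nhi]; exact Nat.floor_le (by positivity)
  have hexp : Real.exp (l / 10) = Real.exp (1 / 10 * l) := by congr 1; ring
  have hexp2 : Real.exp l = Real.exp (1 / 2 * l) * Real.exp (l / 2) := by
    rw [← Real.exp_add]; congr 1; ring
  have hE2 : 0 < Real.exp (l / 2) := Real.exp_pos _
  refine ⟨?_, ?_, ?_, ?_, hum0, hum0'⟩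
  · refine le_trans ?_ hlo
    rw [le_div_iff₀ hg0]
    have : S * c.g ≤ S * (3 / 2 * Real.exp (l / 10)) := by
      apply mul_le_mul_of_nonneg_left _ hS0.le
      rw [hexp]; linarith
    linarith
  · refine hhi.trans ?_
    have c1 : (up + up') / c.g ≤ up + up' := div_le_self (by positivity) hg1
    have c2 : 5 / 2 * (S * Real.exp (l / 2)) ≤ S * Real.exp l := by
      rw [hexp2]
      have := mul_le_mul_of_nonneg_right h3 (mul_pos hS0 hE2).le
      linarith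
    linarith
  · have c1 : (nhi c N x x' s s' (LL N) : ℝ) - nlo c N x x' s s' ≤
        ((up - um) + (up' - um')) / c.g := by
      have : ((up - um) + (up' - um')) / c.g = (up + up') / c.g - (um + um') / c.g := by ring
      rw [this]; linarith
    have c2 : ((up - um) + (up' - um')) / c.g ≤
        ((1 + ε) * (4 * N / um) + (1 + ε) * (4 * N / um')) / c.g := by
      gcongr
    have c3 : ((1 + ε) * (4 * N / um) + (1 + ε) * (4 * N / um')) / c.g =
        (1 + ε) * (4 * N / (um * um')) * ((um + um') / c.g) := by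
      field_simp
      ring
    have c4 : (1 + ε) * (4 * N / (um * um')) * ((um + um') / c.g) ≤
        (1 + ε) * (4 * N / (um * um')) * nlo c N x x' s s' :=
      mul_le_mul_of_nonneg_left hlo (by positivity)
    linarith
  · rw [le_div_iff₀ (mul_pos hum0 hum0')]
    have c1 : um * um' ≤ (S * Real.exp (l / 2)) * (S * Real.exp (l / 2)) :=
      mul_le_mul a4 b4 hum0'.le (by positivity)
    calc Real.exp (-2 * l) * (um * um')
        ≤ Real.exp (-2 * l) * ((S * Real.exp (l / 2)) * (S * Real.exp (l / 2))) :=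
          mul_le_mul_of_nonneg_left c1 (Real.exp_pos _).le
      _ = (Real.exp (-2 * l) * Real.exp (l / 2) * Real.exp (l / 2)) * (S * S) := by ring
      _ = Real.exp (-l) * N := by
          rw [hSS, ← Real.exp_add, ← Real.exp_add]; congr 2; ring
      _ ≤ 1 * N := by
          apply mul_le_mul_of_nonneg_right _ (by linarith)
          rw [Real.exp_le_one_iff]; linarith
      _ ≤ 4 * N := by linarith

end Pool.Agent.MK47
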