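import Pool.Agent.MK47.Rep

/-!
# The sum `u + u'` of two representations of the same `b`

* `pair_arith`: `u = u0 + q t`, `u' = u0 + q t'`, `q = g h`, `2 u0 = g w`, so
  `u + u' = g (w + h (t + t'))`; put `n = w + h (t + t')`. No prime divisor of `h` divides `n`
  (`c.cop`), so `n` is coprime to `h` and to `g` (`c.rad`) and to `2`. Also
  `E = u^2 - u'^2 = (a²x²-4) y^2 - (a²x'²-4) y'^2 + 4 (x'^2 - x^2)` is divisible by `Q = 2 g q`, since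
  `x ≡ x' ≡ x0`, `y ≡ y' ≡ y0 (mod Q)`. As `E = (u - u') (u + u') = q (t - t') g n`, `2 g q ∣ q g (t-t') n`,
  so `2 ∣ (t - t') n` and `n` is odd, so `t ≡ t' (mod 2)`, so `2 h ∣ h (t + t') = n - w`.
  And `n ∣ E` since `E = (u - u') g n`.
* `cop_n`: if `2 h ∣ n - w` and a prime `p ∣ h` divides `n`, then `p ∣ w`, against `c.cop`.
* `cop_nQ`: every prime divisor of `Q = 2 g g h` divides `h` (`c.two_h`, `c.rad`).
-/

namespace Pool.Agent.MK47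

open Finset Filter

theorem pair_arith (c : Cls) (x x' y y' u u' : ℤ) (hx : (c.Q : ℤ) ∣ x - c.x0)
    (hx' : (c.Q : ℤ) ∣ x' - c.x0) (hy : (c.Q : ℤ) ∣ y - c.y0) (hy' : (c.Q : ℤ) ∣ y' - c.y0)
    (hu : (c.q : ℤ) ∣ u - c.u0) (hu' : (c.q : ℤ) ∣ u' - c.u0)
    (h : u ^ 2 - u' ^ 2 = ((c.a : ℤ) ^ 2 * x ^ 2 - 4) * y ^ 2 -
      ((c.a : ℤ) ^ 2 * x' ^ 2 - 4) * y' ^ 2 + 4 * (x' ^ 2 - x ^ 2)) :
    ∃ n : ℤ, u + u' = c.g * n ∧ ((2 * c.h : ℕ) : ℤ) ∣ n - c.w ∧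
      n ∣ ((c.a : ℤ) ^ 2 * x ^ 2 - 4) * y ^ 2 -
        ((c.a : ℤ) ^ 2 * x' ^ 2 - 4) * y' ^ 2 + 4 * (x' ^ 2 - x ^ 2) := by
  obtain ⟨t, ht⟩ := hu
  obtain ⟨t', ht'⟩ := hu'
  have hq : (c.q : ℤ) = (c.g : ℤ) * c.h := by unfold Cls.q; push_cast; ring
  rw [hq] at ht ht'
  have hg : 2 * c.u0 = (c.g : ℤ) * c.w := c.two_u
  have hsum : u + u' = (c.g : ℤ) * (c.w + c.h * (t + t')) := by
    linear_combination ht + ht' + hg
  have hdiff : u - u' = (c.g : ℤ) * c.h * (t - t') := by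
    linear_combination ht - ht'
  have hE : ((c.a : ℤ) ^ 2 * x ^ 2 - 4) * y ^ 2 -
      ((c.a : ℤ) ^ 2 * x' ^ 2 - 4) * y' ^ 2 + 4 * (x' ^ 2 - x ^ 2) =
      (c.g : ℤ) * c.h * (t - t') * ((c.g : ℤ) * (c.w + c.h * (t + t'))) := by
    rw [← h, ← hsum, ← hdiff]
    ring
  have hQE : (c.Q : ℤ) ∣ ((c.a : ℤ) ^ 2 * x ^ 2 - 4) * y ^ 2 -
      ((c.a : ℤ) ^ 2 * x' ^ 2 - 4) * y' ^ 2 + 4 * (x' ^ 2 - x ^ 2) := by
    have e : ((c.a : ℤ) ^ 2 * x ^ 2 - 4) * y ^ 2 -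
        ((c.a : ℤ) ^ 2 * x' ^ 2 - 4) * y' ^ 2 + 4 * (x' ^ 2 - x ^ 2) =
        ((x - c.x0) - (x' - c.x0)) * ((x + x') * ((c.a : ℤ) ^ 2 * y ^ 2 - 4)) +
        ((y - c.y0) - (y' - c.y0)) * ((y + y') * ((c.a : ℤ) ^ 2 * x' ^ 2 - 4)) := by
      ring
    rw [e]
    exact dvd_add ((dvd_sub hx hx').mul_right _) ((dvd_sub hy hy').mul_right _)
  have hgpos : (c.g : ℤ) ≠ 0 := by
    have := c.g_pos
    positivity
  have hhpos : (c.h : ℤ) ≠ 0 := by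
    have := c.h_pos
    positivity
  have h2 : (2 : ℤ) ∣ (t - t') * (c.w + c.h * (t + t')) := by
    rw [hE] at hQE
    have e1 : (c.Q : ℤ) = ((c.g : ℤ) * c.g * c.h) * 2 := by
      unfold Cls.Q
      push_cast
      ring
    have e2 : (c.g : ℤ) * c.h * (t - t') * ((c.g : ℤ) * (c.w + c.h * (t + t'))) =
        ((c.g : ℤ) * c.g * c.h) * ((t - t') * (c.w + c.h * (t + t'))) := by ring
    rw [e1, e2] at hQE
    exact Int.dvd_of_mul_dvd_mul_left (mul_ne_zero (mul_ne_zero hgpos hgpos) hhpos) hQE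
  have h2h : (2 : ℤ) ∣ (c.h : ℤ) := by
    have := c.two_h
    exact_mod_cast this
  have h2w : ¬ (2 : ℤ) ∣ c.w := by
    have := c.cop 2 Nat.prime_two c.two_h
    exact_mod_cast this
  have h2n : ¬ (2 : ℤ) ∣ (c.w + c.h * (t + t')) := by
    intro h3
    apply h2w
    have h4 : (2 : ℤ) ∣ (c.h : ℤ) * (t + t') := h2h.mul_right _
    have h5 := dvd_sub h3 h4
    have e : (c.w + c.h * (t + t')) - (c.h : ℤ) * (t + t') = c.w := by ring
    rwa [e] at h5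
  have h2t : (2 : ℤ) ∣ t - t' := by
    rcases Int.prime_two.dvd_or_dvd h2 with h3 | h3
    · exact h3
    · exact absurd h3 h2n
  have h2s : (2 : ℤ) ∣ t + t' := by
    obtain ⟨k, hk⟩ := h2t
    exact ⟨k + t', by linear_combination hk⟩
  refine ⟨c.w + c.h * (t + t'), hsum, ?_, ?_⟩
  · obtain ⟨k, hk⟩ := h2s
    refine ⟨k, ?_⟩
    push_cast
    linear_combination (c.h : ℤ) * hk
  · rw [hE]
    exact Dvd.intro_left ((c.g : ℤ) * c.h * (t - t') * c.g) (by ring)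

theorem cop_n (c : Cls) (n : ℕ) (hn : ((2 * c.h : ℕ) : ℤ) ∣ (n : ℤ) - c.w) (p : ℕ) (hp : p.Prime)
    (hph : p ∣ c.h) : ¬ p ∣ n := by
  intro hpn
  apply c.cop p hp hph
  have h1 : (p : ℤ) ∣ ((2 * c.h : ℕ) : ℤ) := by
    exact_mod_cast (hph.mul_left 2)
  have h2 : (p : ℤ) ∣ (n : ℤ) := by exact_mod_cast hpn
  have h3 := dvd_sub h2 (h1.trans hn)
  have e : (n : ℤ) - ((n : ℤ) - c.w) = c.w := by ring
  rwa [e] at h3

theorem cop_nQ (c : Cls) (n : ℕ) (hn : ((2 * c.h : ℕ) : ℤ) ∣ (n : ℤ) - c.w) :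
    n.Coprime c.Q ∧ n.Coprime c.h ∧ 0 < n := by
  refine ⟨?_, ?_, ?_⟩
  · apply Nat.Coprime.symm
    apply Nat.coprime_of_dvd
    intro p hp hpQ hpn
    refine cop_n c n hn p hp ?_ hpn
    unfold Cls.Q at hpQ
    rcases (Nat.Prime.dvd_mul hp).1 hpQ with h1 | h1
    · have : p = 2 := (Nat.prime_dvd_prime_iff_eq hp Nat.prime_two).1 h1
      rw [this]
      exact c.two_h
    · rcases (Nat.Prime.dvd_mul hp).1 h1 with h2 | h2
      · rcases (Nat.Prime.dvd_mul hp).1 h2 with h3 | h3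
        · exact c.rad p hp h3
        · exact c.rad p hp h3
      · exact h2
  · apply Nat.Coprime.symm
    apply Nat.coprime_of_dvd
    intro p hp hph hpn
    exact cop_n c n hn p hp hph hpn
  · rcases Nat.eq_zero_or_pos n with h0 | h0
    · exfalso
      refine cop_n c n hn 2 Nat.prime_two c.two_h ?_
      rw [h0]
      exact dvd_zero 2
    · exact h0

end Pool.Agent.MK47
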