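import Pool.Agent.MK47.Defs

/-!
# Representations in a class

Let `c : Cls`, `g = c.g`, `h = c.h`, `q = g h`, `Q = 2 g^2 h`.

* `two_g`: `2 u0 = g w` (`c.two_u`, `Cls.u0`) and `w` is odd (`c.cop 2` and `c.two_h`), hence `2 ∣ g`.
* `four_B`: `4 ∣ g * g * h`, so `4 * c.B = g * g * h` (`Nat.mul_div_cancel'`). `B_pos` follows.
* `form_mod`: `x ≡ x0`, `y ≡ y0 (mod Q)`, `u = u0 + q t`. Then
  `u^2 = u0^2 + (2 u0) q t + q^2 t^2 = u0^2 + g w q t + q * (g h) t^2` is congruent to `u0^2` modulo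
  `g q = g g h`; the polynomial `(a^2 x^2 - 4) y^2 - 4 x^2` is congruent modulo `Q`, hence modulo
  `g g h`, to its value at `(x0, y0)`; and `4 β = u0^2 - (a^2 x0^2 - 4) y0^2 + 4 x0^2` by `ring`
  (unfold `Cls.beta`, `Cls.u0`).
* `rep_sol`: `u^2 = (a^2x^2-4) y^2 + 4 b - 4 x^2` gives `u ≡ a x y (mod 2)` (`u^2 ≡ (a x y)^2 (mod 4)`);
  put `u - a x y = 2 z`; then `4 (x^2+y^2+z^2+axyz) = 4 b` by `ring`/`nlinarith`/`linear_combination`.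
* `rep_mod`: from `form_mod`: `g g h = 4 B` divides `4 b - 4 β`.
* `sol_of_RR`: if `RR c N b ≠ 0` some `rr c N x b ≠ 0`, so there is `y` and `u`; apply `rep_sol`, `rep_mod`
  (with `DD a x = a^2 x^2 - 4` by definition; `x ∈ XX c N` gives `Q ∣ x - x0`).
-/

namespace Pool.Agent.MK47

open Finset Filter

theorem two_g (c : Cls) : 2 ∣ c.g := by
  have h1 : (2 : ℤ) ∣ (c.g : ℤ) * c.w := ⟨_, c.two_u.symm⟩
  have h2 : ¬ (2 : ℤ) ∣ c.w := by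
    have := c.cop 2 Nat.prime_two c.two_h
    exact_mod_cast this
  rcases Int.prime_two.dvd_or_dvd h1 with h3 | h3
  · exact_mod_cast h3
  · exact absurd h3 h2

theorem four_B (c : Cls) : 4 * c.B = c.g * c.g * c.h := by
  obtain ⟨k, hk⟩ := two_g c
  have h1 : 4 ∣ c.g * c.g * c.h := ⟨k * k * c.h, by rw [hk]; ring⟩
  exact Nat.mul_div_cancel' h1

theorem B_pos (c : Cls) : 0 < c.B := by
  have h1 := four_B c
  have h2 : 0 < c.g * c.g * c.h := Nat.mul_pos (Nat.mul_pos c.g_pos c.g_pos) c.h_pos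
  omega

theorem form_mod (c : Cls) (x y u : ℤ) (hx : (c.Q : ℤ) ∣ x - c.x0) (hy : (c.Q : ℤ) ∣ y - c.y0)
    (hu : (c.q : ℤ) ∣ u - c.u0) :
    ((4 * c.B : ℕ) : ℤ) ∣ u ^ 2 - ((c.a : ℤ) ^ 2 * x ^ 2 - 4) * y ^ 2 + 4 * x ^ 2 - 4 * c.beta := by
  rw [four_B]
  have hQ : ((c.g * c.g * c.h : ℕ) : ℤ) ∣ (c.Q : ℤ) := by
    refine ⟨2, ?_⟩
    unfold Cls.Q
    push_cast
    ring
  obtain ⟨r, hr⟩ := hu
  have hg := c.two_u
  have e1 : ((c.g * c.g * c.h : ℕ) : ℤ) ∣ u ^ 2 - c.u0 ^ 2 := by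
    refine ⟨r * (c.w + c.h * r), ?_⟩
    have hu' : u = c.u0 + (c.g : ℤ) * c.h * r := by
      have : (c.q : ℤ) = (c.g : ℤ) * c.h := by unfold Cls.q; push_cast; ring
      rw [this] at hr
      linarith
    have hg' : 2 * c.u0 = (c.g : ℤ) * c.w := hg
    rw [hu']
    push_cast
    linear_combination ((c.g : ℤ) * c.h * r) * hg'
  have e2 : ((c.g * c.g * c.h : ℕ) : ℤ) ∣ x - c.x0 := hQ.trans hx
  have e3 : ((c.g * c.g * c.h : ℕ) : ℤ) ∣ y - c.y0 := hQ.trans hy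
  have e4 : u ^ 2 - ((c.a : ℤ) ^ 2 * x ^ 2 - 4) * y ^ 2 + 4 * x ^ 2 - 4 * c.beta =
      (u ^ 2 - c.u0 ^ 2) + (x - c.x0) * ((x + c.x0) * (4 - (c.a : ℤ) ^ 2 * y ^ 2)) -
        (y - c.y0) * ((y + c.y0) * ((c.a : ℤ) ^ 2 * c.x0 ^ 2 - 4)) := by
    unfold Cls.beta Cls.u0
    ring
  rw [e4]
  exact dvd_sub (dvd_add e1 (e2.mul_right _)) (e3.mul_right _)

theorem rep_sol (a x y u b : ℤ) (h : u ^ 2 = (a ^ 2 * x ^ 2 - 4) * y ^ 2 + 4 * b - 4 * x ^ 2) :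
    ∃ z : ℤ, x ^ 2 + y ^ 2 + z ^ 2 + a * x * y * z = b := by
  have h1 : (u - a * x * y) * (u + a * x * y) = 2 * (2 * (b - x ^ 2 - y ^ 2)) := by
    linear_combination h
  have h2 : (2 : ℤ) ∣ u - a * x * y := by
    rcases Int.prime_two.dvd_or_dvd (Dvd.intro _ h1.symm) with h3 | h3
    · exact h3
    · have h4 : u - a * x * y = (u + a * x * y) - 2 * (a * x * y) := by ring
      rw [h4]
      exact dvd_sub h3 (Dvd.intro _ rfl)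
  obtain ⟨z, hz⟩ := h2
  refine ⟨z, ?_⟩
  have h5 : 4 * (x ^ 2 + y ^ 2 + z ^ 2 + a * x * y * z) = 4 * b := by
    linear_combination h - (u - a * x * y + 2 * z) * hz - 2 * (a * x * y) * hz
  linarith

theorem rep_mod (c : Cls) (x y u b : ℤ) (hx : (c.Q : ℤ) ∣ x - c.x0) (hy : (c.Q : ℤ) ∣ y - c.y0)
    (hu : (c.q : ℤ) ∣ u - c.u0)
    (h : u ^ 2 = ((c.a : ℤ) ^ 2 * x ^ 2 - 4) * y ^ 2 + 4 * b - 4 * x ^ 2) :
    (c.B : ℤ) ∣ b - c.beta := by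
  have h1 := form_mod c x y u hx hy hu
  have h2 : u ^ 2 - ((c.a : ℤ) ^ 2 * x ^ 2 - 4) * y ^ 2 + 4 * x ^ 2 - 4 * c.beta =
      4 * (b - c.beta) := by
    linear_combination h
  rw [h2] at h1
  push_cast at h1
  exact Int.dvd_of_mul_dvd_mul_left (by norm_num) h1

theorem sol_of_RR (c : Cls) (N : ℕ) (b : ℤ) (h : RR c N b ≠ 0) :
    (∃ x y z : ℤ, x ^ 2 + y ^ 2 + z ^ 2 + (c.a : ℤ) * x * y * z = b) ∧ (c.B : ℤ) ∣ b - c.beta := by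
  classical
  unfold RR at h
  obtain ⟨x, hx, hrr⟩ := Finset.exists_ne_zero_of_sum_ne_zero h
  unfold rr at hrr
  rw [Finset.card_ne_zero] at hrr
  obtain ⟨y, hy⟩ := hrr
  obtain ⟨_, hy1, u, hu1, hu2⟩ := Finset.mem_filter.1 hy
  unfold XX at hx
  rw [Finset.mem_filter] at hx
  unfold DD at hu2
  obtain ⟨z, hz⟩ := rep_sol (c.a : ℤ) x y u b hu2
  exact ⟨⟨x, y, z, hz⟩, rep_mod c x y u b hx.2 hy1 hu1 hu2⟩

end Pool.Agent.MK47
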