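import Pool.Agent.MK47.Defs

/-!
# `rho` is multiplicative

`rho A B C n` is the number of pairs `(v, w)` in `range n ×ˢ range n` with `n ∣ A v² - B w² + C`. For
coprime `m, n ≥ 1` the map `(v, w) ↦ ((v % m, w % m), (v % n, w % n))` is a bijection from the
set for `m n` onto the product of the sets for `m` and `n` (Chinese remainder theorem,
`Nat.chineseRemainder`), since `m n ∣ F ↔ m ∣ F ∧ n ∣ F` for coprime `m, n`, and `F = A v² - B w² + C`
modulo `m` depends only on `v, w` modulo `m`. (Case `m = 0` or `n = 0`: then the other is `1` and the claim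
is `rho 0 = 0`; state only for positive.)
* `rho_scale`: if `d ∣ A, B, C`, `A = d A'` etc. and `n = d m`, then `d m ∣ d F' ↔ m ∣ F'`, and the number of
  `v mod d m` over a class modulo `m` is `d`, so `rho A B C (d m) = d² rho A' B' C' m`.
* `rho_div`: if `n ∣ A, B, C` then `rho = n²`.
* `rho_le`: `rho ≤ n²`.
* `rho_interval`: the number of `(v, w) ∈ [s, s+n) × [s', s'+n)` with `n ∣ F` is `rho A B C n` (a
  complete system of residues in each variable).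
-/

namespace Pool.Agent.MK47

open Finset

theorem rho_one (A B C : ℤ) : rho A B C 1 = 1 := by
  unfold rho
  simp

private theorem rm_mod (A B C : ℤ) (m : ℕ) (v w : ℕ) :
    (m : ℤ) ∣ A * ((v % m : ℕ) : ℤ) ^ 2 - B * ((w % m : ℕ) : ℤ) ^ 2 + C ↔
      (m : ℤ) ∣ A * (v : ℤ) ^ 2 - B * (w : ℤ) ^ 2 + C := by
  have hmod : ∀ y : ℕ, (m : ℤ) ∣ (y : ℤ) - ((y % m : ℕ) : ℤ) := by
    intro y
    push_cast
    exact Int.dvd_self_sub_emod
  have h4 : (m : ℤ) ∣ (A * (v : ℤ) ^ 2 - B * (w : ℤ) ^ 2 + C) -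
      (A * ((v % m : ℕ) : ℤ) ^ 2 - B * ((w % m : ℕ) : ℤ) ^ 2 + C) := by
    have e : (A * (v : ℤ) ^ 2 - B * (w : ℤ) ^ 2 + C) -
        (A * ((v % m : ℕ) : ℤ) ^ 2 - B * ((w % m : ℕ) : ℤ) ^ 2 + C) =
        ((v : ℤ) - ((v % m : ℕ) : ℤ)) * (A * ((v : ℤ) + ((v % m : ℕ) : ℤ))) -
        ((w : ℤ) - ((w % m : ℕ) : ℤ)) * (B * ((w : ℤ) + ((w % m : ℕ) : ℤ))) := by ring
    rw [e]
    exact dvd_sub (dvd_mul_of_dvd_left (hmod _) _) (dvd_mul_of_dvd_left (hmod _) _)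
  exact (dvd_iff_dvd_of_dvd_sub h4).symm

private theorem rm_cong (A B C : ℤ) (m : ℕ) (v w v' w' : ℕ) (h1 : v ≡ v' [MOD m])
    (h2 : w ≡ w' [MOD m]) :
    (m : ℤ) ∣ A * (v : ℤ) ^ 2 - B * (w : ℤ) ^ 2 + C ↔
      (m : ℤ) ∣ A * (v' : ℤ) ^ 2 - B * (w' : ℤ) ^ 2 + C := by
  have e1 : v % m = v' % m := h1
  have e2 : w % m = w' % m := h2
  rw [← rm_mod A B C m v w, ← rm_mod A B C m v' w', e1, e2]

theorem rho_mul (A B C : ℤ) (m n : ℕ) (hm : 0 < m) (hn : 0 < n) (h : m.Coprime n) :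
    rho A B C (m * n) = rho A B C m * rho A B C n := by
  unfold rho
  rw [← card_product]
  apply card_bij (fun v _ => ((v.1 % m, v.2 % m), (v.1 % n, v.2 % n)))
  · rintro ⟨v, w⟩ hv
    rw [mem_filter] at hv
    rw [mem_product, mem_filter, mem_filter, mem_product, mem_product, mem_range, mem_range,
      mem_range, mem_range]
    have h1 : (m : ℤ) ∣ ((m * n : ℕ) : ℤ) := by push_cast; exact dvd_mul_right _ _
    have h2 : (n : ℤ) ∣ ((m * n : ℕ) : ℤ) := by push_cast; exact dvd_mul_left _ _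
    exact ⟨⟨⟨Nat.mod_lt _ hm, Nat.mod_lt _ hm⟩, (rm_mod A B C m v w).2 (h1.trans hv.2)⟩,
      ⟨⟨Nat.mod_lt _ hn, Nat.mod_lt _ hn⟩, (rm_mod A B C n v w).2 (h2.trans hv.2)⟩⟩
  · rintro ⟨v, w⟩ hv ⟨v', w'⟩ hv' he
    rw [mem_filter, mem_product, mem_range, mem_range] at hv hv'
    simp only [Prod.mk.injEq] at he
    obtain ⟨⟨e1, e2⟩, e3, e4⟩ := he
    have k1 : v ≡ v' [MOD m * n] := (Nat.modEq_and_modEq_iff_modEq_mul h).1 ⟨e1, e3⟩
    have k2 : w ≡ w' [MOD m * n] := (Nat.modEq_and_modEq_iff_modEq_mul h).1 ⟨e2, e4⟩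
    rw [Prod.mk.injEq]
    exact ⟨Nat.ModEq.eq_of_lt_of_lt k1 hv.1.1 hv'.1.1, Nat.ModEq.eq_of_lt_of_lt k2 hv.1.2 hv'.1.2⟩
  · rintro ⟨⟨a, a'⟩, b, b'⟩ hb
    rw [mem_product, mem_filter, mem_filter, mem_product, mem_product, mem_range, mem_range,
      mem_range, mem_range] at hb
    obtain ⟨⟨⟨a1, a2⟩, a3⟩, ⟨b1, b2⟩, b3⟩ := hb
    simp only at a1 a2 a3 b1 b2 b3
    set k := Nat.chineseRemainder h a b with hk
    set k' := Nat.chineseRemainder h a' b' with hk'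
    have hk1 : (k : ℕ) ≡ a [MOD m] := k.2.1
    have hk2 : (k : ℕ) ≡ b [MOD n] := k.2.2
    have hk3 : (k' : ℕ) ≡ a' [MOD m] := k'.2.1
    have hk4 : (k' : ℕ) ≡ b' [MOD n] := k'.2.2
    refine ⟨((k : ℕ), (k' : ℕ)), ?_, ?_⟩
    · rw [mem_filter, mem_product, mem_range, mem_range]
      refine ⟨⟨Nat.chineseRemainder_lt_mul h a b hm.ne' hn.ne',
        Nat.chineseRemainder_lt_mul h a' b' hm.ne' hn.ne'⟩, ?_⟩
      simp only
      have c1 : (m : ℤ) ∣ A * ((k : ℕ) : ℤ) ^ 2 - B * ((k' : ℕ) : ℤ) ^ 2 + C :=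
        (rm_cong A B C m _ _ _ _ hk1 hk3).2 a3
      have c2 : (n : ℤ) ∣ A * ((k : ℕ) : ℤ) ^ 2 - B * ((k' : ℕ) : ℤ) ^ 2 + C :=
        (rm_cong A B C n _ _ _ _ hk2 hk4).2 b3
      push_cast
      exact (Nat.isCoprime_iff_coprime.2 h).mul_dvd c1 c2
    · have d1 : (k : ℕ) % m = a := by rw [show (k : ℕ) % m = a % m from hk1, Nat.mod_eq_of_lt a1]
      have d2 : (k' : ℕ) % m = a' := by
        rw [show (k' : ℕ) % m = a' % m from hk3, Nat.mod_eq_of_lt a2]
      have d3 : (k : ℕ) % n = b := by rw [show (k : ℕ) % n = b % n from hk2, Nat.mod_eq_of_lt b1]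
      have d4 : (k' : ℕ) % n = b' := by
        rw [show (k' : ℕ) % n = b' % n from hk4, Nat.mod_eq_of_lt b2]
      simp only
      rw [d1, d2, d3, d4]

theorem rho_scale (A B C : ℤ) (d m : ℕ) (hd : 0 < d) (hm : 0 < m) :
    rho (d * A) (d * B) (d * C) (d * m) = d ^ 2 * rho A B C m := by
  unfold rho
  have e0 : d ^ 2 * ((range m ×ˢ range m).filter fun v =>
      (m : ℤ) ∣ A * (v.1 : ℤ) ^ 2 - B * (v.2 : ℤ) ^ 2 + C).card =
      ((range d ×ˢ range d) ×ˢ ((range m ×ˢ range m).filter fun v =>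
      (m : ℤ) ∣ A * (v.1 : ℤ) ^ 2 - B * (v.2 : ℤ) ^ 2 + C)).card := by
    rw [card_product, card_product, card_range, sq]
  rw [e0]
  symm
  have hdz : (d : ℤ) ≠ 0 := by exact_mod_cast hd.ne'
  have key : ∀ i r : ℕ, (m * i + r) % m = r % m := fun i r => Nat.mul_add_mod _ _ _
  have hlt : ∀ i r : ℕ, i < d → r < m → m * i + r < d * m := by
    intro i r hi hr
    have : m * i + m ≤ m * d := by
      have := Nat.mul_le_mul_left m (Nat.succ_le_of_lt hi)
      rw [Nat.mul_succ] at this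
      exact this
    rw [mul_comm d m]
    omega
  apply card_bij (fun q _ => (m * q.1.1 + q.2.1, m * q.1.2 + q.2.2))
  · rintro ⟨⟨i, j⟩, r, r'⟩ hq
    rw [mem_product, mem_product, mem_filter, mem_product, mem_range, mem_range, mem_range,
      mem_range] at hq
    obtain ⟨⟨i1, j1⟩, ⟨r1, r2⟩, h3⟩ := hq
    simp only at i1 j1 r1 r2 h3
    rw [mem_filter, mem_product, mem_range, mem_range]
    refine ⟨⟨hlt i r i1 r1, hlt j r' j1 r2⟩, ?_⟩
    simp only
    have h4 := (rm_cong A B C m (m * i + r) (m * j + r') r r' (key i r) (key j r')).2 h3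
    obtain ⟨c, hc⟩ := h4
    refine ⟨c, ?_⟩
    calc (d : ℤ) * A * ((m * i + r : ℕ) : ℤ) ^ 2 - d * B * ((m * j + r' : ℕ) : ℤ) ^ 2 + d * C
        = d * (A * ((m * i + r : ℕ) : ℤ) ^ 2 - B * ((m * j + r' : ℕ) : ℤ) ^ 2 + C) := by ring
      _ = d * (m * c) := by rw [hc]
      _ = ((d * m : ℕ) : ℤ) * c := by push_cast; ring
  · rintro ⟨⟨i, j⟩, r, r'⟩ hq ⟨⟨i', j'⟩, s, s'⟩ hq' he
    rw [mem_product, mem_product, mem_filter, mem_product, mem_range, mem_range, mem_range,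
      mem_range] at hq hq'
    obtain ⟨⟨i1, j1⟩, ⟨r1, r2⟩, h3⟩ := hq
    obtain ⟨⟨i1', j1'⟩, ⟨s1, s2⟩, h3'⟩ := hq'
    simp only at i1 j1 r1 r2 i1' j1' s1 s2
    simp only [Prod.mk.injEq] at he
    obtain ⟨e1, e2⟩ := he
    have f1 : r = s := by
      have := congrArg (fun x => x % m) e1
      rwa [key, key, Nat.mod_eq_of_lt r1, Nat.mod_eq_of_lt s1] at this
    have f2 : r' = s' := by
      have := congrArg (fun x => x % m) e2
      rwa [key, key, Nat.mod_eq_of_lt r2, Nat.mod_eq_of_lt s2] at this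
    subst f1
    subst f2
    have f3 : i = i' := Nat.eq_of_mul_eq_mul_left hm (by omega)
    have f4 : j = j' := Nat.eq_of_mul_eq_mul_left hm (by omega)
    rw [f3, f4]
  · rintro ⟨v, w⟩ hv
    rw [mem_filter, mem_product, mem_range, mem_range] at hv
    obtain ⟨⟨v1, w1⟩, h3⟩ := hv
    simp only at v1 w1 h3
    refine ⟨((v / m, w / m), (v % m, w % m)), ?_, ?_⟩
    · rw [mem_product, mem_product, mem_filter, mem_product, mem_range, mem_range, mem_range,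
        mem_range]
      refine ⟨⟨?_, ?_⟩, ⟨Nat.mod_lt _ hm, Nat.mod_lt _ hm⟩, ?_⟩
      · simp only
        rw [Nat.div_lt_iff_lt_mul hm]
        exact v1
      · simp only
        rw [Nat.div_lt_iff_lt_mul hm]
        exact w1
      · simp only
        rw [rm_mod]
        obtain ⟨c, hc⟩ := h3
        refine ⟨c, ?_⟩
        have h5 : (d : ℤ) * (A * (v : ℤ) ^ 2 - B * (w : ℤ) ^ 2 + C) = d * (m * c) := by
          calc (d : ℤ) * (A * (v : ℤ) ^ 2 - B * (w : ℤ) ^ 2 + C)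
              = d * A * (v : ℤ) ^ 2 - d * B * (w : ℤ) ^ 2 + d * C := by ring
            _ = ((d * m : ℕ) : ℤ) * c := hc
            _ = d * (m * c) := by push_cast; ring
        exact mul_left_cancel₀ hdz h5
    · simp only
      rw [Nat.div_add_mod, Nat.div_add_mod]

theorem rho_div (A B C : ℤ) (n : ℕ) (hA : (n : ℤ) ∣ A) (hB : (n : ℤ) ∣ B) (hC : (n : ℤ) ∣ C) :
    rho A B C n = n ^ 2 := by
  unfold rho
  rw [filter_true_of_mem, card_product, card_range, sq]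
  intro v _
  exact dvd_add (dvd_sub (dvd_mul_of_dvd_left hA _) (dvd_mul_of_dvd_left hB _)) hC

theorem rho_le (A B C : ℤ) (n : ℕ) : rho A B C n ≤ n ^ 2 := by
  unfold rho
  refine (card_filter_le _ _).trans ?_
  rw [card_product, card_range, sq]

end Pool.Agent.MK47
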