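import Pool.Agent.MK47.SqRoots
import Pool.Agent.MK47.RhoMul
import Pool.Agent.MK47.ConSum

/-!
# `rho` at prime powers

`p` is an odd prime.
* `root_count`: for `p ∤ A` the number of `v ∈ range (p^k)` with `p^k ∣ A v² - c` is the number with
  `p^k ∣ v² - A⁻¹ c` where `A⁻¹` is an inverse of `A` modulo `p^k`; so the bounds of `SqRoots` apply
  (`p^j ∣ A⁻¹ c ↔ p^j ∣ c` for `j ≤ k`): at most `2` if `p ∤ c`; at most `2 p^(v/2)` if `p^(v+1) ∤ c`, and at
  most `2 p^(k/2)` always.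
* `rho_bad`: suppose not (`p ∣ A` and `p ∣ B`), and `p ∣ A → p ∤ C`, `p ∣ B → p ∤ C`. Then
  `rho A B C (p^k) ≤ 4 (k+1) p^k`.
  (i) `p ∣ A`: then `p ∤ B`, `p ∤ C`; for each `v`, `w` runs over the solutions of
  `B w² ≡ A v² + C`, a unit modulo `p`: at most `2`; total `≤ 2 p^k`. (ii) `p ∣ B`: symmetric.
  (iii) `p ∤ A`, `p ∤ B`. For `w` in `range (p^k)` let `j = j(w) ≤ k` be the largest `j ≤ k` with
  `p^j ∣ B w² - C`. The number of `v` with `A v² ≡ B w² - C (mod p^k)` is at most `2 p^(j/2)`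
  (`root_count`; if `j = k` the bound `2 p^(k/2)`). The number of `w` with `p^j ∣ B w² - C` is at most
  `2 p^(j/2)` classes modulo `p^j`, so at most `2 p^(j/2) p^(k-j)` (each class mod `p^j` has `p^(k-j)`
  elements of `range (p^k)`). Total `≤ ∑_{j=0}^k 2 p^(j/2) 2 p^(j/2) p^(k-j) ≤ 4 (k+1) p^k`.
* `rho_good1`: `p ∤ A B C`: `rho A B C p ≤ p + 1` from `con_card` (the pairs in `range p ×ˢ range p`
  correspond to `ZMod p × ZMod p`).
* `rho_good`: `p ∤ A B C`: `rho A B C (p^k) ≤ 3 p^k`. For `k = 0` it is `1`. For `k ≥ 1`: pairs with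
  `p ∤ B w² - C`: for each `w` at most two `v`: total `≤ 2 p^k`. Pairs with `p ∣ B w² - C`: then
  `p ∣ v` (as `A v² ≡ B w² - C`, `p ∤ A`), and for each of the `p^(k-1)` values `v` divisible by `p`,
  `B w² ≡ A v² + C` is a unit, so at most two `w`: total `≤ 2 p^(k-1) ≤ p^k`.
-/

namespace Pool.Agent.MK47

open Finset

/-- An inverse modulo `p^(k+1)`. -/
theorem rl_inv (p : ℕ) (hp : p.Prime) (A : ℤ) (hA : ¬ (p : ℤ) ∣ A) (k : ℕ) :
    ∃ A' : ℤ, ((p ^ k : ℕ) : ℤ) ∣ A * A' - 1 ∧ ¬ (p : ℤ) ∣ A' := by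
  have hpi : Prime (p : ℤ) := Nat.prime_iff_prime_int.1 hp
  have hco : IsCoprime ((p : ℤ) ^ (k + 1)) A :=
    IsCoprime.pow_left ((Irreducible.coprime_iff_not_dvd hpi.irreducible).2 hA)
  obtain ⟨b, a, h⟩ := hco
  refine ⟨a, ?_, ?_⟩
  · have h1 : A * a - 1 = (p : ℤ) ^ k * (-(b * p)) := by
      have : a * A = 1 - b * (p : ℤ) ^ (k + 1) := by linarith
      rw [mul_comm A a, this]
      ring
    rw [h1]
    push_cast
    exact dvd_mul_right _ _
  · intro hd
    have h1 : (p : ℤ) ∣ 1 := by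
      rw [← h]
      refine dvd_add ?_ ?_
      · exact dvd_mul_of_dvd_right (dvd_pow_self _ (by omega)) _
      · exact dvd_mul_of_dvd_left hd _
    exact hpi.not_dvd_one h1

theorem rl_sub (p A c A' : ℤ) (h : p ∣ A * A' - 1) (y : ℤ) (hy : p ∣ A * y ^ 2 - c) :
    p ∣ y ^ 2 - A' * c := by
  have h1 : y ^ 2 - A' * c = A' * (A * y ^ 2 - c) - (A * A' - 1) * y ^ 2 := by ring
  rw [h1]
  exact dvd_sub (dvd_mul_of_dvd_right hy _) (dvd_mul_of_dvd_left h _)

theorem root_count_unit (p : ℕ) (hp : p.Prime) (h2 : p ≠ 2) (A c : ℤ) (hA : ¬ (p : ℤ) ∣ A)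
    (hc : ¬ (p : ℤ) ∣ c) (k : ℕ) :
    ((range (p ^ k)).filter fun y : ℕ => ((p ^ k : ℕ) : ℤ) ∣ A * (y : ℤ) ^ 2 - c).card ≤ 2 := by
  have hpi : Prime (p : ℤ) := Nat.prime_iff_prime_int.1 hp
  obtain ⟨A', h1, h3⟩ := rl_inv p hp A hA k
  refine le_trans (card_le_card ?_) (sq_unit p hp h2 (A' * c) ?_ k)
  · intro y hy
    rw [mem_filter] at hy ⊢
    exact ⟨hy.1, rl_sub _ A c A' h1 y hy.2⟩
  · intro h
    rcases hpi.dvd_or_dvd h with h4 | h4
    · exact h3 h4
    · exact hc h4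

theorem root_count (p : ℕ) (hp : p.Prime) (h2 : p ≠ 2) (A c : ℤ) (hA : ¬ (p : ℤ) ∣ A) (k v : ℕ)
    (hc : v < k → ¬ ((p ^ (v + 1) : ℕ) : ℤ) ∣ c) :
    ((range (p ^ k)).filter fun y : ℕ => ((p ^ k : ℕ) : ℤ) ∣ A * (y : ℤ) ^ 2 - c).card ≤
      2 * p ^ (v / 2) := by
  have hpi : Prime (p : ℤ) := Nat.prime_iff_prime_int.1 hp
  obtain ⟨A', h1, h3⟩ := rl_inv p hp A hA k
  have hsub : ((range (p ^ k)).filter fun y : ℕ => ((p ^ k : ℕ) : ℤ) ∣ A * (y : ℤ) ^ 2 - c) ⊆
      ((range (p ^ k)).filter fun y : ℕ => ((p ^ k : ℕ) : ℤ) ∣ (y : ℤ) ^ 2 - A' * c) := by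
    intro y hy
    rw [mem_filter] at hy ⊢
    exact ⟨hy.1, rl_sub _ A c A' h1 y hy.2⟩
  rcases Nat.lt_or_ge v k with hv | hv
  · refine le_trans (card_le_card hsub) (sq_val p hp h2 (A' * c) v ?_ k)
    intro h
    apply hc hv
    have hco : IsCoprime ((p ^ (v + 1) : ℕ) : ℤ) A' := by
      push_cast
      exact IsCoprime.pow_left ((Irreducible.coprime_iff_not_dvd hpi.irreducible).2 h3)
    exact hco.dvd_of_dvd_mul_left h
  · refine le_trans (card_le_card hsub) ((sq_all p hp h2 (A' * c) k).trans ?_)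
    exact Nat.mul_le_mul_left _ (Nat.pow_le_pow_right hp.pos (Nat.div_le_div_right hv))

theorem rl_fib (s t : Finset ℕ) (P : ℕ → ℕ → Prop) [∀ x y, Decidable (P x y)] :
    ((s ×ˢ t).filter fun v => P v.1 v.2).card = ∑ x ∈ s, (t.filter fun y => P x y).card := by
  rw [card_filter, sum_product]
  refine sum_congr rfl fun x _ => ?_
  rw [card_filter]

theorem rl_fib' (s t : Finset ℕ) (P : ℕ → ℕ → Prop) [∀ x y, Decidable (P x y)] :
    ((s ×ˢ t).filter fun v => P v.1 v.2).card = ∑ y ∈ t, (s.filter fun x => P x y).card := by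
  rw [card_filter, sum_product_right]
  refine sum_congr rfl fun x _ => ?_
  rw [card_filter]

theorem rl_per (m n : ℕ) (hm : 0 < m) (B c : ℤ) :
    ((range (m * n)).filter fun y : ℕ => (m : ℤ) ∣ B * (y : ℤ) ^ 2 - c).card ≤
      n * ((range m).filter fun y : ℕ => (m : ℤ) ∣ B * (y : ℤ) ^ 2 - c).card := by
  have hcard : ((range n) ×ˢ ((range m).filter fun y : ℕ => (m : ℤ) ∣ B * (y : ℤ) ^ 2 - c)).card =
      n * ((range m).filter fun y : ℕ => (m : ℤ) ∣ B * (y : ℤ) ^ 2 - c).card := by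
    rw [card_product, card_range]
  rw [← hcard]
  apply card_le_card_of_injOn (fun y => (y / m, y % m))
  · intro y hy
    rw [mem_coe, mem_filter, mem_range] at hy
    rw [mem_coe, mem_product, mem_range, mem_filter, mem_range]
    refine ⟨Nat.div_lt_of_lt_mul hy.1, Nat.mod_lt _ hm, ?_⟩
    have h8 : ((y % m : ℕ) : ℤ) ≡ (y : ℤ) [ZMOD (m : ℤ)] := by
      rw [Int.natCast_modEq_iff]
      exact Nat.mod_modEq _ _
    have h9 : B * ((y % m : ℕ) : ℤ) ^ 2 - c ≡ B * (y : ℤ) ^ 2 - c [ZMOD (m : ℤ)] :=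
      ((h8.pow 2).mul_left B).sub_right c
    exact (Int.ModEq.dvd_iff h9).2 hy.2
  · intro y _ y' _ h
    simp only [Prod.mk.injEq] at h
    rw [← Nat.div_add_mod y m, ← Nat.div_add_mod y' m, h.1, h.2]

theorem rho_bad (p : ℕ) (hp : p.Prime) (h2 : p ≠ 2) (A B C : ℤ)
    (hAB : ¬ ((p : ℤ) ∣ A ∧ (p : ℤ) ∣ B)) (hA : (p : ℤ) ∣ A → ¬ (p : ℤ) ∣ C)
    (hB : (p : ℤ) ∣ B → ¬ (p : ℤ) ∣ C) (k : ℕ) :
    rho A B C (p ^ k) ≤ 4 * (k + 1) * p ^ k := by
  have hpi : Prime (p : ℤ) := Nat.prime_iff_prime_int.1 hp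
  have h24 : 2 * p ^ k ≤ 4 * (k + 1) * p ^ k := Nat.mul_le_mul_right _ (by omega)
  by_cases hpA : (p : ℤ) ∣ A
  · -- case (i)
    have hpB : ¬ (p : ℤ) ∣ B := fun h => hAB ⟨hpA, h⟩
    have hpC := hA hpA
    refine le_trans ?_ h24
    unfold rho
    rw [rl_fib (range (p ^ k)) (range (p ^ k))
      (fun x y => ((p ^ k : ℕ) : ℤ) ∣ A * (x : ℤ) ^ 2 - B * (y : ℤ) ^ 2 + C)]
    calc _ ≤ ∑ _x ∈ range (p ^ k), 2 := by
          refine sum_le_sum fun x _ => ?_
          refine le_trans (card_le_card ?_) (root_count_unit p hp h2 B (A * (x : ℤ) ^ 2 + C) hpB ?_ k)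
          · intro y hy
            rw [mem_filter] at hy ⊢
            refine ⟨hy.1, ?_⟩
            have h3 : B * (y : ℤ) ^ 2 - (A * (x : ℤ) ^ 2 + C) =
                -(A * (x : ℤ) ^ 2 - B * (y : ℤ) ^ 2 + C) := by ring
            rw [h3]
            exact (dvd_neg).2 hy.2
          · intro h
            apply hpC
            have h3 := dvd_sub h (dvd_mul_of_dvd_left hpA ((x : ℤ) ^ 2))
            simpa using h3
      _ = 2 * p ^ k := by rw [sum_const, card_range, smul_eq_mul, mul_comm]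
  · by_cases hpB : (p : ℤ) ∣ B
    · -- case (ii)
      have hpC := hB hpB
      refine le_trans ?_ h24
      unfold rho
      rw [rl_fib' (range (p ^ k)) (range (p ^ k))
        (fun x y => ((p ^ k : ℕ) : ℤ) ∣ A * (x : ℤ) ^ 2 - B * (y : ℤ) ^ 2 + C)]
      calc _ ≤ ∑ _x ∈ range (p ^ k), 2 := by
            refine sum_le_sum fun y _ => ?_
            refine le_trans (card_le_card ?_) (root_count_unit p hp h2 A (B * (y : ℤ) ^ 2 - C) hpA ?_ k)
            · intro x hx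
              rw [mem_filter] at hx ⊢
              refine ⟨hx.1, ?_⟩
              have h3 : A * (x : ℤ) ^ 2 - (B * (y : ℤ) ^ 2 - C) =
                  A * (x : ℤ) ^ 2 - B * (y : ℤ) ^ 2 + C := by ring
              rw [h3]
              exact hx.2
            · intro h
              apply hpC
              have h3 := dvd_sub (dvd_mul_of_dvd_left hpB ((y : ℤ) ^ 2)) h
              simpa using h3
        _ = 2 * p ^ k := by rw [sum_const, card_range, smul_eq_mul, mul_comm]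
    · -- case (iii)
      unfold rho
      rw [rl_fib' (range (p ^ k)) (range (p ^ k))
        (fun x y => ((p ^ k : ℕ) : ℤ) ∣ A * (x : ℤ) ^ 2 - B * (y : ℤ) ^ 2 + C)]
      -- the exponent
      have hex : ∀ w : ℕ, ∃ j ≤ k, ((p ^ j : ℕ) : ℤ) ∣ B * (w : ℤ) ^ 2 - C ∧
          (j < k → ¬ ((p ^ (j + 1) : ℕ) : ℤ) ∣ B * (w : ℤ) ^ 2 - C) := by
        intro w
        classical
        set j := Nat.findGreatest (fun j => ((p ^ j : ℕ) : ℤ) ∣ B * (w : ℤ) ^ 2 - C) k with hj
        refine ⟨j, Nat.findGreatest_le k, ?_, ?_⟩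
        · have h0 : ((p ^ 0 : ℕ) : ℤ) ∣ B * (w : ℤ) ^ 2 - C := by simp
          exact Nat.findGreatest_spec (P := fun j => ((p ^ j : ℕ) : ℤ) ∣ B * (w : ℤ) ^ 2 - C)
            (Nat.zero_le k) h0
        · intro hlt h
          exact Nat.findGreatest_is_greatest (P := fun j => ((p ^ j : ℕ) : ℤ) ∣ B * (w : ℤ) ^ 2 - C)
            (Nat.lt_succ_self j) hlt h
      choose J hJk hJd hJn using hex
      have h3 : ∀ w ∈ range (p ^ k), ((range (p ^ k)).filter fun x : ℕ =>
          ((p ^ k : ℕ) : ℤ) ∣ A * (x : ℤ) ^ 2 - B * (w : ℤ) ^ 2 + C).card ≤ 2 * p ^ (J w / 2) := by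
        intro w _
        refine le_trans (card_le_card ?_)
          (root_count p hp h2 A (B * (w : ℤ) ^ 2 - C) hpA k (J w) (hJn w))
        intro x hx
        rw [mem_filter] at hx ⊢
        refine ⟨hx.1, ?_⟩
        have h3 : A * (x : ℤ) ^ 2 - (B * (w : ℤ) ^ 2 - C) =
            A * (x : ℤ) ^ 2 - B * (w : ℤ) ^ 2 + C := by ring
        rw [h3]
        exact hx.2
      refine (sum_le_sum h3).trans ?_
      have hmaps : ∀ w ∈ range (p ^ k), J w ∈ range (k + 1) := by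
        intro w _
        rw [mem_range]
        have := hJk w
        omega
      rw [← sum_fiberwise_of_maps_to hmaps]
      calc _ ≤ ∑ j ∈ range (k + 1), 4 * p ^ k := by
            refine sum_le_sum fun j hj => ?_
            rw [mem_range] at hj
            have hjk : j ≤ k := by omega
            rw [sum_congr rfl (g := fun _ => 2 * p ^ (j / 2)) fun w hw => by
              rw [(mem_filter.1 hw).2]]
            rw [sum_const, smul_eq_mul]
            have hc : ((range (p ^ k)).filter fun w => J w = j).card ≤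
                p ^ (k - j) * (2 * p ^ (j / 2)) := by
              calc _ ≤ ((range (p ^ j * p ^ (k - j))).filter fun y : ℕ =>
                    ((p ^ j : ℕ) : ℤ) ∣ B * (y : ℤ) ^ 2 - C).card := by
                    apply card_le_card
                    intro w hw
                    rw [mem_filter] at hw ⊢
                    refine ⟨?_, ?_⟩
                    · rw [← pow_add, Nat.add_sub_cancel' hjk]
                      exact hw.1
                    · rw [← hw.2]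
                      exact hJd w
                _ ≤ p ^ (k - j) * ((range (p ^ j)).filter fun y : ℕ =>
                    ((p ^ j : ℕ) : ℤ) ∣ B * (y : ℤ) ^ 2 - C).card :=
                    rl_per (p ^ j) (p ^ (k - j)) (Nat.pow_pos hp.pos) B C
                _ ≤ p ^ (k - j) * (2 * p ^ (j / 2)) := by
                    apply Nat.mul_le_mul_left
                    exact root_count p hp h2 B C hpB j j (fun h => absurd h (lt_irrefl _))
            have hjj : p ^ (j / 2) * p ^ (j / 2) ≤ p ^ j := by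
              rw [← pow_add]
              exact Nat.pow_le_pow_right hp.pos (by omega)
            calc _ ≤ p ^ (k - j) * (2 * p ^ (j / 2)) * (2 * p ^ (j / 2)) := Nat.mul_le_mul_right _ hc
              _ = 4 * (p ^ (k - j) * (p ^ (j / 2) * p ^ (j / 2))) := by ring
              _ ≤ 4 * (p ^ (k - j) * p ^ j) :=
                  Nat.mul_le_mul_left _ (Nat.mul_le_mul_left _ hjj)
              _ = 4 * p ^ k := by rw [← pow_add, Nat.sub_add_cancel hjk]
        _ = 4 * (k + 1) * p ^ k := by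
            rw [sum_const, card_range, smul_eq_mul]
            ring

theorem rho_good1 (p : ℕ) (hp : p.Prime) (h2 : p ≠ 2) (A B C : ℤ) (hA : ¬ (p : ℤ) ∣ A)
    (hB : ¬ (p : ℤ) ∣ B) (hC : ¬ (p : ℤ) ∣ C) : rho A B C p ≤ p + 1 := by
  haveI : Fact p.Prime := ⟨hp⟩
  have hz : ∀ x : ℤ, ¬ (p : ℤ) ∣ x → (x : ZMod p) ≠ 0 := by
    intro x hx h
    exact hx ((ZMod.intCast_zmod_eq_zero_iff_dvd x p).1 h)
  have h1 := con_card p h2 (A : ZMod p) (B : ZMod p) (C : ZMod p) (hz A hA) (hz B hB) (hz C hC)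
  have h3 : (conic p (A : ZMod p) (B : ZMod p) (C : ZMod p)).card ≤ p + 1 := by
    have h4 := (abs_le.1 h1).2
    have h5 : ((conic p (A : ZMod p) (B : ZMod p) (C : ZMod p)).card : ℝ) ≤ ((p + 1 : ℕ) : ℝ) := by
      push_cast
      linarith
    exact_mod_cast h5
  refine le_trans ?_ h3
  unfold rho
  apply card_le_card_of_injOn (fun v : ℕ × ℕ => ((v.1 : ZMod p), (v.2 : ZMod p)))
  · intro v hv
    rw [mem_coe, mem_filter] at hv
    rw [mem_coe]
    unfold conic
    rw [mem_filter]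
    refine ⟨mem_univ _, ?_⟩
    have h4 := (ZMod.intCast_zmod_eq_zero_iff_dvd _ p).2 hv.2
    push_cast at h4
    exact h4
  · intro v hv v' hv' h
    rw [mem_coe, mem_filter, mem_product, mem_range, mem_range] at hv hv'
    simp only [Prod.mk.injEq] at h
    have h4 := (ZMod.natCast_eq_natCast_iff _ _ _).1 h.1
    have h5 := (ZMod.natCast_eq_natCast_iff _ _ _).1 h.2
    exact Prod.ext (Nat.ModEq.eq_of_lt_of_lt h4 hv.1.1 hv'.1.1)
      (Nat.ModEq.eq_of_lt_of_lt h5 hv.1.2 hv'.1.2)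

theorem rho_good (p : ℕ) (hp : p.Prime) (h2 : p ≠ 2) (A B C : ℤ) (hA : ¬ (p : ℤ) ∣ A)
    (hB : ¬ (p : ℤ) ∣ B) (hC : ¬ (p : ℤ) ∣ C) (k : ℕ) : rho A B C (p ^ k) ≤ 3 * p ^ k := by
  have hpi : Prime (p : ℤ) := Nat.prime_iff_prime_int.1 hp
  have hp3 : 3 ≤ p := by
    have := hp.two_le
    omega
  rcases Nat.eq_zero_or_pos k with rfl | hk
  · unfold rho
    refine (card_filter_le _ _).trans ?_
    simp
  obtain ⟨j, rfl⟩ : ∃ j, k = j + 1 := ⟨k - 1, by omega⟩
  set n := p ^ (j + 1) with hn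
  have hdn : (p : ℤ) ∣ (n : ℤ) := by
    rw [hn]
    push_cast
    exact dvd_pow_self _ (by omega)
  unfold rho
  have hsplit : ((range n ×ˢ range n).filter fun v : ℕ × ℕ =>
      (n : ℤ) ∣ A * (v.1 : ℤ) ^ 2 - B * (v.2 : ℤ) ^ 2 + C) ⊆
      (((range n ×ˢ range n).filter fun v : ℕ × ℕ =>
        ¬ (p : ℤ) ∣ B * (v.2 : ℤ) ^ 2 - C ∧ (n : ℤ) ∣ A * (v.1 : ℤ) ^ 2 - B * (v.2 : ℤ) ^ 2 + C)) ∪
      (((range n ×ˢ range n).filter fun v : ℕ × ℕ =>
        (p : ℤ) ∣ (v.1 : ℤ) ∧ (n : ℤ) ∣ A * (v.1 : ℤ) ^ 2 - B * (v.2 : ℤ) ^ 2 + C)) := by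
    intro v hv
    rw [mem_filter] at hv
    rw [mem_union, mem_filter, mem_filter]
    by_cases h3 : (p : ℤ) ∣ B * (v.2 : ℤ) ^ 2 - C
    · right
      refine ⟨hv.1, ?_, hv.2⟩
      have h4 : (p : ℤ) ∣ A * (v.1 : ℤ) ^ 2 - B * (v.2 : ℤ) ^ 2 + C := hdn.trans hv.2
      have h5 : (p : ℤ) ∣ A * (v.1 : ℤ) ^ 2 := by
        have h6 := dvd_add h4 h3
        have h7 : A * (v.1 : ℤ) ^ 2 - B * (v.2 : ℤ) ^ 2 + C + (B * (v.2 : ℤ) ^ 2 - C) =
          A * (v.1 : ℤ) ^ 2 := by ring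
        rwa [h7] at h6
      rcases hpi.dvd_or_dvd h5 with h6 | h6
      · exact absurd h6 hA
      · exact hpi.dvd_of_dvd_pow h6
    · left
      exact ⟨hv.1, h3, hv.2⟩
  refine (card_le_card hsplit).trans ((card_union_le _ _).trans ?_)
  have hfirst : ((range n ×ˢ range n).filter fun v : ℕ × ℕ =>
        ¬ (p : ℤ) ∣ B * (v.2 : ℤ) ^ 2 - C ∧ (n : ℤ) ∣ A * (v.1 : ℤ) ^ 2 - B * (v.2 : ℤ) ^ 2 + C).card ≤
        2 * n := by
    rw [rl_fib' (range n) (range n) (fun x y => ¬ (p : ℤ) ∣ B * (y : ℤ) ^ 2 - C ∧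
      (n : ℤ) ∣ A * (x : ℤ) ^ 2 - B * (y : ℤ) ^ 2 + C)]
    calc _ ≤ ∑ _x ∈ range n, 2 := by
          refine sum_le_sum fun y _ => ?_
          by_cases h3 : (p : ℤ) ∣ B * (y : ℤ) ^ 2 - C
          · have h4 : ((range n).filter fun x : ℕ => ¬ (p : ℤ) ∣ B * (y : ℤ) ^ 2 - C ∧
              (n : ℤ) ∣ A * (x : ℤ) ^ 2 - B * (y : ℤ) ^ 2 + C) = ∅ := by
              apply filter_eq_empty_iff.2
              intro x _ h5
              exact h5.1 h3
            rw [h4]
            simp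
          · refine le_trans (card_le_card ?_)
              (root_count_unit p hp h2 A (B * (y : ℤ) ^ 2 - C) hA h3 (j + 1))
            intro x hx
            rw [mem_filter] at hx ⊢
            refine ⟨hx.1, ?_⟩
            have h4 : A * (x : ℤ) ^ 2 - (B * (y : ℤ) ^ 2 - C) =
                A * (x : ℤ) ^ 2 - B * (y : ℤ) ^ 2 + C := by ring
            rw [h4]
            exact hx.2.2
      _ = 2 * n := by rw [sum_const, card_range, smul_eq_mul, mul_comm]
  have hsecond : ((range n ×ˢ range n).filter fun v : ℕ × ℕ =>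
        (p : ℤ) ∣ (v.1 : ℤ) ∧ (n : ℤ) ∣ A * (v.1 : ℤ) ^ 2 - B * (v.2 : ℤ) ^ 2 + C).card ≤
        n := by
    rw [rl_fib (range n) (range n) (fun x y => (p : ℤ) ∣ (x : ℤ) ∧
      (n : ℤ) ∣ A * (x : ℤ) ^ 2 - B * (y : ℤ) ^ 2 + C)]
    have h3 : ∀ x ∈ range n, ((range n).filter fun y : ℕ => (p : ℤ) ∣ (x : ℤ) ∧
        (n : ℤ) ∣ A * (x : ℤ) ^ 2 - B * (y : ℤ) ^ 2 + C).card ≤ if p ∣ x then 2 else 0 := by
      intro x _
      by_cases hx : p ∣ x
      · rw [if_pos hx]
        have hx' : (p : ℤ) ∣ (x : ℤ) := by exact_mod_cast hx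
        refine le_trans (card_le_card ?_)
          (root_count_unit p hp h2 B (A * (x : ℤ) ^ 2 + C) hB ?_ (j + 1))
        · intro y hy
          rw [mem_filter] at hy ⊢
          refine ⟨hy.1, ?_⟩
          have h3 : B * (y : ℤ) ^ 2 - (A * (x : ℤ) ^ 2 + C) =
              -(A * (x : ℤ) ^ 2 - B * (y : ℤ) ^ 2 + C) := by ring
          rw [h3]
          exact (dvd_neg).2 hy.2.2
        · intro h
          apply hC
          have h4 : (p : ℤ) ∣ A * (x : ℤ) ^ 2 :=
            dvd_mul_of_dvd_right (dvd_pow hx' two_ne_zero) _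
          have h3 := dvd_sub h h4
          simpa using h3
      · rw [if_neg hx]
        have h4 : ((range n).filter fun y : ℕ => (p : ℤ) ∣ (x : ℤ) ∧
            (n : ℤ) ∣ A * (x : ℤ) ^ 2 - B * (y : ℤ) ^ 2 + C) = ∅ := by
          apply filter_eq_empty_iff.2
          intro y _ h5
          apply hx
          exact_mod_cast h5.1
        rw [h4]
        simp
    refine (sum_le_sum h3).trans ?_
    rw [← sum_filter, sum_const, smul_eq_mul]
    have h4 : ((range n).filter fun x => p ∣ x).card ≤ p ^ j := by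
      rw [← card_range (p ^ j)]
      apply card_le_card_of_injOn (fun x => x / p)
      · intro x hx
        rw [mem_coe, mem_filter, mem_range] at hx
        rw [mem_coe, mem_range]
        apply Nat.div_lt_of_lt_mul
        calc x < n := hx.1
          _ = p * p ^ j := by rw [hn]; ring
      · intro x hx x' hx' h
        rw [mem_coe, mem_filter] at hx hx'
        obtain ⟨z, rfl⟩ := hx.2
        obtain ⟨z', rfl⟩ := hx'.2
        simp only [Nat.mul_div_cancel_left _ hp.pos] at h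
        rw [h]
    calc _ ≤ p ^ j * 2 := Nat.mul_le_mul_right _ h4
      _ ≤ p ^ j * p := Nat.mul_le_mul_left _ (by omega)
      _ = n := by rw [hn]; ring
  omega

end Pool.Agent.MK47
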