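import Pool.Agent.MK47.RhoLoc

/-!
# `rho` at prime powers against the majorant

Let `p` be a prime not dividing `2 a`, `A, B, C` integers with `A ≠ 0`, `a² C = 4 (B - A)`,
`δ = del A B p` the exponent of `p` in `gcd A B` (so `p^δ ∣ A, B`, and `p^(δ+1)` does not divide both).
As `p ∤ 4` and `p ∤ a`: `p^j ∣ C ↔ p^j ∣ B - A`.
* `rho_small`: if `k ≤ δ`: `p^k` divides `A`, `B`, `C`, so `rho = p^(2k)` (`rho_div`).
* `rho_large`: if `δ ≤ k`: `A = p^δ A'`, `B = p^δ B'`, `C = p^δ C'`, `a² C' = 4 (B' - A')`, not both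
  `p ∣ A'`, `p ∣ B'`; if `p ∣ A'` then `p ∤ B'`, so `p ∤ 4 (B' - A') = a² C'`, so `p ∤ C'`; same for
  `B'`. By `rho_scale` (`p^k = p^δ p^(k-δ)`) and `rho_bad`: `rho A B C (p^k) ≤ p^(2δ) 4 (k-δ+1) p^(k-δ) = 4 (k-δ+1) p^(k+δ)`.
* `rho_pp`: `rho A B C (p^k) ≤ p^k * WW A B C (p^k)`. `WW A B C (p^k) = 1 + ∑_{j=1}^k gp A B C p j`
  (`Nat.divisors_prime_pow`, `Nat.Prime.factorization_pow`, `gf` of `p^j` is `gp A B C p j`
  for `j ≥ 1` and `1` for `j = 0`).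
  If `p ∤ A B C`: `k = 0`: `1 ≤ 1`; `k = 1`: `p + 1 = p (1 + 1/p)` (`rho_good1`); `k ≥ 2`: `3 p^k ≤ p^k (1 + 1/p + 2)`
  (`rho_good`).
  If `p ∣ A B C`: `WW = 1 + 8 ∑_{j=1}^k p^(min j δ)`. `k = 0` is clear. `1 ≤ k ≤ δ`: `WW ≥ 8 p^k ≥ p^k`. `k > δ`:
  the terms `j = δ+1, …, k` give `WW ≥ 8 (k - δ) p^δ ≥ 4 (k - δ + 1) p^δ`.
-/

namespace Pool.Agent.MK47

open Finset

theorem pa_cop {a p : ℕ} (hp : p.Prime) (ha : ¬ p ∣ a) (k : ℕ) :
    IsCoprime ((p ^ k : ℕ) : ℤ) ((a : ℤ) ^ 2) := by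
  have h4 : Nat.Coprime (p ^ k) (a ^ 2) :=
    Nat.Coprime.pow _ _ ((Nat.Prime.coprime_iff_not_dvd hp).2 ha)
  have h5 := (Nat.isCoprime_iff_coprime (m := p ^ k) (n := a ^ 2)).2 h4
  simpa using h5

theorem rho_small (a p : ℕ) (hp : p.Prime) (h2 : p ≠ 2) (ha : ¬ p ∣ a) (A B C : ℤ) (hA : A ≠ 0)
    (hC : (a : ℤ) ^ 2 * C = 4 * (B - A)) (k : ℕ) (hk : k ≤ del A B p) :
    rho A B C (p ^ k) = p ^ (2 * k) := by
  have hg : Int.gcd A B ≠ 0 := by
    intro h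
    exact hA (Int.gcd_eq_zero_iff.1 h).1
  have h1 : p ^ k ∣ Int.gcd A B :=
    (pow_dvd_pow p hk).trans (Nat.ordProj_dvd _ _)
  have hAd : ((p ^ k : ℕ) : ℤ) ∣ A :=
    (Int.natCast_dvd_natCast.2 h1).trans (Int.gcd_dvd_left ..)
  have hBd : ((p ^ k : ℕ) : ℤ) ∣ B :=
    (Int.natCast_dvd_natCast.2 h1).trans (Int.gcd_dvd_right ..)
  have hCd : ((p ^ k : ℕ) : ℤ) ∣ C := by
    have h3 : ((p ^ k : ℕ) : ℤ) ∣ (a : ℤ) ^ 2 * C := by
      rw [hC]; exact Dvd.dvd.mul_left (dvd_sub hBd hAd) 4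
    apply IsCoprime.dvd_of_dvd_mul_left _ h3
    exact pa_cop hp ha k
  rw [rho_div A B C _ hAd hBd hCd, ← pow_mul, mul_comm]

theorem rho_large (a p : ℕ) (hp : p.Prime) (h2 : p ≠ 2) (ha : ¬ p ∣ a) (A B C : ℤ) (hA : A ≠ 0)
    (hC : (a : ℤ) ^ 2 * C = 4 * (B - A)) (k : ℕ) (hk : del A B p ≤ k) :
    rho A B C (p ^ k) ≤ 4 * (k - del A B p + 1) * p ^ (k + del A B p) := by
  have hg : Int.gcd A B ≠ 0 := by
    intro h
    exact hA (Int.gcd_eq_zero_iff.1 h).1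
  set δ := del A B p with hδ
  have h1 : p ^ δ ∣ Int.gcd A B := Nat.ordProj_dvd _ _
  have hAd : ((p ^ δ : ℕ) : ℤ) ∣ A :=
    (Int.natCast_dvd_natCast.2 h1).trans (Int.gcd_dvd_left ..)
  have hBd : ((p ^ δ : ℕ) : ℤ) ∣ B :=
    (Int.natCast_dvd_natCast.2 h1).trans (Int.gcd_dvd_right ..)
  have hCd : ((p ^ δ : ℕ) : ℤ) ∣ C := by
    have h3 : ((p ^ δ : ℕ) : ℤ) ∣ (a : ℤ) ^ 2 * C := by
      rw [hC]; exact Dvd.dvd.mul_left (dvd_sub hBd hAd) 4
    exact IsCoprime.dvd_of_dvd_mul_left (pa_cop hp ha δ) h3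
  obtain ⟨A', hA'⟩ := hAd
  obtain ⟨B', hB'⟩ := hBd
  obtain ⟨C', hC'⟩ := hCd
  have hpp : 0 < p := hp.pos
  have hpδ : ((p ^ δ : ℕ) : ℤ) ≠ 0 := by
    have : 0 < p ^ δ := pow_pos hpp _
    exact_mod_cast this.ne'
  have hC2 : (a : ℤ) ^ 2 * C' = 4 * (B' - A') := by
    apply mul_left_cancel₀ hpδ
    calc ((p ^ δ : ℕ) : ℤ) * ((a : ℤ) ^ 2 * C') = (a : ℤ) ^ 2 * C := by rw [hC']; ring
      _ = 4 * (B - A) := hC
      _ = _ := by rw [hA', hB']; ring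
  have hnot : ¬ ((p : ℤ) ∣ A' ∧ (p : ℤ) ∣ B') := by
    rintro ⟨⟨u, hu⟩, ⟨v, hv⟩⟩
    have d1 : ((p ^ (δ + 1) : ℕ) : ℤ) ∣ A := ⟨u, by rw [hA', hu]; push_cast; ring⟩
    have d2 : ((p ^ (δ + 1) : ℕ) : ℤ) ∣ B := ⟨v, by rw [hB', hv]; push_cast; ring⟩
    have d3 : p ^ (δ + 1) ∣ Int.gcd A B := by
      have := Int.dvd_coe_gcd d1 d2
      exact_mod_cast this
    have d4 := (hp.pow_dvd_iff_le_factorization hg).1 d3
    have d5 : (Int.gcd A B).factorization p = δ := rfl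
    omega
  have hp4 : ¬ (p : ℤ) ∣ 4 := by
    intro h
    have h' : p ∣ 4 := by exact_mod_cast h
    have h'' : p ∣ 2 ^ 2 := by simpa using h'
    have := hp.dvd_of_dvd_pow h''
    exact h2 ((Nat.prime_dvd_prime_iff_eq hp Nat.prime_two).1 this)
  have hpI : Prime (p : ℤ) := Nat.prime_iff_prime_int.1 hp
  have hAC : (p : ℤ) ∣ A' → ¬ (p : ℤ) ∣ C' := by
    intro hd hc
    apply hnot
    refine ⟨hd, ?_⟩
    have h3 : (p : ℤ) ∣ 4 * (B' - A') := by rw [← hC2]; exact Dvd.dvd.mul_left hc _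
    rcases hpI.dvd_or_dvd h3 with h | h
    · exact absurd h hp4
    · have := dvd_add h hd
      simpa using this
  have hBC : (p : ℤ) ∣ B' → ¬ (p : ℤ) ∣ C' := by
    intro hd hc
    apply hnot
    refine ⟨?_, hd⟩
    have h3 : (p : ℤ) ∣ 4 * (B' - A') := by rw [← hC2]; exact Dvd.dvd.mul_left hc _
    rcases hpI.dvd_or_dvd h3 with h | h
    · exact absurd h hp4
    · have := dvd_sub hd h
      simpa using this
  have hk2 : p ^ k = p ^ δ * p ^ (k - δ) := by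
    rw [← pow_add]; congr 1; omega
  have hb := rho_bad p hp h2 A' B' C' hnot hAC hBC (k - δ)
  calc rho A B C (p ^ k)
      = rho (((p ^ δ : ℕ) : ℤ) * A') (((p ^ δ : ℕ) : ℤ) * B') (((p ^ δ : ℕ) : ℤ) * C')
          (p ^ δ * p ^ (k - δ)) := by rw [← hA', ← hB', ← hC', hk2]
    _ = (p ^ δ) ^ 2 * rho A' B' C' (p ^ (k - δ)) :=
        rho_scale A' B' C' _ _ (pow_pos hpp _) (pow_pos hpp _)
    _ ≤ (p ^ δ) ^ 2 * (4 * (k - δ + 1) * p ^ (k - δ)) := Nat.mul_le_mul_left _ hb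
    _ = 4 * (k - δ + 1) * ((p ^ δ) ^ 2 * p ^ (k - δ)) := by ring
    _ = 4 * (k - δ + 1) * p ^ (k + δ) := by
        congr 1
        rw [← pow_mul, ← pow_add]
        congr 1
        omega

theorem gf_pp (A B C : ℤ) (p : ℕ) (hp : p.Prime) (k : ℕ) (hk : 1 ≤ k) :
    gf A B C (p ^ k) = gp A B C p k := by
  unfold gf
  rw [hp.factorization_pow, Finsupp.prod, Finsupp.support_single _ (by omega)]
  simp

theorem WW_pp (A B C : ℤ) (p : ℕ) (hp : p.Prime) (k : ℕ) :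
    WW A B C (p ^ k) = 1 + ∑ j ∈ Icc 1 k, gp A B C p j := by
  unfold WW
  rw [Nat.sum_divisors_prime_pow hp, Finset.sum_range_succ']
  have h0 : gf A B C (p ^ 0) = 1 := by
    unfold gf; simp
  rw [h0, add_comm]
  congr 1
  rw [Finset.range_eq_Ico, Finset.sum_Ico_add' (fun j => gf A B C (p ^ j)) 0 k 1]
  have : Icc 1 k = Ico (0 + 1) (k + 1) := by
    ext j; simp only [mem_Icc, mem_Ico]; omega
  rw [this]
  apply Finset.sum_congr rfl
  intro j hj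
  rw [Finset.mem_Ico] at hj
  exact gf_pp A B C p hp j (by omega)

theorem rho_pp (a p : ℕ) (hp : p.Prime) (h2 : p ≠ 2) (ha : ¬ p ∣ a) (A B C : ℤ) (hA : A ≠ 0)
    (hC : (a : ℤ) ^ 2 * C = 4 * (B - A)) (k : ℕ) :
    (rho A B C (p ^ k) : ℝ) ≤ (p : ℝ) ^ k * WW A B C (p ^ k) := by
  classical
  have hpp : (0 : ℝ) < p := by exact_mod_cast hp.pos
  have hgp0 : ∀ j, 0 ≤ gp A B C p j := by
    intro j
    unfold gp
    split_ifs <;> positivity
  rcases Nat.eq_zero_or_pos k with hk0 | hk0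
  · subst hk0
    rw [WW_pp A B C p hp]
    simp [rho_one]
  rw [WW_pp A B C p hp]
  by_cases hd : (p : ℤ) ∣ A * B * C
  · have hgp : ∀ j, gp A B C p j = 8 * (p : ℝ) ^ min j (del A B p) := by
      intro j; unfold gp; rw [if_pos hd]
    rcases le_or_gt k (del A B p) with hkd | hkd
    · rw [rho_small a p hp h2 ha A B C hA hC k hkd]
      have h1 : gp A B C p k ≤ ∑ j ∈ Icc 1 k, gp A B C p j :=
        Finset.single_le_sum (fun j _ => hgp0 j) (by simp only [mem_Icc]; omega)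
      rw [hgp k, min_eq_left hkd] at h1
      push_cast
      rw [two_mul, pow_add]
      apply mul_le_mul_of_nonneg_left _ (by positivity)
      have : (0 : ℝ) ≤ (p : ℝ) ^ k := by positivity
      linarith
    · have h0 := rho_large a p hp h2 ha A B C hA hC k hkd.le
      have h0' : (rho A B C (p ^ k) : ℝ) ≤
          ((4 * (k - del A B p + 1) * p ^ (k + del A B p) : ℕ) : ℝ) := by exact_mod_cast h0
      refine h0'.trans ?_
      set δ := del A B p with hδ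
      have h1 : ∑ j ∈ Icc (δ + 1) k, gp A B C p j ≤ ∑ j ∈ Icc 1 k, gp A B C p j := by
        apply Finset.sum_le_sum_of_subset_of_nonneg
        · intro j hj
          simp only [mem_Icc] at hj ⊢
          omega
        · intro j _ _; exact hgp0 j
      have h2' : ∑ j ∈ Icc (δ + 1) k, gp A B C p j = ((k - δ : ℕ) : ℝ) * (8 * (p : ℝ) ^ δ) := by
        rw [Finset.sum_congr rfl (g := fun _ => 8 * (p : ℝ) ^ δ)]
        · rw [Finset.sum_const, Nat.card_Icc, nsmul_eq_mul]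
          congr 2
          omega
        · intro j hj
          simp only [mem_Icc] at hj
          rw [hgp j, min_eq_right (by omega)]
      obtain ⟨t, ht⟩ : ∃ t, k = δ + (t + 1) := ⟨k - δ - 1, by omega⟩
      have ht2 : k - δ = t + 1 := by omega
      rw [ht2] at h2' ⊢
      rw [h2'] at h1
      push_cast at h1 ⊢
      rw [pow_add]
      have hq : (0 : ℝ) ≤ (p : ℝ) ^ δ := by positivity
      have h3 : 4 * ((t : ℝ) + 1 + 1) * (p : ℝ) ^ δ ≤ ((t : ℝ) + 1) * (8 * (p : ℝ) ^ δ) := by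
        have : (0 : ℝ) ≤ t := by positivity
        nlinarith [mul_nonneg this hq]
      calc 4 * ((t : ℝ) + 1 + 1) * ((p : ℝ) ^ k * (p : ℝ) ^ δ)
          = (p : ℝ) ^ k * (4 * ((t : ℝ) + 1 + 1) * (p : ℝ) ^ δ) := by ring
        _ ≤ (p : ℝ) ^ k * (1 + ∑ j ∈ Icc 1 k, gp A B C p j) := by
            apply mul_le_mul_of_nonneg_left _ (by positivity)
            linarith
  · have hA' : ¬ (p : ℤ) ∣ A := fun h => hd (Dvd.dvd.mul_right (Dvd.dvd.mul_right h _) _)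
    have hB' : ¬ (p : ℤ) ∣ B := fun h => hd (Dvd.dvd.mul_right (Dvd.dvd.mul_left h _) _)
    have hC' : ¬ (p : ℤ) ∣ C := fun h => hd (Dvd.dvd.mul_left h _)
    rcases Nat.lt_or_ge k 2 with hk | hk
    · have hk1 : k = 1 := by omega
      subst hk1
      have h1 := rho_good1 p hp h2 A B C hA' hB' hC'
      have h1' : (rho A B C p : ℝ) ≤ p + 1 := by exact_mod_cast h1
      rw [pow_one, pow_one]
      simp only [Icc_self, sum_singleton]
      unfold gp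
      rw [if_neg hd, if_pos rfl, mul_add, mul_one, mul_one_div_cancel hpp.ne']
      exact h1'
    · have h1 := rho_good p hp h2 A B C hA' hB' hC' k
      have h1' : (rho A B C (p ^ k) : ℝ) ≤ 3 * (p : ℝ) ^ k := by exact_mod_cast h1
      refine h1'.trans ?_
      have h2' : gp A B C p 2 ≤ ∑ j ∈ Icc 1 k, gp A B C p j :=
        Finset.single_le_sum (fun j _ => hgp0 j) (by simp only [mem_Icc]; omega)
      have h3 : gp A B C p 2 = 2 := by
        unfold gp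
        rw [if_neg hd, if_neg (by norm_num), if_pos rfl]
      rw [h3] at h2'
      rw [mul_comm]
      apply mul_le_mul_of_nonneg_left _ (by positivity)
      linarith

end Pool.Agent.MK47
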