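import Mathlib

/-!
# Smooth numbers: Rankin bound

There is an absolute constant `C` such that for all real `z ≥ 8` and all `X ≥ 1`, the number of
`1 ≤ n ≤ X` all of whose prime factors are `≤ z` is at most `X exp (C log z - log X / log z)`.

Proof. Put `σ = 1 - 1 / log z ∈ (1/2, 1)` (`log z ≥ log 8 > 2`). The number is at most
`∑_{n ≤ X smooth} (X/n)^σ = X^σ ∑ n^(-σ) ≤ X exp (- log X / log z) ∏_{p ≤ z} (1 - p^(-σ))^(-1)` (finite Euler
product over the primes `≤ z`; Mathlib `EulerProduct` for smooth numbers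
`EulerProduct.summable_and_hasSum_smoothNumbers_prod_primesBelow_geometric`, or see `Pool/Agent/H2S/Smooth.lean`).
Each factor is `1 + 1/(p^σ - 1)`. Since `p^σ ≥ 2^(1/2)`, `p^σ - 1 ≥ (1 - 1/√2) p^σ`, so
the factor is at most `exp (4 p^(-σ))`. And `p^(-σ) = p^(-1) p^(1/log z) ≤ e / p` for `p ≤ z`. So
the product is at most `exp (4 e ∑_{n ≤ z} 1/n) ≤ exp (4 e (1 + log z)) ≤ exp (8 e log z)`.
-/

namespace Pool.Agent.MK47

open Finset

/-- the completely multiplicative function `n ↦ n ^ e` -/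
private noncomputable def smPw (e : ℝ) : ℕ →* ℝ where
  toFun n := (n : ℝ) ^ e
  map_one' := by simp
  map_mul' a b := by
    push_cast
    exact Real.mul_rpow (by positivity) (by positivity)

private theorem smPw_apply (e : ℝ) (n : ℕ) : smPw e n = (n : ℝ) ^ e := rfl

private theorem sm_log8 : (2 : ℝ) ≤ Real.log 8 := by
  have h : (8 : ℝ) = 2 ^ (3 : ℕ) := by norm_num
  rw [h, Real.log_pow]
  have := Real.log_two_gt_d9
  push_cast
  linarith

private theorem sm_factor {z : ℝ} (hz : 8 ≤ z) {p : ℕ} (hp : 2 ≤ p) (hpz : (p : ℝ) ≤ z) :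
    (p : ℝ) ^ (-(1 - 1 / Real.log z)) ≤ Real.exp 1 / p ∧
      (p : ℝ) ^ (-(1 - 1 / Real.log z)) ≤ 3 / 4 := by
  have hlz : 2 ≤ Real.log z := sm_log8.trans (Real.log_le_log (by norm_num) hz)
  have hp' : (2 : ℝ) ≤ p := by exact_mod_cast hp
  have hp0 : (0 : ℝ) < p := by linarith
  constructor
  · have h4 : (p : ℝ) ^ (-(1 - 1 / Real.log z)) = (p : ℝ) ^ (1 / Real.log z) / p := by
      rw [neg_sub, Real.rpow_sub_one hp0.ne']
    rw [h4]
    gcongr
    rw [Real.rpow_def_of_pos hp0]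
    apply Real.exp_le_exp.2
    rw [mul_one_div, div_le_one (by linarith)]
    exact Real.log_le_log hp0 hpz
  · have h1 : (p : ℝ) ^ (-(1 - 1 / Real.log z)) ≤ (p : ℝ) ^ (-(1 / 2) : ℝ) := by
      apply Real.rpow_le_rpow_of_exponent_le (by linarith)
      have : 1 / Real.log z ≤ 1 / 2 := by gcongr
      linarith
    have h2 : (p : ℝ) ^ (-(1 / 2) : ℝ) ≤ (2 : ℝ) ^ (-(1 / 2) : ℝ) :=
      Real.rpow_le_rpow_of_nonpos (by norm_num) hp' (by norm_num)
    have h3 : (2 : ℝ) ^ (-(1 / 2) : ℝ) ≤ 3 / 4 := by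
      rw [Real.rpow_neg (by norm_num), ← Real.sqrt_eq_rpow]
      rw [inv_le_comm₀ (by positivity) (by norm_num)]
      apply Real.le_sqrt_of_sq_le
      norm_num
    linarith

private theorem sm_prod {z : ℝ} (hz : 8 ≤ z) :
    ∏ p ∈ Nat.primesBelow (⌊z⌋₊ + 1), (1 - (p : ℝ) ^ (-(1 - 1 / Real.log z)))⁻¹ ≤
      Real.exp (6 * Real.exp 1 * Real.log z) := by
  have hlz : 2 ≤ Real.log z := sm_log8.trans (Real.log_le_log (by norm_num) hz)
  have hz0 : 0 ≤ z := by linarith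
  have hfac : ∀ p ∈ Nat.primesBelow (⌊z⌋₊ + 1),
      (1 - (p : ℝ) ^ (-(1 - 1 / Real.log z)))⁻¹ ≤ Real.exp (4 * Real.exp 1 * (1 / p)) := by
    intro p hp
    rw [Nat.mem_primesBelow] at hp
    have hpz : (p : ℝ) ≤ z := by
      have : p ≤ ⌊z⌋₊ := by omega
      exact (Nat.le_floor_iff hz0).1 this
    obtain ⟨h1, h2⟩ := sm_factor hz hp.2.two_le hpz
    set x := (p : ℝ) ^ (-(1 - 1 / Real.log z)) with hx
    have hx0 : 0 ≤ x := by positivity
    have h3 : (1 - x)⁻¹ ≤ 1 + 4 * x := by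
      rw [inv_le_iff_one_le_mul₀ (by linarith)]
      nlinarith
    have h4 : 1 + 4 * x ≤ Real.exp (4 * x) := by
      have := Real.add_one_le_exp (4 * x)
      linarith
    refine h3.trans (h4.trans (Real.exp_le_exp.2 ?_))
    have : 4 * x ≤ 4 * (Real.exp 1 / p) := by linarith
    calc 4 * x ≤ 4 * (Real.exp 1 / p) := this
      _ = 4 * Real.exp 1 * (1 / p) := by ring
  have hnn : ∀ p ∈ Nat.primesBelow (⌊z⌋₊ + 1),
      0 ≤ (1 - (p : ℝ) ^ (-(1 - 1 / Real.log z)))⁻¹ := by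
    intro p hp
    rw [Nat.mem_primesBelow] at hp
    have hpz : (p : ℝ) ≤ z := by
      have : p ≤ ⌊z⌋₊ := by omega
      exact (Nat.le_floor_iff hz0).1 this
    obtain ⟨h1, h2⟩ := sm_factor hz hp.2.two_le hpz
    apply inv_nonneg.2
    linarith
  refine (Finset.prod_le_prod hnn hfac).trans ?_
  rw [← Real.exp_sum, ← Finset.mul_sum]
  apply Real.exp_le_exp.2
  have hharm : ∑ p ∈ Nat.primesBelow (⌊z⌋₊ + 1), (1 : ℝ) / p ≤ 1 + Real.log z := by
    have h1 : Nat.primesBelow (⌊z⌋₊ + 1) ⊆ Icc 1 ⌊z⌋₊ := by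
      intro q hq
      rw [Nat.mem_primesBelow] at hq
      rw [mem_Icc]
      exact ⟨hq.2.one_le, by omega⟩
    refine (sum_le_sum_of_subset_of_nonneg h1 fun _ _ _ => by positivity).trans ?_
    have h2 := harmonic_le_one_add_log ⌊z⌋₊
    have h3 : ((harmonic ⌊z⌋₊ : ℚ) : ℝ) = ∑ p ∈ Icc 1 ⌊z⌋₊, (1 : ℝ) / p := by
      rw [harmonic_eq_sum_Icc]
      push_cast
      simp only [one_div]
    rw [← h3]
    refine h2.trans ?_
    have h4 : 1 ≤ ⌊z⌋₊ := by
      rw [Nat.one_le_floor_iff]; linarith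
    have h5 : (0 : ℝ) < (⌊z⌋₊ : ℝ) := by exact_mod_cast h4
    have h6 := Real.log_le_log h5 (Nat.floor_le hz0)
    linarith
  have he : 0 < Real.exp 1 := Real.exp_pos 1
  have h7 : ∑ p ∈ Nat.primesBelow (⌊z⌋₊ + 1), (1 : ℝ) / p ≤ 3 / 2 * Real.log z := by linarith
  calc 4 * Real.exp 1 * ∑ p ∈ Nat.primesBelow (⌊z⌋₊ + 1), (1 : ℝ) / p
      ≤ 4 * Real.exp 1 * (3 / 2 * Real.log z) := by gcongr
    _ = 6 * Real.exp 1 * Real.log z := by ring

open Classical in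
theorem smooth_count : ∃ C : ℝ, 0 < C ∧ ∀ z : ℝ, 8 ≤ z → ∀ X : ℕ, 1 ≤ X →
    (((Icc 1 X).filter fun n => ∀ p : ℕ, p.Prime → p ∣ n → (p : ℝ) ≤ z).card : ℝ) ≤
      X * Real.exp (C * Real.log z - Real.log X / Real.log z) := by
  refine ⟨6 * Real.exp 1, by positivity, ?_⟩
  intro z hz X hX
  have hlz : 2 ≤ Real.log z := sm_log8.trans (Real.log_le_log (by norm_num) hz)
  have hz0 : 0 ≤ z := by linarith
  have hX' : (1 : ℝ) ≤ X := by exact_mod_cast hX
  have hX0 : (0 : ℝ) < X := by linarith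
  set e : ℝ := -(1 - 1 / Real.log z) with he
  have he0 : e < 0 := by
    have : 1 / Real.log z ≤ 1 / 2 := by gcongr
    rw [he]; linarith
  set N := ⌊z⌋₊ + 1 with hN
  set F := (Icc 1 X).filter fun n => ∀ p : ℕ, p.Prime → p ∣ n → (p : ℝ) ≤ z with hF
  have hsm : ∀ n ∈ F, n ∈ Nat.smoothNumbers N := by
    intro n hn
    rw [hF, mem_filter, mem_Icc] at hn
    rw [Nat.mem_smoothNumbers']
    intro p hp hpn
    have := hn.2 p hp hpn
    have h2 : p ≤ ⌊z⌋₊ := (Nat.le_floor_iff hz0).2 this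
    omega
  have hnorm : ∀ {p : ℕ}, p.Prime → ‖smPw e p‖ < 1 := by
    intro p hp
    rw [smPw_apply, Real.norm_of_nonneg (by positivity)]
    exact Real.rpow_lt_one_of_one_lt_of_neg (by exact_mod_cast hp.one_lt) he0
  obtain ⟨hs1, hs2⟩ :=
    EulerProduct.summable_and_hasSum_smoothNumbers_prod_primesBelow_geometric hnorm N
  have hsum : ∑ n ∈ F, (n : ℝ) ^ e ≤ ∏ p ∈ N.primesBelow, (1 - (p : ℝ) ^ e)⁻¹ := by
    have h1 : ∑ n ∈ F.attach, smPw e (n : ℕ) ≤ ∏ p ∈ N.primesBelow, (1 - smPw e p)⁻¹ := by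
      rw [← hs2.tsum_eq]
      let G : Finset N.smoothNumbers := F.attach.image (fun n => ⟨n.1, hsm n.1 n.2⟩)
      have h2 := hs2.summable.sum_le_tsum G (fun n _ => by
        rw [smPw_apply]; positivity)
      have h3 : ∑ n ∈ G, smPw e (n : ℕ) = ∑ n ∈ F.attach, smPw e (n : ℕ) := by
        rw [Finset.sum_image]
        intro a _ b _ hab
        have := congrArg (fun t : N.smoothNumbers => (t : ℕ)) hab
        exact Subtype.ext this
      rw [← h3]
      exact h2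
    rw [Finset.sum_attach F (fun n => smPw e n)] at h1
    exact h1
  have hcard : (F.card : ℝ) ≤ (X : ℝ) ^ (-e) * ∑ n ∈ F, (n : ℝ) ^ e := by
    rw [Finset.mul_sum, Finset.card_eq_sum_ones, Nat.cast_sum]
    apply Finset.sum_le_sum
    intro n hn
    rw [hF, mem_filter, mem_Icc] at hn
    have hn1 : (1 : ℝ) ≤ n := by exact_mod_cast hn.1.1
    have hnX : (n : ℝ) ≤ X := by exact_mod_cast hn.1.2
    have hn0 : (0 : ℝ) < n := by linarith
    have h1 : (n : ℝ) ^ (-e) ≤ (X : ℝ) ^ (-e) :=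
      Real.rpow_le_rpow hn0.le hnX (by linarith)
    have h2 : (n : ℝ) ^ (-e) * (n : ℝ) ^ e = 1 := by
      rw [← Real.rpow_add hn0]; simp
    have h3 : (0 : ℝ) < (n : ℝ) ^ e := by positivity
    push_cast
    calc (1 : ℝ) = (n : ℝ) ^ (-e) * (n : ℝ) ^ e := h2.symm
      _ ≤ (X : ℝ) ^ (-e) * (n : ℝ) ^ e := by gcongr
  have hprod := sm_prod hz
  refine hcard.trans ?_
  have h5 : (X : ℝ) ^ (-e) * ∑ n ∈ F, (n : ℝ) ^ e ≤
      (X : ℝ) ^ (-e) * Real.exp (6 * Real.exp 1 * Real.log z) := by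
    gcongr
    exact hsum.trans hprod
  refine h5.trans (le_of_eq ?_)
  have h6 : (X : ℝ) ^ (-e) = X * Real.exp (-(Real.log X / Real.log z)) := by
    rw [Real.rpow_def_of_pos hX0]
    nth_rewrite 2 [← Real.exp_log hX0]
    rw [← Real.exp_add]
    congr 1
    rw [he]
    ring
  rw [h6, mul_assoc, ← Real.exp_add]
  congr 2
  ring

end Pool.Agent.MK47
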