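import Mathlib

/-!
# Square roots modulo prime powers

`p` is an odd prime.
* `sq_unit`: if `p ∤ w`, the number of `y ∈ range (p^k)` with `p^k ∣ y² - w` is at most `2`: if `y, y'` are
  solutions then `p^k ∣ (y - y')(y + y')` and `p` cannot divide both factors (else `p ∣ 2 y`, so
  `p ∣ y`, `p ∣ w`), so `y' ≡ y` or `y' ≡ - y (mod p^k)`.
* `sq_all`: for every `w` the number of `y ∈ range (p^k)` with `p^k ∣ y² - w` is at most `2 p^(k/2)` (natural
  division). Induction on `k` (step 2). `k = 0`: one `y`. `k = 1`: at most `2` roots (a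
  quadratic polynomial over a field; `2 p^0 = 2`). `k ≥ 2`: if `p ∤ w` use `sq_unit`. If `p ∣ w` then
  `p ∣ y`, so `p² ∣ w` (if there is a solution), `w = p² w'`, `y = p y'`, `p^(k-2) ∣ y'² - w'`
  with `y' ∈ range (p^(k-1))`: these are `p` times the solutions modulo `p^(k-2)`: at most
  `p * 2 p^((k-2)/2) = 2 p^(k/2)`.
* `sq_val`: if `p^(v+1) ∤ w` then for every `k` the number is at most `2 p^(v/2)`: for `k ≤ v` it follows from
  `sq_all` (`k / 2 ≤ v / 2`). For `k > v` induct on `v` (step 2): if `p ∤ w` (in particular if `v = 0`), `sq_unit`.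
  If `p ∣ w`, then (a solution exists and `k ≥ 2`, as `k > v ≥ 1`) `p² ∣ w` as above, so `v ≥ 2`,
  `w = p² w'` with `p^(v-1) ∤ w'`, and the number is `p` times the number for `(k - 2, w')`,
  at most `p * 2 p^((v-2)/2)`.
  (Both inductions use the same step: `N(k, p² w') = p N(k-2, w')` for `k ≥ 2`.)
-/

namespace Pool.Agent.MK47

open Finset

theorem sq_unit (p : ℕ) (hp : p.Prime) (h2 : p ≠ 2) (w : ℤ) (hw : ¬ (p : ℤ) ∣ w) (k : ℕ) :
    ((range (p ^ k)).filter fun y : ℕ => ((p ^ k : ℕ) : ℤ) ∣ (y : ℤ) ^ 2 - w).card ≤ 2 := by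
  have hpi : Prime (p : ℤ) := Nat.prime_iff_prime_int.1 hp
  set S := (range (p ^ k)).filter fun y : ℕ => ((p ^ k : ℕ) : ℤ) ∣ (y : ℤ) ^ 2 - w with hS
  rcases Nat.eq_zero_or_pos k with rfl | hk
  · refine (card_filter_le _ _).trans ?_
    simp
  rcases S.eq_empty_or_nonempty with h | ⟨y0, hy0⟩
  · rw [h]
    simp
  have hdp : (p : ℤ) ∣ ((p ^ k : ℕ) : ℤ) := by
    push_cast
    exact dvd_pow_self _ hk.ne'
  have key : ∀ y ∈ S, y ∈ ({y0, p ^ k - y0} : Finset ℕ) := by
    intro y hy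
    rw [hS, mem_filter, mem_range] at hy hy0
    rw [mem_insert, mem_singleton]
    have hd : ((p ^ k : ℕ) : ℤ) ∣ ((y : ℤ) - y0) * (y + y0) := by
      have h3 := dvd_sub hy.2 hy0.2
      have h4 : (y : ℤ) ^ 2 - w - ((y0 : ℤ) ^ 2 - w) = ((y : ℤ) - y0) * (y + y0) := by ring
      rwa [h4] at h3
    by_cases hc : (p : ℤ) ∣ (y : ℤ) - y0
    · have hnc : ¬ (p : ℤ) ∣ (y : ℤ) + y0 := by
        intro h5
        have h6 : (p : ℤ) ∣ 2 * (y : ℤ) := by
          have := dvd_add hc h5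
          have h7 : (y : ℤ) - y0 + (y + y0) = 2 * y := by ring
          rwa [h7] at this
        rcases hpi.dvd_or_dvd h6 with h7 | h7
        · have h8 : p ∣ 2 := by exact_mod_cast h7
          exact h2 ((Nat.prime_dvd_prime_iff_eq hp Nat.prime_two).1 h8)
        · apply hw
          have h8 : (p : ℤ) ∣ (y : ℤ) ^ 2 - w := hdp.trans hy.2
          have h9 : (p : ℤ) ∣ (y : ℤ) ^ 2 := dvd_pow h7 two_ne_zero
          have := dvd_sub h9 h8
          simpa using this
      have hco : IsCoprime (((p ^ k : ℕ) : ℤ)) ((y : ℤ) + y0) := by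
        push_cast
        exact IsCoprime.pow_left ((Irreducible.coprime_iff_not_dvd hpi.irreducible).2 hnc)
      have h5 : ((p ^ k : ℕ) : ℤ) ∣ (y : ℤ) - y0 := hco.dvd_of_dvd_mul_right hd
      left
      have h6 : (y0 : ℤ) ≡ y [ZMOD ((p ^ k : ℕ) : ℤ)] := (Int.modEq_iff_dvd).2 h5
      have h7 := (Int.natCast_modEq_iff).1 h6
      have h8 := Nat.ModEq.eq_of_lt_of_lt h7 hy0.1 hy.1
      exact h8.symm
    · have hco : IsCoprime (((p ^ k : ℕ) : ℤ)) ((y : ℤ) - y0) := by
        push_cast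
        exact IsCoprime.pow_left ((Irreducible.coprime_iff_not_dvd hpi.irreducible).2 hc)
      have h5 : ((p ^ k : ℕ) : ℤ) ∣ (y : ℤ) + y0 := hco.dvd_of_dvd_mul_left hd
      have h6 : p ^ k ∣ y + y0 := by exact_mod_cast h5
      obtain ⟨m, hm⟩ := h6
      have hlt : y + y0 < p ^ k * 2 := by omega
      have hm2 : m < 2 := by
        rw [hm] at hlt
        exact Nat.lt_of_mul_lt_mul_left hlt
      interval_cases m
      · left
        omega
      · right
        omega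
  calc S.card ≤ ({y0, p ^ k - y0} : Finset ℕ).card := card_le_card key
    _ ≤ 2 := card_le_two

/-- The step: `N(k + 2, p² w') ≤ p N(k, w')`. -/
theorem sq_step (p : ℕ) (hp : p.Prime) (w : ℤ) (k : ℕ) :
    ((range (p ^ (k + 2))).filter fun y : ℕ =>
      ((p ^ (k + 2) : ℕ) : ℤ) ∣ (y : ℤ) ^ 2 - (p : ℤ) ^ 2 * w).card ≤
    p * ((range (p ^ k)).filter fun y : ℕ => ((p ^ k : ℕ) : ℤ) ∣ (y : ℤ) ^ 2 - w).card := by
  have hpi : Prime (p : ℤ) := Nat.prime_iff_prime_int.1 hp
  have hpk : 0 < p ^ k := Nat.pow_pos hp.pos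
  have hdiv : ∀ y : ℕ, ((p ^ (k + 2) : ℕ) : ℤ) ∣ (y : ℤ) ^ 2 - (p : ℤ) ^ 2 * w → p ∣ y := by
    intro y hy
    have h1 : (p : ℤ) ∣ (y : ℤ) ^ 2 - (p : ℤ) ^ 2 * w := by
      refine dvd_trans ?_ hy
      push_cast
      exact dvd_pow_self _ (by omega)
    have h2 : (p : ℤ) ∣ (p : ℤ) ^ 2 * w := dvd_mul_of_dvd_left (dvd_pow_self _ two_ne_zero) _
    have h3 : (p : ℤ) ∣ (y : ℤ) ^ 2 := by
      have := dvd_add h1 h2
      simpa using this
    have h4 := hpi.dvd_of_dvd_pow h3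
    exact_mod_cast h4
  have hcard : ((range p) ×ˢ ((range (p ^ k)).filter fun y : ℕ =>
      ((p ^ k : ℕ) : ℤ) ∣ (y : ℤ) ^ 2 - w)).card =
      p * ((range (p ^ k)).filter fun y : ℕ => ((p ^ k : ℕ) : ℤ) ∣ (y : ℤ) ^ 2 - w).card := by
    rw [card_product, card_range]
  rw [← hcard]
  apply card_le_card_of_injOn (fun y => ((y / p) / p ^ k, (y / p) % p ^ k))
  · intro y hy
    rw [mem_coe, mem_filter, mem_range] at hy
    rw [mem_coe, mem_product, mem_range, mem_filter, mem_range]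
    obtain ⟨y', rfl⟩ := hdiv y hy.2
    have h1 : p * y' / p = y' := Nat.mul_div_cancel_left _ hp.pos
    simp only [h1]
    have h2 : y' < p ^ k * p := by
      have h3 : p * y' < p * (p ^ k * p) := by
        calc p * y' < p ^ (k + 2) := hy.1
          _ = p * (p ^ k * p) := by ring
      exact Nat.lt_of_mul_lt_mul_left h3
    refine ⟨Nat.div_lt_of_lt_mul h2, Nat.mod_lt _ hpk, ?_⟩
    have h4 : ((p ^ k : ℕ) : ℤ) ∣ (y' : ℤ) ^ 2 - w := by
      have h5 : ((p ^ (k + 2) : ℕ) : ℤ) = (p : ℤ) ^ 2 * ((p ^ k : ℕ) : ℤ) := by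
        push_cast
        ring
      have h6 : ((p * y' : ℕ) : ℤ) ^ 2 - (p : ℤ) ^ 2 * w = (p : ℤ) ^ 2 * ((y' : ℤ) ^ 2 - w) := by
        push_cast
        ring
      have h7 := hy.2
      rw [h5, h6] at h7
      exact Int.dvd_of_mul_dvd_mul_left (pow_ne_zero 2 hpi.ne_zero) h7
    have h8 : (((y' % p ^ k : ℕ) : ℤ)) ≡ (y' : ℤ) [ZMOD ((p ^ k : ℕ) : ℤ)] := by
      rw [Int.natCast_modEq_iff]
      exact Nat.mod_modEq _ _
    have h9 : ((y' % p ^ k : ℕ) : ℤ) ^ 2 - w ≡ (y' : ℤ) ^ 2 - w [ZMOD ((p ^ k : ℕ) : ℤ)] :=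
      (h8.pow 2).sub_right w
    exact (Int.ModEq.dvd_iff h9).2 h4
  · intro y hy y' hy' h
    rw [mem_coe, mem_filter, mem_range] at hy hy'
    obtain ⟨z, rfl⟩ := hdiv y hy.2
    obtain ⟨z', rfl⟩ := hdiv y' hy'.2
    have h1 : p * z / p = z := Nat.mul_div_cancel_left _ hp.pos
    have h1' : p * z' / p = z' := Nat.mul_div_cancel_left _ hp.pos
    simp only [h1, h1', Prod.mk.injEq] at h
    have h2 : z = z' := by
      rw [← Nat.div_add_mod z (p ^ k), ← Nat.div_add_mod z' (p ^ k), h.1, h.2]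
    rw [h2]

/-- If `p ∣ w` and there is a solution modulo `p^(k+2)` then `p² ∣ w`. -/
theorem sq_two (p : ℕ) (hp : p.Prime) (w : ℤ) (k : ℕ) (hw : (p : ℤ) ∣ w)
    (h : ((range (p ^ (k + 2))).filter fun y : ℕ =>
      ((p ^ (k + 2) : ℕ) : ℤ) ∣ (y : ℤ) ^ 2 - w).Nonempty) : (p : ℤ) ^ 2 ∣ w := by
  have hpi : Prime (p : ℤ) := Nat.prime_iff_prime_int.1 hp
  obtain ⟨y, hy⟩ := h
  rw [mem_filter, mem_range] at hy
  have h1 : (p : ℤ) ^ 2 ∣ (y : ℤ) ^ 2 - w := by
    refine dvd_trans ?_ hy.2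
    push_cast
    exact pow_dvd_pow _ (by omega)
  have h2 : (p : ℤ) ∣ (y : ℤ) ^ 2 := by
    have h3 : (p : ℤ) ∣ (y : ℤ) ^ 2 - w := (dvd_pow_self _ two_ne_zero).trans h1
    have := dvd_add h3 hw
    simpa using this
  have h3 : (p : ℤ) ∣ (y : ℤ) := hpi.dvd_of_dvd_pow h2
  have h4 : (p : ℤ) ^ 2 ∣ (y : ℤ) ^ 2 := pow_dvd_pow_of_dvd h3 2
  have := dvd_sub h4 h1
  simpa using this

theorem sq_all (p : ℕ) (hp : p.Prime) (h2 : p ≠ 2) (w : ℤ) (k : ℕ) :
    ((range (p ^ k)).filter fun y : ℕ => ((p ^ k : ℕ) : ℤ) ∣ (y : ℤ) ^ 2 - w).card ≤ 2 * p ^ (k / 2) := by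
  induction k using Nat.strong_induction_on generalizing w with
  | _ k ih =>
    match k, ih with
    | 0, _ =>
      refine (card_filter_le _ _).trans ?_
      simp
    | 1, _ =>
      by_cases hw : (p : ℤ) ∣ w
      · have h3 : ((range (p ^ 1)).filter fun y : ℕ => ((p ^ 1 : ℕ) : ℤ) ∣ (y : ℤ) ^ 2 - w) ⊆ {0} := by
          intro y hy
          rw [mem_filter, mem_range, pow_one] at hy
          rw [mem_singleton]
          have hpi : Prime (p : ℤ) := Nat.prime_iff_prime_int.1 hp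
          have h4 : (p : ℤ) ∣ (y : ℤ) ^ 2 := by
            have := dvd_add hy.2 hw
            simpa using this
          have h5 : (p : ℤ) ∣ (y : ℤ) := hpi.dvd_of_dvd_pow h4
          have h6 : p ∣ y := by exact_mod_cast h5
          exact Nat.eq_zero_of_dvd_of_lt h6 hy.1
        refine (card_le_card h3).trans ?_
        simp
      · refine (sq_unit p hp h2 w hw 1).trans ?_
        simp
    | (k + 2), ih =>
      have hp1 : 1 ≤ p ^ ((k + 2) / 2) := Nat.one_le_iff_ne_zero.2 (pow_ne_zero _ hp.ne_zero)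
      by_cases hw : (p : ℤ) ∣ w
      · by_cases hne : ((range (p ^ (k + 2))).filter fun y : ℕ =>
          ((p ^ (k + 2) : ℕ) : ℤ) ∣ (y : ℤ) ^ 2 - w).Nonempty
        · obtain ⟨w', rfl⟩ := sq_two p hp w k hw hne
          refine (sq_step p hp w' k).trans ?_
          have h3 := ih k (by omega) w'
          calc _ ≤ p * (2 * p ^ (k / 2)) := Nat.mul_le_mul_left _ h3
            _ = 2 * p ^ ((k + 2) / 2) := by
              rw [Nat.add_div_right k two_pos, pow_succ]
              ring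
        · rw [not_nonempty_iff_eq_empty] at hne
          rw [hne]
          simp
      · refine (sq_unit p hp h2 w hw (k + 2)).trans ?_
        omega

theorem sq_val (p : ℕ) (hp : p.Prime) (h2 : p ≠ 2) (w : ℤ) (v : ℕ)
    (hw : ¬ ((p ^ (v + 1) : ℕ) : ℤ) ∣ w) (k : ℕ) :
    ((range (p ^ k)).filter fun y : ℕ => ((p ^ k : ℕ) : ℤ) ∣ (y : ℤ) ^ 2 - w).card ≤ 2 * p ^ (v / 2) := by
  induction v using Nat.strong_induction_on generalizing w k with
  | _ v ih =>
    have hp1 : 1 ≤ p ^ (v / 2) := Nat.one_le_iff_ne_zero.2 (pow_ne_zero _ hp.ne_zero)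
    by_cases hpw : (p : ℤ) ∣ w
    · rcases Nat.lt_or_ge v k with hk | hk
      · have hv : v ≠ 0 := by
          rintro rfl
          apply hw
          simpa using hpw
        obtain ⟨k', rfl⟩ : ∃ k', k = k' + 2 := ⟨k - 2, by omega⟩
        by_cases hne : ((range (p ^ (k' + 2))).filter fun y : ℕ =>
          ((p ^ (k' + 2) : ℕ) : ℤ) ∣ (y : ℤ) ^ 2 - w).Nonempty
        · obtain ⟨w', rfl⟩ := sq_two p hp w k' hpw hne
          have hv1 : v ≠ 1 := by
            rintro rfl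
            apply hw
            push_cast
            exact dvd_mul_right _ _
          obtain ⟨v', rfl⟩ : ∃ v', v = v' + 2 := ⟨v - 2, by omega⟩
          refine (sq_step p hp w' k').trans ?_
          have hw' : ¬ ((p ^ (v' + 1) : ℕ) : ℤ) ∣ w' := by
            intro h3
            apply hw
            have h4 : ((p ^ (v' + 2 + 1) : ℕ) : ℤ) = (p : ℤ) ^ 2 * ((p ^ (v' + 1) : ℕ) : ℤ) := by
              push_cast
              ring
            rw [h4]
            exact mul_dvd_mul_left _ h3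
          have h3 := ih v' (by omega) w' hw' k'
          calc _ ≤ p * (2 * p ^ (v' / 2)) := Nat.mul_le_mul_left _ h3
            _ = 2 * p ^ ((v' + 2) / 2) := by
              rw [Nat.add_div_right v' two_pos, pow_succ]
              ring
        · rw [not_nonempty_iff_eq_empty] at hne
          rw [hne]
          simp
      · refine (sq_all p hp h2 w k).trans ?_
        apply Nat.mul_le_mul_left
        exact Nat.pow_le_pow_right hp.pos (Nat.div_le_div_right hk)
    · refine (sq_unit p hp h2 w hpw k).trans ?_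
      omega

end Pool.Agent.MK47
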