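import Pool.Agent.MK47.ApSum
import Pool.Agent.MK47.RoughTail

/-!
# Averages of `S1`

Let `ε > 0`; choose `P1` from `rough_tail` with `k = 1`, `ε' = ε/40`. Let `T = exp (ℓ/2)`, `ℓ = ell N ≥ 1`. By `ap_low` (with
`1/2`), `SX ≥ ℓ/(6 Q)`, so `(ℓ + 1)/Q ≤ 12 SX` and `1 ≤ 6 Q SX`. By definition `S1 P0 n = 1 + ∑_{d ∣ n, d ≥ 2, rough} 1/√d` for `n ≥ 1`.
* The `d ≤ T`: exchange the sums; their contribution is at most
  `∑_{2 ≤ d ≤ T, rough} (1/√d) τ(d) (exp (-2ℓ/3) + (ℓ+1)/(d Q))`. As `τ(d) ≤ C √d` (`tau_le`, `k = 1`, `η = 1/2`), the first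
  part is at most `C T exp (-2ℓ/3) = C exp (-ℓ/6) ≤ C exp (-ℓ/6) 6 Q SX ≤ (ε/4) SX` for large `N`. The second part is at most
  `((ℓ+1)/Q) ∑ τ(d)/d^(3/2) ≤ 12 SX ε' ≤ (ε/3) SX` (`rough_tail`).
* The `d > T`: `1/√d ≤ exp (-ℓ/4)`, and the number of divisors of `f x ≤ M exp (2ℓ)` is at most
  `C' (M exp (2ℓ))^(1/16) = C'' exp (ℓ/8)` (`tau_le`, `k = 1`, `η = 1/16`; `M ≥ 0` since `0 < f x`). So for every `x` the contribution
  to `S1` is at most `C'' exp (-ℓ/8) ≤ ε/4` for large `N`.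
(If `M ≤ 0` the hypothesis makes `XX` empty; then both sides are `0`. One may replace `M` by `max M 1`.)
-/

namespace Pool.Agent.MK47

open Finset Filter

theorem S1_nonneg (P0 n : ℕ) : 0 ≤ S1 P0 n := by
  unfold S1
  exact sum_nonneg (fun _ _ => by positivity)

private theorem vg_union {S A B C : Finset ℕ} (g : ℕ → ℝ) (hg : ∀ d, 0 ≤ g d)
    (h : ∀ d ∈ S, d ∈ A ∨ d ∈ B ∨ d ∈ C) :
    ∑ d ∈ S, g d ≤ ∑ d ∈ A, g d + ∑ d ∈ B, g d + ∑ d ∈ C, g d := by
  classical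
  have h1 : S ⊆ (A ∪ B) ∪ C := by
    intro d hd
    rw [mem_union, mem_union]
    rcases h d hd with h2 | h2 | h2
    · exact Or.inl (Or.inl h2)
    · exact Or.inl (Or.inr h2)
    · exact Or.inr h2
  have h2 := sum_le_sum_of_subset_of_nonneg h1 (fun d _ _ => hg d)
  have h3 := sum_union_inter (s₁ := A ∪ B) (s₂ := C) (f := g)
  have h4 := sum_union_inter (s₁ := A) (s₂ := B) (f := g)
  have h5 : 0 ≤ ∑ d ∈ (A ∪ B) ∩ C, g d := sum_nonneg (fun d _ => hg d)
  have h6 : 0 ≤ ∑ d ∈ A ∩ B, g d := sum_nonneg (fun d _ => hg d)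
  linarith

open Classical in
private theorem S1_split (P0 n T : ℕ) (hn : 0 < n) : S1 P0 n ≤
    1 + ∑ d ∈ ((Icc 2 T).filter (fun d => Rough P0 d)).filter (fun d => d ∣ n), 1 / Real.sqrt d +
      ∑ d ∈ n.divisors.filter (fun d => T < d), 1 / Real.sqrt d := by
  unfold S1
  have h1 := vg_union (S := n.divisors.filter (Rough P0)) (A := {1})
    (B := ((Icc 2 T).filter (fun d => Rough P0 d)).filter (fun d => d ∣ n))
    (C := n.divisors.filter (fun d => T < d)) (fun d : ℕ => 1 / Real.sqrt d)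
    (fun d => by positivity) (by
      intro d hd
      rw [mem_filter, Nat.mem_divisors] at hd
      obtain ⟨⟨hd1, hd2⟩, hd3⟩ := hd
      have hd0 : 0 < d := Nat.pos_of_dvd_of_pos hd1 hn
      by_cases h2 : d = 1
      · left
        rw [mem_singleton]
        exact h2
      · by_cases h3 : d ≤ T
        · right; left
          rw [mem_filter, mem_filter, mem_Icc]
          exact ⟨⟨⟨by omega, h3⟩, hd3⟩, hd1⟩
        · right; right
          rw [mem_filter, Nat.mem_divisors]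
          exact ⟨⟨hd1, hd2⟩, by omega⟩)
  rw [sum_singleton] at h1
  simp only [Nat.cast_one, Real.sqrt_one, div_one] at h1
  convert h1 using 2

private theorem vg_small (K c δ : ℝ) (hc : 0 < c) (hδ : 0 < δ) :
    ∀ᶠ N : ℕ in atTop, K * Real.exp (-(c * ell N)) ≤ δ := by
  have h1 : Tendsto (fun N : ℕ => c * ell N) atTop atTop := ell_tendsto.const_mul_atTop hc
  have h2 : Tendsto (fun N : ℕ => Real.exp (-(c * ell N))) atTop (nhds 0) :=
    Real.tendsto_exp_neg_atTop_nhds_zero.comp h1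
  have h3 := h2.const_mul K
  rw [mul_zero] at h3
  exact (h3.eventually (gt_mem_nhds hδ)).mono (fun N h => h.le)

private theorem vg_large (P0 n T : ℕ) (C2 M' l : ℝ) (hC2 : 0 ≤ C2)
    (hT : ∀ d : ℕ, T < d → Real.exp (l / 2) < d) (hn : 0 < n)
    (hn2 : (n : ℝ) ≤ M' * Real.exp (2 * l)) (hM' : 0 ≤ M')
    (htau : (n.divisors.card : ℝ) ^ 1 ≤ C2 * (n : ℝ) ^ ((1 : ℝ) / 16)) :
    ∑ d ∈ n.divisors.filter (fun d => T < d), 1 / Real.sqrt d ≤
      C2 * M' ^ ((1 : ℝ) / 16) * Real.exp (-(1 / 8 * l)) := by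
  have h1 : ∀ d ∈ n.divisors.filter (fun d => T < d), 1 / Real.sqrt d ≤ Real.exp (-(1 / 4 * l)) := by
    intro d hd
    rw [mem_filter] at hd
    have h2 := hT d hd.2
    have h3 : Real.exp (1 / 4 * l) ≤ Real.sqrt d := by
      apply Real.le_sqrt_of_sq_le
      rw [← Real.exp_nat_mul]
      refine le_trans (le_of_eq ?_) h2.le
      congr 1
      push_cast
      ring
    rw [Real.exp_neg, ← one_div]
    exact one_div_le_one_div_of_le (Real.exp_pos _) h3
  have h2 := sum_le_sum h1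
  rw [sum_const, nsmul_eq_mul] at h2
  have h3 : ((n.divisors.filter (fun d => T < d)).card : ℝ) ≤ n.divisors.card := by
    exact_mod_cast card_filter_le _ _
  have h4 : (n : ℝ) ^ ((1 : ℝ) / 16) ≤ M' ^ ((1 : ℝ) / 16) * Real.exp (1 / 8 * l) := by
    have h5 : (n : ℝ) ^ ((1 : ℝ) / 16) ≤ (M' * Real.exp (2 * l)) ^ ((1 : ℝ) / 16) :=
      Real.rpow_le_rpow (by positivity) hn2 (by norm_num)
    rw [Real.mul_rpow hM' (Real.exp_pos _).le, ← Real.exp_mul] at h5
    have h6 : 2 * l * ((1 : ℝ) / 16) = 1 / 8 * l := by ring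
    rwa [h6] at h5
  rw [pow_one] at htau
  have h7 : Real.exp (1 / 8 * l) * Real.exp (-(1 / 4 * l)) = Real.exp (-(1 / 8 * l)) := by
    rw [← Real.exp_add]
    congr 1
    ring
  have h8 : 0 < Real.exp (-(1 / 4 * l)) := Real.exp_pos _
  calc ∑ d ∈ n.divisors.filter (fun d => T < d), 1 / Real.sqrt d
      ≤ ((n.divisors.filter (fun d => T < d)).card : ℝ) * Real.exp (-(1 / 4 * l)) := h2
    _ ≤ (n.divisors.card : ℝ) * Real.exp (-(1 / 4 * l)) := mul_le_mul_of_nonneg_right h3 h8.le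
    _ ≤ (C2 * (n : ℝ) ^ ((1 : ℝ) / 16)) * Real.exp (-(1 / 4 * l)) :=
        mul_le_mul_of_nonneg_right htau h8.le
    _ ≤ (C2 * (M' ^ ((1 : ℝ) / 16) * Real.exp (1 / 8 * l))) * Real.exp (-(1 / 4 * l)) :=
        mul_le_mul_of_nonneg_right (mul_le_mul_of_nonneg_left h4 hC2) h8.le
    _ = C2 * M' ^ ((1 : ℝ) / 16) * Real.exp (-(1 / 8 * l)) := by
        rw [← h7]
        ring

theorem v_gen (ε : ℝ) (hε : 0 < ε) : ∃ P1 : ℕ, ∀ P0 : ℕ, P1 ≤ P0 → ∀ c : Cls, c.Full P0 →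
    ∀ M : ℝ, ∀ᶠ N : ℕ in atTop, ∀ f : ℕ → ℕ,
    (∀ x ∈ XX c N, 0 < f x ∧ (f x : ℝ) ≤ M * Real.exp (2 * ell N)) →
    (∀ d : ℕ, 2 ≤ d → Rough P0 d →
      ∑ x ∈ (XX c N).filter (fun x : ℕ => d ∣ f x), 1 / (x : ℝ) ≤
        d.divisors.card * (Real.exp (-(2 / 3) * ell N) + (ell N + 1) / ((d : ℝ) * c.Q))) →
    ∑ x ∈ XX c N, S1 P0 (f x) / x ≤ (1 + ε) * SX c N := by
  classical
  obtain ⟨P1, hP1⟩ := rough_tail 1 (ε / 40) (by positivity)
  obtain ⟨C1, hC1, htau1⟩ := tau_le 1 (1 / 2) (by norm_num)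
  obtain ⟨C2, hC2, htau2⟩ := tau_le 1 (1 / 16) (by norm_num)
  refine ⟨P1, ?_⟩
  intro P0 hP0 c hc M
  have hQ : 0 < c.Q := by
    unfold Cls.Q
    have h1 := c.g_pos
    have h2 := c.h_pos
    positivity
  have hQr : (0 : ℝ) < (c.Q : ℝ) := by exact_mod_cast hQ
  set M' := max M 1 with hM'
  have hM'0 : 0 ≤ M' := le_trans (by norm_num) (le_max_right M 1)
  have e1 := ell_tendsto.eventually_ge_atTop 1
  have e2 := ap_low c (1 / 2) (by norm_num)
  have e3 := vg_small (C2 * M' ^ ((1 : ℝ) / 16)) (1 / 8) (ε / 4) (by norm_num) (by positivity)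
  have e4 := vg_small (C1 * (6 * c.Q)) (1 / 6) (ε / 4) (by norm_num) (by positivity)
  filter_upwards [e1, e2, e3, e4] with N h1 h2 h3 h4
  intro f hf1 hf2
  set l := ell N with hl
  set T := ⌊Real.exp (l / 2)⌋₊ with hT
  set A := (Icc 2 T).filter (fun d => Rough P0 d) with hA
  have hSX : l / (6 * c.Q) ≤ SX c N := by
    refine le_trans (le_of_eq ?_) h2
    field_simp
    norm_num
  have hSX0 : 0 ≤ SX c N := le_trans (by positivity) hSX
  have hl6 : l ≤ 6 * c.Q * SX c N := by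
    rw [div_le_iff₀ (by positivity)] at hSX
    linarith
  -- pointwise bound
  have hpt : ∀ x ∈ XX c N, S1 P0 (f x) / x ≤ (1 + ε / 4) * (1 / (x : ℝ)) +
      ∑ d ∈ A, (if d ∣ f x then 1 / Real.sqrt d * (1 / (x : ℝ)) else 0) := by
    intro x hx
    obtain ⟨hfx1, hfx2⟩ := hf1 x hx
    have h5 := S1_split P0 (f x) T hfx1
    rw [← hA, sum_filter] at h5
    have h6 : (f x : ℝ) ≤ M' * Real.exp (2 * l) := by
      refine hfx2.trans ?_
      exact mul_le_mul_of_nonneg_right (le_max_left _ _) (Real.exp_pos _).le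
    have h7 := vg_large P0 (f x) T C2 M' l (by linarith)
      (fun d hd => Nat.lt_of_floor_lt hd) hfx1 h6 hM'0 (htau2 (f x) hfx1)
    have h8 : S1 P0 (f x) ≤ (1 + ε / 4) + ∑ d ∈ A, (if d ∣ f x then 1 / Real.sqrt d else 0) := by
      linarith
    have h9 : (0 : ℝ) ≤ 1 / (x : ℝ) := by positivity
    have h10 := mul_le_mul_of_nonneg_right h8 h9
    rw [div_eq_mul_one_div]
    refine h10.trans (le_of_eq ?_)
    rw [add_mul, sum_mul]
    congr 1
    apply sum_congr rfl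
    intro d _
    rw [ite_mul, zero_mul]
  have h5 := sum_le_sum hpt
  rw [sum_add_distrib, ← mul_sum, sum_comm] at h5
  have h6 : ∑ d ∈ A, ∑ x ∈ XX c N, (if d ∣ f x then 1 / Real.sqrt d * (1 / (x : ℝ)) else 0) ≤
      ∑ d ∈ A, (C1 * Real.exp (-(2 / 3) * l) +
        (l + 1) / c.Q * ((d.divisors.card : ℝ) ^ 1 / (d : ℝ) ^ ((3 : ℝ) / 2))) := by
    apply sum_le_sum
    intro d hd
    rw [hA, mem_filter, mem_Icc] at hd
    obtain ⟨⟨hd1, hd2⟩, hd3⟩ := hd
    have hd0 : (0 : ℝ) < d := by exact_mod_cast (by omega : 0 < d)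
    have h7 := hf2 d hd1 hd3
    rw [← sum_filter, ← mul_sum]
    have h8 : (0 : ℝ) < Real.sqrt d := Real.sqrt_pos.mpr hd0
    have h9 := mul_le_mul_of_nonneg_left h7 (by positivity : (0 : ℝ) ≤ 1 / Real.sqrt d)
    refine h9.trans ?_
    have h10 : (d.divisors.card : ℝ) ≤ C1 * Real.sqrt d := by
      have := htau1 d (by omega)
      rwa [pow_one, ← Real.sqrt_eq_rpow] at this
    have h11 : (d : ℝ) ^ ((3 : ℝ) / 2) = d * Real.sqrt d := by
      rw [Real.sqrt_eq_rpow]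
      have : ((3 : ℝ) / 2) = 1 + 1 / 2 := by norm_num
      rw [this, Real.rpow_add hd0, Real.rpow_one]
    rw [h11, pow_one, mul_add, mul_add]
    apply add_le_add
    · have h12 : 1 / Real.sqrt d * (d.divisors.card * Real.exp (-(2 / 3) * l)) =
          (d.divisors.card / Real.sqrt d) * Real.exp (-(2 / 3) * l) := by ring
      rw [h12]
      apply mul_le_mul_of_nonneg_right _ (Real.exp_pos _).le
      rw [div_le_iff₀ h8]
      exact h10
    · apply le_of_eq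
      field_simp
  rw [sum_add_distrib, sum_const, nsmul_eq_mul, ← mul_sum] at h6
  have h7 := hP1 P0 hP0 T
  rw [← hA] at h7
  have h8 : (A.card : ℝ) ≤ Real.exp (l / 2) := by
    have h9 : A.card ≤ T := by
      refine (card_filter_le _ _).trans ?_
      rw [Nat.card_Icc]
      omega
    have h10 : (T : ℝ) ≤ Real.exp (l / 2) := Nat.floor_le (Real.exp_pos _).le
    exact le_trans (by exact_mod_cast h9) h10
  have h9 : (A.card : ℝ) * (C1 * Real.exp (-(2 / 3) * l)) ≤ C1 * Real.exp (-(1 / 6 * l)) := by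
    have h10 : Real.exp (l / 2) * Real.exp (-(2 / 3) * l) = Real.exp (-(1 / 6 * l)) := by
      rw [← Real.exp_add]
      congr 1
      ring
    calc (A.card : ℝ) * (C1 * Real.exp (-(2 / 3) * l))
        ≤ Real.exp (l / 2) * (C1 * Real.exp (-(2 / 3) * l)) :=
          mul_le_mul_of_nonneg_right h8 (by positivity)
      _ = C1 * (Real.exp (l / 2) * Real.exp (-(2 / 3) * l)) := by ring
      _ = _ := by rw [h10]
  have h10 : C1 * Real.exp (-(1 / 6 * l)) ≤ ε / 4 * SX c N := by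
    have h11 : C1 * Real.exp (-(1 / 6 * l)) * 1 ≤
        C1 * Real.exp (-(1 / 6 * l)) * (6 * c.Q * SX c N) :=
      mul_le_mul_of_nonneg_left (h1.trans hl6) (by positivity)
    have h12 := mul_le_mul_of_nonneg_right h4 hSX0
    nlinarith
  have h11 : (l + 1) / c.Q ≤ 12 * SX c N := by
    rw [div_le_iff₀ hQr]
    nlinarith
  have h12 : (l + 1) / c.Q * ∑ d ∈ A, (d.divisors.card : ℝ) ^ 1 / (d : ℝ) ^ ((3 : ℝ) / 2) ≤
      12 * SX c N * (ε / 40) := by
    apply mul_le_mul h11 h7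
    · exact sum_nonneg (fun d _ => by positivity)
    · positivity
  have h13 : ∑ x ∈ XX c N, 1 / (x : ℝ) = SX c N := rfl
  rw [h13] at h5
  nlinarith

end Pool.Agent.MK47
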